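import Pool.Agent.TH977.LL.Low3
import Pool.Agent.TH977.LL.ErrN

/-! The counts up to `x`. -/

set_option autoImplicit false

namespace Pool.Agent.TH977.LL

open Pool.Agent.H320R2.PD Pool.Agent.H499R2.ND Pool.Agent.TH977.IP Finset

theorem cls_split (S : Set ℤ) {a c b : ℝ} (h1 : a ≤ c) (h2 : c ≤ b) (m : ℕ) (u v : ℤ) :
    (cls S a b m u v).card = (cls S a c m u v).card + (cls S c b m u v).card := by
  classical
  rw [← card_union_of_disjoint]
  · congr 1
    ext x
    rw [mem_union, mem_cls, mem_cls, mem_cls]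
    constructor
    · rintro ⟨⟨g1, g2⟩, g3⟩
      rcases lt_or_ge (x : ℝ) c with h | h
      · exact Or.inl ⟨⟨g1, h⟩, g3⟩
      · exact Or.inr ⟨⟨h, g2⟩, g3⟩
    · rintro (⟨⟨g1, g2⟩, g3⟩ | ⟨⟨g1, g2⟩, g3⟩)
      · exact ⟨⟨g1, by linarith⟩, g3⟩
      · exact ⟨⟨by linarith, g2⟩, g3⟩
  · rw [Finset.disjoint_left]
    intro x hx hx'
    rw [mem_cls] at hx hx'
    linarith [hx.1.2, hx'.1.1]

theorem tele (S : Set ℤ) {x : ℝ} (hx : 0 < x) (i : ℕ) (b : ℤ) : ∀ L : ℕ, 1 ≤ x / 2 ^ L →
    ((cls S 1 x i 1 b).card : ℝ) = (cls S 1 (x / 2 ^ L) i 1 b).card +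
      ∑ l ∈ range L, ((cls S (x / 2 ^ (l + 1)) (2 * (x / 2 ^ (l + 1))) i 1 b).card : ℝ) := by
  intro L
  induction L with
  | zero => intro _; simp
  | succ L ih =>
    intro h
    have e : x / 2 ^ L = 2 * (x / 2 ^ (L + 1)) := by
      rw [pow_succ]; field_simp
    have h0 : 0 < x / 2 ^ (L + 1) := by positivity
    rw [ih (by rw [e]; linarith), sum_range_succ, e, cls_split S h (by linarith) i 1 b]
    push_cast
    ring

/-- the number of windows -/
theorem windows {x : ℝ} (hx : 0 < x) (hlog : 2500 ≤ Real.log x) : ∃ L : ℕ,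
    Real.sqrt x ≤ x / 2 ^ L ∧ x / 2 ^ L ≤ 2 * Real.sqrt x ∧ 1 ≤ Real.sqrt x ∧
    ∀ l ∈ range L, Real.log x / 2 ≤ Real.log (x / 2 ^ (l + 1)) := by
  have hx1 : 1 ≤ x := by
    rw [← Real.log_nonneg_iff hx]; linarith
  have hs : 1 ≤ Real.sqrt x := by
    rw [Real.one_le_sqrt]; exact hx1
  have hs0 : 0 < Real.sqrt x := by linarith
  have hss : Real.sqrt x * Real.sqrt x = x := Real.mul_self_sqrt hx.le
  obtain ⟨h1, h2⟩ := ef_spec hs
  refine ⟨ef (Real.sqrt x), ?_, ?_, hs, ?_⟩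
  · rw [le_div_iff₀ (by positivity)]
    calc Real.sqrt x * 2 ^ ef (Real.sqrt x) ≤ Real.sqrt x * Real.sqrt x :=
          mul_le_mul_of_nonneg_left h1 hs0.le
      _ = x := hss
  · rw [div_le_iff₀ (by positivity)]
    rw [pow_succ] at h2
    nlinarith
  · intro l hl
    rw [mem_range] at hl
    have h3 : Real.sqrt x ≤ x / 2 ^ (l + 1) := by
      rw [le_div_iff₀ (by positivity)]
      have h4 : (2 : ℝ) ^ (l + 1) ≤ 2 ^ ef (Real.sqrt x) := pow_le_pow_right₀ (by norm_num) (by omega)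
      calc Real.sqrt x * 2 ^ (l + 1) ≤ Real.sqrt x * Real.sqrt x :=
            mul_le_mul_of_nonneg_left (h4.trans h1) hs0.le
        _ = x := hss
    have h4 := Real.log_le_log hs0 h3
    rw [Real.log_sqrt hx.le] at h4
    exact h4

theorem geo (x : ℝ) (hx : 0 ≤ x) (L : ℕ) : ∑ l ∈ range L, x / 2 ^ (l + 1) ≤ x := by
  have h : ∑ l ∈ range L, x / 2 ^ (l + 1) = x - x / 2 ^ L := by
    induction L with
    | zero => simp
    | succ L ih =>
      rw [sum_range_succ, ih, pow_succ]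
      field_simp
      ring
  rw [h]
  have : 0 ≤ x / 2 ^ L := by positivity
  linarith

theorem triv_card (S : Set ℤ) {x : ℝ} (hx : 2 ≤ x) (i : ℕ) (b : ℤ) :
    ((cls S 1 x i 1 b).card : ℝ) ≤ x := by
  have h := cls_card_le S (show (1 : ℝ) ≤ x by linarith) i isCoprime_one_left b
  have h1 : (1 : ℝ) ≤ 3 ^ i := one_le_pow₀ (by norm_num)
  have h2 : (x - 1) / (2 * 3 ^ i) ≤ (x - 1) / 2 :=
    div_le_div_of_nonneg_left (by linarith) (by norm_num) (by linarith)
  linarith

/-- UPPER BOUND, all values -/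
theorem cnt_upp {al be : ℕ} (h : 1 ≤ al + be) : ∃ C : ℝ, 0 < C ∧ ∀ x : ℝ, 2 ≤ x → ∀ j : ℤ,
    ((cls (HS al be j) 1 x 0 1 0).card : ℝ) ≤ C * x / Real.sqrt (Real.log x) := by
  obtain ⟨C, hC, hu⟩ := upp h
  refine ⟨C + 52, by positivity, ?_⟩
  intro x hx j
  have hx0 : 0 < x := by linarith
  have hl0 : 0 < Real.log x := Real.log_pos (by linarith)
  set r := Real.sqrt (Real.log x) with hr
  have hr0 : 0 < r := Real.sqrt_pos.2 hl0
  have hrr : r ^ 2 = Real.log x := Real.sq_sqrt hl0.le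
  rw [le_div_iff₀ hr0]
  rcases lt_or_ge (Real.log x) 2500 with hs | hs
  · have h1 := triv_card (HS al be j) hx 0 0
    have h2 : r ≤ 50 := by
      rw [hr, Real.sqrt_le_left (by norm_num)]
      linarith
    have h3 : ((cls (HS al be j) 1 x 0 1 0).card : ℝ) * r ≤ x * 50 :=
      mul_le_mul h1 h2 hr0.le hx0.le
    have : 0 ≤ C * x := by positivity
    linarith
  · obtain ⟨L, w1, w2, w3, w4⟩ := windows hx0 hs
    rw [tele (HS al be j) hx0 0 0 L (w3.trans w1)]
    have hsq0 : 0 < Real.sqrt x := by linarith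
    have h1 := cls_card_le (HS al be j) (w3.trans w1) 0 isCoprime_one_left 0
    rw [pow_zero, mul_one] at h1
    have h2 : ∀ l ∈ range L, ((cls (HS al be j) (x / 2 ^ (l + 1)) (2 * (x / 2 ^ (l + 1))) 0 1 0).card : ℝ) ≤
        C / r * (x / 2 ^ (l + 1)) := by
      intro l hl
      have hA : 0 < x / 2 ^ (l + 1) := by positivity
      have g1 := hu (x / 2 ^ (l + 1)) hA (by linarith [w4 l hl]) j
      unfold den at g1
      rw [div_le_iff₀ (by positivity)] at g1
      refine g1.trans ?_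
      have g2 : C / Real.sqrt (Real.log (x / 2 ^ (l + 1))) ≤ 2 * (C / r) := by
        have : 2 * (C / r) = C / (r / 2) := by field_simp
        rw [this]
        apply div_le_div_of_nonneg_left hC.le (by positivity)
        apply Real.le_sqrt_of_sq_le
        rw [div_pow, hrr]
        linarith [w4 l hl]
      have g3 := mul_le_mul_of_nonneg_right g2 (show 0 ≤ x / 2 ^ (l + 1) / 2 by positivity)
      linarith
    have h3 := sum_le_sum h2
    rw [← mul_sum] at h3
    have h4 : C / r * ∑ l ∈ range L, x / 2 ^ (l + 1) ≤ C / r * x :=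
      mul_le_mul_of_nonneg_left (geo x hx0.le L) (by positivity)
    have h5 : C / r * x * r = C * x := by field_simp
    have h6 : ((cls (HS al be j) 1 (x / 2 ^ L) 0 1 0).card : ℝ) ≤ 2 * Real.sqrt x := by linarith
    have h7 : r ≤ Real.sqrt x := Real.sqrt_le_sqrt (by linarith [Real.log_le_sub_one_of_pos hx0])
    have h8 : 2 * Real.sqrt x * r ≤ 2 * x := by
      have h9 : Real.sqrt x * Real.sqrt x = x := Real.mul_self_sqrt hx0.le
      nlinarith
    have h10 := mul_le_mul_of_nonneg_right (add_le_add h6 (h3.trans h4)) hr0.le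
    have h11 : (2 * Real.sqrt x + C / r * x) * r = 2 * Real.sqrt x * r + C * x := by
      rw [add_mul, h5]
    rw [h11] at h10
    refine h10.trans ?_
    linarith

/-- LOWER BOUND, central values -/
theorem cnt_low {al be : ℕ} (hc : Cas al be) {c0 B2 : ℝ} {E0 : ℕ} (hc0 : 0 < c0) (hB2 : 0 ≤ B2)
    (hty : ∀ e : ℕ, E0 ≤ e → c0 * 2 ^ e ≤ ((cls (Ty al be B2) (2 ^ e) (2 * 2 ^ e) 0 1 0).card : ℝ))
    {B : ℝ} (hB : 0 < B) : ∃ c x0 : ℝ, 0 < c ∧ 2 ≤ x0 ∧ ∀ x : ℝ, x0 ≤ x → ∀ j : ℤ,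
      |(j : ℝ) - lam al be * Real.log x| ≤ B * Real.sqrt (Real.log x) →
      c * x / Real.sqrt (Real.log x) ≤ ((cls (HS al be j) (x / 16) x 0 1 0).card : ℝ) := by
  have hl2 := Real.log_two_gt_d9
  have hl2' := Real.log_two_lt_d9
  obtain ⟨hh1, hh2⟩ := hh_bd
  have hlam : 0 ≤ lam al be := by
    unfold lam
    positivity
  obtain ⟨c, hc', L0, hlow⟩ := low hc hc0 hB2 hty (B := 2 * B + lam al be) (by positivity)
  refine ⟨c / 128, Real.exp (|L0| + 4), by positivity, ?_, ?_⟩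
  · have := Real.add_one_le_exp (|L0| + 4)
    have := abs_nonneg L0
    linarith
  intro x hx j hj
  have hx0 : 0 < x := lt_of_lt_of_le (Real.exp_pos _) hx
  have hlx : |L0| + 4 ≤ Real.log x := (Real.le_log_iff_exp_le hx0).2 hx
  have hL0 := le_abs_self L0
  have hL0' := abs_nonneg L0
  have hA : 0 < x / 2 := by positivity
  have hlA : Real.log (x / 2) = Real.log x - Real.log 2 := Real.log_div hx0.ne' (by norm_num)
  set r := Real.sqrt (Real.log x) with hr
  have hr0 : 0 < r := Real.sqrt_pos.2 (by linarith)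
  have hrr : r ^ 2 = Real.log x := Real.sq_sqrt (by linarith)
  set s := Real.sqrt (Real.log (x / 2)) with hs
  have hs0 : 0 < s := Real.sqrt_pos.2 (by rw [hlA]; linarith)
  have hss : s ^ 2 = Real.log (x / 2) := Real.sq_sqrt (by rw [hlA]; linarith)
  have hs1 : 1 ≤ s := Real.le_sqrt_of_sq_le (by rw [hlA]; linarith)
  have hrs : r ≤ 2 * s := by
    rw [hr, Real.sqrt_le_left (by positivity), mul_pow, hss, hlA]
    linarith
  have hsr : s ≤ r := Real.sqrt_le_sqrt (by rw [hlA]; linarith)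
  have h1 := hlow (x / 2) hA (by rw [hlA]; linarith) j (by
    rw [← hs, hlA]
    have e : (j : ℝ) - lam al be * (Real.log x - Real.log 2) =
        ((j : ℝ) - lam al be * Real.log x) + lam al be * Real.log 2 := by ring
    rw [e]
    refine (abs_add_le _ _).trans ?_
    have h2 : |lam al be * Real.log 2| ≤ lam al be * s := by
      rw [abs_of_nonneg (by positivity)]
      apply mul_le_mul_of_nonneg_left _ hlam
      linarith
    have h3 : B * r ≤ B * (2 * s) := mul_le_mul_of_nonneg_left hrs hB.le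
    linarith)
  rw [← hs] at h1
  set M : ℝ := ((cls (HS al be j) (x / 16) x 0 1 0).card : ℝ) with hM
  have h2 : ∀ i ∈ range 4, den (HS al be j) (x / 2 / 2 ^ i) ≤ 32 / x * M := by
    intro i hi
    rw [mem_range] at hi
    have hsub : cls (HS al be j) (x / 2 / 2 ^ i) (2 * (x / 2 / 2 ^ i)) 0 1 0 ⊆
        cls (HS al be j) (x / 16) x 0 1 0 := by
      intro y hy
      rw [mem_cls] at hy ⊢
      refine ⟨⟨le_trans ?_ hy.1.1, lt_of_lt_of_le hy.1.2 ?_⟩, hy.2⟩
      · rw [div_div]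
        apply div_le_div_of_nonneg_left hx0.le (by positivity)
        have : (2 : ℝ) ^ i ≤ 2 ^ 3 := pow_le_pow_right₀ (by norm_num) (by omega)
        linarith
      · have e : 2 * (x / 2 / 2 ^ i) = x / 2 ^ i := by field_simp
        rw [e]
        exact div_le_self hx0.le (one_le_pow₀ (by norm_num))
    have h3 : ((cls (HS al be j) (x / 2 / 2 ^ i) (2 * (x / 2 / 2 ^ i)) 0 1 0).card : ℝ) ≤ M := by
      rw [hM]
      exact Nat.cast_le.2 (card_le_card hsub)
    have hM0 : 0 ≤ M := Nat.cast_nonneg _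
    unfold den
    rw [div_le_iff₀ (by positivity)]
    refine h3.trans ?_
    have h4 : 1 ≤ 32 / x * (x / 2 / 2 ^ i / 2) := by
      have e : 32 / x * (x / 2 / 2 ^ i / 2) = 8 / 2 ^ i := by
        field_simp
        norm_num
      rw [e, le_div_iff₀ (by positivity), one_mul]
      have : (2 : ℝ) ^ i ≤ 2 ^ 3 := pow_le_pow_right₀ (by norm_num) (by omega)
      linarith
    nlinarith
  have h3 := sum_le_sum h2
  rw [sum_const, card_range, nsmul_eq_mul] at h3
  have h4 := h1.trans h3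
  have h5 : c / r ≤ c / s := div_le_div_of_nonneg_left hc'.le hs0 hsr
  have h6 : c / r ≤ 128 / x * M := by
    refine h5.trans (h4.trans (le_of_eq ?_))
    push_cast
    ring
  have h7 := mul_le_mul_of_nonneg_right h6 (show 0 ≤ x / 128 by positivity)
  have e1 : c / 128 * x / r = c / r * (x / 128) := by ring
  have e2 : 128 / x * M * (x / 128) = M := by field_simp
  rw [e1]
  rw [e2] at h7
  exact h7

/-- EQUIDISTRIBUTION in the classes modulo powers of `3` -/
theorem cnt_equi (al be N : ℕ) : ∃ C : ℝ, 0 < C ∧ ∀ x : ℝ, 2 ≤ x → ∀ i : ℕ,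
    (i : ℝ) ^ 2 ≤ Real.log x / 2 → ∀ j b b' : ℤ,
    ((cls (HS al be j) 1 x i 1 b).card : ℝ) ≤ (cls (HS al be j) 1 x i 1 b').card +
      C * x / (3 ^ i * Real.log x ^ N) := by
  obtain ⟨C1, hC1, herr⟩ := err_rateN N
  refine ⟨2 * 2 ^ N * C1 + 4 * (N.factorial * 2 ^ N) + 3 ^ 36 * 2500 ^ N, by positivity, ?_⟩
  intro x hx i hi j b b'
  have hx0 : 0 < x := by linarith
  have hl0 : 0 < Real.log x := Real.log_pos (by linarith)
  set t := Real.log x with ht
  have h3i : (1 : ℝ) ≤ 3 ^ i := one_le_pow₀ (by norm_num)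
  have hb'0 : (0 : ℝ) ≤ (cls (HS al be j) 1 x i 1 b').card := Nat.cast_nonneg _
  have hden : 0 < 3 ^ i * t ^ N := by positivity
  rcases lt_or_ge t 2500 with hs | hs
  · have h1 := triv_card (HS al be j) hx i b
    have h2 : x ≤ (2 * 2 ^ N * C1 + 4 * (N.factorial * 2 ^ N) + 3 ^ 36 * 2500 ^ N) * x / (3 ^ i * t ^ N) := by
      rw [le_div_iff₀ hden, mul_comm]
      apply mul_le_mul_of_nonneg_right _ hx0.le
      have h3 : i ≤ 36 := by
        have h4 : (i : ℝ) ^ 2 < 37 ^ 2 := by linarith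
        have h5 : (i : ℝ) < 37 := lt_of_pow_lt_pow_left₀ 2 (by norm_num) h4
        have h6 : i < 37 := by exact_mod_cast h5
        omega
      have h4 : (3 : ℝ) ^ i ≤ 3 ^ 36 := pow_le_pow_right₀ (by norm_num) h3
      have h5 : t ^ N ≤ 2500 ^ N := pow_le_pow_left₀ hl0.le hs.le N
      have h6 : (3 : ℝ) ^ i * t ^ N ≤ 3 ^ 36 * 2500 ^ N := mul_le_mul h4 h5 (by positivity) (by positivity)
      have : 0 ≤ 2 * 2 ^ N * C1 + 4 * (N.factorial * 2 ^ N) := by positivity
      linarith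
    linarith
  · obtain ⟨L, w1, w2, w3, w4⟩ := windows hx0 hs
    rw [tele (HS al be j) hx0 i b L (w3.trans w1), tele (HS al be j) hx0 i b' L (w3.trans w1)]
    have hsq0 : 0 < Real.sqrt x := by linarith
    have h1 := cls_card_le (HS al be j) (w3.trans w1) i isCoprime_one_left b
    have h2 : ∀ l ∈ range L, ((cls (HS al be j) (x / 2 ^ (l + 1)) (2 * (x / 2 ^ (l + 1))) i 1 b).card : ℝ) ≤
        (cls (HS al be j) (x / 2 ^ (l + 1)) (2 * (x / 2 ^ (l + 1))) i 1 b').card +
          2 * 2 ^ N * C1 / (3 ^ i * t ^ N) * (x / 2 ^ (l + 1)) := by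
      intro l hl
      have hA : 0 < x / 2 ^ (l + 1) := by positivity
      have hw := w4 l hl
      set A := x / 2 ^ (l + 1) with hAdef
      obtain ⟨k, hk⟩ : ∃ k : ℕ, k = ⌊Real.log A / 2⌋₊ := ⟨_, rfl⟩
      have hk1 : (k : ℝ) ≤ Real.log A / 2 := by rw [hk]; exact Nat.floor_le (by linarith)
      have hk2 : Real.log A / 6 ≤ k := by
        have : Real.log A / 2 < k + 1 := by rw [hk]; exact Nat.lt_floor_add_one _
        linarith
      obtain ⟨m', hm'⟩ : ∃ m' : ℕ, m' = ⌊Real.sqrt (0.8 * Real.log A)⌋₊ := ⟨_, rfl⟩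
      obtain ⟨g1, g2, g3⟩ := herr A hA (by linarith) k i m' (by linarith) hk2 hk1 hm'
      have g4 := equiF hA (HS_Pth al be j hA (by linarith) hk1) g1 g2 (m := i) b b'
      refine g4.trans (add_le_add_right ?_ _)
      have g5 : C1 / Real.log A ^ N ≤ 2 ^ N * C1 / t ^ N := by
        have : 2 ^ N * C1 / t ^ N = C1 / (t / 2) ^ N := by
          rw [div_pow]; field_simp
        rw [this]
        apply div_le_div_of_nonneg_left hC1.le (by positivity)
        exact pow_le_pow_left₀ (by linarith) hw N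
      have g6 : 0 ≤ A / (2 * 3 ^ i) := by positivity
      have g7 : 3 * Err 1 A k i m' * (A / (2 * 3 ^ i)) ≤ 3 * (2 ^ N * C1 / t ^ N) * (A / (2 * 3 ^ i)) := by
        apply mul_le_mul_of_nonneg_right _ g6
        linarith
      have g8 : 3 * (2 ^ N * C1 / t ^ N) * (A / (2 * 3 ^ i)) =
          3 / 2 * (2 ^ N * C1 / (3 ^ i * t ^ N) * A) := by
        field_simp
      have g9 : 2 * 2 ^ N * C1 / (3 ^ i * t ^ N) * A = 2 * (2 ^ N * C1 / (3 ^ i * t ^ N) * A) := by ring
      have g10 : 0 ≤ 2 ^ N * C1 / (3 ^ i * t ^ N) * A := by positivity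
      rw [g9]
      linarith
    have h3 := sum_le_sum h2
    rw [sum_add_distrib, ← mul_sum] at h3
    have h4 : 2 * 2 ^ N * C1 / (3 ^ i * t ^ N) * ∑ l ∈ range L, x / 2 ^ (l + 1) ≤
        2 * 2 ^ N * C1 / (3 ^ i * t ^ N) * x :=
      mul_le_mul_of_nonneg_left (geo x hx0.le L) (by positivity)
    -- the small numbers
    have h5 : ((cls (HS al be j) 1 (x / 2 ^ L) i 1 b).card : ℝ) ≤ Real.sqrt x / 3 ^ i + 1 := by
      refine h1.trans ?_
      have : (x / 2 ^ L - 1) / (2 * 3 ^ i) ≤ Real.sqrt x / 3 ^ i := by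
        rw [div_le_div_iff₀ (by positivity) (by positivity)]
        nlinarith
      linarith
    have h6 : (3 : ℝ) ^ i ≤ Real.sqrt x := by
      rw [← Real.log_le_log_iff (by positivity) hsq0, Real.log_pow, Real.log_sqrt hx0.le, ← ht]
      have h7 : Real.log 3 ≤ 1.2 := by
        have := Real.log_two_lt_d9
        have h8 := hh_bd.1
        unfold hh at h8
        linarith
      have h8 : (0 : ℝ) ≤ i := Nat.cast_nonneg _
      have h9 : (i : ℝ) ≤ t / 4 := by
        by_contra hcon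
        push Not at hcon
        nlinarith
      nlinarith
    have h7 : t ^ N ≤ N.factorial * 2 ^ N * Real.sqrt x := by
      have h8 := Real.pow_div_factorial_le_exp (t / 2) (by positivity) N
      have h9 : Real.exp (t / 2) = Real.sqrt x := by
        rw [Real.exp_half, ht, Real.exp_log hx0]
      rw [h9, div_pow, div_div, div_le_iff₀ (by positivity)] at h8
      linarith
    have h8 : Real.sqrt x / 3 ^ i + 1 ≤ 4 * (N.factorial * 2 ^ N) / (3 ^ i * t ^ N) * x := by
      have h9 : Real.sqrt x * Real.sqrt x = x := Real.mul_self_sqrt hx0.le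
      have e1 : Real.sqrt x / 3 ^ i + 1 ≤ 2 * Real.sqrt x / 3 ^ i := by
        have : 1 ≤ Real.sqrt x / 3 ^ i := by
          rw [le_div_iff₀ (by positivity), one_mul]
          exact h6
        have e : 2 * Real.sqrt x / 3 ^ i = Real.sqrt x / 3 ^ i + Real.sqrt x / 3 ^ i := by ring
        rw [e]
        linarith
      refine e1.trans ?_
      rw [div_mul_eq_mul_div, div_le_div_iff₀ (by positivity) hden]
      have e2 : 2 * Real.sqrt x * (3 ^ i * t ^ N) ≤ 2 * Real.sqrt x * (3 ^ i * (N.factorial * 2 ^ N * Real.sqrt x)) := by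
        apply mul_le_mul_of_nonneg_left _ (by positivity)
        exact mul_le_mul_of_nonneg_left h7 (by positivity)
      refine e2.trans ?_
      have e3 : 2 * Real.sqrt x * (3 ^ i * (N.factorial * 2 ^ N * Real.sqrt x)) =
          2 * (N.factorial * 2 ^ N) * x * 3 ^ i := by
        rw [← h9]; ring_nf
        rw [Real.sq_sqrt (by positivity)]
      rw [e3]
      have : 0 ≤ (N.factorial * 2 ^ N) * x * 3 ^ i := by positivity
      linarith
    have h9 : (0 : ℝ) ≤ (cls (HS al be j) 1 (x / 2 ^ L) i 1 b').card := Nat.cast_nonneg _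
    have e : (2 * 2 ^ N * C1 + 4 * (N.factorial * 2 ^ N) + 3 ^ 36 * 2500 ^ N) * x / (3 ^ i * t ^ N) =
        2 * 2 ^ N * C1 / (3 ^ i * t ^ N) * x + 4 * (N.factorial * 2 ^ N) / (3 ^ i * t ^ N) * x +
          3 ^ 36 * 2500 ^ N / (3 ^ i * t ^ N) * x := by ring
    have h10 : 0 ≤ 3 ^ 36 * 2500 ^ N / (3 ^ i * t ^ N) * x := by positivity
    rw [e]
    linarith

end Pool.Agent.TH977.LL
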