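import Pool.Agent.TH977.LL.Prof

/-! All numbers with a given pair (number of steps, number of odd steps). -/

set_option autoImplicit false

namespace Pool.Agent.TH977.LL

open Pool.Agent.H320R2.PD Pool.Agent.H499R2.ND Pool.Agent.TH977.IP Finset Filter Topology

open Pool.Agent.H499R2.HL (H H_two H_of_two odn_two H_unique)
open Pool.Agent.H499R2.LT (odn)

/-- the odd numbers with the pair `(l, i)` in terms of `H2` -/
theorem odd_iff_H2 {n : ℕ} (hn : Odd n) (l i : ℕ) : (H l n ∧ odn l n = i) ↔ (n : ℤ) ∈ H2 ((i : ℤ), (l : ℤ) - i) := by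
  have hT : ∀ l : ℕ, H l n ↔ (n : ℤ) ∈ HS 0 1 l := by
    intro l
    rw [← hit_iff_HS (x := (n : ℤ)) (by exact_mod_cast hn) l]
    unfold H
    simp only [Pool.Agent.H499R2.LT.Td_nat]
    constructor
    · rintro ⟨h1, h2⟩
      exact ⟨by rw [h1]; rfl, fun i hi hcon => h2 i hi (by exact_mod_cast hcon)⟩
    · rintro ⟨h1, h2⟩
      exact ⟨by exact_mod_cast h1, fun i hi hcon => h2 i hi (by rw [hcon]; rfl)⟩
  have hO : ∀ l : ℕ, H l n → (n : ℤ) ∈ HS 1 0 (odn l n) := by
    intro l hl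
    by_cases hn1 : n = 1
    · subst hn1
      have h0 : l = 0 := by
        by_contra hcon
        exact hl.2 0 (by omega) rfl
      subst h0
      refine ⟨0, rfl, by simp, ?_⟩
      simp [odn]
    · have h5 := Pool.Agent.H363R2.Cm_height l n hn hn1
        (by rw [TN_eq_Tn]; exact hl.1) (by rw [TN_eq_Tn]; exact hl.2)
      rw [Pool.Agent.H499R2.HL.oc_odn] at h5
      exact (ht_iff_HS hn1).1 h5
  unfold H2
  simp only
  rw [Set.mem_inter_iff, add_sub_cancel, ← hT l]
  constructor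
  · rintro ⟨h1, h2⟩
    have := hO l h1
    rw [h2] at this
    exact ⟨this, h1⟩
  · rintro ⟨h1, h2⟩
    refine ⟨h2, ?_⟩
    have := HS_unique (hO l h2) h1
    exact_mod_cast this

/-- the numbers with the pair `(l, i)` -/
def W (l i : ℕ) : Set ℕ := {n : ℕ | 1 ≤ n ∧ H l n ∧ odn l n = i}

theorem res_W : ∃ c : ℕ, ∀ n l i : ℕ, n ∈ W l i →
    Real.exp (l * Real.log 2 - i * Real.log 3) / 2 ^ c ≤ n ∧ (n : ℝ) ≤ Real.exp (l * Real.log 2 - i * Real.log 3) * 2 ^ c := by
  obtain ⟨C, hC, hres⟩ := Pool.Agent.H499R2.HL.res_one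
  refine ⟨⌈2 * C⌉₊, fun n l i hn => ?_⟩
  obtain ⟨h1, h2, h3⟩ := hn
  have h4 := abs_le.1 (hres n l h1 h2)
  rw [h3] at h4
  have hn0 : (0 : ℝ) < n := by exact_mod_cast h1
  have hl2 := Real.log_two_gt_d9
  have hc : C ≤ (⌈2 * C⌉₊ : ℝ) * Real.log 2 := by
    have := Nat.le_ceil (2 * C)
    have h0 : (0 : ℝ) ≤ (⌈2 * C⌉₊ : ℝ) := Nat.cast_nonneg _
    nlinarith
  constructor
  · rw [← Real.log_le_log_iff (by positivity) hn0, Real.log_div (Real.exp_pos _).ne' (by positivity),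
      Real.log_exp, Real.log_pow]
    linarith [h4.2]
  · rw [← Real.log_le_log_iff hn0 (by positivity), Real.log_mul (Real.exp_pos _).ne' (by positivity),
      Real.log_exp, Real.log_pow]
    linarith [h4.1]

theorem W_finite (l i : ℕ) : (W l i).Finite := by
  obtain ⟨c, hc⟩ := res_W
  refine (Set.finite_Iic ⌈Real.exp (l * Real.log 2 - i * Real.log 3) * 2 ^ c⌉₊).subset fun n hn => ?_
  rw [Set.mem_Iic]
  have := (hc n l i hn).2.trans (Nat.le_ceil _)
  exact_mod_cast this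

theorem odd_card {c : ℕ} (hc : ∀ n l i : ℕ, n ∈ W l i →
    Real.exp (l * Real.log 2 - i * Real.log 3) / 2 ^ c ≤ n ∧ (n : ℝ) ≤ Real.exp (l * Real.log 2 - i * Real.log 3) * 2 ^ c)
    (i e : ℕ) : {n : ℕ | Odd n ∧ n ∈ W (i + e) i}.ncard = (pts c i e).card := by
  have hX : XX ((i : ℤ), (e : ℤ)) = Real.exp (((i + e : ℕ) : ℝ) * Real.log 2 - i * Real.log 3) := by
    unfold XX
    push_cast
    rfl
  have e1 : {n : ℕ | Odd n ∧ n ∈ W (i + e) i} = (fun x : ℤ => x.toNat) '' (pts c i e : Set ℤ) := by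
    ext n
    rw [Set.mem_image]
    constructor
    · rintro ⟨h1, h2⟩
      refine ⟨(n : ℤ), ?_, by simp⟩
      rw [Finset.mem_coe]
      unfold pts
      rw [mem_cls]
      obtain ⟨g1, g2⟩ := hc n (i + e) i h2
      rw [← hX] at g1 g2
      have hn0 : (0 : ℝ) < n := by exact_mod_cast h2.1
      refine ⟨⟨by exact_mod_cast g1, by push_cast; linarith⟩, by exact_mod_cast h1, ?_, by simp⟩
      have := (odd_iff_H2 h1 (i + e) i).1 h2.2
      rwa [show ((i + e : ℕ) : ℤ) - i = e by push_cast; ring] at this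
    · rintro ⟨x, hx, rfl⟩
      rw [Finset.mem_coe] at hx
      unfold pts at hx
      rw [mem_cls] at hx
      obtain ⟨⟨h1, h2⟩, h3, h4, _⟩ := hx
      have hXp := XX_pos ((i : ℤ), (e : ℤ))
      have hx0 : (0 : ℝ) < x := lt_of_lt_of_le (by positivity) h1
      have hx0' : 0 < x := by exact_mod_cast hx0
      obtain ⟨n, rfl⟩ := Int.eq_ofNat_of_zero_le hx0'.le
      simp only [Int.toNat_natCast]
      have hn : Odd n := by exact_mod_cast h3
      refine ⟨hn, hn.pos, ?_⟩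
      apply (odd_iff_H2 hn (i + e) i).2
      rwa [show ((i + e : ℕ) : ℤ) - i = e by push_cast; ring]
  rw [e1, Set.InjOn.ncard_image, Set.ncard_coe_finset]
  intro y hy z hz hyz
  have hXp := XX_pos ((i : ℤ), (e : ℤ))
  rw [Finset.mem_coe] at hy hz
  unfold pts at hy hz
  rw [mem_cls] at hy hz
  have hy0 : (0 : ℝ) < y := lt_of_lt_of_le (by positivity) hy.1.1
  have hz0 : (0 : ℝ) < z := lt_of_lt_of_le (by positivity) hz.1.1
  have hy1 : 0 < y := by exact_mod_cast hy0
  have hz1 : 0 < z := by exact_mod_cast hz0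
  simp only at hyz
  omega

theorem W_step (l i : ℕ) : (W (l + 1) i).ncard = {n : ℕ | Odd n ∧ n ∈ W (l + 1) i}.ncard + (W l i).ncard := by
  have e : W (l + 1) i = {n : ℕ | Odd n ∧ n ∈ W (l + 1) i} ∪ (fun n => 2 * n) '' W l i := by
    ext n
    constructor
    · intro hn
      rcases Nat.even_or_odd n with h | h
      · right
        obtain ⟨m, hm⟩ := h
        have hm' : n = 2 * m := by omega
        rw [hm'] at hn
        obtain ⟨h1, h2, h3⟩ := hn
        obtain ⟨k', hk', h4⟩ := H_of_two h2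
        have : k' = l := by omega
        rw [this] at h4
        rw [odn_two] at h3
        exact ⟨m, ⟨by omega, h4, h3⟩, hm'.symm⟩
      · exact Or.inl ⟨h, hn⟩
    · rintro (⟨_, h⟩ | ⟨m, ⟨h1, h2, h3⟩, rfl⟩)
      · exact h
      · exact ⟨by simp only; omega, H_two h2, by rw [odn_two]; exact h3⟩
  have hf1 : {n : ℕ | Odd n ∧ n ∈ W (l + 1) i}.Finite := (W_finite (l + 1) i).subset fun n hn => hn.2
  have hf2 : ((fun n => 2 * n) '' W l i).Finite := (W_finite l i).image _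
  have hdis : Disjoint {n : ℕ | Odd n ∧ n ∈ W (l + 1) i} ((fun n => 2 * n) '' W l i) := by
    rw [Set.disjoint_left]
    rintro n ⟨h1, _⟩ ⟨m, _, h2⟩
    simp only at h2
    rw [Nat.odd_iff] at h1
    omega
  conv_lhs => rw [e]
  rw [Set.ncard_union_eq hdis hf1 hf2, Set.InjOn.ncard_image]
  intro a _ b _ hab
  simp only at hab
  omega

theorem odn_le (l n : ℕ) : odn l n ≤ l := by
  unfold odn
  exact (card_filter_le _ _).trans (by simp)

theorem W_zero (i : ℕ) : (W 0 i).ncard = {n : ℕ | Odd n ∧ n ∈ W 0 i}.ncard := by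
  congr 1
  ext n
  constructor
  · intro h
    have h1 : n = 1 := h.2.1.1
    exact ⟨by rw [h1]; exact odd_one, h⟩
  · rintro ⟨_, h⟩
    exact h

theorem W_empty {l i : ℕ} (h : l < i) : W l i = ∅ := by
  rw [Set.eq_empty_iff_forall_notMem]
  rintro n ⟨_, _, h3⟩
  have := odn_le l n
  omega

/-- the number of the numbers with a given pair -/
theorem W_card {c : ℕ} (hc : ∀ n l i : ℕ, n ∈ W l i →
    Real.exp (l * Real.log 2 - i * Real.log 3) / 2 ^ c ≤ n ∧ (n : ℝ) ≤ Real.exp (l * Real.log 2 - i * Real.log 3) * 2 ^ c)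
    (i e : ℕ) : (W (i + e) i).ncard = ∑ j ∈ range (e + 1), (pts c i j).card := by
  induction e with
  | zero =>
    rw [sum_range_one, ← odd_card hc i 0, add_zero]
    rcases Nat.eq_zero_or_pos i with h | h
    · subst h
      exact W_zero 0
    · obtain ⟨i', rfl⟩ : ∃ i', i = i' + 1 := ⟨i - 1, by omega⟩
      rw [W_step i' (i' + 1), W_empty (by omega : i' < i' + 1), Set.ncard_empty, add_zero]
  | succ e ih =>
    rw [sum_range_succ, ← ih, ← odd_card hc i (e + 1), ← add_assoc, W_step (i + e) i, add_comm]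

theorem qq_one (a : ℕ) : qq 1 a = 1 / 2 ^ (1 + a) := by
  unfold qq
  simp

/-- the count as a convolution -/
theorem W_cv {c : ℕ} (hc : ∀ n l i : ℕ, n ∈ W l i →
    Real.exp (l * Real.log 2 - i * Real.log 3) / 2 ^ c ≤ n ∧ (n : ℝ) ≤ Real.exp (l * Real.log 2 - i * Real.log 3) * 2 ^ c)
    (i e : ℕ) : ((W (i + e) i).ncard : ℝ) = 2 ^ (i + e) / 3 ^ i * (2 * cv 1 (nn c i) e) := by
  have hX : ∀ j : ℕ, XX ((i : ℤ), (j : ℤ)) = 2 ^ (i + j) / 3 ^ i := by
    intro j
    have h3 : (3 : ℝ) ^ i = Real.exp (i * Real.log 3) := by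
      rw [mul_comm, Real.exp_mul, Real.exp_log (by norm_num), Real.rpow_natCast]
    have h2 : (2 : ℝ) ^ (i + j) = Real.exp (((i + j : ℕ) : ℝ) * Real.log 2) := by
      rw [mul_comm, Real.exp_mul, Real.exp_log (by norm_num), Real.rpow_natCast]
    rw [h3, h2, ← Real.exp_sub]
    unfold XX
    push_cast
    rfl
  rw [W_card hc, Nat.cast_sum]
  have h1 : ∀ j ∈ range (e + 1), (((pts c i j).card : ℕ) : ℝ) = nn c i j * (2 ^ (i + j) / 3 ^ i) := by
    intro j _
    rw [← nn_card c i j, hX]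
  rw [sum_congr rfl h1, cv_range, ← Finset.sum_range_reflect]
  rw [mul_sum, mul_sum]
  apply sum_congr rfl
  intro a ha
  rw [mem_range] at ha
  rw [show e + 1 - 1 - a = e - a by omega, qq_one]
  obtain ⟨d, rfl⟩ : ∃ d, e = d + a := ⟨e - a, by omega⟩
  rw [Nat.add_sub_cancel]
  rw [show i + (d + a) = i + d + a by omega, pow_add _ (i + d) a, pow_add _ 1 a]
  field_simp

end Pool.Agent.TH977.LL
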