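import Pool.Agent.TH977.LL.Multi

/-! Atypical points are rare; sums of the normalised counts over atypical pairs. -/

set_option autoImplicit false

namespace Pool.Agent.TH977.LL

open Pool.Agent.H320R2.PD Pool.Agent.H499R2.ND Pool.Agent.TH977.IP Finset Filter Topology

/-- the atypical points -/
def At (D : ℝ) : Set ℤ :=
  {x | ∃ h : ℤ, x ∈ HS 1 0 h ∧ D * Real.sqrt (Real.log x) ≤ |(h : ℝ) - Real.log x / hh|}

theorem cnt_win_upper {P : ℕ → Prop} {S : Set ℤ} (hS : ∀ n : ℕ, Odd n → 3 ≤ n → (n : ℤ) ∈ S → P n) {e : ℕ}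
    (he : 2 ≤ e) : Pool.Agent.H499R2.ND.cnt P (2 ^ e - 1) + ((cls S (2 ^ e) (2 * 2 ^ e) 0 1 0).card : ℝ) ≤
      Pool.Agent.H499R2.ND.cnt P (2 * 2 ^ e - 1) := by
  classical
  rw [cnt_eq, cnt_eq]
  have h2 : 4 ≤ 2 ^ e := by
    calc 4 = 2 ^ 2 := rfl
      _ ≤ 2 ^ e := Nat.pow_le_pow_right (by norm_num) he
  have hmem : ∀ x ∈ cls S (2 ^ e) (2 * 2 ^ e) 0 1 0, ∃ n : ℕ, x = n ∧ 2 ^ e ≤ n ∧ n < 2 * 2 ^ e ∧ P n := by
    intro x hx
    rw [mem_cls] at hx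
    have h0 : (0 : ℝ) < 2 ^ e := by positivity
    have hx0 : (0 : ℤ) ≤ x := by
      have : (0 : ℝ) ≤ x := by linarith [hx.1.1]
      exact_mod_cast this
    obtain ⟨n, rfl⟩ := Int.eq_ofNat_of_zero_le hx0
    have h3 : ((2 ^ e : ℕ) : ℝ) ≤ n := by push_cast; exact_mod_cast hx.1.1
    have h4 : (n : ℝ) < ((2 * 2 ^ e : ℕ) : ℝ) := by push_cast; exact_mod_cast hx.1.2
    have h5 : 2 ^ e ≤ n := by exact_mod_cast h3
    have h6 : n < 2 * 2 ^ e := by exact_mod_cast h4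
    exact ⟨n, rfl, h5, h6, hS n (by exact_mod_cast hx.2.1) (by omega) hx.2.2.1⟩
  have hsub : (Icc 1 (2 ^ e - 1)).filter P ∪ (cls S (2 ^ e) (2 * 2 ^ e) 0 1 0).image Int.toNat ⊆
      (Icc 1 (2 * 2 ^ e - 1)).filter P := by
    intro n hn
    rw [mem_union, mem_filter, mem_Icc, mem_image] at hn
    rw [mem_filter, mem_Icc]
    rcases hn with hn | ⟨x, hx, hxn⟩
    · exact ⟨⟨hn.1.1, by omega⟩, hn.2⟩
    · obtain ⟨m, rfl, h3, h4, h5⟩ := hmem x hx
      rw [Int.toNat_natCast] at hxn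
      subst hxn
      exact ⟨⟨by omega, by omega⟩, h5⟩
  have hdis : Disjoint ((Icc 1 (2 ^ e - 1)).filter P) ((cls S (2 ^ e) (2 * 2 ^ e) 0 1 0).image Int.toNat) := by
    rw [Finset.disjoint_left]
    intro n hn hn'
    rw [mem_filter, mem_Icc] at hn
    rw [mem_image] at hn'
    obtain ⟨x, hx, hxn⟩ := hn'
    obtain ⟨m, rfl, h3, h4, h5⟩ := hmem x hx
    rw [Int.toNat_natCast] at hxn
    omega
  have hinj : ((cls S (2 ^ e) (2 * 2 ^ e) 0 1 0).image Int.toNat).card = (cls S (2 ^ e) (2 * 2 ^ e) 0 1 0).card := by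
    apply card_image_of_injOn
    intro x hx y hy hxy
    obtain ⟨m, rfl, _, _, _⟩ := hmem x hx
    obtain ⟨m', rfl, _, _, _⟩ := hmem y hy
    rw [Int.toNat_natCast, Int.toNat_natCast] at hxy
    rw [hxy]
  have h7 := card_le_card hsub
  rw [card_union_of_disjoint hdis, hinj] at h7
  exact_mod_cast h7

theorem win_upper {P : ℕ → Prop} {l : ℝ} (hP : Dn P l) {S : Set ℤ}
    (hS : ∀ n : ℕ, Odd n → 3 ≤ n → (n : ℤ) ∈ S → P n) {η : ℝ} (hη : 0 < η) :
    ∃ E0 : ℕ, ∀ e : ℕ, E0 ≤ e → ((cls S (2 ^ e) (2 * 2 ^ e) 0 1 0).card : ℝ) ≤ (l + η) * 2 ^ e := by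
  unfold Dn at hP
  have h1 : ∀ᶠ N : ℕ in atTop, |Pool.Agent.H499R2.ND.cnt P N / N - l| < η / 8 := by
    have := (Metric.tendsto_nhds.1 hP) (η / 8) (by positivity)
    refine this.mono fun N hN => ?_
    rwa [Real.dist_eq] at hN
  obtain ⟨N0, hN0⟩ := eventually_atTop.1 h1
  refine ⟨N0 + 4 + ⌈2 * |l| / η⌉₊, fun e he => ?_⟩
  have h2e : e < 2 ^ e := Nat.lt_two_pow_self
  have h16 : 16 ≤ 2 ^ e := by
    calc 16 = 2 ^ 4 := rfl
      _ ≤ 2 ^ e := Nat.pow_le_pow_right (by norm_num) (by omega)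
  have hw := cnt_win_upper hS (e := e) (by omega)
  obtain ⟨a1, a2⟩ := abs_lt.1 (hN0 (2 * 2 ^ e - 1) (by omega))
  obtain ⟨b1, b2⟩ := abs_lt.1 (hN0 (2 ^ e - 1) (by omega))
  have hc1 : ((2 * 2 ^ e - 1 : ℕ) : ℝ) = 2 * 2 ^ e - 1 := by
    rw [Nat.cast_sub (by omega)]; push_cast; ring
  have hc2 : ((2 ^ e - 1 : ℕ) : ℝ) = 2 ^ e - 1 := by
    rw [Nat.cast_sub (by omega)]; push_cast; ring
  have h16R : (16 : ℝ) ≤ 2 ^ e := by exact_mod_cast h16
  have hle : 2 * |l| / η ≤ 2 ^ e := by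
    have g1 := Nat.le_ceil (2 * |l| / η)
    have g2 : ⌈2 * |l| / η⌉₊ ≤ 2 ^ e := by omega
    have g3 : ((⌈2 * |l| / η⌉₊ : ℕ) : ℝ) ≤ 2 ^ e := by exact_mod_cast g2
    linarith
  rw [div_le_iff₀ hη] at hle
  rw [hc1] at a1 a2
  rw [hc2] at b1 b2
  have a3 : Pool.Agent.H499R2.ND.cnt P (2 * 2 ^ e - 1) / (2 * 2 ^ e - 1) < l + η / 8 := by linarith
  rw [div_lt_iff₀ (by linarith)] at a3
  have b3 : l - η / 8 < Pool.Agent.H499R2.ND.cnt P (2 ^ e - 1) / (2 ^ e - 1) := by linarith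
  rw [lt_div_iff₀ (by linarith)] at b3
  have hl := neg_abs_le l
  have hl2 := le_abs_self l
  have h0 : 0 ≤ η * 2 ^ e := by positivity
  nlinarith

theorem Phi_large' {η : ℝ} (hη : 0 < η) : ∃ x : ℝ, 0 < x ∧ 1 - (Phi x - Phi (-x)) ≤ η := by
  have h1 := ProbabilityTheory.tendsto_cdf_atTop (ProbabilityTheory.gaussianReal 0 1)
  have h2 : ∀ᶠ x : ℝ in atTop, 1 - η / 2 < ProbabilityTheory.cdf (ProbabilityTheory.gaussianReal 0 1) x :=
    h1.eventually_const_lt (by linarith)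
  obtain ⟨x, hx1, hx2⟩ := (h2.and (eventually_gt_atTop 0)).exists
  refine ⟨x, hx2, ?_⟩
  rw [← phi_cdf] at hx1
  rw [Phi_neg]
  linarith

theorem bo_eq' (x L : ℝ) : Pool.Agent.H499R2.HL.bo x L = L / hh +
      x * (Real.log 2 * Pool.Agent.H499R2.HL.rr) * Real.sqrt L := by
  unfold Pool.Agent.H499R2.HL.bo
  rw [Pool.Agent.H499R2.HL.sqrt_rr]
  have : Real.log (4 / 3) = hh := Pool.Agent.H499R2.HL.nu_eq
  rw [this]
  ring

theorem at_small {η : ℝ} (hη : 0 < η) : ∃ D : ℝ, 0 < D ∧ ∃ W0 : ℕ, ∀ w : ℕ, W0 ≤ w →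
    ((cls (At D) (2 ^ w) (2 * 2 ^ w) 0 1 0).card : ℝ) ≤ η * 2 ^ w := by
  obtain ⟨δ, hδ0, hδ1, _, hbas, hlaw⟩ := Pool.Agent.H499R2.HL.law_ht
  obtain ⟨z, hz, hPhi⟩ := Phi_large' hη
  have h1 := (hlaw 1 0 le_rfl).2 z
  have h2 := (hlaw 1 0 le_rfl).2 (-z)
  have hrr := Pool.Agent.H499R2.HL.rr_pos
  have hl2 := Real.log_two_gt_d9
  obtain ⟨hh1, hh2⟩ := hh_bd
  set b : ℝ := z * (Real.log 2 * Pool.Agent.H499R2.HL.rr) with hb
  have hb0 : 0 < b := by positivity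
  have hD := Dn_diff h1 h2 (by
    rintro n ⟨g1, h, g2, g3, g4⟩
    refine ⟨g1, h, g2, ?_, g4⟩
    rw [bo_eq'] at g3 ⊢
    have : 0 ≤ Real.sqrt (Real.log n) := Real.sqrt_nonneg _
    have h5 : -z * (Real.log 2 * Pool.Agent.H499R2.HL.rr) = -b := by rw [hb]; ring
    rw [h5] at g3
    nlinarith)
  have hD2 := Dn_diff hbas hD (by
    rintro n ⟨⟨g1, h, g2, g3, g4⟩, _⟩
    exact ⟨g1, h, g2⟩)
  obtain ⟨E0, hE0⟩ := win_upper hD2 (S := At (b + 1)) (by
    rintro n hodd hn3 ⟨h, g1, g2⟩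
    have hn1 : n ≠ 1 := by omega
    obtain ⟨K, k1, k2, k3⟩ := g1
    have hK : (h : ℤ) = K := by rw [← k3]; simp
    have hht : IsHt n K := (ht_iff_HS hn1).2 ⟨K, k1, k2, by simp⟩
    refine ⟨⟨Nat.odd_iff.1 hodd, K, hht⟩, ?_⟩
    rintro ⟨⟨_, K', q1, q2, _⟩, q3⟩
    have e1 := ht_unique hht q1
    subst e1
    have q4 : ¬ ((K : ℝ) ≤ Pool.Agent.H499R2.HL.bo (-z) (Real.log n)) := by
      intro hcon
      exact q3 ⟨Nat.odd_iff.1 hodd, K, hht, hcon, by simp [Int.modEq_one]⟩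
    rw [bo_eq'] at q2 q4
    have h5 : -z * (Real.log 2 * Pool.Agent.H499R2.HL.rr) = -b := by rw [hb]; ring
    rw [h5] at q4
    rw [← hb] at q2
    push Not at q4
    have hLz : Real.log ((n : ℤ) : ℝ) = Real.log n := by push_cast; rfl
    rw [hLz, hK] at g2
    have hL1 : 0 < Real.log n := Real.log_pos (by
      have : (3 : ℝ) ≤ n := by exact_mod_cast hn3
      linarith)
    have hs : 0 < Real.sqrt (Real.log n) := Real.sqrt_pos.2 hL1
    have hu : |((K : ℤ) : ℝ) - Real.log n / hh| ≤ b * Real.sqrt (Real.log n) := by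
      rw [abs_le]
      push_cast
      constructor <;> linarith
    nlinarith) (η := η / 2) (by positivity)
  refine ⟨b + 1, by positivity, E0, fun w hw => (hE0 w hw).trans ?_⟩
  apply mul_le_mul_of_nonneg_right _ (by positivity)
  push_cast
  have e1 : δ / 2 - (δ / 1 * Phi z / 2 - δ / 1 * Phi (-z) / 2) = δ / 2 * (1 - (Phi z - Phi (-z))) := by ring
  rw [e1]
  have e2 : δ / 2 * (1 - (Phi z - Phi (-z))) ≤ δ / 2 * η := mul_le_mul_of_nonneg_left hPhi (by positivity)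
  have e3 : δ / 2 * η ≤ 1 / 2 * η := mul_le_mul_of_nonneg_right (by linarith) hη.le
  linarith

theorem win_split (S : Set ℤ) {A : ℝ} (hA : 0 < A) : ∀ L : ℕ,
    ((cls S (A / 2 ^ L) (2 * A) 0 1 0).card : ℝ) =
      ∑ w ∈ range (L + 1), ((cls S (A / 2 ^ w) (2 * (A / 2 ^ w)) 0 1 0).card : ℝ) := by
  intro L
  induction L with
  | zero => simp
  | succ L ih =>
    rw [sum_range_succ, ← ih]
    have e : 2 * (A / 2 ^ (L + 1)) = A / 2 ^ L := by rw [pow_succ]; field_simp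
    have h1 : A / 2 ^ (L + 1) ≤ A / 2 ^ L := by
      apply div_le_div_of_nonneg_left hA.le (by positivity)
      exact pow_le_pow_right₀ (by norm_num) (by omega)
    have h2 : A / 2 ^ L ≤ 2 * A := by
      have : A / 2 ^ L ≤ A := div_le_self hA.le (one_le_pow₀ (by norm_num))
      linarith
    rw [cls_split S h1 h2 0 1 0, e]
    push_cast
    ring

/-- the points counted by `nn` -/
noncomputable def pts (c i e : ℕ) : Finset ℤ :=
  cls (H2 ((i : ℤ), (e : ℤ))) (XX ((i : ℤ), (e : ℤ)) / 2 ^ c) (2 * (XX ((i : ℤ), (e : ℤ)) * 2 ^ c)) 0 1 0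

theorem nn_card (c i e : ℕ) : nn c i e * XX ((i : ℤ), (e : ℤ)) = ((pts c i e).card : ℝ) := by
  have hX := XX_pos ((i : ℤ), (e : ℤ))
  unfold pts nn nu
  set X := XX ((i : ℤ), (e : ℤ)) with hXdef
  have h := win_split (H2 ((i : ℤ), (e : ℤ))) (A := X * 2 ^ c) (by positivity) (2 * c)
  have e1 : X * 2 ^ c / 2 ^ (2 * c) = X / 2 ^ c := by
    rw [two_mul, pow_add]; field_simp
  rw [e1] at h
  rw [h, sum_mul]
  apply sum_congr rfl
  intro w _
  unfold den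
  field_simp

theorem tail_sum (c : ℕ) {η D : ℝ} {W0 : ℕ}
    (hAt : ∀ w : ℕ, W0 ≤ w → ((cls (At D) (2 ^ w) (2 * 2 ^ w) 0 1 0).card : ℝ) ≤ η * 2 ^ w)
    (PP : Finset (ℕ × ℕ)) {w1 w2 : ℕ} (hw : W0 ≤ w1)
    (hPP : ∀ p ∈ PP, ∀ x ∈ pts c p.1 p.2, x ∈ At D ∧ (2 : ℝ) ^ w1 ≤ x ∧ (x : ℝ) < 2 ^ w2) :
    ∑ p ∈ PP, nn c p.1 p.2 ≤ 2 * 2 ^ c * (((w2 - w1 : ℕ) : ℝ) * η) := by
  classical
  have h1 : ∀ p ∈ PP, nn c p.1 p.2 ≤ 2 * 2 ^ c * ∑ x ∈ pts c p.1 p.2, 1 / (x : ℝ) := by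
    intro p hp
    have hX := XX_pos ((p.1 : ℤ), (p.2 : ℤ))
    have e1 : nn c p.1 p.2 = ∑ x ∈ pts c p.1 p.2, 1 / XX ((p.1 : ℤ), (p.2 : ℤ)) := by
      rw [sum_const, nsmul_eq_mul, ← nn_card c p.1 p.2]
      field_simp
    rw [e1, mul_sum]
    apply sum_le_sum
    intro x hx
    have h2 := (hPP p hp x hx).2.1
    have h0 : (0 : ℝ) < 2 ^ w1 := by positivity
    have hx0 : (0 : ℝ) < x := by linarith
    unfold pts at hx
    rw [mem_cls] at hx
    rw [mul_one_div, div_le_div_iff₀ hX hx0]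
    linarith [hx.1.2]
  refine (sum_le_sum h1).trans ?_
  rw [← mul_sum]
  apply mul_le_mul_of_nonneg_left _ (by positivity)
  -- the points are different
  rw [← sum_biUnion]
  · set X : ℕ → Finset ℤ := fun w => cls (At D) (2 ^ w) (2 * 2 ^ w) 0 1 0 with hXd
    have hsub : PP.biUnion (fun p => pts c p.1 p.2) ⊆ (Ico w1 w2).biUnion X := by
      intro x hx
      rw [mem_biUnion] at hx
      obtain ⟨p, hp, hx⟩ := hx
      obtain ⟨g1, g2, g3⟩ := hPP p hp x hx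
      have h0 : (1 : ℝ) ≤ 2 ^ w1 := one_le_pow₀ (by norm_num)
      obtain ⟨s1, s2⟩ := ef_spec (y := (x : ℝ)) (by linarith)
      rw [mem_biUnion]
      refine ⟨ef (x : ℝ), ?_, ?_⟩
      · rw [mem_Ico]
        constructor
        · have h5 : (2 : ℝ) ^ w1 < 2 ^ (ef (x : ℝ) + 1) := by linarith
          have h6 := (pow_lt_pow_iff_right₀ (by norm_num : (1 : ℝ) < 2)).1 h5
          omega
        · have h5 : (2 : ℝ) ^ ef (x : ℝ) < 2 ^ w2 := by linarith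
          exact (pow_lt_pow_iff_right₀ (by norm_num : (1 : ℝ) < 2)).1 h5
      · rw [hXd]
        simp only
        unfold pts at hx
        rw [mem_cls] at hx ⊢
        rw [pow_succ] at s2
        exact ⟨⟨s1, by linarith⟩, hx.2.1, g1, by simp⟩
    have hXmem : ∀ w, ∀ x ∈ X w, (2 : ℝ) ^ w ≤ x ∧ (x : ℝ) < 2 * 2 ^ w := by
      intro w x hx
      rw [hXd] at hx
      simp only at hx
      rw [mem_cls] at hx
      exact hx.1
    refine (sum_le_sum_of_subset_of_nonneg hsub ?_).trans ?_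
    · intro x hx _
      rw [mem_biUnion] at hx
      obtain ⟨w, _, hx⟩ := hx
      have h0 : (0 : ℝ) < 2 ^ w := by positivity
      have := (hXmem w x hx).1
      have : (0 : ℝ) < x := by linarith
      positivity
    · rw [sum_biUnion]
      · have h3 : ∀ w ∈ Ico w1 w2, ∑ x ∈ X w, 1 / (x : ℝ) ≤ η := by
          intro w hww
          rw [mem_Ico] at hww
          have h0 : (0 : ℝ) < 2 ^ w := by positivity
          have h4 : ∑ x ∈ X w, 1 / (x : ℝ) ≤ ∑ x ∈ X w, 1 / (2 : ℝ) ^ w := by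
            apply sum_le_sum
            intro x hx
            exact one_div_le_one_div_of_le h0 (hXmem w x hx).1
          refine h4.trans ?_
          rw [sum_const, nsmul_eq_mul, mul_one_div, div_le_iff₀ h0]
          exact hAt w (hw.trans hww.1)
        refine (sum_le_sum h3).trans ?_
        rw [sum_const, Nat.card_Ico, nsmul_eq_mul]
      · intro w _ w' _ hne
        rw [Function.onFun, Finset.disjoint_left]
        intro x hx hx'
        obtain ⟨g1, g2⟩ := hXmem w x hx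
        obtain ⟨g1', g2'⟩ := hXmem w' x hx'
        apply hne
        have c1 : (2 : ℝ) ^ w < 2 ^ (w' + 1) := by rw [pow_succ]; linarith
        have c2 : (2 : ℝ) ^ w' < 2 ^ (w + 1) := by rw [pow_succ]; linarith
        have c3 := (pow_lt_pow_iff_right₀ (by norm_num : (1 : ℝ) < 2)).1 c1
        have c4 := (pow_lt_pow_iff_right₀ (by norm_num : (1 : ℝ) < 2)).1 c2
        omega
  · intro p _ p' _ hne
    rw [Function.onFun, Finset.disjoint_left]
    intro x hx hx'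
    apply hne
    unfold pts at hx hx'
    rw [mem_cls] at hx hx'
    have a1 := HS_unique hx.2.2.1.1 hx'.2.2.1.1
    have a2 := HS_unique hx.2.2.1.2 hx'.2.2.1.2
    simp only at a1 a2
    ext <;> omega

end Pool.Agent.TH977.LL
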