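import Pool.Agent.TH977.LL.Fam

/-! Local bounds for the negative binomial law. -/

set_option autoImplicit false

namespace Pool.Agent.TH977.LL

open Pool.Agent.H320R2.PD Pool.Agent.H499R2.ND Pool.Agent.TH977.IP Finset

theorem card_rec (cap n T : ℕ) : (FWT cap (n + 1) T).card =
    ∑ e ∈ Icc 1 cap, if e ≤ T then (FWT cap n (T - e)).card else 0 := by
  unfold FWT
  rw [card_filter, sum_FW_succ]
  apply sum_congr rfl
  intro e _
  split_ifs with h
  · rw [card_filter]
    apply sum_congr rfl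
    intro v _
    rw [List.sum_cons]
    congr 1
    apply propext
    omega
  · apply sum_eq_zero
    intro v _
    rw [List.sum_cons, if_neg (by omega)]

theorem card_FWT (cap : ℕ) (n : ℕ) : ∀ T : ℕ, T + 1 ≤ cap + n → (FWT cap (n + 1) (T + 1)).card = T.choose n := by
  induction n with
  | zero =>
    intro T hT
    rw [card_rec, sum_eq_single (T + 1)]
    · rw [if_pos le_rfl, Nat.sub_self, Nat.choose_zero_right]
      have e : FWT cap 0 0 = {[]} := by
        unfold FWT
        ext w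
        simp only [FW, mem_filter, mem_singleton]
        constructor
        · exact fun h => h.1
        · rintro rfl; exact ⟨rfl, rfl⟩
      rw [e, card_singleton]
    · intro e _ hne
      split_ifs with h
      · unfold FWT
        rw [card_eq_zero, filter_eq_empty_iff]
        intro w hw
        simp only [FW, mem_singleton] at hw
        rw [hw, List.sum_nil]
        omega
      · rfl
    · intro h
      exfalso
      apply h
      rw [mem_Icc]
      omega
  | succ n ih =>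
    intro T hT
    rw [card_rec]
    have h1 : ∀ e ∈ Icc 1 cap, (if e ≤ T + 1 then (FWT cap (n + 1) (T + 1 - e)).card else 0) =
        if e ≤ T then (T - e).choose n else 0 := by
      intro e he
      rw [mem_Icc] at he
      rcases lt_trichotomy e (T + 1) with h | h | h
      · rw [if_pos h.le, if_pos (by omega)]
        have e1 : T + 1 - e = (T - e) + 1 := by omega
        rw [e1]
        exact ih (T - e) (by omega)
      · subst h
        rw [if_pos le_rfl, if_neg (by omega), Nat.sub_self]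
        unfold FWT
        rw [card_eq_zero, filter_eq_empty_iff]
        intro w hw
        obtain ⟨hl, h1⟩ := mem_FW.1 hw
        intro h2
        have h3 : ∀ a ∈ w, a = 0 := by
          intro a ha
          have := List.single_le_sum (l := w) (fun _ _ => Nat.zero_le _) a ha
          omega
        cases w with
        | nil => simp at hl
        | cons a w => have := h3 a (by simp); have := (h1 a (by simp)).1; omega
      · rw [if_neg (by omega), if_neg (by omega)]
    rw [sum_congr rfl h1, ← sum_filter]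
    have h2 : ∑ e ∈ (Icc 1 cap).filter (fun e => e ≤ T), (T - e).choose n = ∑ i ∈ range T, i.choose n := by
      have h3 : ∑ e ∈ (Icc 1 cap).filter (fun e => e ≤ T), (T - e).choose n =
          ∑ e ∈ Icc 1 T, (T - e).choose n := by
        apply sum_subset_zero_on_sdiff
        · intro e he
          rw [mem_filter, mem_Icc] at he
          rw [mem_Icc]
          omega
        · intro e he
          rw [mem_sdiff, mem_filter, mem_Icc, mem_Icc] at he
          apply Nat.choose_eq_zero_of_lt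
          omega
        · intro _ _; rfl
      rw [h3, ← sum_range_reflect]
      have h4 : Icc 1 T = (range T).image (fun i => i + 1) := by
        ext i
        rw [mem_Icc, mem_image]
        constructor
        · intro h; exact ⟨i - 1, by rw [mem_range]; omega, by omega⟩
        · rintro ⟨i', h5, rfl⟩; rw [mem_range] at h5; omega
      rw [h4, sum_image (fun a _ b _ h => by simpa using h)]
      apply sum_congr rfl
      intro i hi
      rw [mem_range] at hi
      congr 1
      omega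
    rw [h2]
    clear h1 h2 hT ih
    induction T with
    | zero => simp
    | succ T ih =>
      rw [sum_range_succ, ih, Nat.choose_succ_succ]
      ring

theorem cb_upper (n : ℕ) : (Nat.centralBinom n) ^ 2 * (2 * n + 1) ≤ 16 ^ n := by
  induction n with
  | zero => simp
  | succ n ih =>
    have h := Nat.succ_mul_centralBinom_succ n
    have h1 : (n + 1) ^ 2 * ((Nat.centralBinom (n + 1)) ^ 2 * (2 * (n + 1) + 1)) =
        (2 * (2 * n + 1)) ^ 2 * (Nat.centralBinom n) ^ 2 * (2 * n + 3) := by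
      calc (n + 1) ^ 2 * ((Nat.centralBinom (n + 1)) ^ 2 * (2 * (n + 1) + 1))
          = ((n + 1) * Nat.centralBinom (n + 1)) ^ 2 * (2 * n + 3) := by ring
        _ = _ := by rw [h]; ring
    have h2 : (2 * (2 * n + 1)) ^ 2 * (Nat.centralBinom n) ^ 2 * (2 * n + 3) ≤
        (n + 1) ^ 2 * 16 ^ (n + 1) := by
      calc (2 * (2 * n + 1)) ^ 2 * (Nat.centralBinom n) ^ 2 * (2 * n + 3)
          = 4 * ((2 * n + 1) * (2 * n + 3)) * ((Nat.centralBinom n) ^ 2 * (2 * n + 1)) := by ring
        _ ≤ 4 * (4 * (n + 1) ^ 2) * 16 ^ n := by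
            apply Nat.mul_le_mul _ ih
            apply Nat.mul_le_mul_left
            nlinarith
        _ = (n + 1) ^ 2 * 16 ^ (n + 1) := by ring
    rw [← h1] at h2
    exact Nat.le_of_mul_le_mul_left h2 (by positivity)

theorem cb_lower (n : ℕ) : 16 ^ (n + 1) ≤ 4 * (n + 1) * (Nat.centralBinom (n + 1)) ^ 2 := by
  induction n with
  | zero => simp [Nat.centralBinom]
  | succ n ih =>
    have h := Nat.succ_mul_centralBinom_succ (n + 1)
    have h2 : (n + 2) ^ 2 * 16 ^ (n + 2) ≤ (n + 2) ^ 2 * (4 * (n + 2) * (Nat.centralBinom (n + 2)) ^ 2) := by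
      calc (n + 2) ^ 2 * 16 ^ (n + 2) = 16 * (n + 2) ^ 2 * 16 ^ (n + 1) := by ring
        _ ≤ 16 * (n + 2) ^ 2 * (4 * (n + 1) * (Nat.centralBinom (n + 1)) ^ 2) := Nat.mul_le_mul_left _ ih
        _ = 16 * (n + 2) * ((n + 2) * (4 * (n + 1))) * (Nat.centralBinom (n + 1)) ^ 2 := by ring
        _ ≤ 16 * (n + 2) * (2 * (n + 1) + 1) ^ 2 * (Nat.centralBinom (n + 1)) ^ 2 := by
            apply Nat.mul_le_mul_right
            apply Nat.mul_le_mul_left
            nlinarith
        _ = 4 * (n + 2) * (2 * (2 * (n + 1) + 1) * Nat.centralBinom (n + 1)) ^ 2 := by ring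
        _ = 4 * (n + 2) * ((n + 1 + 1) * Nat.centralBinom (n + 1 + 1)) ^ 2 := by rw [h]
        _ = _ := by ring
    exact Nat.le_of_mul_le_mul_left h2 (by positivity)

theorem mid_upper (n : ℕ) : (n.choose (n / 2)) ^ 2 * n ≤ 4 ^ n := by
  rcases Nat.even_or_odd' n with ⟨a, rfl | rfl⟩
  · have h := cb_upper a
    rw [Nat.centralBinom] at h
    rw [Nat.mul_div_cancel_left a (by norm_num)]
    have e : (4 : ℕ) ^ (2 * a) = 16 ^ a := by rw [pow_mul]; norm_num
    rw [e]
    refine le_trans ?_ h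
    apply Nat.mul_le_mul_left
    omega
  · have h := cb_upper (a + 1)
    have e0 : (2 * a + 1) / 2 = a := by omega
    have e1 : Nat.centralBinom (a + 1) = 2 * (2 * a + 1).choose a := by
      rw [Nat.centralBinom, show 2 * (a + 1) = (2 * a + 1) + 1 by ring, Nat.choose_succ_succ]
      have : (2 * a + 1).choose (a + 1) = (2 * a + 1).choose a := by
        rw [← Nat.choose_symm (by omega : a + 1 ≤ 2 * a + 1)]
        congr 1
        omega
      rw [this]
      ring
    rw [e0]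
    rw [e1] at h
    have e2 : (16 : ℕ) ^ (a + 1) = 4 * 4 ^ (2 * a + 1) := by
      rw [show (16 : ℕ) = 4 ^ 2 by norm_num, ← pow_mul, ← pow_succ']
      congr 1
    rw [e2] at h
    nlinarith

theorem mid_lower (n : ℕ) : 4 ^ n ≤ 2 * (n + 1) * (n.choose (n / 2)) ^ 2 := by
  rcases Nat.even_or_odd' n with ⟨a, rfl | rfl⟩
  · rw [Nat.mul_div_cancel_left a (by norm_num)]
    have e : (4 : ℕ) ^ (2 * a) = 16 ^ a := by rw [pow_mul]; norm_num
    rw [e]
    rcases a with _ | a
    · simp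
    · have h := cb_lower a
      rw [Nat.centralBinom] at h
      nlinarith [Nat.zero_le (((2 * (a + 1)).choose (a + 1)) ^ 2)]
  · have h := cb_lower a
    have e0 : (2 * a + 1) / 2 = a := by omega
    have e1 : Nat.centralBinom (a + 1) = 2 * (2 * a + 1).choose a := by
      rw [Nat.centralBinom, show 2 * (a + 1) = (2 * a + 1) + 1 by ring, Nat.choose_succ_succ]
      have : (2 * a + 1).choose (a + 1) = (2 * a + 1).choose a := by
        rw [← Nat.choose_symm (by omega : a + 1 ≤ 2 * a + 1)]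
        congr 1
        omega
      rw [this]
      ring
    rw [e0]
    rw [e1] at h
    have e2 : (16 : ℕ) ^ (a + 1) = 4 * 4 ^ (2 * a + 1) := by
      rw [show (16 : ℕ) = 4 ^ 2 by norm_num, ← pow_mul, ← pow_succ']
      congr 1
    rw [e2] at h
    nlinarith

theorem choose_upper {n : ℕ} (hn : 1 ≤ n) (j : ℕ) : (n.choose j : ℝ) ≤ 2 ^ n / Real.sqrt n := by
  have h1 : (n.choose j : ℝ) ≤ n.choose (n / 2) := by exact_mod_cast Nat.choose_le_middle j n
  have h2 : ((n.choose (n / 2) : ℕ) : ℝ) ^ 2 * n ≤ 4 ^ n := by exact_mod_cast mid_upper n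
  refine h1.trans ?_
  have hn0 : (0 : ℝ) < n := by exact_mod_cast hn
  have hs := Real.sqrt_pos.2 hn0
  rw [le_div_iff₀ hs]
  apply le_of_sq_le_sq _ (by positivity)
  rw [mul_pow, Real.sq_sqrt hn0.le]
  refine h2.trans (le_of_eq ?_)
  rw [← pow_mul, mul_comm n 2, pow_mul]
  norm_num

/-- moving from the middle -/
theorem choose_move {n : ℕ} {x : ℝ} (hx0 : 0 ≤ x) (hx : x ≤ 1 / 2) (D : ℕ)
    (hD : (2 * D + 1 : ℝ) ≤ x * ((n / 2 : ℕ) + 1)) : ∀ i : ℕ, i ≤ D →
    (n.choose (n / 2) : ℝ) * Real.exp (-(2 * x * i)) ≤ n.choose (n / 2 + i) := by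
  intro i
  induction i with
  | zero => intro _; simp
  | succ i ih =>
    intro hi
    have h := ih (by omega)
    have h1 : n.choose (n / 2 + (i + 1)) * (n / 2 + i + 1) = n.choose (n / 2 + i) * (n - (n / 2 + i)) := by
      rw [← add_assoc]
      exact Nat.choose_succ_right_eq n (n / 2 + i)
    have hh : n / 2 + i ≤ n - (n / 2 + i) + (2 * i) := by omega
    set h0 := n / 2 with hh0
    have h2 : (n.choose (h0 + (i + 1)) : ℝ) * (h0 + i + 1) = n.choose (h0 + i) * ((n - (h0 + i) : ℕ) : ℝ) := by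
      exact_mod_cast h1
    have h3 : ((h0 : ℝ) + i) ≤ ((n - (h0 + i) : ℕ) : ℝ) + 2 * i := by exact_mod_cast hh
    have hpos : (0 : ℝ) < h0 + i + 1 := by positivity
    have hiD : (i : ℝ) + 1 ≤ D := by exact_mod_cast hi
    have h4 : (1 - x) * (h0 + i + 1) ≤ ((n - (h0 + i) : ℕ) : ℝ) := by
      have h5 : x * ((h0 : ℝ) + 1) ≤ x * (h0 + i + 1) := by
        apply mul_le_mul_of_nonneg_left _ hx0
        have : (0 : ℝ) ≤ i := Nat.cast_nonneg i
        linarith
      nlinarith
    have h6 : Real.exp (-(2 * x)) ≤ 1 - x := by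
      have h7 : Real.exp (-(2 * x)) ≤ 1 - 2 * x + (2 * x) ^ 2 / 2 := by
        have h8 := Real.one_sub_le_exp_neg (2 * x)
        have h9 : 1 + 2 * x + (2 * x) ^ 2 / 2 ≤ Real.exp (2 * x) :=
          Real.quadratic_le_exp_of_nonneg (by linarith)
        rw [Real.exp_neg]
        rw [inv_le_comm₀ (Real.exp_pos _) (by nlinarith)]
        refine le_trans ?_ h9
        rw [inv_le_comm₀ (by nlinarith) (by positivity)]
        rw [inv_eq_one_div, div_le_iff₀ (by positivity)]
        nlinarith [sq_nonneg (x ^ 2)]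
      nlinarith
    have h7 : (n.choose (h0 + i) : ℝ) * Real.exp (-(2 * x)) ≤ n.choose (h0 + (i + 1)) := by
      have h8 : (n.choose (h0 + i) : ℝ) * (1 - x) * (h0 + i + 1) ≤
          (n.choose (h0 + (i + 1)) : ℝ) * (h0 + i + 1) := by
        rw [h2, mul_assoc]
        exact mul_le_mul_of_nonneg_left h4 (Nat.cast_nonneg _)
      have h9 := le_of_mul_le_mul_right h8 hpos
      exact (mul_le_mul_of_nonneg_left h6 (Nat.cast_nonneg _)).trans h9
    have hexp : Real.exp (-(2 * x * ((i + 1 : ℕ) : ℝ))) = Real.exp (-(2 * x * i)) * Real.exp (-(2 * x)) := by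
      rw [← Real.exp_add]
      congr 1
      push_cast
      ring
    calc (n.choose h0 : ℝ) * Real.exp (-(2 * x * ((i + 1 : ℕ) : ℝ)))
        = (n.choose h0 : ℝ) * Real.exp (-(2 * x * i)) * Real.exp (-(2 * x)) := by
          rw [hexp]; ring
      _ ≤ (n.choose (h0 + i) : ℝ) * Real.exp (-(2 * x)) :=
          mul_le_mul_of_nonneg_right h (Real.exp_pos _).le
      _ ≤ _ := h7

theorem choose_lower {B : ℝ} (hB : 0 < B) : ∃ c : ℝ, 0 < c ∧ ∃ N0 : ℕ, ∀ n : ℕ, N0 ≤ n → ∀ j : ℕ, j ≤ n →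
    |(2 : ℝ) * j - n| ≤ B * Real.sqrt n → c * (2 ^ n / Real.sqrt n) ≤ n.choose j := by
  refine ⟨Real.exp (-(12 * (B + 2) ^ 2)) / 2, by positivity, ⌈(16 * (B + 2)) ^ 2⌉₊ + 4, ?_⟩
  intro n hn
  -- first for `j ≥ n / 2`
  have key : ∀ j : ℕ, j ≤ n → n / 2 ≤ j → |(2 : ℝ) * j - n| ≤ B * Real.sqrt n →
      Real.exp (-(12 * (B + 2) ^ 2)) / 2 * (2 ^ n / Real.sqrt n) ≤ n.choose j := by
    intro j hjn hj hjB
    have hnR : (16 * (B + 2)) ^ 2 ≤ n := by
      have h1 : ⌈(16 * (B + 2)) ^ 2⌉₊ ≤ n := by omega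
      exact (Nat.le_ceil _).trans (by exact_mod_cast h1)
    have hn4 : (4 : ℝ) ≤ n := by
      have : 4 ≤ n := by omega
      exact_mod_cast this
    have hn0 : (0 : ℝ) < n := by linarith
    set s := Real.sqrt n with hs
    have hs0 : 0 < s := Real.sqrt_pos.2 hn0
    have hss : s ^ 2 = n := Real.sq_sqrt hn0.le
    have hsB : 16 * (B + 2) ≤ s := Real.le_sqrt_of_sq_le hnR
    obtain ⟨i, rfl⟩ : ∃ i, j = n / 2 + i := ⟨j - n / 2, by omega⟩
    have hdiv : n ≤ 2 * (n / 2) + 1 := by omega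
    have hdiv' : 2 * (n / 2) ≤ n := by omega
    set h0 := n / 2 with hh0
    have hdR : (n : ℝ) ≤ 2 * h0 + 1 := by exact_mod_cast hdiv
    have hdR' : (2 : ℝ) * h0 ≤ n := by exact_mod_cast hdiv'
    have hiB : 2 * (i : ℝ) ≤ B * s + 1 := by
      have h1 := (abs_le.1 hjB).2
      push_cast at h1
      linarith
    set x : ℝ := (2 * i + 1) / (h0 + 1) with hx
    have hh1 : (0 : ℝ) < (h0 : ℝ) + 1 := by positivity
    have hx0 : 0 ≤ x := by positivity
    have hxle : x ≤ 2 * (B + 2) / s := by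
      rw [hx, div_le_div_iff₀ hh1 hs0]
      have h2 : 2 * (i : ℝ) + 1 ≤ (B + 2) * s := by nlinarith
      have h3 : s * s ≤ 2 * ((h0 : ℝ) + 1) := by nlinarith
      nlinarith
    have hx12 : x ≤ 1 / 2 := by
      refine hxle.trans ?_
      rw [div_le_div_iff₀ hs0 (by norm_num)]
      linarith
    have hm := choose_move (n := n) hx0 hx12 i (by rw [hx, ← hh0, div_mul_cancel₀ _ hh1.ne']) i le_rfl
    rw [← hh0] at hm
    refine le_trans ?_ hm
    have hexp : Real.exp (-(12 * (B + 2) ^ 2)) ≤ Real.exp (-(2 * x * i)) := by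
      apply Real.exp_le_exp.2
      have h2 : (i : ℝ) ≤ (B + 2) * s := by nlinarith
      have h3 : x * i ≤ 2 * (B + 2) / s * ((B + 2) * s) :=
        mul_le_mul hxle h2 (Nat.cast_nonneg _) (by positivity)
      have h4 : 2 * (B + 2) / s * ((B + 2) * s) = 2 * (B + 2) ^ 2 := by field_simp
      rw [h4] at h3
      nlinarith [sq_nonneg (B + 2)]
    have hmid : 2 ^ n / s / 2 ≤ (n.choose h0 : ℝ) := by
      have h2 : (4 : ℝ) ^ n ≤ 2 * (n + 1) * (n.choose h0 : ℝ) ^ 2 := by exact_mod_cast mid_lower n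
      apply le_of_sq_le_sq _ (Nat.cast_nonneg _)
      rw [div_pow, div_pow, hss, ← pow_mul, mul_comm n 2, pow_mul]
      rw [div_div, div_le_iff₀ (by positivity)]
      have e : ((2 : ℝ) ^ 2) ^ n = 4 ^ n := by norm_num
      rw [e]
      refine h2.trans ?_
      have h5 : 0 ≤ (n.choose h0 : ℝ) ^ 2 := by positivity
      nlinarith
    calc Real.exp (-(12 * (B + 2) ^ 2)) / 2 * (2 ^ n / s)
        = (2 ^ n / s / 2) * Real.exp (-(12 * (B + 2) ^ 2)) := by ring
      _ ≤ (n.choose h0 : ℝ) * Real.exp (-(2 * x * i)) :=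
          mul_le_mul hmid hexp (Real.exp_pos _).le (Nat.cast_nonneg _)
  intro j hjn hjB
  rcases le_or_gt (n / 2) j with h | h
  · exact key j hjn h hjB
  · rw [← Nat.choose_symm hjn]
    apply key (n - j) (by omega) (by omega)
    rw [Nat.cast_sub hjn]
    have e : (2 : ℝ) * (n - j) - n = -(2 * j - n) := by ring
    rw [e, abs_neg]
    exact hjB

/-- the probability of the sum `T` -/
noncomputable def pk (k T : ℕ) : ℝ := ∑ w ∈ FWT (3 * k) k T, wwt w

theorem pk_eq {k T : ℕ} (hk : 1 ≤ k) (hT1 : 1 ≤ T) (hT : T ≤ 3 * k) :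
    pk k T = ((T - 1).choose (k - 1) : ℝ) / 2 ^ T := by
  unfold pk
  rw [sum_congr rfl (fun w hw => wwt_of_mem hw), sum_const, nsmul_eq_mul]
  obtain ⟨n, rfl⟩ : ∃ n, k = n + 1 := ⟨k - 1, by omega⟩
  obtain ⟨S, rfl⟩ : ∃ S, T = S + 1 := ⟨T - 1, by omega⟩
  rw [card_FWT _ n S (by omega), Nat.add_sub_cancel, Nat.add_sub_cancel]
  rw [one_div, inv_pow, ← div_eq_mul_inv]

theorem pk_nonneg (k T : ℕ) : 0 ≤ pk k T := sum_nonneg fun w _ => by unfold wwt; positivity

theorem pk_upper {k T : ℕ} (hk : 1 ≤ k) (h1 : (39 * k + 19) / 20 ≤ T) (h2 : T ≤ 41 * k / 20) :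
    pk k T ≤ 1 / Real.sqrt k := by
  have hT2 : 2 ≤ T := by omega
  rw [pk_eq hk (by omega) (by omega)]
  have h := choose_upper (n := T - 1) (by omega) (k - 1)
  have hkT : (k : ℝ) ≤ 4 * ((T - 1 : ℕ) : ℝ) := by
    have : k ≤ 4 * (T - 1) := by omega
    exact_mod_cast this
  have hk0 : (0 : ℝ) < k := by exact_mod_cast hk
  have hT0 : (0 : ℝ) < ((T - 1 : ℕ) : ℝ) := by
    have : 0 < T - 1 := by omega
    exact_mod_cast this
  have hs : Real.sqrt k ≤ 2 * Real.sqrt ((T - 1 : ℕ) : ℝ) := by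
    rw [Real.sqrt_le_left (by positivity), mul_pow, Real.sq_sqrt hT0.le]
    linarith
  have hsk := Real.sqrt_pos.2 hk0
  have hsT := Real.sqrt_pos.2 hT0
  have e : (2 : ℝ) ^ T = 2 * 2 ^ (T - 1) := by
    rw [← pow_succ']
    congr 1
    omega
  rw [div_le_div_iff₀ (by positivity) hsk, one_mul, e]
  calc ((T - 1).choose (k - 1) : ℝ) * Real.sqrt k
      ≤ 2 ^ (T - 1) / Real.sqrt ((T - 1 : ℕ) : ℝ) * (2 * Real.sqrt ((T - 1 : ℕ) : ℝ)) :=
        mul_le_mul h hs hsk.le (by positivity)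
    _ = 2 * 2 ^ (T - 1) := by field_simp

theorem pk_lower {B : ℝ} (hB : 0 < B) : ∃ c : ℝ, 0 < c ∧ ∃ K0 : ℕ, 1 ≤ K0 ∧ ∀ k : ℕ, K0 ≤ k → ∀ T : ℕ,
    |(T : ℝ) - 2 * k| ≤ B * Real.sqrt k →
    (39 * k + 19) / 20 ≤ T ∧ T ≤ 41 * k / 20 ∧ c / Real.sqrt k ≤ pk k T := by
  obtain ⟨c, hc, N0, h⟩ := choose_lower (show 0 < B + 1 by positivity)
  refine ⟨c / 4, by positivity, max (N0 + 1) (⌈(40 * B) ^ 2⌉₊ + 100), by omega, ?_⟩
  intro k hk T hT
  have hkN : N0 + 1 ≤ k := (le_max_left _ _).trans hk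
  have hk2 : ⌈(40 * B) ^ 2⌉₊ + 100 ≤ k := (le_max_right _ _).trans hk
  have hkR : (40 * B) ^ 2 ≤ k := by
    have h1 : ⌈(40 * B) ^ 2⌉₊ ≤ k := by omega
    exact (Nat.le_ceil _).trans (by exact_mod_cast h1)
  have hk100 : (100 : ℝ) ≤ k := by
    have : 100 ≤ k := by omega
    exact_mod_cast this
  have hk0 : (0 : ℝ) < k := by linarith
  set s := Real.sqrt k with hs
  have hs0 : 0 < s := Real.sqrt_pos.2 hk0
  have hss : s ^ 2 = k := Real.sq_sqrt hk0.le
  have hs1 : 1 ≤ s := by
    apply Real.le_sqrt_of_sq_le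
    linarith
  have hsB : 40 * B ≤ s := Real.le_sqrt_of_sq_le hkR
  have hBk : B * s ≤ k / 40 := by nlinarith
  obtain ⟨h1, h2⟩ := abs_le.1 hT
  have hTk : (k : ℝ) ≤ T - 1 := by nlinarith
  have hT1 : k + 1 ≤ T := by
    have : (k : ℝ) + 1 ≤ T := by linarith
    exact_mod_cast this
  have c1 : (39 * k + 19) / 20 ≤ T := by
    have : (39 : ℝ) * k + 19 ≤ 20 * T + 19 := by linarith
    have h3 : 39 * k + 19 ≤ 20 * T + 19 := by exact_mod_cast this
    omega
  have c2 : T ≤ 41 * k / 20 := by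
    have : (20 : ℝ) * T ≤ 41 * k := by linarith
    have h3 : 20 * T ≤ 41 * k := by exact_mod_cast this
    omega
  refine ⟨c1, c2, ?_⟩
  rw [pk_eq (by omega) (by omega) (by omega)]
  have hTn : ((T - 1 : ℕ) : ℝ) = T - 1 := by rw [Nat.cast_sub (by omega)]; norm_num
  have hkn : ((k - 1 : ℕ) : ℝ) = k - 1 := by rw [Nat.cast_sub (by omega)]; norm_num
  have hT0 : (0 : ℝ) < ((T - 1 : ℕ) : ℝ) := by rw [hTn]; linarith
  have hst : s ≤ Real.sqrt ((T - 1 : ℕ) : ℝ) := Real.sqrt_le_sqrt (by rw [hTn]; exact hTk)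
  have hst2 : Real.sqrt ((T - 1 : ℕ) : ℝ) ≤ 2 * s := by
    rw [Real.sqrt_le_left (by positivity), mul_pow, hss, hTn]
    linarith
  have hb : B * s + 1 ≤ (B + 1) * Real.sqrt ((T - 1 : ℕ) : ℝ) := by
    have := mul_le_mul_of_nonneg_left hst (show 0 ≤ B + 1 by positivity)
    nlinarith
  have hh := h (T - 1) (by omega) (k - 1) (by omega) (by
    rw [abs_le]
    constructor <;> linarith [hTn, hkn, hb])
  have hsT := Real.sqrt_pos.2 hT0
  have e : (2 : ℝ) ^ T = 2 * 2 ^ (T - 1) := by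
    rw [← pow_succ']
    congr 1
    omega
  rw [e, div_le_div_iff₀ hs0 (by positivity)]
  have h5 : c * (2 ^ (T - 1) / (2 * s)) ≤ ((T - 1).choose (k - 1) : ℝ) := by
    refine le_trans ?_ hh
    apply mul_le_mul_of_nonneg_left _ hc.le
    exact div_le_div_of_nonneg_left (by positivity) hsT hst2
  have h6 : c * (2 ^ (T - 1) / (2 * s)) * s = c / 2 * 2 ^ (T - 1) := by field_simp
  have h7 := mul_le_mul_of_nonneg_right h5 hs0.le
  rw [h6] at h7
  linarith

/-- sums over the words of a stage by their sums -/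
theorem sum_WK (k : ℕ) (f : ℕ → ℝ) :
    ∑ w ∈ WK k, wwt w * f w.sum = ∑ T ∈ Icc ((39 * k + 19) / 20) (41 * k / 20), pk k T * f T := by
  unfold WK
  rw [sum_GW]
  apply sum_congr rfl
  intro T _
  unfold pk
  rw [sum_mul]
  apply sum_congr rfl
  intro w hw
  rw [(mem_FWT.1 hw).2]

end Pool.Agent.TH977.LL
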