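import Pool.Agent.TH977.LL.Harm
import Pool.Agent.H499R2.NDTao

/-! The odd steps and the steps of the map `T`. -/

set_option autoImplicit false

namespace Pool.Agent.TH977.LL

open Pool.Agent.H320R2.PD Pool.Agent.H499R2.ND Pool.Agent.TH977.IP Finset

theorem Td_half (y : ℤ) : Td 1 (2 * y) = y := by
  unfold Td
  rw [if_pos (by omega)]
  omega

theorem Td_pow (y : ℤ) (n : ℕ) : ∀ i : ℕ, (Td 1)^[i] (2 ^ (n + i) * y) = 2 ^ n * y := by
  intro i
  induction i with
  | zero => simp
  | succ i ih =>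
    rw [Function.iterate_succ_apply]
    have : (2 : ℤ) ^ (n + (i + 1)) * y = 2 * (2 ^ (n + i) * y) := by
      rw [← add_assoc, pow_succ]; ring
    rw [this, Td_half, ih]

/-- one odd step -/
theorem Td_run {x : ℤ} (hx : Odd x) : (Td 1)^[ex 1 x] x = Sy 1 x ∧ Odd (Sy 1 x) ∧ 1 ≤ ex 1 x ∧
    ∀ i, 1 ≤ i → i < ex 1 x → Even ((Td 1)^[i] x) := by
  obtain ⟨h1, h2, h3⟩ := Sy_spec (d := 1) odd_one isCoprime_one_left hx
  have hT : Td 1 x = 2 ^ (ex 1 x - 1) * Sy 1 x := by
    have h4 : (2 : ℤ) ^ ex 1 x = 2 * 2 ^ (ex 1 x - 1) := by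
      rw [← pow_succ']
      congr 1
      omega
    unfold Td
    have h5 : ¬ x % 2 = 0 := by
      rcases hx with ⟨q, hq⟩
      omega
    rw [if_neg h5, h3, h4, mul_assoc]
    exact Int.mul_ediv_cancel_left _ (by norm_num)
  have key : ∀ i, i + 1 ≤ ex 1 x → (Td 1)^[i + 1] x = 2 ^ (ex 1 x - 1 - i) * Sy 1 x := by
    intro i hi
    rw [Function.iterate_succ_apply, hT]
    have := Td_pow (Sy 1 x) (ex 1 x - 1 - i) i
    rw [show ex 1 x - 1 - i + i = ex 1 x - 1 by omega] at this
    exact this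
  refine ⟨?_, h2, h1, ?_⟩
  · have h6 := key (ex 1 x - 1) (by omega)
    rw [show ex 1 x - 1 + 1 = ex 1 x by omega, show ex 1 x - 1 - (ex 1 x - 1) = 0 by omega, pow_zero, one_mul]
      at h6
    exact h6
  · intro i hi1 hi2
    obtain ⟨i', rfl⟩ : ∃ i', i = i' + 1 := ⟨i - 1, by omega⟩
    rw [key i' (by omega)]
    obtain ⟨q, hq⟩ : ∃ q, ex 1 x - 1 - i' = q + 1 := ⟨ex 1 x - 1 - i' - 1, by omega⟩
    rw [hq, pow_succ]
    exact ⟨2 ^ q * Sy 1 x, by ring⟩

theorem es_succ' (x : ℤ) (K : ℕ) : es x (K + 1) = ex 1 x + es (Sy 1 x) K := by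
  have h := es_add x 1 K
  rw [add_comm 1 K] at h
  rw [h]
  unfold es
  simp

/-- the first hit of one for the odd steps gives the first hit for `T` -/
theorem hit_of_HS (K : ℕ) : ∀ x : ℤ, Odd x → (∀ i < K, (Sy 1)^[i] x ≠ 1) →
    (Td 1)^[es x K] x = (Sy 1)^[K] x ∧ ∀ t < es x K, (Td 1)^[t] x ≠ 1 := by
  induction K with
  | zero =>
    intro x hx _
    simp [es]
  | succ K ih =>
    intro x hx hne
    obtain ⟨h1, h2, h3, h4⟩ := Td_run hx
    obtain ⟨g1, g2⟩ := ih (Sy 1 x) h2 (fun i hi => by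
      have := hne (i + 1) (by omega)
      rwa [Function.iterate_succ_apply] at this)
    rw [es_succ', Function.iterate_succ_apply, ← g1]
    constructor
    · rw [add_comm, Function.iterate_add_apply, h1]
    · intro t ht
      rcases lt_or_ge t (ex 1 x) with h5 | h5
      · rcases Nat.eq_zero_or_pos t with h6 | h6
        · rw [h6]
          exact hne 0 (by omega)
        · intro hcon
          have h7 := h4 t h6 h5
          rw [hcon] at h7
          exact absurd h7 (by decide)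
      · obtain ⟨t', rfl⟩ : ∃ t', t = t' + ex 1 x := ⟨t - ex 1 x, by omega⟩
        rw [Function.iterate_add_apply, h1]
        exact g2 t' (by omega)

/-- the first hit of one for `T` gives the first hit for the odd steps -/
theorem HS_of_hit (k : ℕ) : ∀ x : ℤ, Odd x → (Td 1)^[k] x = 1 → (∀ i < k, (Td 1)^[i] x ≠ 1) →
    ∃ K : ℕ, (Sy 1)^[K] x = 1 ∧ (∀ i < K, (Sy 1)^[i] x ≠ 1) ∧ es x K = k := by
  induction k using Nat.strong_induction_on with
  | _ k ih =>
    intro x hx h0 hne
    by_cases hx1 : x = 1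
    · have hk : k = 0 := by
        by_contra hcon
        exact hne 0 (by omega) hx1
      exact ⟨0, hx1, by simp, by simp [es, hk]⟩
    · obtain ⟨h1, h2, h3, h4⟩ := Td_run hx
      have hk : ex 1 x ≤ k := by
        by_contra hcon
        rcases Nat.eq_zero_or_pos k with h6 | h6
        · rw [h6] at h0
          exact hx1 h0
        · have h7 := h4 k h6 (by omega)
          rw [h0] at h7
          exact absurd h7 (by decide)
      obtain ⟨k', rfl⟩ : ∃ k', k = k' + ex 1 x := ⟨k - ex 1 x, by omega⟩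
      rw [Function.iterate_add_apply, h1] at h0
      obtain ⟨K, g1, g2, g3⟩ := ih k' (by omega) (Sy 1 x) h2 h0 (fun i hi => by
        have := hne (i + ex 1 x) (by omega)
        rwa [Function.iterate_add_apply, h1] at this)
      refine ⟨K + 1, by rw [Function.iterate_succ_apply]; exact g1, ?_, by rw [es_succ', g3, add_comm]⟩
      intro i hi
      rcases Nat.eq_zero_or_pos i with h6 | h6
      · rw [h6]
        exact hx1
      · obtain ⟨i', rfl⟩ : ∃ i', i = i' + 1 := ⟨i - 1, by omega⟩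
        rw [Function.iterate_succ_apply]
        exact g2 i' (by omega)

/-- the total stopping time of an odd number -/
theorem hit_iff_HS {x : ℤ} (hx : Odd x) (k : ℕ) :
    ((Td 1)^[k] x = 1 ∧ ∀ i < k, (Td 1)^[i] x ≠ 1) ↔ x ∈ HS 0 1 k := by
  constructor
  · rintro ⟨h1, h2⟩
    obtain ⟨K, g1, g2, g3⟩ := HS_of_hit k x hx h1 h2
    exact ⟨K, g1, g2, by rw [g3]; simp⟩
  · rintro ⟨K, g1, g2, g3⟩
    obtain ⟨h1, h2⟩ := hit_of_HS K x hx g2
    have h3 : es x K = k := by
      have : ((es x K : ℕ) : ℤ) = k := by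
        rw [← g3]; simp
      exact_mod_cast this
    rw [h3, g1] at h1
    rw [h3] at h2
    exact ⟨h1, h2⟩

end Pool.Agent.TH977.LL
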