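import Pool.Agent.TH977.LL.Slow

/-! Residue classes modulo powers of three inside the cells. -/

set_option autoImplicit false

namespace Pool.Agent.TH977.LL

open Pool.Agent.H320R2.PD Pool.Agent.H499R2.ND Pool.Agent.TH977.IP Finset Filter Topology

open Pool.Agent.H499R2.HL (H H_two H_of_two odn_two H_unique)
open Pool.Agent.H499R2.LT (odn)

theorem win_split_b (S : Set ℤ) (m : ℕ) (b : ℤ) {A : ℝ} (hA : 0 < A) : ∀ L : ℕ,
    ((cls S (A / 2 ^ L) (2 * A) m 1 b).card : ℝ) =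
      ∑ w ∈ range (L + 1), ((cls S (A / 2 ^ w) (2 * (A / 2 ^ w)) m 1 b).card : ℝ) := by
  intro L
  induction L with
  | zero => simp
  | succ L ih =>
    rw [sum_range_succ, ← ih]
    have e : 2 * (A / 2 ^ (L + 1)) = A / 2 ^ L := by rw [pow_succ]; field_simp
    have h1 : A / 2 ^ (L + 1) ≤ A / 2 ^ L := by
      apply div_le_div_of_nonneg_left hA.le (by positivity)
      exact pow_le_pow_right₀ (by norm_num) (by omega)
    have h2 : A / 2 ^ L ≤ 2 * A := by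
      have : A / 2 ^ L ≤ A := div_le_self hA.le (one_le_pow₀ (by norm_num))
      linarith
    rw [cls_split S h1 h2 m 1 b, e]
    push_cast
    ring

theorem XX_pow (i e : ℕ) : XX ((i : ℤ), (e : ℤ)) = 2 ^ (i + e) / 3 ^ i := by
  unfold XX
  have h3 : (3 : ℝ) ^ i = Real.exp (i * Real.log 3) := by
    rw [mul_comm, Real.exp_mul, Real.exp_log (by norm_num), Real.rpow_natCast]
  have h2 : (2 : ℝ) ^ (i + e) = Real.exp (((i + e : ℕ) : ℝ) * Real.log 2) := by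
    rw [mul_comm, Real.exp_mul, Real.exp_log (by norm_num), Real.rpow_natCast]
  rw [h3, h2, ← Real.exp_sub]
  push_cast
  rfl

/-- the points of a class -/
noncomputable def ptsb (c i e m : ℕ) (b : ℤ) : Finset ℤ :=
  cls (H2 ((i : ℤ), (e : ℤ))) (XX ((i : ℤ), (e : ℤ)) / 2 ^ c) (2 * (XX ((i : ℤ), (e : ℤ)) * 2 ^ c)) m 1 b

/-- equidistribution of the odd points -/
theorem ptsb_equi (c m : ℕ) : ∃ C : ℝ, 0 < C ∧ ∃ I : ℕ, ∀ i e : ℕ, I ≤ i → |(e : ℝ) - i| ≤ i / 20 → ∀ b b' : ℤ,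
    ((ptsb c i e m b).card : ℝ) ≤ (ptsb c i e m b').card + C / i * XX ((i : ℤ), (e : ℤ)) := by
  obtain ⟨C1, hC1, herr⟩ := err_rateN 1
  refine ⟨3 * (5 * C1) * 2 ^ c, by positivity, 10000 * (c + 1) + 100 * m ^ 2, fun i e hi he b b' => ?_⟩
  have hiA : 10000 * (c + 1) ≤ i := le_trans (Nat.le_add_right _ _) hi
  have hiB : 100 * m ^ 2 ≤ i := le_trans (Nat.le_add_left _ _) hi
  clear hi
  have hiR : 10000 * ((c : ℝ) + 1) ≤ i := by exact_mod_cast hiA
  have hiR2 : 100 * (m : ℝ) ^ 2 ≤ i := by exact_mod_cast hiB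
  have hc0 : (0 : ℝ) ≤ c := Nat.cast_nonneg _
  have hi0 : (0 : ℝ) < i := by linarith
  have hX := XX_pos ((i : ℤ), (e : ℤ))
  set X := XX ((i : ℤ), (e : ℤ)) with hXdef
  have hsp : ∀ b : ℤ, ((ptsb c i e m b).card : ℝ) =
      ∑ w ∈ range (2 * c + 1), ((cls (H2 ((i : ℤ), (e : ℤ))) (X * 2 ^ c / 2 ^ w) (2 * (X * 2 ^ c / 2 ^ w)) m 1 b).card : ℝ) := by
    intro b
    have h := win_split_b (H2 ((i : ℤ), (e : ℤ))) m b (A := X * 2 ^ c) (by positivity) (2 * c)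
    have e1 : X * 2 ^ c / 2 ^ (2 * c) = X / 2 ^ c := by
      rw [two_mul, pow_add]; field_simp
    rw [e1] at h
    exact h
  rw [hsp b, hsp b']
  have h1 : ∀ w ∈ range (2 * c + 1),
      ((cls (H2 ((i : ℤ), (e : ℤ))) (X * 2 ^ c / 2 ^ w) (2 * (X * 2 ^ c / 2 ^ w)) m 1 b).card : ℝ) ≤
      (cls (H2 ((i : ℤ), (e : ℤ))) (X * 2 ^ c / 2 ^ w) (2 * (X * 2 ^ c / 2 ^ w)) m 1 b').card +
        3 * (5 * C1) / i * X * (2 ^ c / 2 ^ w / 2) := by
    intro w hw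
    obtain ⟨b1, b2⟩ := scale_log (by omega) he hw
    rw [← hXdef] at b1 b2
    have hA : 0 < X * 2 ^ c / 2 ^ w := by positivity
    set A := X * 2 ^ c / 2 ^ w with hAdef
    obtain ⟨k, hk⟩ : ∃ k : ℕ, k = ⌊Real.log A / 2⌋₊ := ⟨_, rfl⟩
    have hk1 : (k : ℝ) ≤ Real.log A / 2 := by rw [hk]; exact Nat.floor_le (by linarith)
    have hk2 : Real.log A / 6 ≤ k := by
      have : Real.log A / 2 < k + 1 := by rw [hk]; exact Nat.lt_floor_add_one _
      linarith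
    obtain ⟨m', hm'⟩ : ∃ m' : ℕ, m' = ⌊Real.sqrt (0.8 * Real.log A)⌋₊ := ⟨_, rfl⟩
    obtain ⟨g1, g2, g3⟩ := herr A hA (by linarith) k m m' (by linarith) hk2 hk1 hm'
    have g4 := equiF hA (H2_Pth ((i : ℤ), (e : ℤ)) hA (by linarith) hk1) g1 g2 (m := m) b b'
    refine g4.trans (add_le_add_right ?_ _)
    rw [pow_one] at g3
    have g5 : C1 / Real.log A ≤ 5 * C1 / i := by
      rw [div_le_div_iff₀ (by linarith) hi0]
      nlinarith
    have h3 : (1 : ℝ) ≤ 3 ^ m := one_le_pow₀ (by norm_num)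
    have g6 : A / (2 * 3 ^ m) ≤ A / 2 := by
      apply div_le_div_of_nonneg_left hA.le (by norm_num)
      linarith
    have g7 : 3 * Err 1 A k m m' ≤ 3 * (5 * C1 / i) := by linarith
    have g8 : 3 * Err 1 A k m m' * (A / (2 * 3 ^ m)) ≤ 3 * (5 * C1 / i) * (A / 2) := by
      apply mul_le_mul g7 g6 (by positivity) (by positivity)
    refine g8.trans (le_of_eq ?_)
    rw [hAdef]
    ring
  refine (sum_le_sum h1).trans ?_
  rw [sum_add_distrib, ← mul_sum]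
  apply add_le_add_right
  have h5 := mul_le_mul_of_nonneg_left (geo2 c (2 * c + 1)) (show 0 ≤ 3 * (5 * C1) / (i : ℝ) * X by positivity)
  refine h5.trans (le_of_eq ?_)
  ring

/-- the class `b` modulo `3 ^ m` in a cell -/
def Wb (l i m : ℕ) (b : ℤ) : Set ℕ := {n : ℕ | n ∈ W l i ∧ (3 : ℤ) ^ m ∣ (n : ℤ) - b}

theorem Wb_finite (l i m : ℕ) (b : ℤ) : (Wb l i m b).Finite := (W_finite l i).subset fun _ h => h.1

theorem odd_cardb {c : ℕ} (hc : ∀ n l i : ℕ, n ∈ W l i →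
    Real.exp (l * Real.log 2 - i * Real.log 3) / 2 ^ c ≤ n ∧ (n : ℝ) ≤ Real.exp (l * Real.log 2 - i * Real.log 3) * 2 ^ c)
    (i e m : ℕ) (b : ℤ) : {n : ℕ | Odd n ∧ n ∈ Wb (i + e) i m b}.ncard = (ptsb c i e m b).card := by
  have hX : XX ((i : ℤ), (e : ℤ)) = Real.exp (((i + e : ℕ) : ℝ) * Real.log 2 - i * Real.log 3) := by
    unfold XX
    push_cast
    rfl
  have e1 : {n : ℕ | Odd n ∧ n ∈ Wb (i + e) i m b} = (fun x : ℤ => x.toNat) '' (ptsb c i e m b : Set ℤ) := by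
    ext n
    rw [Set.mem_image]
    constructor
    · rintro ⟨h1, h2, h5⟩
      refine ⟨(n : ℤ), ?_, by simp⟩
      rw [Finset.mem_coe]
      unfold ptsb
      rw [mem_cls]
      obtain ⟨g1, g2⟩ := hc n (i + e) i h2
      rw [← hX] at g1 g2
      have hn0 : (0 : ℝ) < n := by exact_mod_cast h2.1
      refine ⟨⟨by exact_mod_cast g1, by push_cast; linarith⟩, by exact_mod_cast h1, ?_, by rw [one_mul]; exact h5⟩
      have := (odd_iff_H2 h1 (i + e) i).1 h2.2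
      rwa [show ((i + e : ℕ) : ℤ) - i = e by push_cast; ring] at this
    · rintro ⟨x, hx, rfl⟩
      rw [Finset.mem_coe] at hx
      unfold ptsb at hx
      rw [mem_cls] at hx
      obtain ⟨⟨h1, h2⟩, h3, h4, h5⟩ := hx
      have hXp := XX_pos ((i : ℤ), (e : ℤ))
      have hx0 : (0 : ℝ) < x := lt_of_lt_of_le (by positivity) h1
      have hx0' : 0 < x := by exact_mod_cast hx0
      obtain ⟨n, rfl⟩ := Int.eq_ofNat_of_zero_le hx0'.le
      simp only [Int.toNat_natCast]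
      have hn : Odd n := by exact_mod_cast h3
      rw [one_mul] at h5
      refine ⟨hn, ⟨hn.pos, ?_⟩, h5⟩
      apply (odd_iff_H2 hn (i + e) i).2
      rwa [show ((i + e : ℕ) : ℤ) - i = e by push_cast; ring]
  rw [e1, Set.InjOn.ncard_image, Set.ncard_coe_finset]
  intro y hy z hz hyz
  have hXp := XX_pos ((i : ℤ), (e : ℤ))
  rw [Finset.mem_coe] at hy hz
  unfold ptsb at hy hz
  rw [mem_cls] at hy hz
  have hy0 : (0 : ℝ) < y := lt_of_lt_of_le (by positivity) hy.1.1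
  have hz0 : (0 : ℝ) < z := lt_of_lt_of_le (by positivity) hz.1.1
  have hy1 : 0 < y := by exact_mod_cast hy0
  have hz1 : 0 < z := by exact_mod_cast hz0
  simp only at hyz
  omega

/-- the even numbers of a class -/
theorem Wb_step (l i m : ℕ) {b b2 : ℤ} (hb : (3 : ℤ) ^ m ∣ 2 * b2 - b) :
    (Wb (l + 1) i m b).ncard = {n : ℕ | Odd n ∧ n ∈ Wb (l + 1) i m b}.ncard + (Wb l i m b2).ncard := by
  have hcop : IsCoprime ((3 : ℤ) ^ m) 2 := by
    apply IsCoprime.pow_left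
    exact ⟨1, -1, by norm_num⟩
  have hiff : ∀ n : ℕ, (3 : ℤ) ^ m ∣ ((2 * n : ℕ) : ℤ) - b ↔ (3 : ℤ) ^ m ∣ (n : ℤ) - b2 := by
    intro n
    have e : ((2 * n : ℕ) : ℤ) - b = 2 * ((n : ℤ) - b2) + (2 * b2 - b) := by push_cast; ring
    rw [e, dvd_add_left hb]
    exact ⟨fun h => hcop.dvd_of_dvd_mul_left h, fun h => h.mul_left 2⟩
  have e : Wb (l + 1) i m b = {n : ℕ | Odd n ∧ n ∈ Wb (l + 1) i m b} ∪ (fun n => 2 * n) '' Wb l i m b2 := by
    ext n
    constructor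
    · intro hn
      rcases Nat.even_or_odd n with h | h
      · right
        obtain ⟨m1, hm⟩ := h
        have hm' : n = 2 * m1 := by omega
        rw [hm'] at hn
        obtain ⟨⟨h1, h2, h3⟩, h6⟩ := hn
        obtain ⟨k', hk', h4⟩ := H_of_two h2
        have : k' = l := by omega
        rw [this] at h4
        rw [odn_two] at h3
        exact ⟨m1, ⟨⟨by omega, h4, h3⟩, (hiff m1).1 h6⟩, hm'.symm⟩
      · exact Or.inl ⟨h, hn⟩
    · rintro (⟨_, h⟩ | ⟨m1, ⟨⟨h1, h2, h3⟩, h6⟩, rfl⟩)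
      · exact h
      · exact ⟨⟨by simp only; omega, H_two h2, by rw [odn_two]; exact h3⟩, (hiff m1).2 h6⟩
  have hf1 : {n : ℕ | Odd n ∧ n ∈ Wb (l + 1) i m b}.Finite := (Wb_finite (l + 1) i m b).subset fun n hn => hn.2
  have hf2 : ((fun n => 2 * n) '' Wb l i m b2).Finite := (Wb_finite l i m b2).image _
  have hdis : Disjoint {n : ℕ | Odd n ∧ n ∈ Wb (l + 1) i m b} ((fun n => 2 * n) '' Wb l i m b2) := by
    rw [Set.disjoint_left]
    rintro n ⟨h1, _⟩ ⟨m1, _, h2⟩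
    simp only at h2
    rw [Nat.odd_iff] at h1
    omega
  conv_lhs => rw [e]
  rw [Set.ncard_union_eq hdis hf1 hf2, Set.InjOn.ncard_image]
  intro a _ b _ hab
  simp only at hab
  omega

theorem half_class (m : ℕ) (b : ℤ) : ∃ b2 : ℤ, (3 : ℤ) ^ m ∣ 2 * b2 - b := by
  have hcop : IsCoprime ((3 : ℤ) ^ m) 2 := by
    apply IsCoprime.pow_left
    exact ⟨1, -1, by norm_num⟩
  obtain ⟨u, v, h⟩ := hcop
  refine ⟨v * b, ⟨-u * b, ?_⟩⟩
  linear_combination (-1 : ℤ) * b * (-1) * h - 0 * h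

theorem Wb_iter (i m l0 L : ℕ) {D : ℝ} (hD0 : 0 ≤ D) (hD : ∀ l' : ℕ, l0 < l' → l' ≤ L → ∀ b b' : ℤ,
    ({n : ℕ | Odd n ∧ n ∈ Wb l' i m b}.ncard : ℝ) ≤ {n : ℕ | Odd n ∧ n ∈ Wb l' i m b'}.ncard + D * 2 ^ l') :
    ∀ s : ℕ, l0 + s ≤ L → ∀ b b' : ℤ, ((Wb (l0 + s) i m b).ncard : ℝ) ≤
      (Wb (l0 + s) i m b').ncard + D * 2 ^ (l0 + s + 1) + (W l0 i).ncard := by
  intro s
  induction s with
  | zero =>
    intro _ b b'
    have h1 : (Wb l0 i m b).ncard ≤ (W l0 i).ncard := Set.ncard_le_ncard (fun n h => h.1) (W_finite l0 i)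
    have h2 : ((Wb l0 i m b).ncard : ℝ) ≤ (W l0 i).ncard := by exact_mod_cast h1
    have h3 : 0 ≤ D * 2 ^ (l0 + 0 + 1) := by positivity
    have h4 : (0 : ℝ) ≤ (Wb (l0 + 0) i m b').ncard := Nat.cast_nonneg _
    rw [add_zero] at *
    linarith
  | succ s ih =>
    intro hs b b'
    obtain ⟨b2, hb2⟩ := half_class m b
    obtain ⟨b2', hb2'⟩ := half_class m b'
    rw [← add_assoc, Wb_step (l0 + s) i m hb2, Wb_step (l0 + s) i m hb2']
    have h1 := hD (l0 + s + 1) (by omega) (by omega) b b'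
    have h2 := ih (by omega) b2 b2'
    push_cast
    have e : D * 2 ^ (l0 + s + 1 + 1) = D * 2 ^ (l0 + s + 1) + D * 2 ^ (l0 + s + 1) := by rw [pow_succ]; ring
    rw [e]
    linarith

end Pool.Agent.TH977.LL
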