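import Pool.Agent.TH977.LL.Cls3

/-! Equidistribution of the cells modulo powers of three. -/

set_option autoImplicit false

namespace Pool.Agent.TH977.LL

open Pool.Agent.H320R2.PD Pool.Agent.H499R2.ND Pool.Agent.TH977.IP Finset Filter Topology

open Pool.Agent.H499R2.HL (H H_two H_of_two odn_two H_unique)
open Pool.Agent.H499R2.LT (odn)

theorem cell_equi {c : ℕ} (hc : ∀ n l i : ℕ, n ∈ W l i →
    Real.exp (l * Real.log 2 - i * Real.log 3) / 2 ^ c ≤ n ∧ (n : ℝ) ≤ Real.exp (l * Real.log 2 - i * Real.log 3) * 2 ^ c)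
    (m : ℕ) {B ε : ℝ} (hB : 0 < B) (hε : 0 < ε) : ∃ I : ℕ, ∀ i e : ℕ, I ≤ i → |(e : ℝ) - i| ≤ B * Real.sqrt i →
      ∀ b b' : ℤ, ((Wb (i + e) i m b).ncard : ℝ) ≤ (Wb (i + e) i m b').ncard + ε * (((i + e).choose i : ℝ) / 3 ^ i) := by
  obtain ⟨C, hC, I1, hequi⟩ := ptsb_equi c m
  obtain ⟨b0, hb0, I2, hlow⟩ := qq_low hB
  obtain ⟨M, hM⟩ : ∃ M : ℝ, M = 5 * 2 ^ c := ⟨_, rfl⟩
  have hM0 : 0 < M := by rw [hM]; positivity
  obtain ⟨S0, hS0⟩ : ∃ S0 : ℝ, S0 = 40 * B + (2 * C + 160 * M) / (2 * b0 * ε) := ⟨_, rfl⟩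
  have p1 : 0 < (2 * C + 160 * M) / (2 * b0 * ε) := by positivity
  refine ⟨I1 + I2 + ⌈S0 ^ 2⌉₊ + 1000, fun i e hi he b b' => ?_⟩
  have hi1000 : 1000 ≤ i := by omega
  have hiR : (1000 : ℝ) ≤ i := by exact_mod_cast hi1000
  have hi0 : (0 : ℝ) < i := by linarith
  have hS2 : S0 ^ 2 ≤ i := by
    refine (Nat.le_ceil _).trans ?_
    have : ⌈S0 ^ 2⌉₊ ≤ i := by omega
    exact_mod_cast this
  have hl := hlow i e (by omega) he
  set s := Real.sqrt i with hs
  have hs0 : 0 < s := Real.sqrt_pos.2 hi0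
  have hss : s ^ 2 = i := Real.sq_sqrt hi0.le
  have hS : S0 ≤ s := Real.le_sqrt_of_sq_le hS2
  have q1 : 40 * B ≤ s := by linarith
  have q2 : (2 * C + 160 * M) / (2 * b0 * ε) ≤ s := by
    have : 0 ≤ 40 * B := by positivity
    linarith
  have hBs : B * s ≤ i / 40 := by
    have := mul_le_mul_of_nonneg_right q1 hs0.le
    rw [← pow_two, hss] at this
    linarith
  obtain ⟨g1, g2⟩ := abs_le.1 he
  obtain ⟨a0, ha0⟩ : ∃ a0 : ℕ, a0 = i / 40 := ⟨_, rfl⟩
  have ha1 : 40 * a0 ≤ i := by omega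
  have ha2 : i ≤ 80 * a0 := by omega
  have ha1R : 40 * (a0 : ℝ) ≤ i := by exact_mod_cast ha1
  have ha2R : (i : ℝ) ≤ 80 * a0 := by exact_mod_cast ha2
  have hae : a0 ≤ e := by
    have : (a0 : ℝ) ≤ e := by linarith
    exact_mod_cast this
  obtain ⟨e0, rfl⟩ := Nat.exists_eq_add_of_le' hae
  push_cast at g1 g2
  have hX3 : (0 : ℝ) < 3 ^ i := by positivity
  -- the iteration
  have hit := Wb_iter i m (i + e0) (i + e0 + a0) (D := C / (i * 3 ^ i)) (by positivity) (by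
    intro l' hl1 hl2 b b'
    obtain ⟨e', rfl⟩ := Nat.exists_eq_add_of_le (show i ≤ l' by omega)
    rw [odd_cardb hc i e' m b, odd_cardb hc i e' m b']
    have h1 := hequi i e' (by omega) (by
      have w1 : (e0 : ℝ) ≤ e' := by
        have : e0 ≤ e' := by omega
        exact_mod_cast this
      have w2 : (e' : ℝ) ≤ e0 + a0 := by
        have : e' ≤ e0 + a0 := by omega
        exact_mod_cast this
      rw [abs_le]
      constructor <;> linarith) b b'
    rw [XX_pow] at h1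
    have e2 : C / (i : ℝ) * (2 ^ (i + e') / 3 ^ i) = C / (i * 3 ^ i) * 2 ^ (i + e') := by
      field_simp
    rw [e2] at h1
    exact h1) a0 le_rfl b b'
  rw [show i + (e0 + a0) = i + e0 + a0 by omega]
  refine hit.trans ?_
  rw [add_assoc]
  apply add_le_add_right
  -- the total below
  have hW : ((W (i + e0) i).ncard : ℝ) ≤ 2 ^ (i + e0) / 3 ^ i * (2 * M) := by
    rw [W_cv hc]
    apply mul_le_mul_of_nonneg_left _ (by positivity)
    apply mul_le_mul_of_nonneg_left _ (by norm_num)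
    rw [hM]
    exact cv_bd le_rfl (by positivity) (nn_bd c i) e0
  have hpow : (2 : ℝ) ^ (i + e0) ≤ 2 ^ (i + e0 + a0) * (80 / i) := by
    rw [pow_add 2 (i + e0) a0]
    have h1 : (a0 : ℝ) ≤ 2 ^ a0 := by
      have : a0 < 2 ^ a0 := Nat.lt_two_pow_self
      exact_mod_cast this.le
    have h2 : 1 ≤ (2 : ℝ) ^ a0 * (80 / i) := by
      rw [mul_div_assoc', le_div_iff₀ hi0]
      linarith
    have h3 : (0 : ℝ) < 2 ^ (i + e0) := by positivity
    have := mul_le_mul_of_nonneg_left h2 h3.le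
    linarith
  have hch : (((i + e0 + a0).choose i : ℕ) : ℝ) / 3 ^ i = 2 ^ (i + e0 + a0) / 3 ^ i * (2 * qq (i + 1) (e0 + a0)) := by
    unfold qq
    rw [Nat.add_sub_cancel, show i + (e0 + a0) = i + e0 + a0 by omega,
      show i + 1 + (e0 + a0) = i + e0 + a0 + 1 by omega, pow_succ]
    field_simp
  rw [hch]
  have hbase : (0 : ℝ) < 2 ^ (i + e0 + a0) / 3 ^ i := by positivity
  have t1 : C / (i * 3 ^ i) * 2 ^ (i + e0 + a0 + 1) = 2 ^ (i + e0 + a0) / 3 ^ i * (2 * C / i) := by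
    rw [pow_succ]
    field_simp
  have t2 : 2 ^ (i + e0) / 3 ^ i * (2 * M) ≤ 2 ^ (i + e0 + a0) / 3 ^ i * (160 * M / i) := by
    have h1 : (2 : ℝ) ^ (i + e0) / 3 ^ i ≤ 2 ^ (i + e0 + a0) * (80 / i) / 3 ^ i := div_le_div_of_nonneg_right hpow hX3.le
    have h2 := mul_le_mul_of_nonneg_right h1 (show 0 ≤ 2 * M by positivity)
    refine h2.trans (le_of_eq ?_)
    field_simp
    norm_num
  rw [t1]
  have t3 : 2 * C / i + 160 * M / i ≤ ε * (2 * qq (i + 1) (e0 + a0)) := by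
    have h1 : ε * (2 * (b0 / s)) ≤ ε * (2 * qq (i + 1) (e0 + a0)) := by
      apply mul_le_mul_of_nonneg_left _ hε.le
      linarith
    refine le_trans ?_ h1
    have h2 : 2 * C / (i : ℝ) + 160 * M / i = (2 * C + 160 * M) / s / s := by
      rw [← hss]
      field_simp
    rw [h2]
    have h3 : ε * (2 * (b0 / s)) = (2 * b0 * ε) / s := by ring
    rw [h3]
    apply div_le_div_of_nonneg_right _ hs0.le
    rw [div_le_iff₀ (by positivity)] at q2
    rw [div_le_iff₀ hs0]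
    linarith
  have t4 := mul_le_mul_of_nonneg_left t3 hbase.le
  have t5 : (2 : ℝ) ^ (i + e0 + a0) / 3 ^ i * (2 * C / i + 160 * M / i) =
      2 ^ (i + e0 + a0) / 3 ^ i * (2 * C / i) + 2 ^ (i + e0 + a0) / 3 ^ i * (160 * M / i) := by ring
  have t6 : ε * (2 ^ (i + e0 + a0) / 3 ^ i * (2 * qq (i + 1) (e0 + a0))) =
      2 ^ (i + e0 + a0) / 3 ^ i * (ε * (2 * qq (i + 1) (e0 + a0))) := by ring
  rw [t6]
  linarith

theorem W_sum (l i m : ℕ) : (W l i).ncard = ∑ r ∈ range (3 ^ m), (Wb l i m (r : ℤ)).ncard := by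
  classical
  rw [Set.ncard_eq_toFinset_card _ (W_finite l i),
    Finset.card_eq_sum_card_fiberwise (f := fun n : ℕ => n % 3 ^ m) (t := range (3 ^ m)) (by
      intro n _
      simp only [Finset.coe_range, Set.mem_Iio]
      exact Nat.mod_lt _ (by positivity))]
  apply sum_congr rfl
  intro r hr
  rw [mem_range] at hr
  rw [← Set.ncard_coe_finset]
  congr 1
  ext n
  rw [Finset.mem_coe, mem_filter, Set.Finite.mem_toFinset]
  unfold Wb
  simp only [Set.mem_setOf_eq]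
  have h1 : (3 : ℤ) ^ m ∣ (n : ℤ) - r ↔ n % 3 ^ m = r := by
    have h2 := @Nat.modEq_iff_dvd (3 ^ m) r n
    push_cast at h2
    rw [← h2]
    unfold Nat.ModEq
    rw [Nat.mod_eq_of_lt hr]
    exact eq_comm
  rw [h1]

/-- every class has its share -/
theorem cell_share {c : ℕ} (hc : ∀ n l i : ℕ, n ∈ W l i →
    Real.exp (l * Real.log 2 - i * Real.log 3) / 2 ^ c ≤ n ∧ (n : ℝ) ≤ Real.exp (l * Real.log 2 - i * Real.log 3) * 2 ^ c)
    (m : ℕ) {B ε : ℝ} (hB : 0 < B) (hε : 0 < ε) : ∃ I : ℕ, ∀ i e : ℕ, I ≤ i → |(e : ℝ) - i| ≤ B * Real.sqrt i →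
      ∀ b : ℤ, |((Wb (i + e) i m b).ncard : ℝ) - ((W (i + e) i).ncard : ℝ) / 3 ^ m| ≤ ε * (((i + e).choose i : ℝ) / 3 ^ i) := by
  obtain ⟨I, h⟩ := cell_equi hc m hB hε
  refine ⟨I, fun i e hi he b => ?_⟩
  have h3 : (0 : ℝ) < 3 ^ m := by positivity
  set E := ε * (((i + e).choose i : ℝ) / 3 ^ i) with hE
  have hsum : ((W (i + e) i).ncard : ℝ) = ∑ r ∈ range (3 ^ m), ((Wb (i + e) i m (r : ℤ)).ncard : ℝ) := by
    rw [W_sum (i + e) i m]
    push_cast
    rfl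
  have u1 : ((W (i + e) i).ncard : ℝ) ≤ 3 ^ m * (((Wb (i + e) i m b).ncard : ℝ) + E) := by
    rw [hsum]
    have h4 : ∀ r ∈ range (3 ^ m), ((Wb (i + e) i m (r : ℤ)).ncard : ℝ) ≤ ((Wb (i + e) i m b).ncard : ℝ) + E := by
      intro r _
      exact h i e hi he (r : ℤ) b
    refine (sum_le_sum h4).trans (le_of_eq ?_)
    rw [sum_const, card_range, nsmul_eq_mul]
    push_cast
    rfl
  have u2 : 3 ^ m * (((Wb (i + e) i m b).ncard : ℝ) - E) ≤ ((W (i + e) i).ncard : ℝ) := by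
    rw [hsum]
    have h4 : ∀ r ∈ range (3 ^ m), ((Wb (i + e) i m b).ncard : ℝ) - E ≤ ((Wb (i + e) i m (r : ℤ)).ncard : ℝ) := by
      intro r _
      have := h i e hi he b (r : ℤ)
      linarith
    refine le_trans (le_of_eq ?_) (sum_le_sum h4)
    rw [sum_const, card_range, nsmul_eq_mul]
    push_cast
    rfl
  rw [abs_le]
  constructor
  · rw [neg_le_sub_iff_le_add, div_le_iff₀ h3]
    linarith
  · rw [sub_le_iff_le_add, ← sub_le_iff_le_add', le_div_iff₀ h3]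
    linarith

end Pool.Agent.TH977.LL
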