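import Pool.Agent.TH977.LL.Cls4

/-! Residue classes modulo `2 ^ r * 3 ^ m`. -/

set_option autoImplicit false

namespace Pool.Agent.TH977.LL

open Pool.Agent.H320R2.PD Pool.Agent.H499R2.ND Pool.Agent.TH977.IP Finset Filter Topology

open Pool.Agent.H499R2.HL (H H_two H_of_two odn_two H_unique oc_odn)
open Pool.Agent.H499R2.LT (odn)

theorem odn_add (a b n : ℕ) : odn (a + b) n = odn a n + odn b (Tn^[a] n) := by
  rw [← oc_odn, ← oc_odn, ← oc_odn, Pool.Agent.H363R2.oc_add, Pool.Agent.H499R2.ND.TN_eq_Tn]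

/-- a residue class in a cell -/
def Wq (l i : ℕ) (q b : ℤ) : Set ℕ := {n : ℕ | n ∈ W l i ∧ q ∣ (n : ℤ) - b}

theorem Wq_three (l i m : ℕ) (b : ℤ) : Wq l i (3 ^ m) b = Wb l i m b := rfl

/-- even classes -/
theorem Wq_even (l i : ℕ) (q b : ℤ) : (Wq (l + 1) i (2 * q) (2 * b)).ncard = (Wq l i q b).ncard := by
  have e : Wq (l + 1) i (2 * q) (2 * b) = (fun n => 2 * n) '' Wq l i q b := by
    ext n
    constructor
    · rintro ⟨⟨h1, h2, h3⟩, k, hk⟩
      have hk' : (n : ℤ) = 2 * (b + q * k) := by linear_combination hk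
      obtain ⟨m, hm⟩ : ∃ m : ℕ, n = 2 * m := ⟨n / 2, by omega⟩
      subst hm
      obtain ⟨k', hk1, h4⟩ := H_of_two h2
      have : k' = l := by omega
      rw [this] at h4
      rw [odn_two] at h3
      refine ⟨m, ⟨⟨by omega, h4, h3⟩, k, ?_⟩, rfl⟩
      push_cast at hk'
      linarith
    · rintro ⟨m, ⟨⟨h1, h2, h3⟩, k, hk⟩, rfl⟩
      refine ⟨⟨by simp only; omega, H_two h2, by rw [odn_two]; exact h3⟩, k, ?_⟩
      push_cast
      linear_combination 2 * hk
  rw [e, Set.InjOn.ncard_image]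
  intro a _ b _ hab
  simp only at hab
  omega

theorem Tn_odd {n : ℕ} (h : n % 2 = 1) : Tn n = (3 * n + 1) / 2 := by
  unfold Tn
  rw [if_neg (by omega)]

theorem odn_one_odd {n : ℕ} (h : n % 2 = 1) : odn 1 n = 1 := by
  unfold odn
  rw [show Finset.range 1 = {0} from rfl, Finset.filter_singleton]
  simp [h]

/-- odd classes -/
theorem Wq_odd (l i : ℕ) (hi : 1 ≤ i) (q b : ℤ) :
    (Wq (l + 1) (i + 1) (2 * q) (2 * b + 1)).ncard = (Wq l i (3 * q) (3 * b + 2)).ncard := by
  have e : Wq l i (3 * q) (3 * b + 2) = Tn '' Wq (l + 1) (i + 1) (2 * q) (2 * b + 1) := by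
    ext x
    constructor
    · rintro ⟨⟨h1, h2, h3⟩, k, hk⟩
      have hk' : (x : ℤ) = 3 * (b + q * k) + 2 := by linear_combination hk
      obtain ⟨n, hn⟩ : ∃ n : ℕ, 2 * x = 3 * n + 1 := ⟨(2 * x - 1) / 3, by omega⟩
      have hnodd : n % 2 = 1 := by omega
      have hTn : Tn n = x := by rw [Tn_odd hnodd]; omega
      have hn1 : n ≠ 1 := by
        rintro rfl
        have hx2 : x = 2 := by omega
        subst hx2
        have : l = 1 := by
          apply H_unique h2
          refine ⟨by decide, fun j hj => ?_⟩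
          have : j = 0 := by omega
          subst this
          decide
        subst this
        have h5 : odn 1 2 = 0 := by decide
        omega
      refine ⟨n, ⟨⟨by omega, ⟨?_, ?_⟩, ?_⟩, k, ?_⟩, hTn⟩
      · rw [Function.iterate_succ_apply, hTn]; exact h2.1
      · intro j hj
        rcases j with _ | j
        · exact hn1
        · rw [Function.iterate_succ_apply, hTn]; exact h2.2 j (by omega)
      · rw [add_comm l 1, odn_add, odn_one_odd hnodd, Function.iterate_one, hTn, h3, add_comm]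
      · have h6 : (2 * x : ℤ) = 3 * n + 1 := by exact_mod_cast hn
        have h7 : 3 * ((n : ℤ) - (2 * b + 1)) = 3 * (2 * q * k) := by linear_combination 2 * hk' - h6
        linarith
    · rintro ⟨n, ⟨⟨h1, h2, h3⟩, k, hk⟩, rfl⟩
      have hk' : (n : ℤ) = 2 * (b + q * k) + 1 := by linear_combination hk
      have hnodd : n % 2 = 1 := by omega
      have hTn := Tn_odd hnodd
      have hT2 : 2 * Tn n = 3 * n + 1 := by omega
      refine ⟨⟨by omega, ⟨?_, ?_⟩, ?_⟩, k, ?_⟩
      · have := h2.1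
        rwa [Function.iterate_succ_apply] at this
      · intro j hj
        have := h2.2 (j + 1) (by omega)
        rwa [Function.iterate_succ_apply] at this
      · rw [add_comm l 1, odn_add, odn_one_odd hnodd, Function.iterate_one] at h3
        omega
      · have h6 : (2 * (Tn n : ℕ) : ℤ) = 3 * n + 1 := by exact_mod_cast hT2
        have h7 : 2 * ((Tn n : ℤ) - (3 * b + 2)) = 2 * (3 * q * k) := by linear_combination h6 + 3 * hk'
        linarith
  rw [e, Set.InjOn.ncard_image]
  rintro a ⟨_, k, hk⟩ a' ⟨_, k', hk'⟩ haa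
  have h1 : a % 2 = 1 := by
    have : (a : ℤ) = 2 * (b + q * k) + 1 := by linear_combination hk
    omega
  have h2 : a' % 2 = 1 := by
    have : (a' : ℤ) = 2 * (b + q * k') + 1 := by linear_combination hk'
    omega
  rw [Tn_odd h1, Tn_odd h2] at haa
  omega

/-- the expected number -/
noncomputable def EE2 (l i : ℕ) : ℝ := (l.choose i : ℝ) / 3 ^ i

theorem EE2_nonneg (l i : ℕ) : 0 ≤ EE2 l i := by unfold EE2; positivity

theorem EE2_even {i e : ℕ} (hi : 1 ≤ i) : EE2 (i + e) i = EE2 (i + (e + 1)) i * ((e + 1 : ℕ) / (i + (e + 1) : ℕ)) := by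
  unfold EE2
  have h := Nat.choose_mul_succ_eq (i + e) i
  rw [show i + e + 1 - i = e + 1 by omega] at h
  have h' : ((i + e).choose i : ℝ) * ((i + (e + 1) : ℕ) : ℝ) = ((i + (e + 1)).choose i : ℝ) * ((e + 1 : ℕ) : ℝ) := by
    rw [show i + (e + 1) = i + e + 1 by omega]
    exact_mod_cast h
  have hpos : (0 : ℝ) < ((i + (e + 1) : ℕ) : ℝ) := by
    have : 0 < i + (e + 1) := by omega
    exact_mod_cast this
  rw [div_mul_div_comm, eq_div_iff (by positivity), div_mul_eq_mul_div, div_eq_iff (by positivity)]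
  linear_combination (3 : ℝ) ^ i * h'

theorem EE2_odd (i e : ℕ) : EE2 (i + e) i = 3 * EE2 (i + 1 + e) (i + 1) * ((i + 1 : ℕ) / (i + 1 + e : ℕ)) := by
  unfold EE2
  have h := Nat.add_one_mul_choose_eq (i + e) i
  have h' : ((i + 1 + e : ℕ) : ℝ) * ((i + e).choose i : ℝ) = ((i + 1 + e).choose (i + 1) : ℝ) * ((i + 1 : ℕ) : ℝ) := by
    rw [show i + 1 + e = i + e + 1 by omega]
    exact_mod_cast h
  have hpos : (0 : ℝ) < ((i + 1 + e : ℕ) : ℝ) := by
    have : 0 < i + 1 + e := by omega
    exact_mod_cast this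
  rw [pow_succ]
  field_simp
  linear_combination h'

end Pool.Agent.TH977.LL
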