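import Pool.Agent.TH977.LL.Cls5

/-! The local law in residue classes modulo `2 ^ r * 3 ^ m`. -/

set_option autoImplicit false

namespace Pool.Agent.TH977.LL

open Pool.Agent.H320R2.PD Pool.Agent.H499R2.ND Pool.Agent.TH977.IP Finset Filter Topology

/-- the ratio at the centre -/
noncomputable def kk (i : ℕ) : ℝ := RR i (i + i)

theorem kk_bd {c : ℕ} (hc : ∀ n l i : ℕ, n ∈ W l i →
    Real.exp (l * Real.log 2 - i * Real.log 3) / 2 ^ c ≤ n ∧ (n : ℝ) ≤ Real.exp (l * Real.log 2 - i * Real.log 3) * 2 ^ c) :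
    ∃ c1 C : ℝ, 0 < c1 ∧ 0 < C ∧ ∃ I : ℕ, ∀ i : ℕ, I ≤ i → c1 ≤ kk i ∧ kk i ≤ C := by
  obtain ⟨c1, hc1, I1, h1⟩ := RR_low hc
  obtain ⟨K2, hK2, I2, h2⟩ := RR_prof hc (B := 1) one_pos one_pos
  obtain ⟨K3, hK3, I3, h3⟩ := RR_prof hc (B := (c : ℝ) + 4) (ε := c1 / 4) (by positivity) (by positivity)
  refine ⟨c1 / 2, K2 + 1, by positivity, by positivity, I1 + I2 + I3 + 1, fun i hi => ?_⟩
  have hi1 : (1 : ℝ) ≤ i := by
    have : 1 ≤ i := by omega
    exact_mod_cast this
  have hs1 : 1 ≤ Real.sqrt i := Real.one_le_sqrt.2 hi1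
  unfold kk
  constructor
  · obtain ⟨κ, _, _, k3⟩ := h3 i (by omega)
    obtain ⟨e, he1, he2⟩ := h1 i (by omega)
    have g1 := k3 i (by rw [sub_self, abs_zero]; positivity)
    have g2 := k3 e (he1.trans (le_mul_of_one_le_right (by positivity) hs1))
    have g3 := (abs_le.1 g1).1
    have g4 := (abs_le.1 g2).2
    linarith
  · obtain ⟨κ, _, k2, k3⟩ := h2 i (by omega)
    have g1 := k3 i (by rw [sub_self, abs_zero]; positivity)
    have g4 := (abs_le.1 g1).2
    linarith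

theorem RR_cen {c : ℕ} (hc : ∀ n l i : ℕ, n ∈ W l i →
    Real.exp (l * Real.log 2 - i * Real.log 3) / 2 ^ c ≤ n ∧ (n : ℝ) ≤ Real.exp (l * Real.log 2 - i * Real.log 3) * 2 ^ c)
    {B ε : ℝ} (hB : 0 < B) (hε : 0 < ε) : ∃ I : ℕ, ∀ i e : ℕ, I ≤ i → |(e : ℝ) - i| ≤ B * Real.sqrt i →
      |RR i (i + e) - kk i| ≤ ε := by
  obtain ⟨K4, hK4, I4, h4⟩ := RR_prof hc (B := B) (ε := ε / 2) hB (by positivity)
  refine ⟨I4, fun i e hi he => ?_⟩
  obtain ⟨κ, _, _, k3⟩ := h4 i hi
  have g1 := k3 i (by rw [sub_self, abs_zero]; positivity)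
  have g2 := k3 e he
  unfold kk
  have e1 : RR i (i + e) - RR i (i + i) = (RR i (i + e) - κ) - (RR i (i + i) - κ) := by ring
  rw [e1]
  refine (abs_sub _ _).trans ?_
  linarith

theorem comb {N k k' q t E ε C : ℝ} (hq : 1 ≤ q) (hE : 0 ≤ E) (hε : 0 < ε)
    (h1 : |N - k' / q * (t * E)| ≤ ε / 4 * E) (hk' : |k'| ≤ C) (ht2 : C * |t - 1 / 2| ≤ ε / 4)
    (hkk : |k' - k| ≤ ε / 4) : |N - k / (2 * q) * E| ≤ ε * E := by
  have hq0 : 0 < q := by linarith
  have e1 : N - k / (2 * q) * E = (N - k' / q * (t * E)) + (k' * (t - 1 / 2) + (k' - k) / 2) / q * E := by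
    field_simp
    ring
  rw [e1]
  refine (abs_add_le _ _).trans ?_
  have h2 : |(k' * (t - 1 / 2) + (k' - k) / 2) / q * E| ≤ (ε / 4 + ε / 8) * E := by
    rw [abs_mul, abs_of_nonneg hE, abs_div, abs_of_pos hq0]
    apply mul_le_mul_of_nonneg_right _ hE
    rw [div_le_iff₀ hq0]
    have h3 : |k' * (t - 1 / 2) + (k' - k) / 2| ≤ ε / 4 + ε / 8 := by
      refine (abs_add_le _ _).trans ?_
      rw [abs_mul, abs_div, abs_two]
      have h4 : |k'| * |t - 1 / 2| ≤ C * |t - 1 / 2| := mul_le_mul_of_nonneg_right hk' (abs_nonneg _)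
      linarith
    have h5 : (ε / 4 + ε / 8) * 1 ≤ (ε / 4 + ε / 8) * q := mul_le_mul_of_nonneg_left hq (by positivity)
    linarith
  have h6 : 0 ≤ ε * E := by positivity
  linarith

theorem half_dev {i e : ℕ} {B : ℝ} (hi : 1 ≤ i) (hB : 0 < B) (he : |(e : ℝ) - i| ≤ B * Real.sqrt i) :
    |((e : ℕ) : ℝ) / ((i + e : ℕ) : ℝ) - 1 / 2| ≤ B / Real.sqrt i ∧
    |((i : ℕ) : ℝ) / ((i + e : ℕ) : ℝ) - 1 / 2| ≤ B / Real.sqrt i := by
  have hi0 : (0 : ℝ) < i := by exact_mod_cast hi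
  have he0 : (0 : ℝ) ≤ e := Nat.cast_nonneg _
  have hs0 : 0 < Real.sqrt i := Real.sqrt_pos.2 hi0
  have hss : Real.sqrt i ^ 2 = i := Real.sq_sqrt hi0.le
  have hsum : (0 : ℝ) < ((i + e : ℕ) : ℝ) := by push_cast; linarith
  have key : |(e : ℝ) - i| / (2 * ((i + e : ℕ) : ℝ)) ≤ B / Real.sqrt i := by
    rw [div_le_div_iff₀ (by positivity) hs0]
    have h1 := mul_le_mul_of_nonneg_right he hs0.le
    have h2 : B * Real.sqrt i * Real.sqrt i = B * i := by rw [mul_assoc, ← pow_two, hss]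
    rw [h2] at h1
    refine h1.trans ?_
    apply mul_le_mul_of_nonneg_left _ hB.le
    push_cast
    linarith
  constructor
  · have e1 : ((e : ℕ) : ℝ) / ((i + e : ℕ) : ℝ) - 1 / 2 = ((e : ℝ) - i) / (2 * ((i + e : ℕ) : ℝ)) := by
      push_cast at hsum ⊢
      field_simp
      ring
    rw [e1, abs_div, abs_of_pos (show 0 < 2 * ((i + e : ℕ) : ℝ) by positivity)]
    exact key
  · have e1 : ((i : ℕ) : ℝ) / ((i + e : ℕ) : ℝ) - 1 / 2 = -(((e : ℝ) - i) / (2 * ((i + e : ℕ) : ℝ))) := by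
      push_cast at hsum ⊢
      field_simp
      ring
    rw [e1, abs_neg, abs_div, abs_of_pos (show 0 < 2 * ((i + e : ℕ) : ℝ) by positivity)]
    exact key

theorem law {c : ℕ} (hc : ∀ n l i : ℕ, n ∈ W l i →
    Real.exp (l * Real.log 2 - i * Real.log 3) / 2 ^ c ≤ n ∧ (n : ℝ) ≤ Real.exp (l * Real.log 2 - i * Real.log 3) * 2 ^ c)
    (r : ℕ) : ∀ (m : ℕ) (B ε : ℝ), 0 < B → 0 < ε → ∃ I : ℕ, ∀ i e : ℕ, I ≤ i → |(e : ℝ) - i| ≤ B * Real.sqrt i →
      ∀ b : ℤ, |((Wq (i + e) i (2 ^ r * 3 ^ m) b).ncard : ℝ) - kk i / (2 ^ r * 3 ^ m) * EE2 (i + e) i| ≤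
        ε * EE2 (i + e) i := by
  obtain ⟨c1, C, hc1, hC, I0, hkb⟩ := kk_bd hc
  induction r with
  | zero =>
    intro m B ε hB hε
    obtain ⟨I1, h1⟩ := cell_share hc m hB (show 0 < ε / 2 by positivity)
    obtain ⟨I2, h2⟩ := RR_cen hc hB (show 0 < ε / 2 by positivity)
    refine ⟨I1 + I2, fun i e hi he b => ?_⟩
    have g1 := h1 i e (by omega) he b
    have g2 := h2 i e (by omega) he
    rw [pow_zero, one_mul, Wq_three, pow_zero, one_mul]
    have hE := EE2_nonneg (i + e) i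
    have hN : ((W (i + e) i).ncard : ℝ) = RR i (i + e) * EE2 (i + e) i := by
      unfold RR EE2
      have := Nat.choose_pos (show i ≤ i + e by omega)
      rw [div_mul_cancel₀]
      positivity
    rw [hN] at g1
    change |_| ≤ ε / 2 * EE2 (i + e) i at g1
    have h3 : (1 : ℝ) ≤ 3 ^ m := one_le_pow₀ (by norm_num)
    have h30 : (0 : ℝ) < 3 ^ m := by positivity
    have e1 : ((Wb (i + e) i m b).ncard : ℝ) - kk i / 3 ^ m * EE2 (i + e) i =
        (((Wb (i + e) i m b).ncard : ℝ) - RR i (i + e) * EE2 (i + e) i / 3 ^ m) +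
          (RR i (i + e) - kk i) * (EE2 (i + e) i / 3 ^ m) := by
      field_simp
      ring
    rw [e1]
    refine (abs_add_le _ _).trans ?_
    have h4 : |(RR i (i + e) - kk i) * (EE2 (i + e) i / 3 ^ m)| ≤ ε / 2 * EE2 (i + e) i := by
      rw [abs_mul, abs_of_nonneg (show 0 ≤ EE2 (i + e) i / 3 ^ m by positivity)]
      apply mul_le_mul g2 (div_le_self hE h3) (by positivity) (by positivity)
    linarith
  | succ r ih =>
    intro m B ε hB hε
    obtain ⟨I1, h1⟩ := ih m (B + 1) (ε / 4) (by positivity) (by positivity)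
    obtain ⟨I2, h2⟩ := ih (m + 1) (2 * B + 2) (ε / 12) (by positivity) (by positivity)
    obtain ⟨I3, h3⟩ := slow1 hc (show 0 < ε / 4 by positivity)
    obtain ⟨S0, hS0⟩ : ∃ S0 : ℝ, S0 = 4 * C * B / ε + B + 4 := ⟨_, rfl⟩
    have p1 : 0 < 4 * C * B / ε := by positivity
    refine ⟨I0 + I1 + I2 + I3 + ⌈S0 ^ 2⌉₊ + 1000, fun i e hi he b => ?_⟩
    have hi1000 : 1000 ≤ i := by omega
    have hi0 : (0 : ℝ) < i := by
      have : 0 < i := by omega
      exact_mod_cast this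
    have hS2 : S0 ^ 2 ≤ i := by
      refine (Nat.le_ceil _).trans ?_
      have : ⌈S0 ^ 2⌉₊ ≤ i := by omega
      exact_mod_cast this
    have hs0 : 0 < Real.sqrt i := Real.sqrt_pos.2 hi0
    have hss : Real.sqrt i ^ 2 = i := Real.sq_sqrt hi0.le
    have hS : S0 ≤ Real.sqrt i := Real.le_sqrt_of_sq_le hS2
    have q1 : 4 * C * B / ε ≤ Real.sqrt i := by linarith
    have q2 : B + 1 ≤ Real.sqrt i := by linarith
    have q3 : 4 ≤ Real.sqrt i := by linarith
    obtain ⟨d1, d2⟩ := half_dev (by omega) hB he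
    have hCB : C * (B / Real.sqrt i) ≤ ε / 4 := by
      rw [div_le_iff₀ hε] at q1
      rw [mul_div_assoc', div_le_iff₀ hs0]
      linarith
    obtain ⟨g1, g2⟩ := abs_le.1 he
    have hBi : B * Real.sqrt i + Real.sqrt i ≤ i := by
      have := mul_le_mul_of_nonneg_right q2 hs0.le
      rw [← pow_two, hss] at this
      linarith
    have he1 : 1 ≤ e := by
      have : (1 : ℝ) ≤ e := by linarith
      exact_mod_cast this
    have hEn := EE2_nonneg (i + e) i
    have hq : (1 : ℝ) ≤ 2 ^ r * 3 ^ m := by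
      have a1 : (1 : ℝ) ≤ 2 ^ r := one_le_pow₀ (by norm_num)
      have a2 : (1 : ℝ) ≤ 3 ^ m := one_le_pow₀ (by norm_num)
      exact one_le_mul_of_one_le_of_one_le a1 a2
    have hgoal : ∀ x : ℝ, x / (2 ^ (r + 1) * 3 ^ m) = x / (2 * (2 ^ r * 3 ^ m)) := by
      intro x
      rw [pow_succ]
      congr 1
      ring
    rw [hgoal, show (2 : ℤ) ^ (r + 1) * 3 ^ m = 2 * (2 ^ r * 3 ^ m) by rw [pow_succ]; ring]
    obtain ⟨b', hb | hb⟩ := Int.even_or_odd' b
    · -- even class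
      subst hb
      obtain ⟨e1, rfl⟩ := Nat.exists_eq_add_of_le' he1
      have hcount := Wq_even (i + e1) i (2 ^ r * 3 ^ m) b'
      rw [show i + (e1 + 1) = i + e1 + 1 by omega, hcount, show i + e1 + 1 = i + (e1 + 1) by omega]
      have k1 := h1 i e1 (by omega) (by
        push_cast at g1 g2
        rw [abs_le]
        constructor <;> linarith) b'
      have hEE := EE2_even (i := i) (e := e1) (by omega)
      set t : ℝ := ((e1 + 1 : ℕ) : ℝ) / ((i + (e1 + 1) : ℕ) : ℝ) with ht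
      have ht0 : 0 ≤ t := by positivity
      have ht1 : t ≤ 1 := by
        rw [ht, div_le_one (by positivity)]
        have : e1 + 1 ≤ i + (e1 + 1) := by omega
        exact_mod_cast this
      rw [hEE] at k1
      set E := EE2 (i + (e1 + 1)) i with hE
      rw [mul_comm E t] at k1
      obtain ⟨b1, b2⟩ := hkb i (by omega)
      refine comb (k' := kk i) (t := t) (C := C) hq hEn hε ?_ ?_ ?_ ?_
      · refine k1.trans ?_
        apply mul_le_mul_of_nonneg_left _ (by positivity)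
        have := mul_le_mul_of_nonneg_right ht1 hEn
        linarith
      · rw [abs_of_pos (by linarith)]
        exact b2
      · exact (mul_le_mul_of_nonneg_left d1 hC.le).trans hCB
      · rw [sub_self, abs_zero]
        positivity
    · -- odd class
      subst hb
      obtain ⟨i1, rfl⟩ := Nat.exists_eq_add_of_le' (show 1 ≤ i by omega)
      have hcount := Wq_odd (i1 + e) i1 (by omega) (2 ^ r * 3 ^ m) b'
      rw [show i1 + 1 + e = i1 + e + 1 by omega, hcount, show i1 + e + 1 = i1 + 1 + e by omega]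
      have hi1R : (0 : ℝ) < i1 := by
        have : 0 < i1 := by omega
        exact_mod_cast this
      have hsq : Real.sqrt ((i1 + 1 : ℕ) : ℝ) ≤ 2 * Real.sqrt i1 := by
        rw [Real.sqrt_le_left (by positivity), mul_pow, Real.sq_sqrt hi1R.le]
        push_cast
        have : (1 : ℝ) ≤ i1 := by
          have : 1 ≤ i1 := by omega
          exact_mod_cast this
        linarith
      have k1 := h2 i1 e (by omega) (by
        have w1 : (B + 1) * Real.sqrt ((i1 + 1 : ℕ) : ℝ) ≤ (B + 1) * (2 * Real.sqrt i1) :=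
          mul_le_mul_of_nonneg_left hsq (by positivity)
        push_cast at g1 g2 w1 q3
        rw [abs_le]
        constructor <;> linarith) (3 * b' + 2)
      have hEE := EE2_odd i1 e
      set t : ℝ := ((i1 + 1 : ℕ) : ℝ) / ((i1 + 1 + e : ℕ) : ℝ) with ht
      have ht0 : 0 ≤ t := by positivity
      have ht1 : t ≤ 1 := by
        rw [ht, div_le_one (by positivity)]
        have : i1 + 1 ≤ i1 + 1 + e := by omega
        exact_mod_cast this
      rw [hEE] at k1
      set E := EE2 (i1 + 1 + e) (i1 + 1) with hE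
      have e3 : (3 : ℤ) * (2 ^ r * 3 ^ m) = 2 ^ r * 3 ^ (m + 1) := by rw [pow_succ]; ring
      rw [e3]
      have e4 : kk i1 / (2 ^ r * 3 ^ (m + 1)) * (3 * E * t) = kk i1 / (2 ^ r * 3 ^ m) * (t * E) := by
        rw [pow_succ]
        field_simp
      rw [e4] at k1
      obtain ⟨b1, b2⟩ := hkb i1 (by omega)
      refine comb (k' := kk i1) (t := t) (C := C) hq hEn hε ?_ ?_ ?_ ?_
      · refine k1.trans ?_
        have := mul_le_mul_of_nonneg_right ht1 hEn
        have h5 : ε / 12 * (3 * E * t) = ε / 4 * (t * E) := by ring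
        rw [h5]
        apply mul_le_mul_of_nonneg_left _ (by positivity)
        linarith
      · rw [abs_of_pos (by linarith)]
        exact b2
      · exact (mul_le_mul_of_nonneg_left d2 hC.le).trans hCB
      · exact h3 i1 (i1 + 1) (by omega) (by omega) (by omega)

end Pool.Agent.TH977.LL
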