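import Pool.Agent.TH977.LL.Harm
import Pool.Agent.H499R2.NDLln

/-! From natural densities to dyadic windows. -/

set_option autoImplicit false

namespace Pool.Agent.TH977.LL

open Pool.Agent.H320R2.PD Pool.Agent.H499R2.ND Finset Filter Topology

theorem cnt_diff {P Q : ℕ → Prop} (h : ∀ n, Q n → P n) (N : ℕ) :
    Pool.Agent.H499R2.ND.cnt (fun n => P n ∧ ¬ Q n) N =
      Pool.Agent.H499R2.ND.cnt P N - Pool.Agent.H499R2.ND.cnt Q N := by
  classical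
  rw [cnt_eq, cnt_eq, cnt_eq]
  have h1 : (Icc 1 N).filter Q ⊆ (Icc 1 N).filter P := by
    intro n hn
    rw [mem_filter] at hn ⊢
    exact ⟨hn.1, h n hn.2⟩
  have h2 : (Icc 1 N).filter (fun n => P n ∧ ¬ Q n) = (Icc 1 N).filter P \ (Icc 1 N).filter Q := by
    ext n
    simp only [Finset.mem_sdiff, Finset.mem_filter]
    tauto
  rw [h2, card_sdiff_of_subset h1, Nat.cast_sub (card_le_card h1)]

theorem Dn_diff {P Q : ℕ → Prop} {l l' : ℝ} (hP : Dn P l) (hQ : Dn Q l') (h : ∀ n, Q n → P n) :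
    Dn (fun n => P n ∧ ¬ Q n) (l - l') := by
  unfold Dn at *
  refine (hP.sub hQ).congr fun N => ?_
  rw [cnt_diff h N, sub_div]

theorem cnt_win {P : ℕ → Prop} {S : Set ℤ} (hS : ∀ n : ℕ, 2 ≤ n → P n → Odd n ∧ (n : ℤ) ∈ S) {e : ℕ}
    (he : 1 ≤ e) : Pool.Agent.H499R2.ND.cnt P (2 * 2 ^ e - 1) ≤
      Pool.Agent.H499R2.ND.cnt P (2 ^ e - 1) + ((cls S (2 ^ e) (2 * 2 ^ e) 0 1 0).card : ℝ) := by
  classical
  rw [cnt_eq, cnt_eq]
  have h2 : 2 ≤ 2 ^ e := by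
    calc 2 = 2 ^ 1 := rfl
      _ ≤ 2 ^ e := Nat.pow_le_pow_right (by norm_num) he
  have hsub : (Icc 1 (2 * 2 ^ e - 1)).filter P ⊆ (Icc 1 (2 ^ e - 1)).filter P ∪
      (cls S (2 ^ e) (2 * 2 ^ e) 0 1 0).image Int.toNat := by
    intro n hn
    rw [mem_filter, mem_Icc] at hn
    rw [mem_union]
    rcases lt_or_ge n (2 ^ e) with h | h
    · left
      rw [mem_filter, mem_Icc]
      exact ⟨⟨hn.1.1, by omega⟩, hn.2⟩
    · right
      rw [mem_image]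
      refine ⟨(n : ℤ), ?_, by simp⟩
      obtain ⟨g1, g2⟩ := hS n (by omega) hn.2
      rw [mem_cls]
      have h3 : ((2 ^ e : ℕ) : ℝ) ≤ n := by exact_mod_cast h
      have h4 : (n : ℝ) < ((2 * 2 ^ e : ℕ) : ℝ) := by
        have : n < 2 * 2 ^ e := by omega
        exact_mod_cast this
      push_cast at h3 h4 ⊢
      exact ⟨⟨h3, h4⟩, by exact_mod_cast g1, g2, by simp⟩
  have h5 := (card_le_card hsub).trans (card_union_le _ _)
  have h6 := card_image_le (s := cls S (2 ^ e) (2 * 2 ^ e) 0 1 0) (f := Int.toNat)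
  have h7 := h5.trans (Nat.add_le_add_left h6 _)
  exact_mod_cast h7

theorem win_of_Dn {P : ℕ → Prop} {l : ℝ} (hl : 0 < l) (hP : Dn P l) {S : Set ℤ}
    (hS : ∀ n : ℕ, 2 ≤ n → P n → Odd n ∧ (n : ℤ) ∈ S) :
    ∃ E0 : ℕ, ∀ e : ℕ, E0 ≤ e → l / 2 * 2 ^ e ≤ ((cls S (2 ^ e) (2 * 2 ^ e) 0 1 0).card : ℝ) := by
  unfold Dn at hP
  have h1 : ∀ᶠ N : ℕ in atTop, |Pool.Agent.H499R2.ND.cnt P N / N - l| < l / 10 := by
    have := (Metric.tendsto_nhds.1 hP) (l / 10) (by positivity)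
    refine this.mono fun N hN => ?_
    rwa [Real.dist_eq] at hN
  obtain ⟨N0, hN0⟩ := eventually_atTop.1 h1
  refine ⟨N0 + 4, fun e he => ?_⟩
  have h2e : e < 2 ^ e := Nat.lt_two_pow_self
  have h16 : 16 ≤ 2 ^ e := by
    calc 16 = 2 ^ 4 := rfl
      _ ≤ 2 ^ e := Nat.pow_le_pow_right (by norm_num) (by omega)
  have hw := cnt_win hS (e := e) (by omega)
  obtain ⟨a1, a2⟩ := abs_lt.1 (hN0 (2 * 2 ^ e - 1) (by omega))
  obtain ⟨b1, b2⟩ := abs_lt.1 (hN0 (2 ^ e - 1) (by omega))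
  have hc1 : ((2 * 2 ^ e - 1 : ℕ) : ℝ) = 2 * 2 ^ e - 1 := by
    rw [Nat.cast_sub (by omega)]; push_cast; ring
  have hc2 : ((2 ^ e - 1 : ℕ) : ℝ) = 2 ^ e - 1 := by
    rw [Nat.cast_sub (by omega)]; push_cast; ring
  have h16R : (16 : ℝ) ≤ 2 ^ e := by exact_mod_cast h16
  rw [hc1] at a1 a2
  rw [hc2] at b1 b2
  have a3 : l - l / 10 < Pool.Agent.H499R2.ND.cnt P (2 * 2 ^ e - 1) / (2 * 2 ^ e - 1) := by linarith
  rw [lt_div_iff₀ (by linarith)] at a3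
  have b3 : Pool.Agent.H499R2.ND.cnt P (2 ^ e - 1) / (2 ^ e - 1) < l + l / 10 := by linarith
  rw [div_lt_iff₀ (by linarith)] at b3
  nlinarith

end Pool.Agent.TH977.LL
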