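import Pool.Agent.TH977.IP.Word
import Pool.Agent.H499R2.NDEqui
import Pool.Agent.H499R2.NDG1

/-! The error of one stage with a rate (adapted from `err_bound`). -/

set_option autoImplicit false

namespace Pool.Agent.TH977.LL

open Pool.Agent.H320R2.PD Pool.Agent.H499R2.ND Finset

theorem err_rate : ∃ C : ℝ, 0 < C ∧ ∀ A : ℝ, 0 < A → 1000 ≤ Real.log A → ∀ k m m' : ℕ,
    (m : ℝ) ^ 2 ≤ Real.log A → Real.log A / 6 ≤ k → (k : ℝ) ≤ Real.log A / 2 →
    m' = ⌊Real.sqrt (0.8 * Real.log A)⌋₊ →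
    1 ≤ k ∧ m' ≤ k ∧ Err 1 A k m m' ≤ C / Real.log A := by
  obtain ⟨Cm, hCm, hmix⟩ := mix 4
  refine ⟨2 * (Cm * (2 ^ 4 + 6 ^ 4)) + 4 * 76800 + 4 * (2 * 5), by positivity, ?_⟩
  intro A hA ht k m m' hm hk2 hk1 hm'
  set t := Real.log A with htdef
  have htpos : 0 < t := by linarith
  have hexpA : Real.exp t = A := Real.exp_log hA
  have hkpos : (1 : ℝ) ≤ k := by linarith
  have hk1N : 1 ≤ k := by exact_mod_cast hkpos
  set r := Real.sqrt t with hr
  have hrsq : r ^ 2 = t := Real.sq_sqrt htpos.le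
  have hr30 : 30 ≤ r := by
    apply Real.le_sqrt_of_sq_le; linarith
  have hmr : (m : ℝ) ≤ r := Real.le_sqrt_of_sq_le hm
  have hs8 : Real.sqrt (0.8 * t) ≥ 0.8 * r := by
    apply Real.le_sqrt_of_sq_le
    rw [mul_pow, hrsq]; linarith
  have hs8' : Real.sqrt (0.8 * t) ≤ r := Real.sqrt_le_sqrt (by linarith)
  have hm'1 : r / 2 ≤ m' := by
    rw [hm']; linarith [Nat.lt_floor_add_one (Real.sqrt (0.8 * t))]
  have hm'2 : (m' : ℝ) ≤ r := by
    rw [hm']; exact (Nat.floor_le (Real.sqrt_nonneg _)).trans hs8'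
  have hm'pos : 1 ≤ m' := by
    have : (1 : ℝ) ≤ m' := by linarith
    exact_mod_cast this
  have hm'k : m' ≤ k := by
    have : (m' : ℝ) ≤ k := by nlinarith
    exact_mod_cast this
  refine ⟨hk1N, hm'k, ?_⟩
  have hexp5 := exp_neg_le 1 (by norm_num : (0 : ℝ) < 5) htpos
  have hexpb := exp_neg_le 1 (by norm_num : (0 : ℝ) < 76800) htpos
  rw [Nat.factorial_one, pow_one, pow_one, Nat.cast_one, one_mul] at hexp5 hexpb
  have hsmall : (2 : ℝ) ^ (41 * k / 20) * (2 * 3 ^ m / A) ≤ 2 * Real.exp (-(t / 5)) := by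
    have h1 := pow_tm_le htpos.le hk1
    have h2 := pow_m_le ht hm
    have h3 : (2 : ℝ) ^ (41 * k / 20) * (2 * 3 ^ m / A)
        ≤ Real.exp (0.7106 * t) * (2 * Real.exp (0.05 * t) / Real.exp t) := by
      rw [← hexpA]
      apply mul_le_mul h1 _ (by positivity) (Real.exp_pos _).le
      apply div_le_div_of_nonneg_right _ (Real.exp_pos _).le
      linarith
    have h4 : Real.exp (0.7106 * t) * (2 * Real.exp (0.05 * t) / Real.exp t)
        = 2 * Real.exp (0.7106 * t + 0.05 * t - t) := by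
      rw [Real.exp_sub, Real.exp_add]; ring
    rw [h4] at h3
    refine h3.trans ?_
    apply mul_le_mul_of_nonneg_left _ (by norm_num)
    apply Real.exp_le_exp.2
    linarith
  have hexpsmall : Real.exp (-(t / 5)) ≤ 1 / 2 := by
    have h1 := Real.add_one_le_exp (t / 5)
    rw [Real.exp_neg, inv_eq_one_div]
    apply one_div_le_one_div_of_le (by norm_num)
    linarith
  have hsmall1 : (2 : ℝ) ^ (41 * k / 20) * (2 * 3 ^ m / A) ≤ 1 := by linarith
  have h3mA : 0 ≤ (2 * 3 ^ m / A : ℝ) := by positivity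
  have hone : (2 * 3 ^ m / A : ℝ) ≤ 2 * Real.exp (-(t / 5)) := by
    have : (1 : ℝ) ≤ 2 ^ (41 * k / 20) := one_le_pow₀ (by norm_num)
    nlinarith
  have hδ := hmix k m m' (3 * k) hk1N hm'pos hm'k (le_refl _)
  set δ := ∑ T ∈ range (k * (3 * k) + 1), dev (FWT (3 * k) k T) wwt (fun w => (Wo w : ℤ)) (k + m) m'
    with hδdef
  have hδnn : 0 ≤ δ := sum_nonneg fun _ _ => sum_nonneg fun _ _ => abs_nonneg _
  have hrpos : 0 < r := by linarith
  have hδ2 : δ ≤ (Cm * (2 ^ 4 + 6 ^ 4)) / t := by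
    have e1 : ((k : ℝ) + m) ≤ t := by nlinarith
    have e2 : (1 / (m' : ℝ)) ^ 4 ≤ (2 / r) ^ 4 := by
      apply pow_le_pow_left₀ (by positivity)
      rw [div_le_div_iff₀ (by exact_mod_cast hm'pos) hrpos]
      linarith
    have e3 : ((m : ℝ) / k) ^ 4 ≤ (6 / r) ^ 4 := by
      apply pow_le_pow_left₀ (by positivity)
      rw [div_le_div_iff₀ (by linarith) hrpos]
      nlinarith
    have e4 : t * (Cm * ((2 / r) ^ 4 + (6 / r) ^ 4)) = (Cm * (2 ^ 4 + 6 ^ 4)) / t := by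
      have : r ^ 4 = t * t := by
        rw [show (4 : ℕ) = 2 * 2 by norm_num, pow_mul, hrsq]; ring
      rw [div_pow, div_pow, this]
      field_simp
    calc δ ≤ (k + m) * (Cm * ((1 / (m' : ℝ)) ^ 4 + ((m : ℝ) / k) ^ 4)) := hδ
      _ ≤ t * (Cm * ((2 / r) ^ 4 + (6 / r) ^ 4)) := by
          apply mul_le_mul e1 _ (by positivity) htpos.le
          apply mul_le_mul_of_nonneg_left _ hCm.le
          linarith
      _ = _ := e4
  have hmass := mass_GW k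
  have hmass2 : 3 * Real.exp (-(k / 12800 : ℝ)) ≤ 4 * Real.exp (-(t / 76800)) := by
    have h1 : Real.exp (-(k / 12800 : ℝ)) ≤ Real.exp (-(t / 76800)) := by
      apply Real.exp_le_exp.2
      linarith
    have h3 := Real.exp_pos (-(t / 76800))
    linarith
  unfold Err
  rw [← hδdef]
  have f1 : (1 + 2 ^ (41 * k / 20) * (2 * 3 ^ m / A)) * δ ≤ 2 * δ :=
    mul_le_mul_of_nonneg_right (by linarith) hδnn
  have f2 : (1 + (|((1 : ℤ) : ℝ)| + 2) * 2 ^ (41 * k / 20)) * (2 * 3 ^ m / A)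
      ≤ 4 * (2 * Real.exp (-(t / 5))) := by
    rw [Int.cast_one, abs_one]
    calc (1 + (1 + 2) * 2 ^ (41 * k / 20)) * (2 * 3 ^ m / A)
        = (2 * 3 ^ m / A) + 3 * (2 ^ (41 * k / 20) * (2 * 3 ^ m / A)) := by ring
      _ ≤ 2 * Real.exp (-(t / 5)) + 3 * (2 * Real.exp (-(t / 5))) := by linarith
      _ = _ := by ring
  calc (1 + 2 ^ (41 * k / 20) * (2 * 3 ^ m / A)) * δ
      + (1 - ∑ w ∈ GW (3 * k) k ((39 * k + 19) / 20) (41 * k / 20), wwt w)
      + (1 + (|((1 : ℤ) : ℝ)| + 2) * 2 ^ (41 * k / 20)) * (2 * 3 ^ m / A)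
      ≤ 2 * ((Cm * (2 ^ 4 + 6 ^ 4)) / t) + 4 * (76800 / t) + 4 * (2 * (5 / t)) := by
        linarith
    _ = _ := by ring

theorem mass_nonneg (k : ℕ) : 0 ≤ 1 - ∑ w ∈ GW (3 * k) k ((39 * k + 19) / 20) (41 * k / 20), wwt w := by
  have : ∑ w ∈ GW (3 * k) k ((39 * k + 19) / 20) (41 * k / 20), wwt w ≤ 1 := by
    refine le_trans ?_ (sum_wwt_le (3 * k) k)
    unfold GW
    exact sum_le_sum_of_subset_of_nonneg (filter_subset _ _) (fun w _ _ => by unfold wwt; positivity)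
  linarith

theorem mass_le_err {A : ℝ} (hA : 0 < A) (k m m' : ℕ) :
    1 - ∑ w ∈ GW (3 * k) k ((39 * k + 19) / 20) (41 * k / 20), wwt w ≤ Err 1 A k m m' := by
  unfold Err
  have h1 : 0 ≤ (1 + 2 ^ (41 * k / 20) * (2 * 3 ^ m / A))
      * ∑ T ∈ range (k * (3 * k) + 1), dev (FWT (3 * k) k T) wwt (fun w => (Wo w : ℤ)) (k + m) m' := by
    have : 0 ≤ ∑ T ∈ range (k * (3 * k) + 1), dev (FWT (3 * k) k T) wwt (fun w => (Wo w : ℤ)) (k + m) m' :=
      sum_nonneg fun _ _ => sum_nonneg fun _ _ => abs_nonneg _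
    positivity
  have h2 : 0 ≤ (1 + (|((1 : ℤ) : ℝ)| + 2) * 2 ^ (41 * k / 20)) * (2 * 3 ^ m / A) := by positivity
  linarith

/-- `1 + 2 ^ Tm` is below the error -/
theorem one_add_le_err {A : ℝ} (hA : 0 < A) (k m m' : ℕ) :
    1 + 2 ^ (41 * k / 20) ≤ Err 1 A k m m' * (A / (2 * 3 ^ m)) := by
  unfold Err
  set G := GW (3 * k) k ((39 * k + 19) / 20) (41 * k / 20) with hG
  set δ := ∑ T ∈ range (k * (3 * k) + 1), dev (FWT (3 * k) k T) wwt (fun w => (Wo w : ℤ)) (k + m) m'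
    with hδ
  set X := (2 : ℝ) ^ (41 * k / 20)
  have hY : 0 < A / (2 * 3 ^ m) := by positivity
  set Y := A / (2 * 3 ^ m) with hYdef
  set Z := 2 * 3 ^ m / A with hZ
  set μ := ∑ w ∈ G, wwt w with hμ
  have hfac : Y * Z = 1 := by rw [hYdef, hZ]; field_simp
  have : ((1 + X * Z) * δ + (1 - μ) + (1 + (|((1 : ℤ) : ℝ)| + 2) * X) * Z) * Y
      = (Y + X * (Y * Z)) * δ + Y * (1 - μ) + (1 + (|((1 : ℤ) : ℝ)| + 2) * X) * (Y * Z) := by ring
  rw [this, hfac]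
  have hX : 0 < X := by positivity
  have hδnn : 0 ≤ δ := sum_nonneg fun _ _ => sum_nonneg fun _ _ => abs_nonneg _
  have hμ1 : 0 ≤ 1 - μ := mass_nonneg k
  have e1 : 0 ≤ (Y + X * 1) * δ := by positivity
  have e2 : 0 ≤ Y * (1 - μ) := mul_nonneg hY.le hμ1
  have e3 : 0 ≤ |((1 : ℤ) : ℝ)| * X := by positivity
  nlinarith

end Pool.Agent.TH977.LL
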