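import Pool.Agent.TH977.LL.Err
import Pool.Agent.TH977.IP.Fin1
import Pool.Agent.H499R2.CL.B

/-! Harmonic relation for the level sets of hitting times. -/

set_option autoImplicit false

namespace Pool.Agent.TH977.LL

open Pool.Agent.H320R2.PD Pool.Agent.H499R2.ND Pool.Agent.TH977.IP Finset

/-- the odd points of `S` in `[A, 2A)` divided by `A / 2` -/
noncomputable def den (S : Set ℤ) (A : ℝ) : ℝ := ((cls S A (2 * A) 0 1 0).card : ℝ) / (A / 2)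

theorem den_nonneg (S : Set ℤ) {A : ℝ} (hA : 0 < A) : 0 ≤ den S A := by
  unfold den; positivity

/-- the words of one stage -/
noncomputable def WK (k : ℕ) : Finset (List ℕ) := GW (3 * k) k ((39 * k + 19) / 20) (41 * k / 20)

theorem WK_sum {k : ℕ} {w : List ℕ} (hw : w ∈ WK k) : (39 * k + 19) / 20 ≤ w.sum ∧ w.sum ≤ 41 * k / 20 := by
  unfold WK GW at hw
  exact (mem_filter.1 hw).2

theorem WK_word {k : ℕ} {w : List ℕ} (hw : w ∈ WK k) : w.length = k ∧ ∀ a ∈ w, 1 ≤ a := by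
  unfold WK GW at hw
  exact FW_props (mem_filter.1 hw).1

theorem WK_mass (k : ℕ) : ∑ w ∈ WK k, wwt w ≤ 1 := by
  have := mass_nonneg k
  unfold WK
  linarith

/-- the sets are compatible along the words of one stage -/
def Pth (S : Set ℤ) (S' : ℕ → Set ℤ) (A : ℝ) (k : ℕ) : Prop :=
  ∀ w ∈ WK k, ∀ M x : ℤ, Odd M → Odd x → A ≤ (M : ℝ) → (M : ℝ) < 2 * A → Vw 1 w M x →
    (M ∈ S ↔ x ∈ S' w.sum)

theorem Pth.compl {S : Set ℤ} {S' : ℕ → Set ℤ} {A : ℝ} {k : ℕ} (h : Pth S S' A k) :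
    Pth Sᶜ (fun T => (S' T)ᶜ) A k :=
  fun w hw M x hM hx h1 h2 hV => not_congr (h w hw M x hM hx h1 h2 hV)

/-- the main term -/
noncomputable def MnF (S' : ℕ → Set ℤ) (A : ℝ) (k m m' : ℕ) : ℝ :=
  (∑ w ∈ WK k, ((cls (S' w.sum) (A * 3 ^ k / 2 ^ w.sum) (2 * (A * 3 ^ k / 2 ^ w.sum)) m' (2 ^ w.sum)
    ((1 : ℤ) * Wo w)).card : ℝ)) / 3 ^ (k + m - m')

theorem starF {S : Set ℤ} {S' : ℕ → Set ℤ} {A : ℝ} (hA : 0 < A) {k m m' : ℕ} (h : Pth S S' A k)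
    (hk : 1 ≤ k) (hm' : m' ≤ k) (c : ℤ) :
    ((cls S A (2 * A) m 1 c).card : ℝ) ≤ MnF S' A k m m' + Err 1 A k m m' * (A / (2 * 3 ^ m)) := by
  have hTm : 41 * k / 20 ≤ k * (3 * k) := by nlinarith [Nat.div_mul_le_self (41 * k) 20]
  have h1 := starG (d := 1) odd_one isCoprime_one_left S' hA.le (3 * k) k m m' ((39 * k + 19) / 20)
    (41 * k / 20) (fun w hw M x hM hx h1 h2 h3 h4 => (h w hw M x hM hx h1 h2 h4).1 h3) hk hm' hTm c
  refine h1.trans (le_of_eq ?_)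
  unfold MnF Err WK
  set G := GW (3 * k) k ((39 * k + 19) / 20) (41 * k / 20) with hG
  set δ := ∑ T ∈ range (k * (3 * k) + 1), dev (FWT (3 * k) k T) wwt (fun w => (Wo w : ℤ)) (k + m) m'
  set X := (2 : ℝ) ^ (41 * k / 20)
  set Y := A / (2 * 3 ^ m) with hY
  set Z := 2 * 3 ^ m / A with hZ
  set μ := ∑ w ∈ G, wwt w
  have hfac : Y * Z = 1 := by rw [hY, hZ]; field_simp
  have : ((1 + X * Z) * δ + (1 - μ) + (1 + (|((1 : ℤ) : ℝ)| + 2) * X) * Z) * Y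
      = (Y + X * (Y * Z)) * δ + Y * (1 - μ) + (1 + (|((1 : ℤ) : ℝ)| + 2) * X) * (Y * Z) := by ring
  rw [this, hfac]
  ring

theorem MnF_add (S' : ℕ → Set ℤ) {A : ℝ} (hA : 0 < A) {k m m' : ℕ} (hm' : m' ≤ k) :
    MnF S' A k m m' + MnF (fun T => (S' T)ᶜ) A k m m' ≤ A / (2 * 3 ^ m) + 2 ^ (41 * k / 20) := by
  unfold MnF
  rw [← add_div, ← sum_add_distrib]
  have h1 : ∀ w ∈ WK k,
      (((cls (S' w.sum) (A * 3 ^ k / 2 ^ w.sum) (2 * (A * 3 ^ k / 2 ^ w.sum)) m' (2 ^ w.sum)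
          ((1 : ℤ) * Wo w)).card : ℝ)
        + ((cls (S' w.sum)ᶜ (A * 3 ^ k / 2 ^ w.sum) (2 * (A * 3 ^ k / 2 ^ w.sum)) m' (2 ^ w.sum)
          ((1 : ℤ) * Wo w)).card : ℝ))
      ≤ A * 3 ^ k / (2 * 3 ^ m') * wwt w + 1 := by
    intro w _
    rw [cls_compl]
    have := cls_card_le Set.univ (a := A * 3 ^ k / 2 ^ w.sum) (b := 2 * (A * 3 ^ k / 2 ^ w.sum))
      (by have : 0 < A * 3 ^ k / 2 ^ w.sum := by positivity
          linarith) m' (cop_two_pow w.sum) ((1 : ℤ) * Wo w)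
    refine this.trans (le_of_eq ?_)
    unfold wwt
    rw [one_div, inv_pow]
    field_simp
    ring
  rw [div_le_iff₀ (by positivity)]
  refine (sum_le_sum h1).trans ?_
  rw [sum_add_distrib, ← mul_sum, sum_const, nsmul_eq_mul, mul_one]
  have hmass1 := WK_mass k
  have hcard : ((WK k).card : ℝ) ≤ 2 ^ (41 * k / 20) := GW_card (3 * k) k ((39 * k + 19) / 20) (41 * k / 20)
  have h6 : (3 : ℝ) ^ (k + m - m') * 3 ^ m' = 3 ^ k * 3 ^ m := by
    rw [← pow_add, ← pow_add]; congr 1; omega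
  have h7 : A / (2 * 3 ^ m) * 3 ^ (k + m - m') = A * 3 ^ k / (2 * 3 ^ m') := by
    have h7 : (3 : ℝ) ^ k = 3 ^ (k + m - m') * 3 ^ m' / 3 ^ m := by
      rw [h6]; field_simp
    rw [h7]
    field_simp
  have h8 : (1 : ℝ) ≤ 3 ^ (k + m - m') := one_le_pow₀ (by norm_num)
  rw [add_mul, h7]
  have h9 : A * 3 ^ k / (2 * 3 ^ m') * ∑ w ∈ WK k, wwt w ≤ A * 3 ^ k / (2 * 3 ^ m') := by
    have : A * 3 ^ k / (2 * 3 ^ m') * ∑ w ∈ WK k, wwt w ≤ A * 3 ^ k / (2 * 3 ^ m') * 1 :=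
      mul_le_mul_of_nonneg_left hmass1 (by positivity)
    linarith
  have h10 : (2 : ℝ) ^ (41 * k / 20) ≤ 2 ^ (41 * k / 20) * 3 ^ (k + m - m') := by
    have : (0 : ℝ) < 2 ^ (41 * k / 20) := by positivity
    nlinarith
  linarith

theorem equiF {S : Set ℤ} {S' : ℕ → Set ℤ} {A : ℝ} (hA : 0 < A) {k m m' : ℕ} (h : Pth S S' A k)
    (hk : 1 ≤ k) (hm' : m' ≤ k) (c c' : ℤ) :
    ((cls S A (2 * A) m 1 c).card : ℝ) ≤ (cls S A (2 * A) m 1 c').card +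
      3 * Err 1 A k m m' * (A / (2 * 3 ^ m)) := by
  have h1 := starF hA h hk hm' (m := m) c
  have h2 := starF hA h.compl hk hm' (m := m) c'
  have h3 := MnF_add S' hA (m := m) hm'
  have h4 := cls_compl S A (2 * A) m 1 c'
  have h5 := le_cls_univ A (2 * A) m isCoprime_one_left c'
  rw [show 2 * A - A = A by ring] at h5
  have h6 := one_add_le_err hA k m m'
  linarith

theorem PB_of {S : Set ℤ} {S' : ℕ → Set ℤ} {A : ℝ} (hA : 0 < A) {k m m' : ℕ} (h : Pth S S' A k)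
    (hk : 1 ≤ k) (hm' : m' ≤ k) : PB S A m (den S A + 3 * Err 1 A k m m') := by
  intro u v hu
  obtain ⟨c, hc⟩ := cls_unit S A (2 * A) m hu v
  rw [hc]
  have hsum : ∑ c' ∈ range (3 ^ m), ((cls S A (2 * A) m 1 c).card : ℝ) ≤
      ∑ c' ∈ range (3 ^ m), (((cls S A (2 * A) m 1 (c' : ℤ)).card : ℝ) +
        3 * Err 1 A k m m' * (A / (2 * 3 ^ m))) := sum_le_sum fun c' _ => equiF hA h hk hm' c c'
  rw [sum_add_distrib, clI_sum, sum_const, sum_const, card_range, nsmul_eq_mul, nsmul_eq_mul] at hsum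
  push_cast at hsum
  have h3 : (0 : ℝ) < 3 ^ m := by positivity
  have h5 : (den S A + 3 * Err 1 A k m m') * (A / (2 * 3 ^ m)) =
      (((cls S A (2 * A) 0 1 0).card : ℝ) + 3 ^ m * (3 * Err 1 A k m m' * (A / (2 * 3 ^ m)))) / 3 ^ m := by
    unfold den
    field_simp
  rw [h5, le_div_iff₀ h3]
  linarith

theorem den_compl (S : Set ℤ) {A : ℝ} (hA : 0 < A) :
    den Sᶜ A ≤ 1 - den S A + 2 / A ∧ 1 - 2 / A ≤ den S A + den Sᶜ A := by
  have h4 := cls_compl S A (2 * A) 0 1 0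
  have h5 := le_cls_univ A (2 * A) 0 isCoprime_one_left 0
  have h6 := cls_card_le Set.univ (a := A) (b := 2 * A) (by linarith) 0 isCoprime_one_left 0
  rw [show 2 * A - A = A by ring, pow_zero, mul_one] at h5 h6
  have e : den S A + den Sᶜ A = ((cls Set.univ A (2 * A) 0 1 0).card : ℝ) / (A / 2) := by
    unfold den
    rw [← add_div, h4]
  have h7 : (A / 2 + 1) / (A / 2) = 1 + 2 / A := by field_simp
  have h8 : (A / 2 - 1) / (A / 2) = 1 - 2 / A := by field_simp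
  have h9 : ((cls Set.univ A (2 * A) 0 1 0).card : ℝ) / (A / 2) ≤ 1 + 2 / A := by
    rw [← h7]
    exact div_le_div_of_nonneg_right h6 (by positivity)
  have h10 : 1 - 2 / A ≤ ((cls Set.univ A (2 * A) 0 1 0).card : ℝ) / (A / 2) := by
    rw [← h8]
    exact div_le_div_of_nonneg_right h5 (by positivity)
  constructor <;> linarith

theorem two_div_le {A : ℝ} (hA : 0 < A) (k m' : ℕ) : 2 / A ≤ Err 1 A k 0 m' := by
  have h := one_add_le_err hA k 0 m'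
  rw [pow_zero, mul_one] at h
  have h1 : (0 : ℝ) < 2 ^ (41 * k / 20) := by positivity
  rw [div_le_iff₀ hA]
  linarith

theorem PB_compl_of {S : Set ℤ} {S' : ℕ → Set ℤ} {A : ℝ} (hA : 0 < A) {k m m' : ℕ} (h : Pth S S' A k)
    (hk : 1 ≤ k) (hm' : m' ≤ k) :
    PB Sᶜ A m (1 - den S A + Err 1 A k 0 m' + 3 * Err 1 A k m m') := by
  have h1 := PB_of hA h.compl hk hm' (m := m)
  refine PB_mono hA ?_ h1
  have h2 := (den_compl S hA).1
  have h3 := two_div_le hA k m'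
  linarith

/-- upper bound by one stage -/
theorem den_le {S : Set ℤ} {S' : ℕ → Set ℤ} {A : ℝ} (hA : 0 < A) {k m' : ℕ} (h : Pth S S' A k)
    (hk : 1 ≤ k) (hm' : m' ≤ k) {ρ : ℕ → ℝ}
    (hρ : ∀ T : ℕ, (39 * k + 19) / 20 ≤ T → T ≤ 41 * k / 20 → PB (S' T) (A * 3 ^ k / 2 ^ T) m' (ρ T)) :
    den S A ≤ ∑ w ∈ WK k, wwt w * ρ w.sum + 2 * Err 1 A k 0 m' := by
  have h1 := stageW (d := 1) odd_one isCoprime_one_left (S := S) S' hA (k := k) (m := 0) (m' := m')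
    (Tl := (39 * k + 19) / 20) (Tm := 41 * k / 20) hk hm' le_rfl (ρ := ρ)
    (fun w hw M x hM hx h1 h2 h3 h4 => (h w hw M x hM hx h1 h2 h4).1 h3) hρ
  have h2 := h1 1 0 isCoprime_one_left
  rw [pow_zero, mul_one] at h2
  have h3 : den S A ≤ (∑ w ∈ GW (3 * k) k ((39 * k + 19) / 20) (41 * k / 20), wwt w * ρ w.sum)
      + Err 1 A k 0 m' + (1 - ∑ w ∈ GW (3 * k) k ((39 * k + 19) / 20) (41 * k / 20), wwt w) := by
    unfold den
    rw [div_le_iff₀ (by positivity)]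
    exact h2
  have h4 := mass_le_err hA k 0 m'
  unfold WK
  linarith

end Pool.Agent.TH977.LL
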