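import Pool.Agent.TH977.LL.Prof2
import Pool.Agent.TH977.LL.All

/-! The local law for the pairs (number of steps, number of odd steps). -/

set_option autoImplicit false

namespace Pool.Agent.TH977.LL

open Pool.Agent.H320R2.PD Pool.Agent.H499R2.ND Pool.Agent.TH977.IP Finset Filter Topology

open Pool.Agent.H499R2.HL (H H_two H_of_two odn_two H_unique)
open Pool.Agent.H499R2.LT (odn)

/-- the profile of the convolution with the geometric law -/
theorem profile1 (c : ℕ) {B η : ℝ} (hB : 0 < B) (hη : 0 < η) : ∃ Kb : ℝ, 0 < Kb ∧ ∃ I : ℕ, ∀ i : ℕ, I ≤ i →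
    ∃ κ : ℝ, 0 ≤ κ ∧ κ ≤ Kb ∧ ∀ e : ℕ, |(e : ℝ) - i| ≤ B * Real.sqrt i →
      |cv 1 (nn c i) e - κ * qq (i + 1) e| ≤ η / Real.sqrt i := by
  obtain ⟨Kb, hKb, I, h⟩ := profile c (B := B + 1) (η := η / 2) (by positivity) (by positivity)
  obtain ⟨M0, hM0⟩ : ∃ M0 : ℝ, M0 = 5 * 2 ^ c := ⟨_, rfl⟩
  have hM00 : 0 < M0 := by rw [hM0]; positivity
  refine ⟨Kb, hKb, I + ⌈(16 * (M0 + Kb) / η) ^ 2⌉₊ + 4, fun i hi => ?_⟩
  obtain ⟨κ, hκ0, hκ1, hκ⟩ := h i (by omega)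
  refine ⟨κ, hκ0, hκ1, fun e he => ?_⟩
  have hi4 : 4 ≤ i := by omega
  have hi4R : (4 : ℝ) ≤ i := by exact_mod_cast hi4
  have hi0 : (0 : ℝ) < i := by linarith
  have hi2 : (16 * (M0 + Kb) / η) ^ 2 ≤ i := by
    refine (Nat.le_ceil _).trans ?_
    have : ⌈(16 * (M0 + Kb) / η) ^ 2⌉₊ ≤ i := by omega
    exact_mod_cast this
  set s := Real.sqrt i with hs
  have hs0 : 0 < s := Real.sqrt_pos.2 hi0
  have hss : s ^ 2 = i := Real.sq_sqrt hi0.le
  have hs2 : 2 ≤ s := Real.le_sqrt_of_sq_le (by linarith)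
  have hsM : 16 * (M0 + Kb) / η ≤ s := Real.le_sqrt_of_sq_le hi2
  have hq : qq (i + 1) e = ∑ a ∈ range (e + 1), qq 1 a * qq i (e - a) := by
    rw [add_comm, ← qq_conv le_rfl (by omega : 1 ≤ i) e]
    exact Finset.Nat.sum_antidiagonal_eq_sum_range_succ_mk (fun p => qq 1 p.1 * qq i p.2) e
  have e1 : cv 1 (nn c i) e - κ * qq (i + 1) e = ∑ a ∈ range (e + 1), qq 1 a * (nn c i (e - a) - κ * qq i (e - a)) := by
    rw [hq, cv_range, mul_sum, ← sum_sub_distrib]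
    apply sum_congr rfl
    intro a _
    ring
  rw [e1]
  refine (abs_sum_le_sum_abs _ _).trans ?_
  rw [← sum_filter_add_sum_filter_not (range (e + 1)) (fun a : ℕ => (a : ℝ) ≤ s)]
  have h1 : ∑ a ∈ (range (e + 1)).filter (fun a : ℕ => (a : ℝ) ≤ s), |qq 1 a * (nn c i (e - a) - κ * qq i (e - a))| ≤
      η / 2 / s := by
    have h2 : ∀ a ∈ (range (e + 1)).filter (fun a : ℕ => (a : ℝ) ≤ s),
        |qq 1 a * (nn c i (e - a) - κ * qq i (e - a))| ≤ qq 1 a * (η / 2 / s) := by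
      intro a ha
      rw [mem_filter, mem_range] at ha
      rw [abs_mul, abs_of_nonneg (qq_nonneg _ _)]
      apply mul_le_mul_of_nonneg_left _ (qq_nonneg _ _)
      apply hκ
      rw [Nat.cast_sub (by omega)]
      have ha0 : (0 : ℝ) ≤ a := Nat.cast_nonneg _
      obtain ⟨g1, g2⟩ := abs_le.1 he
      rw [abs_le]
      constructor <;> linarith [ha.2]
    refine (sum_le_sum h2).trans ?_
    rw [← sum_mul]
    have := mul_le_mul_of_nonneg_right (qq_sum_le (k := 1) le_rfl ((range (e + 1)).filter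
      (fun a : ℕ => (a : ℝ) ≤ s))) (show 0 ≤ η / 2 / s by positivity)
    linarith
  have h3 : ∑ a ∈ (range (e + 1)).filter (fun a : ℕ => ¬ (a : ℝ) ≤ s), |qq 1 a * (nn c i (e - a) - κ * qq i (e - a))| ≤
      η / 2 / s := by
    have h2 : ∀ a ∈ (range (e + 1)).filter (fun a : ℕ => ¬ (a : ℝ) ≤ s),
        |qq 1 a * (nn c i (e - a) - κ * qq i (e - a))| ≤ qq 1 a * (M0 + Kb) := by
      intro a ha
      rw [abs_mul, abs_of_nonneg (qq_nonneg _ _)]
      apply mul_le_mul_of_nonneg_left _ (qq_nonneg _ _)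
      have q1 := nn_bd c i (e - a)
      have q2 := nn_nonneg c i (e - a)
      have q3 : qq i (e - a) ≤ 1 := by
        have := qq_sum_le (k := i) (by omega) {e - a}
        rwa [sum_singleton] at this
      have q4 := qq_nonneg i (e - a)
      have q5 : κ * qq i (e - a) ≤ Kb * 1 := mul_le_mul hκ1 q3 q4 hKb.le
      have q6 : 0 ≤ κ * qq i (e - a) := mul_nonneg hκ0 q4
      rw [← hM0] at q1
      rw [abs_le]
      constructor <;> linarith
    refine (sum_le_sum h2).trans ?_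
    rw [← sum_mul]
    have h4 := qq_cheb (k := 1) le_rfl (a := s / 2) (by positivity) ((range (e + 1)).filter
      (fun a : ℕ => ¬ (a : ℝ) ≤ s)) (by
        intro a ha
        rw [mem_filter] at ha
        have := not_le.1 ha.2
        rw [Nat.cast_one, abs_of_nonneg (by linarith)]
        linarith)
    have e2 : 2 * ((1 : ℕ) : ℝ) / (s / 2) ^ 2 = 8 / s / s := by
      push_cast
      field_simp
      norm_num
    rw [e2] at h4
    have h5 := mul_le_mul_of_nonneg_right h4 (show 0 ≤ M0 + Kb by positivity)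
    refine h5.trans ?_
    have e3 : 8 / s / s * (M0 + Kb) = 8 * (M0 + Kb) / s / s := by ring
    rw [e3]
    apply div_le_div_of_nonneg_right _ hs0.le
    rw [div_le_iff₀ hs0]
    rw [div_le_iff₀ hη] at hsM
    linarith
  refine (add_le_add h1 h3).trans (le_of_eq ?_)
  ring

/-- the lower bound for the weights in the central range -/
theorem qq_low {B : ℝ} (hB : 0 < B) : ∃ b : ℝ, 0 < b ∧ ∃ I : ℕ, ∀ i e : ℕ, I ≤ i →
    |(e : ℝ) - i| ≤ B * Real.sqrt i → b / Real.sqrt i ≤ qq (i + 1) e := by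
  obtain ⟨b, hb, K0, hK0, h⟩ := pk_lower (show 0 < B + 1 by positivity)
  refine ⟨b / 2, by positivity, K0 + ⌈B ^ 2⌉₊ + 1, fun i e hi he => ?_⟩
  have hi1 : 1 ≤ i := by omega
  have hi1R : (1 : ℝ) ≤ i := by exact_mod_cast hi1
  have hi0 : (0 : ℝ) < i := by linarith
  set s := Real.sqrt i with hs
  have hs0 : 0 < s := Real.sqrt_pos.2 hi0
  have hss : s ^ 2 = i := Real.sq_sqrt hi0.le
  have hs1 : 1 ≤ s := Real.le_sqrt_of_sq_le (by linarith)
  have hBs : B ≤ s := by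
    apply Real.le_sqrt_of_sq_le
    refine (Nat.le_ceil _).trans ?_
    have : ⌈B ^ 2⌉₊ ≤ i := by omega
    exact_mod_cast this
  have hs2 : s ≤ Real.sqrt ((i + 1 : ℕ) : ℝ) := Real.sqrt_le_sqrt (by push_cast; linarith)
  have hs3 : Real.sqrt ((i + 1 : ℕ) : ℝ) ≤ 2 * s := by
    rw [Real.sqrt_le_left (by positivity), mul_pow, hss]
    push_cast
    linarith
  obtain ⟨g1, g2⟩ := abs_le.1 he
  have hBss : B * s ≤ i := by
    rw [← hss, pow_two]
    exact mul_le_mul_of_nonneg_right hBs hs0.le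
  have he2 : e ≤ 2 * (i + 1) := by
    have : (e : ℝ) ≤ 2 * (i + 1) := by linarith
    exact_mod_cast this
  obtain ⟨_, _, h3⟩ := h (i + 1) (by omega) (i + 1 + e) (by
    have h4 : (B + 1) * s ≤ (B + 1) * Real.sqrt ((i + 1 : ℕ) : ℝ) := mul_le_mul_of_nonneg_left hs2 (by positivity)
    push_cast at h4 ⊢
    rw [abs_le]
    constructor <;> linarith)
  rw [qq_pk (by omega) he2] at h3
  refine le_trans ?_ h3
  rw [div_le_div_iff₀ hs0 (by linarith)]
  have : b / 2 * Real.sqrt ((i + 1 : ℕ) : ℝ) ≤ b / 2 * (2 * s) := mul_le_mul_of_nonneg_left hs3 (by positivity)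
  linarith

/-- the ratio of the count and the binomial weight -/
noncomputable def RR (i l : ℕ) : ℝ := ((W l i).ncard : ℝ) / ((l.choose i : ℝ) / 3 ^ i)

theorem RR_eq {c : ℕ} (hc : ∀ n l i : ℕ, n ∈ W l i →
    Real.exp (l * Real.log 2 - i * Real.log 3) / 2 ^ c ≤ n ∧ (n : ℝ) ≤ Real.exp (l * Real.log 2 - i * Real.log 3) * 2 ^ c)
    (i e : ℕ) : RR i (i + e) = cv 1 (nn c i) e / qq (i + 1) e := by
  unfold RR
  rw [W_cv hc]
  have hch : (0 : ℝ) < ((i + e).choose i : ℝ) := by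
    have := Nat.choose_pos (show i ≤ i + e by omega)
    exact_mod_cast this
  have hq : qq (i + 1) e = ((i + e).choose i : ℝ) / 2 ^ (i + 1 + e) := by
    unfold qq
    rw [Nat.add_sub_cancel]
  rw [hq, show i + 1 + e = i + e + 1 by omega, pow_succ]
  field_simp

theorem RR_prof {c : ℕ} (hc : ∀ n l i : ℕ, n ∈ W l i →
    Real.exp (l * Real.log 2 - i * Real.log 3) / 2 ^ c ≤ n ∧ (n : ℝ) ≤ Real.exp (l * Real.log 2 - i * Real.log 3) * 2 ^ c)
    {B ε : ℝ} (hB : 0 < B) (hε : 0 < ε) : ∃ Kb : ℝ, 0 < Kb ∧ ∃ I : ℕ, ∀ i : ℕ, I ≤ i → ∃ κ : ℝ, 0 ≤ κ ∧ κ ≤ Kb ∧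
      ∀ e : ℕ, |(e : ℝ) - i| ≤ B * Real.sqrt i → |RR i (i + e) - κ| ≤ ε := by
  obtain ⟨b, hb, I1, h1⟩ := qq_low hB
  obtain ⟨Kb, hKb, I2, h2⟩ := profile1 c hB (show 0 < ε * b by positivity)
  refine ⟨Kb, hKb, I1 + I2 + 1, fun i hi => ?_⟩
  obtain ⟨κ, k1, k2, k3⟩ := h2 i (by omega)
  refine ⟨κ, k1, k2, fun e he => ?_⟩
  have hi0 : (0 : ℝ) < i := by
    have : 0 < i := by omega
    exact_mod_cast this
  have hs0 : 0 < Real.sqrt i := Real.sqrt_pos.2 hi0
  have h3 := h1 i e (by omega) he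
  have h4 := k3 e he
  have hq : 0 < qq (i + 1) e := lt_of_lt_of_le (by positivity) h3
  rw [RR_eq hc]
  have e1 : cv 1 (nn c i) e / qq (i + 1) e - κ = (cv 1 (nn c i) e - κ * qq (i + 1) e) / qq (i + 1) e := by
    field_simp
  rw [e1, abs_div, abs_of_pos hq, div_le_iff₀ hq]
  refine h4.trans ?_
  have h5 : ε * b / Real.sqrt i = ε * (b / Real.sqrt i) := by ring
  rw [h5]
  exact mul_le_mul_of_nonneg_left h3 hε.le

end Pool.Agent.TH977.LL
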