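import Pool.Agent.TH977.LL.Fam

/-! The level sets of the hitting times of `1` and the harmonic relation. -/

set_option autoImplicit false

namespace Pool.Agent.TH977.LL

open Pool.Agent.H320R2.PD Pool.Agent.H499R2.ND Pool.Agent.TH977.IP Finset

/-- the sum of the first `k` exponents -/
def es (x : ℤ) (k : ℕ) : ℕ := ∑ i ∈ range k, ex 1 ((Sy 1)^[i] x)

/-- the points which reach `1` for the first time after `K` odd steps with `al * K + be * es x K = j` -/
def HS (al be : ℕ) (j : ℤ) : Set ℤ :=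
  {x | ∃ K : ℕ, (Sy 1)^[K] x = 1 ∧ (∀ i < K, (Sy 1)^[i] x ≠ 1) ∧ (al : ℤ) * K + be * (es x K : ℕ) = j}

theorem HS_unique {al be : ℕ} {j j' : ℤ} {x : ℤ} (h : x ∈ HS al be j) (h' : x ∈ HS al be j') : j = j' := by
  obtain ⟨K, h1, h2, h3⟩ := h
  obtain ⟨K', h1', h2', h3'⟩ := h'
  have : K = K' := by
    rcases lt_trichotomy K K' with h | h | h
    · exact absurd h1 (h2' K h)
    · exact h
    · exact absurd h1' (h2 K' h)
  subst this
  rw [← h3, ← h3']

theorem es_add (x : ℤ) (k K : ℕ) : es x (k + K) = es x k + es ((Sy 1)^[k] x) K := by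
  unfold es
  rw [sum_range_add]
  congr 1
  apply sum_congr rfl
  intro i _
  rw [← Function.iterate_add_apply, add_comm i k]

theorem HS_shift (al be : ℕ) (j : ℤ) {x : ℤ} {k : ℕ} (h : ∀ i < k, (Sy 1)^[i] x ≠ 1) :
    x ∈ HS al be j ↔ (Sy 1)^[k] x ∈ HS al be (j - al * k - be * (es x k : ℕ)) := by
  constructor
  · rintro ⟨K, h1, h2, h3⟩
    have hK : k ≤ K := by
      by_contra hcon
      exact h K (by omega) h1
    obtain ⟨K', rfl⟩ : ∃ K', K = k + K' := ⟨K - k, by omega⟩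
    refine ⟨K', ?_, ?_, ?_⟩
    · rw [← Function.iterate_add_apply, add_comm K' k]; exact h1
    · intro i hi
      rw [← Function.iterate_add_apply, add_comm i k]
      exact h2 _ (by omega)
    · rw [es_add] at h3
      push_cast at h3 ⊢
      linarith
  · rintro ⟨K', h1, h2, h3⟩
    refine ⟨k + K', ?_, ?_, ?_⟩
    · rw [add_comm, Function.iterate_add_apply]; exact h1
    · intro i hi
      rcases lt_or_ge i k with h4 | h4
      · exact h i h4
      · obtain ⟨i', rfl⟩ : ∃ i', i = i' + k := ⟨i - k, by omega⟩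
        rw [Function.iterate_add_apply]
        exact h2 i' (by omega)
    · rw [es_add]
      push_cast at h3 ⊢
      linarith

theorem Sy_one : Sy 1 1 = 1 := by
  have h := step_eq (d := 1) (M := 1) (M₁ := 1) (e := 2) (by norm_num) odd_one
  exact h.2

theorem iter_one (k : ℕ) : (Sy 1)^[k] 1 = 1 := by
  induction k with
  | zero => rfl
  | succ k ih => rw [Function.iterate_succ_apply', ih, Sy_one]

theorem HS_Pth (al be : ℕ) (j : ℤ) {A : ℝ} (hA : 0 < A) (ht : 1000 ≤ Real.log A) {k : ℕ}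
    (hk : (k : ℝ) ≤ Real.log A / 2) :
    Pth (HS al be j) (fun T => HS al be (j - al * k - be * (T : ℕ))) A k := by
  intro w hw M x hM hx h1 h2 hV
  obtain ⟨hl, hw1⟩ := WK_word hw
  obtain ⟨h3, h4⟩ := word_seq (d := 1) odd_one w hw1 M x hx hV
  rw [hl] at h3 h4
  have hne : ∀ i < k, (Sy 1)^[i] M ≠ 1 := by
    intro i hi hcon
    have hx1 : x = 1 := by
      rw [h4]
      obtain ⟨e, rfl⟩ : ∃ e, k = e + i := ⟨k - i, by omega⟩
      rw [Function.iterate_add_apply, hcon, iter_one]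
    rw [hx1] at hV
    unfold Vw at hV
    rw [hl, mul_one] at hV
    have hVR : (3 : ℝ) ^ k * M + 1 * (Wo w : ℤ) = 2 ^ w.sum := by exact_mod_cast hV
    have h5 : (0 : ℝ) ≤ (Wo w : ℤ) := by positivity
    have h6 : (1 : ℝ) ≤ 3 ^ k := one_le_pow₀ (by norm_num)
    have h7 : (2 : ℝ) ^ w.sum ≤ 2 ^ (41 * k / 20) := pow_le_pow_right₀ (by norm_num) (WK_sum hw).2
    have h8 := pow_tm_le (by linarith : 0 ≤ Real.log A) hk
    have h9 : Real.exp (0.7106 * Real.log A) < A := by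
      have : Real.exp (0.7106 * Real.log A) < Real.exp (Real.log A) := by
        apply Real.exp_lt_exp.2
        linarith
      rwa [Real.exp_log hA] at this
    have h10 : A ≤ 3 ^ k * (M : ℝ) := by
      have : (0 : ℝ) ≤ M := hA.le.trans h1
      nlinarith
    linarith
  have h5 := HS_shift al be j (x := M) hne
  have h6 : es M k = w.sum := by
    unfold es
    rw [h3]
  rw [h5, h6, ← h4]

theorem size_T {A : ℝ} (hA : 0 < A) {k T : ℕ} (hk : (k : ℝ) ≤ Real.log A / 2)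
    (h1 : (39 * k + 19) / 20 ≤ T) (h2 : T ≤ 41 * k / 20) :
    0.8 * Real.log A ≤ Real.log (A * 3 ^ k / 2 ^ T) := by
  apply next_k hA hk
  have h3 : 39 * k ≤ 20 * T := by omega
  have h4 : 20 * T ≤ 41 * k := by omega
  have h3R : (39 : ℝ) * k ≤ 20 * T := by exact_mod_cast h3
  have h4R : (20 : ℝ) * T ≤ 41 * k := by exact_mod_cast h4
  rw [abs_le]
  constructor <;> linarith

/-- THE HARMONIC RELATION with error `C / log A` -/
theorem harm (al be : ℕ) : ∃ C : ℝ, 0 < C ∧ ∀ A : ℝ, 0 < A → 1250 ≤ Real.log A → ∀ k : ℕ,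
    Real.log A / 6 ≤ k → (k : ℝ) ≤ Real.log A / 2 → ∀ j : ℤ,
    den (HS al be j) A ≤ ∑ w ∈ WK k, wwt w *
        den (HS al be (j - al * k - be * (w.sum : ℕ))) (A * 3 ^ k / 2 ^ w.sum) + C / Real.log A ∧
    ∑ w ∈ WK k, wwt w * den (HS al be (j - al * k - be * (w.sum : ℕ))) (A * 3 ^ k / 2 ^ w.sum) ≤
      den (HS al be j) A + C / Real.log A := by
  obtain ⟨C, hC, herr⟩ := err_rate
  refine ⟨10 * C, by positivity, ?_⟩
  intro A hA ht k hk1 hk2 j
  set t := Real.log A with htdef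
  have ht0 : 0 < t := by linarith
  obtain ⟨m', hm'⟩ : ∃ m' : ℕ, m' = ⌊Real.sqrt (0.8 * t)⌋₊ := ⟨_, rfl⟩
  obtain ⟨g1, g2, g3⟩ := herr A hA (by linarith) k 0 m' (by rw [← htdef]; simpa using ht0.le) hk1 hk2 hm'
  rw [← htdef] at g3
  have hm'sq : (m' : ℝ) ^ 2 ≤ 0.8 * t := by
    have h1 : (m' : ℝ) ≤ Real.sqrt (0.8 * t) := by
      rw [hm']; exact Nat.floor_le (Real.sqrt_nonneg _)
    calc (m' : ℝ) ^ 2 ≤ (Real.sqrt (0.8 * t)) ^ 2 :=
          pow_le_pow_left₀ (Nat.cast_nonneg _) h1 2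
      _ = 0.8 * t := Real.sq_sqrt (by linarith)
  have hP := HS_Pth al be j hA (by rw [← htdef]; linarith) hk2
  -- the next scale
  have hnext : ∀ (i : ℤ) (T : ℕ), (39 * k + 19) / 20 ≤ T → T ≤ 41 * k / 20 →
      PB (HS al be i) (A * 3 ^ k / 2 ^ T) m' (den (HS al be i) (A * 3 ^ k / 2 ^ T) + 5 * C / t) ∧
      PB (HS al be i)ᶜ (A * 3 ^ k / 2 ^ T) m' (1 - den (HS al be i) (A * 3 ^ k / 2 ^ T) + 5 * C / t) := by
    intro i T hT1 hT2
    have hs := size_T hA hk2 hT1 hT2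
    rw [← htdef] at hs
    have hAT : 0 < A * 3 ^ k / 2 ^ T := by positivity
    set A' := A * 3 ^ k / 2 ^ T with hA'
    set t' := Real.log A' with ht'
    have ht1 : 1000 ≤ t' := by linarith
    obtain ⟨k', hk'⟩ : ∃ k' : ℕ, k' = ⌊t' / 2⌋₊ := ⟨_, rfl⟩
    obtain ⟨n', hn'⟩ : ∃ n' : ℕ, n' = ⌊Real.sqrt (0.8 * t')⌋₊ := ⟨_, rfl⟩
    have hk'1 : (k' : ℝ) ≤ t' / 2 := by rw [hk']; exact Nat.floor_le (by linarith)
    have hk'2 : t' / 6 ≤ k' := by
      have : t' / 2 < k' + 1 := by rw [hk']; exact Nat.lt_floor_add_one _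
      linarith
    have hmt : (m' : ℝ) ^ 2 ≤ t' := hm'sq.trans hs
    obtain ⟨f1, f2, f3⟩ := herr A' hAT ht1 k' m' n' hmt hk'2 hk'1 hn'
    obtain ⟨-, -, f4⟩ := herr A' hAT ht1 k' 0 n' (by simpa using by linarith) hk'2 hk'1 hn'
    have hP' := HS_Pth al be i hAT ht1 hk'1
    have hCt : C / t' ≤ 5 / 4 * (C / t) := by
      rw [div_le_iff₀ (by linarith)]
      have : 5 / 4 * (C / t) * t' = C * (5 / 4 * t' / t) := by ring
      rw [this]
      have h7 : 1 ≤ 5 / 4 * t' / t := by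
        rw [le_div_iff₀ ht0]
        linarith
      nlinarith
    have hCt' : 5 * C / t = 5 * (C / t) := by ring
    constructor
    · refine PB_mono hAT ?_ (PB_of hAT hP' f1 f2)
      rw [hCt']
      have : 0 < C / t := by positivity
      linarith
    · refine PB_mono hAT ?_ (PB_compl_of hAT hP' f1 f2)
      rw [hCt']
      linarith
  have hmass := WK_mass k
  have hCt : 0 < C / t := by positivity
  constructor
  · have h := den_le hA hP g1 g2 (ρ := fun T => den (HS al be (j - al * k - be * (T : ℕ)))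
        (A * 3 ^ k / 2 ^ T) + 5 * C / t) (fun T h1 h2 => (hnext _ T h1 h2).1)
    have e : ∑ w ∈ WK k, wwt w * (den (HS al be (j - al * k - be * (w.sum : ℕ)))
        (A * 3 ^ k / 2 ^ w.sum) + 5 * C / t) = ∑ w ∈ WK k, wwt w *
        den (HS al be (j - al * k - be * (w.sum : ℕ))) (A * 3 ^ k / 2 ^ w.sum) +
          (∑ w ∈ WK k, wwt w) * (5 * C / t) := by
      rw [sum_mul, ← sum_add_distrib]
      exact sum_congr rfl fun w _ => by ring
    rw [e] at h
    have h1 : (∑ w ∈ WK k, wwt w) * (5 * C / t) ≤ 1 * (5 * C / t) :=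
      mul_le_mul_of_nonneg_right hmass (by positivity)
    have e1 : 5 * C / t = 5 * (C / t) := by ring
    have e2 : 10 * C / t = 10 * (C / t) := by ring
    rw [e2]
    rw [e1] at h h1
    linarith
  · have h := den_le hA hP.compl g1 g2 (ρ := fun T => 1 - den (HS al be (j - al * k - be * (T : ℕ)))
        (A * 3 ^ k / 2 ^ T) + 5 * C / t) (fun T h1 h2 => (hnext _ T h1 h2).2)
    have e : ∑ w ∈ WK k, wwt w * (1 - den (HS al be (j - al * k - be * (w.sum : ℕ)))
        (A * 3 ^ k / 2 ^ w.sum) + 5 * C / t) = (∑ w ∈ WK k, wwt w) * (1 + 5 * C / t) - ∑ w ∈ WK k, wwt w *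
        den (HS al be (j - al * k - be * (w.sum : ℕ))) (A * 3 ^ k / 2 ^ w.sum) := by
      rw [sum_mul, ← sum_sub_distrib]
      exact sum_congr rfl fun w _ => by ring
    rw [e] at h
    have h1 : (∑ w ∈ WK k, wwt w) * (1 + 5 * C / t) ≤ 1 * (1 + 5 * C / t) :=
      mul_le_mul_of_nonneg_right hmass (by positivity)
    have h2 := (den_compl (HS al be j) hA).2
    have h3 := two_div_le hA k m'
    have e1 : 5 * C / t = 5 * (C / t) := by ring
    have e2 : 10 * C / t = 10 * (C / t) := by ring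
    rw [e2]
    rw [e1] at h h1
    linarith

end Pool.Agent.TH977.LL
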