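import Pool.Agent.TH977.LL.Fin2

/-! The lower bound for the ratio, and the local law. -/

set_option autoImplicit false

namespace Pool.Agent.TH977.LL

open Pool.Agent.H320R2.PD Pool.Agent.H499R2.ND Pool.Agent.TH977.IP Finset Filter Topology

open Pool.Agent.H499R2.HL (H H_two H_of_two odn_two H_unique)
open Pool.Agent.H499R2.LT (odn)

theorem ht_W {n i : ℕ} (hodd : Odd n) (hn : n ≠ 1) (hh : IsHt n i) : ∃ l : ℕ, n ∈ W l i := by
  classical
  have hb : ∃ k, Tn^[k] n = 1 := (ht_iff hodd).2 ⟨i, hh⟩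
  have hk : Pool.Agent.H499R2.HL.H (Nat.find hb) n :=
    ⟨Nat.find_spec hb, fun j hj => Nat.find_min hb hj⟩
  set k := Nat.find hb with hkdef
  have h5 := Pool.Agent.H363R2.Cm_height k n hodd hn
    (by rw [TN_eq_Tn]; exact hk.1) (by rw [TN_eq_Tn]; exact hk.2)
  rw [Pool.Agent.H499R2.HL.oc_odn] at h5
  have h6 : IsHt n (Pool.Agent.H499R2.LT.odn k n) := h5
  have h7 := ht_unique hh h6
  exact ⟨k, hodd.pos, hk, h7.symm⟩

/-- the place of the number of steps -/
theorem W_place {c : ℕ} (hc : ∀ n l i : ℕ, n ∈ W l i →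
    Real.exp (l * Real.log 2 - i * Real.log 3) / 2 ^ c ≤ n ∧ (n : ℝ) ≤ Real.exp (l * Real.log 2 - i * Real.log 3) * 2 ^ c)
    {n l i : ℕ} (hn : n ∈ W l i) (h1 : Real.exp (i * hh) / 16 ≤ n) (h2 : (n : ℝ) < Real.exp (i * hh)) :
    l ≤ 2 * i + c ∧ 2 * i ≤ l + c + 4 := by
  obtain ⟨g1, g2⟩ := hc n l i hn
  have hl2 := Real.log_two_gt_d9
  have hn0 : (0 : ℝ) < n := by
    have := hn.1
    exact_mod_cast this
  have hhd : hh = 2 * Real.log 2 - Real.log 3 := rfl
  constructor
  · have h3 := (g1.trans_lt h2)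
    rw [← Real.log_lt_log_iff (by positivity) (by positivity), Real.log_div (Real.exp_pos _).ne' (by positivity),
      Real.log_exp, Real.log_exp, Real.log_pow, hhd] at h3
    have h4 : (l : ℝ) * Real.log 2 < (2 * i + c) * Real.log 2 := by linarith
    have h5 : (l : ℝ) < 2 * i + c := lt_of_mul_lt_mul_right h4 (by linarith)
    have h6 : l < 2 * i + c := by exact_mod_cast h5
    omega
  · have h3 := (h1.trans g2)
    have h16 : Real.log 16 = 4 * Real.log 2 := by
      rw [show (16 : ℝ) = 2 ^ 4 by norm_num, Real.log_pow]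
      push_cast
      ring
    rw [← Real.log_le_log_iff (by positivity) (by positivity), Real.log_div (Real.exp_pos _).ne' (by positivity),
      Real.log_mul (Real.exp_pos _).ne' (by positivity), Real.log_exp, Real.log_exp, Real.log_pow, hhd, h16] at h3
    have h4 : (2 * i : ℝ) * Real.log 2 ≤ (l + c + 4) * Real.log 2 := by linarith
    have h5 : (2 * i : ℝ) ≤ l + c + 4 := le_of_mul_le_mul_right h4 (by linarith)
    exact_mod_cast h5

/-- many numbers of height `i` below `(4/3)^i` -/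
theorem sum_low {c : ℕ} (hc : ∀ n l i : ℕ, n ∈ W l i →
    Real.exp (l * Real.log 2 - i * Real.log 3) / 2 ^ c ≤ n ∧ (n : ℝ) ≤ Real.exp (l * Real.log 2 - i * Real.log 3) * 2 ^ c) :
    ∃ c0 : ℝ, 0 < c0 ∧ ∃ I : ℕ, ∀ i : ℕ, I ≤ i →
      c0 * Real.exp (i * hh) / Real.sqrt i ≤ ∑ l ∈ Icc (2 * i - c - 4) (2 * i + c), ((W l i).ncard : ℝ) := by
  obtain ⟨c0, B2, hc0, hB2, E0, hE0⟩ := typ 1 0
  obtain ⟨cc, x0, hcc, hx0, hlow⟩ := cnt_low (Or.inl ⟨rfl, rfl⟩) hc0 hB2 hE0 (B := 1) one_pos
  obtain ⟨hh1, hh2⟩ := hh_bd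
  have hl2' := Real.log_two_lt_d9
  have hh0 : 0 < hh := by
    have hhd : hh = 2 * Real.log 2 - Real.log 3 := rfl
    linarith
  refine ⟨cc / Real.sqrt hh, by positivity, ⌈(Real.log x0 + 4) / hh⌉₊ + 1, fun i hi => ?_⟩
  have hi1 : (Real.log x0 + 4) / hh ≤ i := by
    refine (Nat.le_ceil _).trans ?_
    have : ⌈(Real.log x0 + 4) / hh⌉₊ ≤ i := by omega
    exact_mod_cast this
  rw [div_le_iff₀ hh0] at hi1
  set x := Real.exp (i * hh) with hx
  have hxx0 : x0 ≤ x := by
    rw [hx, ← Real.log_le_iff_le_exp (by linarith)]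
    linarith
  have h1 := hlow x hxx0 i (by
    have e1 : lam 1 0 * Real.log x = i := by
      rw [hx, Real.log_exp]
      unfold lam
      push_cast
      field_simp
      ring
    rw [e1]
    push_cast
    rw [sub_self, abs_zero]
    positivity)
  have e2 : Real.sqrt (Real.log x) = Real.sqrt i * Real.sqrt hh := by
    rw [hx, Real.log_exp, Real.sqrt_mul (Nat.cast_nonneg _)]
  rw [e2] at h1
  have e3 : cc / Real.sqrt hh * x / Real.sqrt i = cc * x / (Real.sqrt i * Real.sqrt hh) := by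
    field_simp
  rw [e3]
  refine h1.trans ?_
  classical
  have hx16 : 1 < x / 16 := by
    have h4 : Real.exp 4 ≤ x := by
      rw [hx, Real.exp_le_exp]
      have : 0 ≤ Real.log x0 := Real.log_nonneg (by linarith)
      linarith
    have h5 : (2 : ℝ) ^ 5 < Real.exp 4 := by
      rw [← Real.log_lt_iff_lt_exp (by positivity), Real.log_pow]
      push_cast
      linarith
    norm_num at h5
    linarith
  have key : ∀ z ∈ cls (HS 1 0 i) (x / 16) x 0 1 0, ∃ l ∈ Icc (2 * i - c - 4) (2 * i + c),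
      z ∈ (W_finite l i).toFinset.image (fun n : ℕ => (n : ℤ)) := by
    intro z hz
    rw [mem_cls] at hz
    obtain ⟨⟨z1, z2⟩, z3, z4, _⟩ := hz
    have hz0 : 1 < z := by
      have : (1 : ℝ) < z := by linarith
      exact_mod_cast this
    obtain ⟨n, rfl⟩ := Int.eq_ofNat_of_zero_le (show 0 ≤ z by omega)
    have hn1 : 1 < n := by exact_mod_cast hz0
    have hodd : Odd n := by exact_mod_cast z3
    obtain ⟨l, hl⟩ := ht_W hodd (by omega) ((ht_iff_HS (by omega)).2 z4)
    have hp := W_place hc hl (by push_cast at z1; exact z1) (by push_cast at z2; exact z2)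
    refine ⟨l, ?_, ?_⟩
    · rw [mem_Icc]; omega
    · rw [mem_image]
      exact ⟨n, (Set.Finite.mem_toFinset _).2 hl, rfl⟩
  have h2 : (cls (HS 1 0 i) (x / 16) x 0 1 0).card ≤
      ∑ l ∈ Icc (2 * i - c - 4) (2 * i + c), (W l i).ncard := by
    calc (cls (HS 1 0 i) (x / 16) x 0 1 0).card
        ≤ ((Icc (2 * i - c - 4) (2 * i + c)).biUnion
            (fun l => (W_finite l i).toFinset.image (fun n : ℕ => (n : ℤ)))).card := by
          apply card_le_card
          intro z hz
          rw [mem_biUnion]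
          exact key z hz
      _ ≤ ∑ l ∈ Icc (2 * i - c - 4) (2 * i + c), ((W_finite l i).toFinset.image (fun n : ℕ => (n : ℤ))).card :=
          card_biUnion_le
      _ ≤ ∑ l ∈ Icc (2 * i - c - 4) (2 * i + c), (W l i).ncard := by
          apply sum_le_sum
          intro l _
          refine card_image_le.trans (le_of_eq ?_)
          exact (Set.ncard_eq_toFinset_card _ _).symm
  exact_mod_cast h2

/-- the ratio is bounded below somewhere near the centre -/
theorem RR_low {c : ℕ} (hc : ∀ n l i : ℕ, n ∈ W l i →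
    Real.exp (l * Real.log 2 - i * Real.log 3) / 2 ^ c ≤ n ∧ (n : ℝ) ≤ Real.exp (l * Real.log 2 - i * Real.log 3) * 2 ^ c) :
    ∃ c1 : ℝ, 0 < c1 ∧ ∃ I : ℕ, ∀ i : ℕ, I ≤ i → ∃ e : ℕ, |(e : ℝ) - i| ≤ c + 4 ∧ c1 ≤ RR i (i + e) := by
  obtain ⟨c0, hc0, I, h⟩ := sum_low hc
  refine ⟨c0 / ((2 * c + 5) * (2 * 2 ^ c)), by positivity, I + c + 5, fun i hi => ?_⟩
  have h1 := h i (by omega)
  by_contra hcon
  push Not at hcon
  have hi0 : (0 : ℝ) < i := by
    have : 0 < i := by omega
    exact_mod_cast this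
  have hs0 : 0 < Real.sqrt i := Real.sqrt_pos.2 hi0
  set c1 := c0 / ((2 * (c : ℝ) + 5) * (2 * 2 ^ c)) with hc1
  have hc10 : 0 < c1 := by positivity
  have hx0 := Real.exp_pos (i * hh)
  have h2 : ∀ l ∈ Icc (2 * i - c - 4) (2 * i + c), ((W l i).ncard : ℝ) < c1 * (2 * 2 ^ c * Real.exp (i * hh) / Real.sqrt i) := by
    intro l hl
    rw [mem_Icc] at hl
    obtain ⟨e, rfl⟩ := Nat.exists_eq_add_of_le (show i ≤ l by omega)
    have h3 := hcon e (by
      have a1 : (i : ℝ) ≤ e + c + 4 := by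
        have : i ≤ e + c + 4 := by omega
        exact_mod_cast this
      have a2 : (e : ℝ) ≤ i + c := by
        have : e ≤ i + c := by omega
        exact_mod_cast this
      rw [abs_le]
      constructor <;> linarith)
    unfold RR at h3
    have hch : (0 : ℝ) < ((i + e).choose i : ℝ) / 3 ^ i := by
      have := Nat.choose_pos (show i ≤ i + e by omega)
      positivity
    rw [div_lt_iff₀ hch] at h3
    refine h3.trans_le ?_
    apply mul_le_mul_of_nonneg_left _ hc10.le
    have hq := qq_sup (k := i + 1) (by omega) e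
    unfold qq at hq
    rw [Nat.add_sub_cancel] at hq
    rw [div_le_iff₀ (by positivity)] at hq
    have e4 : Real.exp (i * hh) = 4 ^ i / 3 ^ i := by
      have hhd : hh = 2 * Real.log 2 - Real.log 3 := rfl
      rw [hhd, mul_comm, Real.exp_mul, Real.exp_sub, Real.rpow_natCast, div_pow]
      congr 2
      · rw [mul_comm, Real.exp_mul, Real.exp_log (by norm_num)]
        norm_num
      · rw [Real.exp_log (by norm_num)]
    rw [e4]
    have e5 : (2 : ℝ) * 2 ^ c * (4 ^ i / 3 ^ i) / Real.sqrt i = (1 / Real.sqrt i * (2 * 2 ^ c * 4 ^ i)) / 3 ^ i := by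
      ring
    rw [e5]
    apply div_le_div_of_nonneg_right _ (by positivity)
    refine hq.trans ?_
    apply mul_le_mul
    · apply one_div_le_one_div_of_le hs0
      apply Real.sqrt_le_sqrt
      push_cast
      linarith
    · have e6 : (2 : ℝ) * 2 ^ c * 4 ^ i = 2 ^ (c + 2 * i + 1) := by
        rw [show (4 : ℝ) = 2 ^ 2 by norm_num, ← pow_mul, pow_succ, pow_add]
        ring
      rw [e6]
      apply pow_le_pow_right₀ (by norm_num)
      omega
    · positivity
    · positivity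
  have hne : (Icc (2 * i - c - 4) (2 * i + c)).Nonempty := ⟨2 * i, by rw [mem_Icc]; omega⟩
  have h3 := sum_lt_sum_of_nonempty hne h2
  rw [sum_const, Nat.card_Icc, nsmul_eq_mul] at h3
  have h4 : (2 * i + c + 1 - (2 * i - c - 4) : ℕ) = 2 * c + 5 := by omega
  rw [h4] at h3
  have h5 := h1.trans_lt h3
  have e7 : ((2 * c + 5 : ℕ) : ℝ) * (c1 * (2 * 2 ^ c * Real.exp (i * hh) / Real.sqrt i)) =
      c0 * Real.exp (i * hh) / Real.sqrt i := by
    rw [hc1]
    push_cast
    field_simp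
  rw [e7] at h5
  exact lt_irrefl _ h5

end Pool.Agent.TH977.LL
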