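import Pool.Agent.TH977.LL.Nu

/-! The normalised counts change slowly. -/

set_option autoImplicit false

namespace Pool.Agent.TH977.LL

open Pool.Agent.H320R2.PD Pool.Agent.H499R2.ND Pool.Agent.TH977.IP Finset

theorem cv_succ (k : ℕ) (f : ℕ → ℝ) (e : ℕ) : cv k f (e + 1) - cv k f e =
    ∑ n ∈ range (e + 1), (qq k (n + 1) - qq k n) * f (e - n) + qq k 0 * f (e + 1) := by
  rw [cv_range, cv_range, sum_range_succ']
  simp only [sub_mul, sum_sub_distrib, Nat.sub_zero]
  have : ∀ n ∈ range (e + 1), qq k (n + 1) * f (e + 1 - (n + 1)) = qq k (n + 1) * f (e - n) := by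
    intro n _
    rw [show e + 1 - (n + 1) = e - n by omega]
  rw [sum_congr rfl this]
  ring

theorem nn_lip (c : ℕ) : ∃ C : ℝ, 0 < C ∧ ∀ i e : ℕ, 20000 * (c + 1) ≤ i → |(e : ℝ) - i| ≤ i / 40 →
    |nn c i (e + 1) - nn c i e| ≤ C / i := by
  obtain ⟨C1, hC1, h1⟩ := nn_harm c
  obtain ⟨C2, hC2, h2⟩ := nn_sqrt c
  set M : ℝ := 5 * 2 ^ c with hM
  have hM0 : 0 < M := by positivity
  refine ⟨2 * C1 + 18 * C2 + M * 200000, by positivity, fun i e hi he => ?_⟩
  have hiR : 20000 * ((c : ℝ) + 1) ≤ i := by exact_mod_cast hi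
  have hc0 : (0 : ℝ) ≤ c := Nat.cast_nonneg _
  have hi0 : (0 : ℝ) < i := by linarith
  obtain ⟨g1, g2⟩ := abs_le.1 he
  obtain ⟨k, hk⟩ : ∃ k : ℕ, k = i / 10 := ⟨_, rfl⟩
  have hk1 : i ≤ 18 * k := by omega
  have hk2 : 9 * k ≤ i := by omega
  have hk1R : (i : ℝ) ≤ 18 * k := by exact_mod_cast hk1
  have hk2R : 9 * (k : ℝ) ≤ i := by exact_mod_cast hk2
  have hk0 : (0 : ℝ) < k := by linarith
  have hk0N : 1 ≤ k := by exact_mod_cast hk0
  have hkbig : (1000 : ℝ) ≤ k := by linarith
  have a1 := h1 i e (by omega) (by rw [abs_le]; constructor <;> linarith) k hk1 hk2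
  have a2 := h1 i (e + 1) (by omega) (by push_cast; rw [abs_le]; constructor <;> linarith) k hk1 hk2
  have hik : ((i - k : ℕ) : ℝ) = i - k := by rw [Nat.cast_sub (by omega)]
  have hsi : 0 < Real.sqrt i := Real.sqrt_pos.2 hi0
  have hsq : Real.sqrt i ^ 2 = i := Real.sq_sqrt hi0.le
  have hsk : 0 < Real.sqrt k := Real.sqrt_pos.2 hk0
  -- the main sum
  have key : |cv k (nn c (i - k)) (e + 1) - cv k (nn c (i - k)) e| ≤ 18 * C2 / i + M * 200000 / i := by
    rw [cv_succ]
    set near := (range (e + 1)).filter (fun n : ℕ => |(n : ℝ) - k| ≤ k / 20) with hnear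
    set far := (range (e + 1)).filter (fun n : ℕ => ¬ |(n : ℝ) - k| ≤ k / 20) with hfar
    rw [← sum_filter_add_sum_filter_not (range (e + 1)) (fun n : ℕ => |(n : ℝ) - k| ≤ k / 20), ← hnear, ← hfar]
    have b1 : |∑ n ∈ near, (qq k (n + 1) - qq k n) * nn c (i - k) (e - n)| ≤ 18 * C2 / i := by
      refine (abs_sum_le_sum_abs _ _).trans ?_
      have c1 : ∀ n ∈ near, |(qq k (n + 1) - qq k n) * nn c (i - k) (e - n)| ≤
          |qq k (n + 1) - qq k n| * (2 * C2 / Real.sqrt i) := by
        intro n hn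
        rw [hnear, mem_filter, mem_range] at hn
        rw [abs_mul, abs_of_nonneg (nn_nonneg c _ _)]
        apply mul_le_mul_of_nonneg_left _ (abs_nonneg _)
        have hen : ((e - n : ℕ) : ℝ) = e - n := by rw [Nat.cast_sub (by omega)]
        obtain ⟨q1, q2⟩ := abs_le.1 hn.2
        refine (h2 (i - k) (e - n) (by omega) (by rw [hen, hik, abs_le]; constructor <;> linarith)).trans ?_
        rw [hik]
        have c2 : Real.sqrt i / 2 ≤ Real.sqrt ((i : ℝ) - k) := by
          apply Real.le_sqrt_of_sq_le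
          rw [div_pow, hsq]
          linarith
        have c3 : C2 / Real.sqrt ((i : ℝ) - k) ≤ C2 / (Real.sqrt i / 2) :=
          div_le_div_of_nonneg_left hC2.le (by positivity) c2
        refine c3.trans (le_of_eq ?_)
        field_simp
      refine (sum_le_sum c1).trans ?_
      rw [← sum_mul]
      have c4 : ∑ n ∈ near, |qq k (n + 1) - qq k n| ≤ 2 / Real.sqrt k :=
        (sum_le_sum_of_subset_of_nonneg (filter_subset _ _) (fun _ _ _ => abs_nonneg _)).trans
          (qq_tv (by omega) (e + 1))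
      have c5 : 2 / Real.sqrt k ≤ 9 / Real.sqrt i := by
        rw [div_le_div_iff₀ hsk hsi]
        have : Real.sqrt i ≤ 9 / 2 * Real.sqrt k := by
          rw [Real.sqrt_le_left (by positivity), mul_pow, Real.sq_sqrt hk0.le]
          linarith
        linarith
      calc (∑ n ∈ near, |qq k (n + 1) - qq k n|) * (2 * C2 / Real.sqrt i)
          ≤ 9 / Real.sqrt i * (2 * C2 / Real.sqrt i) := mul_le_mul_of_nonneg_right (c4.trans c5) (by positivity)
        _ = 18 * C2 / (Real.sqrt i ^ 2) := by field_simp; norm_num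
        _ = _ := by rw [hsq]
    have b2 : |∑ n ∈ far, (qq k (n + 1) - qq k n) * nn c (i - k) (e - n)| ≤ M * 6400 / k := by
      refine (abs_sum_le_sum_abs _ _).trans ?_
      have c1 : ∀ n ∈ far, |(qq k (n + 1) - qq k n) * nn c (i - k) (e - n)| ≤ qq k (n + 1) * M + qq k n * M := by
        intro n _
        rw [abs_mul, abs_of_nonneg (nn_nonneg c _ _), ← add_mul]
        apply mul_le_mul _ (nn_bd c _ _) (nn_nonneg c _ _) (add_nonneg (qq_nonneg _ _) (qq_nonneg _ _))
        refine (abs_sub _ _).trans ?_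
        rw [abs_of_nonneg (qq_nonneg _ _), abs_of_nonneg (qq_nonneg _ _)]
      refine (sum_le_sum c1).trans ?_
      rw [sum_add_distrib, ← sum_mul, ← sum_mul]
      have hfar2 : ∀ n ∈ far, (k : ℝ) / 20 < |(n : ℝ) - k| := by
        intro n hn
        rw [hfar, mem_filter] at hn
        exact not_le.1 hn.2
      have c2 : ∑ n ∈ far, qq k n ≤ 3200 / k := by
        refine (qq_cheb hk0N (a := (k : ℝ) / 40) (by positivity) far (fun n hn => ?_)).trans (le_of_eq ?_)
        · have := hfar2 n hn
          linarith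
        · field_simp
          norm_num
      have c3 : ∑ n ∈ far, qq k (n + 1) ≤ 3200 / k := by
        have e1 : ∑ n ∈ far, qq k (n + 1) = ∑ m ∈ far.image (fun n => n + 1), qq k m := by
          rw [sum_image]
          intro a _ b _ hab
          simpa using hab
        rw [e1]
        refine (qq_cheb hk0N (a := (k : ℝ) / 40) (by positivity) _ (fun m hm => ?_)).trans (le_of_eq ?_)
        · rw [mem_image] at hm
          obtain ⟨n, hn, rfl⟩ := hm
          have h5 := hfar2 n hn
          push_cast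
          have h6 : |(n : ℝ) - k| ≤ |(n : ℝ) + 1 - k| + 1 := by
            have : (n : ℝ) - k = ((n : ℝ) + 1 - k) - 1 := by ring
            rw [this]
            refine (abs_sub _ _).trans ?_
            rw [abs_one]
          linarith
        · field_simp
          norm_num
      have c4 := mul_le_mul_of_nonneg_right c2 hM0.le
      have c5 := mul_le_mul_of_nonneg_right c3 hM0.le
      have e6 : M * 6400 / k = 3200 / k * M + 3200 / k * M := by ring
      rw [e6]
      linarith
    have b3 : |qq k 0 * nn c (i - k) (e + 1)| ≤ M * 2 / k := by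
      rw [abs_mul, abs_of_nonneg (qq_nonneg _ _), abs_of_nonneg (nn_nonneg c _ _)]
      have c1 := qq_cheb hk0N (a := (k : ℝ)) hk0 {0} (by
        intro n hn
        rw [mem_singleton] at hn
        subst hn
        rw [Nat.cast_zero, zero_sub, abs_neg, abs_of_pos hk0])
      rw [sum_singleton] at c1
      have c2 : 2 * (k : ℝ) / k ^ 2 = 2 / k := by field_simp
      rw [c2] at c1
      calc qq k 0 * nn c (i - k) (e + 1) ≤ 2 / k * M :=
            mul_le_mul c1 (nn_bd c _ _) (nn_nonneg c _ _) (by positivity)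
        _ = _ := by ring
    have b4 : M * 6400 / k + M * 2 / k ≤ M * 200000 / i := by
      rw [← add_div, div_le_div_iff₀ hk0 hi0]
      have : M * i ≤ M * (18 * k) := mul_le_mul_of_nonneg_left hk1R hM0.le
      have h0 : 0 ≤ M * (k : ℝ) := by positivity
      linarith
    have b5 := abs_add_le (∑ n ∈ near, (qq k (n + 1) - qq k n) * nn c (i - k) (e - n) +
      ∑ n ∈ far, (qq k (n + 1) - qq k n) * nn c (i - k) (e - n)) (qq k 0 * nn c (i - k) (e + 1))
    have b6 := abs_add_le (∑ n ∈ near, (qq k (n + 1) - qq k n) * nn c (i - k) (e - n))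
      (∑ n ∈ far, (qq k (n + 1) - qq k n) * nn c (i - k) (e - n))
    linarith
  have e4 : nn c i (e + 1) - nn c i e = (nn c i (e + 1) - cv k (nn c (i - k)) (e + 1)) -
      (nn c i e - cv k (nn c (i - k)) e) + (cv k (nn c (i - k)) (e + 1) - cv k (nn c (i - k)) e) := by ring
  rw [e4]
  have d1 := abs_add_le ((nn c i (e + 1) - cv k (nn c (i - k)) (e + 1)) -
      (nn c i e - cv k (nn c (i - k)) e)) (cv k (nn c (i - k)) (e + 1) - cv k (nn c (i - k)) e)
  have d2 := abs_sub (nn c i (e + 1) - cv k (nn c (i - k)) (e + 1)) (nn c i e - cv k (nn c (i - k)) e)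
  have d3 : (2 * C1 + 18 * C2 + M * 200000) / i = C1 / i + C1 / i + (18 * C2 / i + M * 200000 / i) := by ring
  rw [d3]
  linarith

end Pool.Agent.TH977.LL
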