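import Pool.Agent.TH977.LL.Upp

/-! The lower bound for single values. -/

set_option autoImplicit false

namespace Pool.Agent.TH977.LL

open Pool.Agent.H320R2.PD Pool.Agent.H499R2.ND Pool.Agent.TH977.IP Finset

/-- `log (4/3)` -/
noncomputable def hh : ℝ := 2 * Real.log 2 - Real.log 3

theorem hh_bd : 0.28 ≤ hh ∧ hh ≤ 0.29 := by
  have h1 := Real.log_two_gt_d9
  have h2 := Real.log_two_lt_d9
  have e1 : Real.log (4 / 3) = hh := by
    unfold hh
    rw [Real.log_div (by norm_num) (by norm_num), show (4 : ℝ) = 2 ^ 2 by norm_num, Real.log_pow]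
    norm_num
  constructor
  · rw [← e1, Real.le_log_iff_exp_le (by norm_num)]
    have h3 := Real.exp_bound' (x := 0.28) (by norm_num) (by norm_num) (n := 4) (by norm_num)
    refine h3.trans ?_
    norm_num [Finset.sum_range_succ, Nat.factorial]
  · rw [← e1, Real.log_le_iff_le_exp (by norm_num)]
    have h3 := Real.sum_le_exp_of_nonneg (x := 0.29) (by norm_num) 4
    refine le_trans ?_ h3
    norm_num [Finset.sum_range_succ, Nat.factorial]

/-- the mean -/
noncomputable def lam (al be : ℕ) : ℝ := ((al : ℝ) + 2 * be) / hh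

/-- the typical points -/
def Ty (al be : ℕ) (B : ℝ) : Set ℤ :=
  {x | ∃ i : ℤ, x ∈ HS al be i ∧ |(i : ℝ) - lam al be * Real.log x| ≤ B * Real.sqrt (Real.log x)}

/-- the three clocks -/
def Cas (al be : ℕ) : Prop := (al = 1 ∧ be = 0) ∨ (al = 0 ∧ be = 1) ∨ (al = 1 ∧ be = 1)

theorem Cas.le {al be : ℕ} (h : Cas al be) : 1 ≤ al + be := by
  unfold Cas at h
  omega

theorem pairZ {al be : ℕ} (hc : Cas al be) (D : ℤ) (ly : ℝ) : ∃ k T : ℤ, (al : ℤ) * k + be * T = D ∧
    0 ≤ ly + k * Real.log 3 - T * Real.log 2 ∧ ly + k * Real.log 3 - T * Real.log 2 ≤ 2 := by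
  have h2 := Real.log_two_gt_d9
  have h2' := Real.log_two_lt_d9
  obtain ⟨h4, h4'⟩ := hh_bd
  unfold hh at h4 h4'
  have h3 : 1 < Real.log 3 := by linarith
  have h3' : Real.log 3 < 1.2 := by linarith
  rcases hc with ⟨rfl, rfl⟩ | ⟨rfl, rfl⟩ | ⟨rfl, rfl⟩
  · refine ⟨D, ⌊(ly + D * Real.log 3) / Real.log 2⌋, by simp, ?_, ?_⟩
    · have := Int.floor_le ((ly + D * Real.log 3) / Real.log 2)
      rw [le_div_iff₀ (by linarith)] at this
      linarith
    · have := Int.lt_floor_add_one ((ly + D * Real.log 3) / Real.log 2)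
      rw [div_lt_iff₀ (by linarith)] at this
      linarith
  · refine ⟨⌈(D * Real.log 2 - ly) / Real.log 3⌉, D, by simp, ?_, ?_⟩
    · have := Int.le_ceil ((D * Real.log 2 - ly) / Real.log 3)
      rw [div_le_iff₀ (by linarith)] at this
      linarith
    · have := Int.ceil_lt_add_one ((D * Real.log 2 - ly) / Real.log 3)
      have h5 : (⌈(D * Real.log 2 - ly) / Real.log 3⌉ : ℝ) - 1 < (D * Real.log 2 - ly) / Real.log 3 := by
        linarith
      rw [lt_div_iff₀ (by linarith)] at h5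
      linarith
  · refine ⟨⌈(D * Real.log 2 - ly) / (Real.log 2 + Real.log 3)⌉,
      D - ⌈(D * Real.log 2 - ly) / (Real.log 2 + Real.log 3)⌉, by push_cast; ring, ?_, ?_⟩
    · have := Int.le_ceil ((D * Real.log 2 - ly) / (Real.log 2 + Real.log 3))
      rw [div_le_iff₀ (by linarith)] at this
      push_cast
      linarith
    · have := Int.ceil_lt_add_one ((D * Real.log 2 - ly) / (Real.log 2 + Real.log 3))
      have h5 : (⌈(D * Real.log 2 - ly) / (Real.log 2 + Real.log 3)⌉ : ℝ) - 1 <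
          (D * Real.log 2 - ly) / (Real.log 2 + Real.log 3) := by
        linarith
      rw [lt_div_iff₀ (by linarith)] at h5
      push_cast
      linarith

/-- the two linear equations -/
theorem solve {al be : ℕ} (h1 : 1 ≤ al + be) {u v E1 E2 : ℝ} (e1 : al * u + be * v = E1)
    (e2 : u * Real.log 3 - v * Real.log 2 = E2) (hE0 : 0 ≤ E2) (hE2 : E2 ≤ 2) :
    |u| ≤ |E1| + 3 ∧ |v - 2 * u| ≤ 4 * |E1| + 15 := by
  have h2 := Real.log_two_gt_d9
  have h2' := Real.log_two_lt_d9
  obtain ⟨h4, h4'⟩ := hh_bd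
  unfold hh at h4 h4'
  have h3 : 1.09 < Real.log 3 := by linarith
  have h3' : Real.log 3 < 1.11 := by linarith
  have hab : (1 : ℝ) ≤ al + be := by exact_mod_cast h1
  have ha : (0 : ℝ) ≤ al := Nat.cast_nonneg _
  have hb : (0 : ℝ) ≤ be := Nat.cast_nonneg _
  have key : u * (al * Real.log 2 + be * Real.log 3) = E1 * Real.log 2 + be * E2 := by
    rw [← e1, ← e2]; ring
  set S := (al : ℝ) * Real.log 2 + be * Real.log 3 with hS
  have hS1 : 0.69 ≤ S := by
    have : 0.69 * ((al : ℝ) + be) ≤ S := by nlinarith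
    linarith
  have hS2 : 0.69 * (be : ℝ) ≤ S := by nlinarith
  have hS3 : Real.log 2 ≤ S := by nlinarith
  have hu : |u| ≤ |E1| + 3 := by
    have h5 : |u| * S = |E1 * Real.log 2 + be * E2| := by
      rw [← key, abs_mul, abs_of_pos (by linarith : 0 < S)]
    have h6 : |E1 * Real.log 2 + be * E2| ≤ |E1| * Real.log 2 + be * 2 := by
      refine (abs_add_le _ _).trans ?_
      rw [abs_mul, abs_mul, abs_of_pos (by linarith : 0 < Real.log 2), abs_of_nonneg hb, abs_of_nonneg hE0]
      have := mul_le_mul_of_nonneg_left hE2 hb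
      linarith
    have h7 : |E1| * Real.log 2 ≤ |E1| * S := mul_le_mul_of_nonneg_left hS3 (abs_nonneg _)
    have h8 : (be : ℝ) * 2 ≤ 3 * S := by linarith
    have h9 : |u| * S ≤ (|E1| + 3) * S := by
      rw [h5]
      linarith
    exact le_of_mul_le_mul_right h9 (by linarith)
  refine ⟨hu, ?_⟩
  have h5 : (v - 2 * u) * Real.log 2 = u * (Real.log 3 - 2 * Real.log 2) - E2 := by
    rw [← e2]; ring
  have h6 : |v - 2 * u| * Real.log 2 ≤ |u| * 0.29 + 2 := by
    have h7 : |v - 2 * u| * Real.log 2 = |u * (Real.log 3 - 2 * Real.log 2) - E2| := by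
      rw [← h5, abs_mul, abs_of_pos (by linarith : 0 < Real.log 2)]
    rw [h7]
    refine (abs_sub _ _).trans ?_
    rw [abs_mul, abs_of_nonneg hE0]
    have h8 : |Real.log 3 - 2 * Real.log 2| ≤ 0.29 := by
      rw [abs_le]
      constructor <;> linarith
    have := mul_le_mul_of_nonneg_left h8 (abs_nonneg u)
    linarith
  have h7 : |v - 2 * u| * 0.69 ≤ |v - 2 * u| * Real.log 2 :=
    mul_le_mul_of_nonneg_left (by linarith) (abs_nonneg _)
  have h8 := abs_nonneg E1
  linarith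

/-- the four windows -/
theorem four_win (S : Set ℤ) {y : ℝ} (hy : 0 < y) :
    2 / y * ((cls S (y / 8) (2 * y) 0 1 0).card : ℝ) ≤ ∑ i ∈ range 4, den S (y / 2 ^ i) := by
  classical
  have hsub : cls S (y / 8) (2 * y) 0 1 0 ⊆ (range 4).biUnion fun i =>
      cls S (y / 2 ^ i) (2 * (y / 2 ^ i)) 0 1 0 := by
    intro x hx
    rw [mem_cls] at hx
    rw [mem_biUnion]
    obtain ⟨⟨h1, h2⟩, h3⟩ := hx
    rcases lt_or_ge (x : ℝ) (y / 4) with g1 | g1
    · refine ⟨3, by simp, ?_⟩
      rw [mem_cls]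
      exact ⟨⟨by norm_num; linarith, by norm_num; linarith⟩, h3⟩
    · rcases lt_or_ge (x : ℝ) (y / 2) with g2 | g2
      · refine ⟨2, by simp, ?_⟩
        rw [mem_cls]
        exact ⟨⟨by norm_num; linarith, by norm_num; linarith⟩, h3⟩
      · rcases lt_or_ge (x : ℝ) y with g3 | g3
        · refine ⟨1, by simp, ?_⟩
          rw [mem_cls]
          exact ⟨⟨by norm_num; linarith, by norm_num; linarith⟩, h3⟩
        · refine ⟨0, by simp, ?_⟩
          rw [mem_cls]
          exact ⟨⟨by norm_num; linarith, by norm_num; linarith⟩, h3⟩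
  have h1 : ((cls S (y / 8) (2 * y) 0 1 0).card : ℝ) ≤
      ∑ i ∈ range 4, ((cls S (y / 2 ^ i) (2 * (y / 2 ^ i)) 0 1 0).card : ℝ) := by
    exact_mod_cast (card_le_card hsub).trans card_biUnion_le
  have h2 : 2 / y * ((cls S (y / 8) (2 * y) 0 1 0).card : ℝ) ≤
      ∑ i ∈ range 4, 2 / y * ((cls S (y / 2 ^ i) (2 * (y / 2 ^ i)) 0 1 0).card : ℝ) := by
    rw [← mul_sum]
    exact mul_le_mul_of_nonneg_left h1 (by positivity)
  refine h2.trans (sum_le_sum fun i _ => ?_)
  unfold den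
  rw [div_eq_mul_inv, mul_comm]
  rw [div_eq_mul_inv]
  apply mul_le_mul_of_nonneg_left _ (Nat.cast_nonneg _)
  rw [← div_eq_mul_inv, le_inv_comm₀ (by positivity) (by positivity), inv_div]
  rw [div_le_div_iff_of_pos_right (by norm_num)]
  exact div_le_self hy.le (one_le_pow₀ (by norm_num))

end Pool.Agent.TH977.LL
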