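import Pool.Agent.TH977.LL.Low

/-! The lower bound for single values, end of the proof. -/

set_option autoImplicit false

namespace Pool.Agent.TH977.LL

open Pool.Agent.H320R2.PD Pool.Agent.H499R2.ND Pool.Agent.TH977.IP Finset

theorem sc_half (A : ℝ) (i : ℕ) (p : ℕ × ℕ) : A / 2 ^ i * 3 ^ p.1 / 2 ^ p.2 = sc A p / 2 ^ i := by
  unfold sc
  ring

/-- the double count -/
theorem dbl {al be : ℕ} {j : ℤ} {A c0 B2 : ℝ} {P : Finset (ℕ × ℕ)} {e1 e2 : ℕ} (hA : 0 < A)
    (hty : ∀ e ∈ Ico e1 e2, c0 * 2 ^ e ≤ ((cls (Ty al be B2) (2 ^ e) (2 * 2 ^ e) 0 1 0).card : ℝ))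
    (hπ : ∀ e ∈ Ico e1 e2, ∀ x ∈ cls (Ty al be B2) (2 ^ e) (2 * 2 ^ e) 0 1 0, ∃ p ∈ P,
      x ∈ HS al be (nx al be j p) ∧ (x : ℝ) ≤ sc A p ∧ sc A p ≤ 8 * x) :
    ((e2 - e1 : ℕ) : ℝ) * (c0 / 8) ≤ ∑ p ∈ P, 2 / sc A p *
      ((cls (HS al be (nx al be j p)) (sc A p / 8) (2 * sc A p) 0 1 0).card : ℝ) := by
  classical
  set X : ℕ → Finset ℤ := fun e => cls (Ty al be B2) (2 ^ e) (2 * 2 ^ e) 0 1 0 with hX
  have hXmem : ∀ e, ∀ x ∈ X e, (2 : ℝ) ^ e ≤ x ∧ (x : ℝ) < 2 * 2 ^ e ∧ Odd x := by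
    intro e x hx
    rw [hX] at hx
    simp only at hx
    rw [mem_cls] at hx
    exact ⟨hx.1.1, hx.1.2, hx.2.1⟩
  set U : Finset ℤ := (Ico e1 e2).biUnion X with hU
  have hUm : ∀ x ∈ U, ∃ p ∈ P, x ∈ HS al be (nx al be j p) ∧ (x : ℝ) ≤ sc A p ∧ sc A p ≤ 8 * x := by
    intro x hx
    rw [hU, mem_biUnion] at hx
    obtain ⟨e, he, hx⟩ := hx
    exact hπ e he x hx
  have hUo : ∀ x ∈ U, Odd x ∧ (0 : ℝ) < x := by
    intro x hx
    rw [hU, mem_biUnion] at hx
    obtain ⟨e, he, hx⟩ := hx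
    obtain ⟨h1, h2, h3⟩ := hXmem e x hx
    have : (0 : ℝ) < 2 ^ e := by positivity
    exact ⟨h3, by linarith⟩
  choose! π hπP hπ1 hπ2 hπ3 using hUm
  -- sum over U
  have hlow : ((e2 - e1 : ℕ) : ℝ) * (c0 / 8) ≤ ∑ x ∈ U, 1 / (4 * (x : ℝ)) := by
    rw [hU, sum_biUnion]
    · have : ∀ e ∈ Ico e1 e2, c0 / 8 ≤ ∑ x ∈ X e, 1 / (4 * (x : ℝ)) := by
        intro e he
        have h1 := hty e he
        have h0 : (0 : ℝ) < 2 ^ e := by positivity
        have h2 : ∑ x ∈ X e, 1 / (8 * (2 : ℝ) ^ e) ≤ ∑ x ∈ X e, 1 / (4 * (x : ℝ)) := by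
          apply sum_le_sum
          intro x hx
          obtain ⟨g1, g2, g3⟩ := hXmem e x hx
          apply one_div_le_one_div_of_le (by linarith)
          linarith
        refine le_trans ?_ h2
        rw [sum_const, nsmul_eq_mul]
        have h3 : c0 * 2 ^ e * (1 / (8 * (2 : ℝ) ^ e)) = c0 / 8 := by field_simp
        rw [← h3]
        exact mul_le_mul_of_nonneg_right h1 (by positivity)
      have h4 := sum_le_sum this
      rw [sum_const, Nat.card_Ico, nsmul_eq_mul] at h4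
      exact h4
    · intro e he e' he' hne
      rw [Function.onFun, Finset.disjoint_left]
      intro x hx hx'
      obtain ⟨g1, g2, g3⟩ := hXmem e x hx
      obtain ⟨g1', g2', g3'⟩ := hXmem e' x hx'
      apply hne
      have c1 : (2 : ℝ) ^ e < 2 ^ (e' + 1) := by rw [pow_succ]; linarith
      have c2 : (2 : ℝ) ^ e' < 2 ^ (e + 1) := by rw [pow_succ]; linarith
      have c3 := (pow_lt_pow_iff_right₀ (by norm_num : (1 : ℝ) < 2)).1 c1
      have c4 := (pow_lt_pow_iff_right₀ (by norm_num : (1 : ℝ) < 2)).1 c2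
      omega
  refine hlow.trans ?_
  rw [← sum_fiberwise_of_maps_to (s := U) (t := P) (g := π) (fun x hx => hπP x hx)]
  apply sum_le_sum
  intro p hp
  have hs0 : 0 < sc A p := by unfold sc; positivity
  have h5 : ∑ x ∈ U.filter (fun x => π x = p), 1 / (4 * (x : ℝ)) ≤
      ∑ x ∈ U.filter (fun x => π x = p), 2 / sc A p := by
    apply sum_le_sum
    intro x hx
    rw [mem_filter] at hx
    have g := hπ3 x hx.1
    rw [hx.2] at g
    have g0 := (hUo x hx.1).2
    rw [div_le_div_iff₀ (by linarith) hs0]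
    linarith
  refine h5.trans ?_
  rw [sum_const, nsmul_eq_mul, mul_comm]
  apply mul_le_mul_of_nonneg_left _ (by positivity)
  have h6 : U.filter (fun x => π x = p) ⊆ cls (HS al be (nx al be j p)) (sc A p / 8) (2 * sc A p) 0 1 0 := by
    intro x hx
    rw [mem_filter] at hx
    have q1 := hπ1 x hx.1
    have q2 := hπ2 x hx.1
    have q3 := hπ3 x hx.1
    rw [hx.2] at q1 q2 q3
    have q4 := hUo x hx.1
    rw [mem_cls]
    refine ⟨⟨by linarith, by linarith⟩, q4.1, q1, ?_⟩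
    rw [pow_zero]
    simp
  exact_mod_cast card_le_card h6

/-- the pair of a typical point -/
theorem pair_typ {al be : ℕ} (hc : Cas al be) {A B B2 : ℝ} {j : ℤ} (hA : 0 < A)
    (ht : 10000 ≤ Real.log A) (hB : 0 < B) (hB2 : 0 ≤ B2) {K0 : ℕ}
    (hK2 : Real.log A / 5 - 1 ≤ K0) (htB : 200 * (B + B2 + 1) ≤ Real.sqrt (Real.log A))
    (hj : |(j : ℝ) - lam al be * Real.log A| ≤ B * Real.sqrt (Real.log A))
    {x : ℤ} (hx0 : (0 : ℝ) < x) (hx1 : Real.log A - 1.7 * K0 * hh ≤ Real.log x)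
    (hx2 : Real.log x ≤ Real.log A - 1.3 * K0 * hh) (hx : x ∈ Ty al be B2) :
    ∃ k T : ℕ, K0 ≤ k ∧ k < 2 * K0 ∧
      |(T : ℝ) - 2 * k| ≤ (12 * (B + B2) + 3) * Real.sqrt k ∧
      x ∈ HS al be (nx al be j (k, T)) ∧ (x : ℝ) ≤ sc A (k, T) ∧ sc A (k, T) ≤ 8 * x := by
  obtain ⟨i, hi, hib⟩ := hx
  obtain ⟨h4, h4'⟩ := hh_bd
  set t := Real.log A with htdef
  set r := Real.sqrt t with hr
  have ht0 : 0 < t := by linarith
  have hr0 : 0 < r := Real.sqrt_pos.2 ht0
  have hrr : r ^ 2 = t := Real.sq_sqrt ht0.le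
  have hr1 : 200 ≤ r := by nlinarith
  have hK0 : t / 6 ≤ K0 := by linarith
  set ly := t - Real.log x with hly
  have hlyt : Real.log x ≤ t := by
    have : 0 ≤ 1.3 * (K0 : ℝ) * hh := by positivity
    linarith
  have hsx : Real.sqrt (Real.log x) ≤ r := Real.sqrt_le_sqrt hlyt
  obtain ⟨k, T, hkT, e2, e3⟩ := pairZ hc (j - i) ly
  have h1ab := hc.le
  set ks := ly / hh with hks
  have hksy : ks * hh = ly := by rw [hks]; field_simp
  have hks1 : 1.3 * K0 ≤ ks := by
    rw [hks, le_div_iff₀ (by linarith)]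
    linarith
  have hks2 : ks ≤ 1.7 * K0 := by
    rw [hks, div_le_iff₀ (by linarith)]
    linarith
  have E1 : (al : ℝ) * (k - ks) + be * (T - 2 * ks) = (j - lam al be * t) - (i - lam al be * Real.log x) := by
    have h5 : ((al : ℤ) * k + be * T : ℤ) = ((j - i : ℤ) : ℝ) := by exact_mod_cast hkT
    push_cast at h5
    have h6 : lam al be * ly = (al + 2 * be) * ks := by
      rw [hks]; unfold lam; ring
    have h7 : lam al be * ly = lam al be * t - lam al be * Real.log x := by rw [hly]; ring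
    linarith
  have E2 : ((k : ℝ) - ks) * Real.log 3 - (T - 2 * ks) * Real.log 2 = ly + k * Real.log 3 - T * Real.log 2 := by
    have h5 : ks * (2 * Real.log 2 - Real.log 3) = ly := hksy
    linarith
  obtain ⟨s1, s2⟩ := solve h1ab E1 E2 e2 e3
  have hE1 : |(j - lam al be * t) - (i - lam al be * Real.log x)| ≤ (B + B2) * r := by
    refine (abs_sub _ _).trans ?_
    have := mul_le_mul_of_nonneg_left hsx hB2
    linarith
  have hu : |(k : ℝ) - ks| ≤ 0.3 * K0 - 1 := by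
    refine s1.trans ?_
    have h5 : (B + B2) * r + 4 ≤ 0.05 * t := by
      have h6 : (B + B2) ≤ r / 200 - 1 := by linarith
      have h7 : (B + B2) * r ≤ (r / 200 - 1) * r := mul_le_mul_of_nonneg_right h6 hr0.le
      nlinarith
    linarith
  obtain ⟨u1, u2⟩ := abs_le.1 hu
  have hk1 : (K0 : ℝ) ≤ k := by linarith
  have hk2 : (k : ℝ) < 2 * K0 := by linarith
  have hK0' : (0 : ℝ) < K0 := by linarith
  have hk0 : (0 : ℝ) < k := by linarith
  have hsk : r / 3 ≤ Real.sqrt k := by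
    apply Real.le_sqrt_of_sq_le
    rw [div_pow, hrr]
    linarith
  have hv : |(T : ℝ) - 2 * k| ≤ (12 * (B + B2) + 3) * Real.sqrt k := by
    have h5 : (T : ℝ) - 2 * ks - 2 * (k - ks) = T - 2 * k := by ring
    rw [h5] at s2
    refine s2.trans ?_
    have h6 : (12 * (B + B2) + 3) * (r / 3) ≤ (12 * (B + B2) + 3) * Real.sqrt k :=
      mul_le_mul_of_nonneg_left hsk (by positivity)
    linarith
  have hT0 : (0 : ℝ) ≤ T := by
    obtain ⟨v1, v2⟩ := abs_le.1 hv
    have hskk : (12 * (B + B2) + 3) * Real.sqrt k ≤ k := by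
      have h6 : Real.sqrt (k : ℝ) ^ 2 = k := Real.sq_sqrt hk0.le
      have h7 : 12 * (B + B2) + 3 ≤ Real.sqrt k := by linarith
      nlinarith [Real.sqrt_nonneg (k : ℝ)]
    linarith
  have hkz : 0 ≤ k := by
    have : (0 : ℝ) ≤ k := hk0.le
    exact_mod_cast this
  have hTz : 0 ≤ T := by exact_mod_cast hT0
  lift k to ℕ using hkz
  lift T to ℕ using hTz
  refine ⟨k, T, by exact_mod_cast hk1, by exact_mod_cast hk2, by exact_mod_cast hv, ?_, ?_, ?_⟩
  · have : nx al be j (k, T) = i := by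
      unfold nx
      simp only
      linarith
    rw [this]
    exact hi
  all_goals
    have hsc : Real.log (sc A (k, T)) = t + k * Real.log 3 - T * Real.log 2 := by
      unfold sc
      rw [Real.log_div (by positivity) (by positivity), Real.log_mul hA.ne' (by positivity), Real.log_pow,
        Real.log_pow]
    have hs0 : 0 < sc A (k, T) := by unfold sc; positivity
  · rw [← Real.log_le_log_iff hx0 hs0, hsc]
    push_cast at e2
    linarith
  · rw [← Real.log_le_log_iff hs0 (by linarith), hsc, Real.log_mul (by norm_num) hx0.ne',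
      show (8 : ℝ) = 2 ^ 3 by norm_num, Real.log_pow]
    have := Real.log_two_gt_d9
    push_cast at e3 ⊢
    linarith

end Pool.Agent.TH977.LL
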