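import Pool.Agent.TH977.LL.Low2

/-! The lower bound for single values, end of the proof. -/

set_option autoImplicit false

namespace Pool.Agent.TH977.LL

open Pool.Agent.H320R2.PD Pool.Agent.H499R2.ND Pool.Agent.TH977.IP Finset

theorem low {al be : ℕ} (hc : Cas al be) {c0 B2 : ℝ} {E0 : ℕ} (hc0 : 0 < c0) (hB2 : 0 ≤ B2)
    (hty : ∀ e : ℕ, E0 ≤ e → c0 * 2 ^ e ≤ ((cls (Ty al be B2) (2 ^ e) (2 * 2 ^ e) 0 1 0).card : ℝ))
    {B : ℝ} (hB : 0 < B) :
    ∃ c : ℝ, 0 < c ∧ ∃ L0 : ℝ, ∀ A : ℝ, 0 < A → L0 ≤ Real.log A → ∀ j : ℤ,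
      |(j : ℝ) - lam al be * Real.log A| ≤ B * Real.sqrt (Real.log A) →
      c / Real.sqrt (Real.log A) ≤ ∑ i ∈ range 4, den (HS al be j) (A / 2 ^ i) := by
  classical
  obtain ⟨C, hC, hharm⟩ := harm al be
  obtain ⟨c1, hc1, N1, hN1, hpk⟩ := pk_lower (show 0 < 12 * (B + B2) + 3 by positivity)
  refine ⟨c1 * c0 / 200, by positivity, max (max 10000 ((200 * (B + B2 + 1)) ^ 2))
    (max (max (6 * N1) (E0 + 2)) ((2000 * C / (c1 * c0)) ^ 2)), ?_⟩
  intro A hA ht j hj
  set t := Real.log A with htdef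
  have ht1 : 10000 ≤ t := ((le_max_left _ _).trans (le_max_left _ _)).trans ht
  have ht2 : (200 * (B + B2 + 1)) ^ 2 ≤ t := ((le_max_right _ _).trans (le_max_left _ _)).trans ht
  have ht3 : (6 * N1 : ℝ) ≤ t :=
    (((le_max_left _ _).trans (le_max_left _ _)).trans (le_max_right _ _)).trans ht
  have ht4 : ((E0 : ℝ) + 2) ≤ t :=
    (((le_max_right _ _).trans (le_max_left _ _)).trans (le_max_right _ _)).trans ht
  have ht5 : (2000 * C / (c1 * c0)) ^ 2 ≤ t := ((le_max_right _ _).trans (le_max_right _ _)).trans ht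
  have ht0 : 0 < t := by linarith
  set r := Real.sqrt t with hr
  have hr0 : 0 < r := Real.sqrt_pos.2 ht0
  have hrr : r ^ 2 = t := Real.sq_sqrt ht0.le
  have htB : 200 * (B + B2 + 1) ≤ r := Real.le_sqrt_of_sq_le ht2
  have htC : 2000 * C / (c1 * c0) ≤ r := Real.le_sqrt_of_sq_le ht5
  obtain ⟨h4, h4'⟩ := hh_bd
  have hl2 := Real.log_two_gt_d9
  have hl2' := Real.log_two_lt_d9
  obtain ⟨K0, hK0⟩ : ∃ K0 : ℕ, K0 = ⌊t / 5⌋₊ := ⟨_, rfl⟩
  have hK1 : (K0 : ℝ) ≤ t / 5 := by rw [hK0]; exact Nat.floor_le (by linarith)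
  have hK2 : t / 5 - 1 ≤ K0 := by
    have : t / 5 < K0 + 1 := by rw [hK0]; exact Nat.lt_floor_add_one _
    linarith
  have hK3 : t / 6 + 300 ≤ K0 := by linarith
  have hK0pos : (0 : ℝ) < K0 := by linarith
  have hN1K : N1 ≤ K0 := by
    have : (N1 : ℝ) ≤ K0 := by linarith
    exact_mod_cast this
  -- the range of dyadic windows
  obtain ⟨e1, he1⟩ : ∃ e1 : ℕ, e1 = ⌈(t - 1.7 * K0 * hh) / Real.log 2⌉₊ := ⟨_, rfl⟩
  obtain ⟨e2, he2⟩ : ∃ e2 : ℕ, e2 = ⌊(t - 1.3 * K0 * hh) / Real.log 2⌋₊ := ⟨_, rfl⟩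
  have hKh1 : (K0 : ℝ) * hh ≤ K0 * 0.29 := mul_le_mul_of_nonneg_left h4' hK0pos.le
  have hKh2 : (K0 : ℝ) * 0.28 ≤ K0 * hh := mul_le_mul_of_nonneg_left h4 hK0pos.le
  have hlo0 : 0.9 * t ≤ t - 1.7 * K0 * hh := by linarith
  have hlo1 : 0 ≤ t - 1.3 * K0 * hh := by linarith
  have he1a : (t - 1.7 * K0 * hh) / Real.log 2 ≤ e1 := by rw [he1]; exact Nat.le_ceil _
  have he1b : (e1 : ℝ) < (t - 1.7 * K0 * hh) / Real.log 2 + 1 := by
    rw [he1]
    apply Nat.ceil_lt_add_one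
    apply div_nonneg (by linarith) (by linarith)
  have he2a : (e2 : ℝ) ≤ (t - 1.3 * K0 * hh) / Real.log 2 := by
    rw [he2]
    exact Nat.floor_le (div_nonneg hlo1 (by linarith))
  have he2b : (t - 1.3 * K0 * hh) / Real.log 2 < e2 + 1 := by rw [he2]; exact Nat.lt_floor_add_one _
  have hgap : (K0 : ℝ) / 10 ≤ (e2 : ℝ) - e1 := by
    have g1 : 0.4 * (K0 * hh) / Real.log 2 - 2 ≤ (e2 : ℝ) - e1 := by
      have : (t - 1.3 * K0 * hh) / Real.log 2 - (t - 1.7 * K0 * hh) / Real.log 2 =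
          0.4 * (K0 * hh) / Real.log 2 := by ring
      linarith
    have g2 : 0.4 * (K0 * 0.28) / 0.7 ≤ 0.4 * (K0 * hh) / Real.log 2 := by
      apply div_le_div₀ (by positivity) (by linarith) (by linarith) (by linarith)
    have g3 : 0.4 * ((K0 : ℝ) * 0.28) / 0.7 = 0.16 * K0 := by ring
    rw [g3] at g2
    have g4 : 0.16 * (K0 : ℝ) - 2 ≤ (e2 : ℝ) - e1 := (sub_le_sub_right g2 2).trans g1
    have g5 : (300 : ℝ) ≤ K0 := by linarith
    linarith only [g4, g5]
  have hE0e : E0 ≤ e1 := by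
    have : (E0 : ℝ) ≤ e1 := by
      refine le_trans ?_ he1a
      rw [le_div_iff₀ (by linarith)]
      nlinarith
    exact_mod_cast this
  -- the pairs
  set lo : ℕ → ℕ := fun k => (39 * k + 19) / 20 with hlo
  set hi : ℕ → ℕ := fun k => 41 * k / 20 with hhi
  set P : Finset (ℕ × ℕ) := (((Ico K0 (2 * K0)).sigma fun k => Icc (lo k) (hi k)).image
    (fun q => (q.1, q.2))).filter (fun p => |(p.2 : ℝ) - 2 * p.1| ≤ (12 * (B + B2) + 3) * Real.sqrt p.1)
    with hP
  have hd := dbl (al := al) (be := be) (j := j) (A := A) (c0 := c0) (B2 := B2) (P := P) (e1 := e1)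
    (e2 := e2) hA (fun e he => hty e (hE0e.trans (mem_Ico.1 he).1)) (by
    intro e he x hx
    rw [mem_Ico] at he
    rw [mem_cls] at hx
    have h2e : (0 : ℝ) < 2 ^ e := by positivity
    have hx0 : (0 : ℝ) < x := by linarith [hx.1.1]
    have q1 : (e : ℝ) * Real.log 2 ≤ Real.log x := by
      rw [← Real.log_pow]
      exact Real.log_le_log h2e hx.1.1
    have q2 : Real.log x ≤ ((e + 1 : ℕ) : ℝ) * Real.log 2 := by
      rw [← Real.log_pow]
      apply Real.log_le_log hx0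
      rw [pow_succ]
      linarith [hx.1.2]
    have q3 : (e1 : ℝ) ≤ e := by exact_mod_cast he.1
    have q4 : ((e + 1 : ℕ) : ℝ) ≤ e2 := by exact_mod_cast he.2
    have q5 : t - 1.7 * K0 * hh ≤ Real.log x := by
      refine le_trans ?_ q1
      rw [← div_le_iff₀ (by linarith)]
      linarith
    have q6 : Real.log x ≤ t - 1.3 * K0 * hh := by
      refine q2.trans ?_
      rw [← le_div_iff₀ (by linarith)]
      linarith
    obtain ⟨k, T, f1, f2, f3, f4, f5, f6⟩ := pair_typ hc hA ht1 hB hB2 hK2 htB hj hx0 q5 q6 hx.2.2.1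
    obtain ⟨g1, g2, g3⟩ := hpk k (hN1K.trans f1) T f3
    refine ⟨(k, T), ?_, f4, f5, f6⟩
    rw [hP, mem_filter, mem_image]
    refine ⟨⟨⟨k, T⟩, ?_, rfl⟩, f3⟩
    rw [mem_sigma, mem_Ico, mem_Icc]
    exact ⟨⟨f1, f2⟩, g1, g2⟩)
  -- the harmonic relation
  set D : ℝ := ∑ i ∈ range 4, den (HS al be j) (A / 2 ^ i) with hD
  have hone : ∀ k ∈ Ico K0 (2 * K0), ∑ T ∈ Icc (lo k) (hi k), pk k T *
      ∑ i ∈ range 4, den (HS al be (nx al be j (k, T))) (sc A (k, T) / 2 ^ i) ≤ D + 5 * C / t := by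
    intro k hk
    rw [mem_Ico] at hk
    have hk1 : (K0 : ℝ) ≤ k := by exact_mod_cast hk.1
    have hk2 : (k : ℝ) ≤ 2 * K0 := by exact_mod_cast hk.2.le
    have h1 : ∀ i ∈ range 4, ∑ T ∈ Icc (lo k) (hi k), pk k T *
        den (HS al be (nx al be j (k, T))) (sc A (k, T) / 2 ^ i) ≤
          den (HS al be j) (A / 2 ^ i) + 5 / 4 * (C / t) := by
      intro i hi'
      rw [mem_range] at hi'
      have hi4 : (i : ℝ) ≤ 3 := by
        have : i ≤ 3 := by omega
        exact_mod_cast this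
      have hi0 : (0 : ℝ) ≤ i := Nat.cast_nonneg _
      have hAi : 0 < A / 2 ^ i := by positivity
      have hlog : Real.log (A / 2 ^ i) = t - i * Real.log 2 := by
        rw [Real.log_div hA.ne' (by positivity), Real.log_pow]
      have hil : (i : ℝ) * Real.log 2 ≤ 3 := by nlinarith
      have hil0 : 0 ≤ (i : ℝ) * Real.log 2 := by positivity
      have h2 := (hharm (A / 2 ^ i) hAi (by rw [hlog]; linarith) k (by rw [hlog]; linarith)
        (by rw [hlog]; linarith) j).2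
      rw [sum_WK k (fun T => den (HS al be (j - al * k - be * (T : ℕ))) (A / 2 ^ i * 3 ^ k / 2 ^ T))] at h2
      have h3 : C / Real.log (A / 2 ^ i) ≤ 5 / 4 * (C / t) := by
        rw [hlog]
        have : 5 / 4 * (C / t) = C / (4 / 5 * t) := by field_simp
        rw [this]
        apply div_le_div_of_nonneg_left hC.le (by linarith)
        linarith
      refine le_trans (le_of_eq ?_) (h2.trans (by linarith))
      apply sum_congr rfl
      intro T _
      rw [← sc_half A i (k, T)]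
      rfl
    have h2 := sum_le_sum h1
    rw [sum_comm, sum_add_distrib, sum_const, card_range, nsmul_eq_mul] at h2
    refine le_trans (le_of_eq ?_) (h2.trans (le_of_eq ?_))
    · apply sum_congr rfl
      intro T _
      rw [mul_sum]
    · rw [hD]
      push_cast
      ring
  have hsum := sum_le_sum hone
  rw [sum_const, Nat.card_Ico, show 2 * K0 - K0 = K0 by omega, nsmul_eq_mul] at hsum
  -- the restriction to the pairs
  set F : ℕ × ℕ → ℝ := fun p => ∑ i ∈ range 4, den (HS al be (nx al be j p)) (sc A p / 2 ^ i) with hF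
  have hF0 : ∀ p, 0 ≤ F p := by
    intro p
    apply sum_nonneg
    intro i _
    apply den_nonneg
    unfold sc
    positivity
  set s := Real.sqrt (2 * K0) with hs
  have hs0 : 0 < s := Real.sqrt_pos.2 (by positivity)
  have hsr : s ≤ r := Real.sqrt_le_sqrt (by linarith)
  have hrest : c1 / s * ∑ p ∈ P, F p ≤ ∑ k ∈ Ico K0 (2 * K0), ∑ T ∈ Icc (lo k) (hi k), pk k T * F (k, T) := by
    have e1 : ∑ k ∈ Ico K0 (2 * K0), ∑ T ∈ Icc (lo k) (hi k), pk k T * F (k, T) =
        ∑ p ∈ ((Ico K0 (2 * K0)).sigma fun k => Icc (lo k) (hi k)).image (fun q => (q.1, q.2)),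
          pk p.1 p.2 * F p := by
      rw [sum_image]
      · rw [sum_sigma]
      · rintro ⟨a, b⟩ _ ⟨c, d⟩ _ heq
        simp only [Prod.mk.injEq] at heq
        obtain ⟨rfl, rfl⟩ := heq
        rfl
    rw [e1, mul_sum]
    have hPs : P ⊆ ((Ico K0 (2 * K0)).sigma fun k => Icc (lo k) (hi k)).image (fun q => (q.1, q.2)) := by
      rw [hP]
      exact filter_subset _ _
    refine le_trans ?_ (sum_le_sum_of_subset_of_nonneg hPs
      (fun p _ _ => mul_nonneg (pk_nonneg _ _) (hF0 p)))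
    apply sum_le_sum
    intro p hp
    rw [hP, mem_filter, mem_image] at hp
    obtain ⟨⟨⟨k, T⟩, hq, rfl⟩, hp2⟩ := hp
    rw [mem_sigma, mem_Ico, mem_Icc] at hq
    simp only at hq hp2
    apply mul_le_mul_of_nonneg_right _ (hF0 _)
    refine le_trans ?_ (hpk k (hN1K.trans hq.1.1) T hp2).2.2
    apply div_le_div_of_nonneg_left hc1.le
    · apply Real.sqrt_pos.2
      have : (K0 : ℝ) ≤ k := by exact_mod_cast hq.1.1
      linarith
    · apply Real.sqrt_le_sqrt
      exact_mod_cast hq.1.2.le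
  have hfour : ∑ p ∈ P, 2 / sc A p *
      ((cls (HS al be (nx al be j p)) (sc A p / 8) (2 * sc A p) 0 1 0).card : ℝ) ≤ ∑ p ∈ P, F p := by
    apply sum_le_sum
    intro p _
    exact four_win _ (by unfold sc; positivity)
  have hge : (K0 : ℝ) / 10 * (c0 / 8) ≤ ∑ p ∈ P, F p := by
    refine le_trans ?_ (hd.trans hfour)
    apply mul_le_mul_of_nonneg_right _ (by positivity)
    have he12 : e1 ≤ e2 := by
      have : (e1 : ℝ) ≤ e2 := by linarith
      exact_mod_cast this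
    rw [Nat.cast_sub he12]
    exact hgap
  have hfin : c1 / s * ((K0 : ℝ) / 10 * (c0 / 8)) ≤ K0 * (D + 5 * C / t) :=
    (mul_le_mul_of_nonneg_left hge (by positivity)).trans (hrest.trans hsum)
  have h7 : c1 * c0 / (80 * s) ≤ D + 5 * C / t := by
    have : (K0 : ℝ) * (c1 * c0 / (80 * s)) = c1 / s * ((K0 : ℝ) / 10 * (c0 / 8)) := by
      field_simp
      norm_num
    rw [← this] at hfin
    exact le_of_mul_le_mul_left hfin hK0pos
  have h8 : c1 * c0 / (80 * r) ≤ c1 * c0 / (80 * s) := by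
    apply div_le_div_of_nonneg_left (by positivity) (by positivity)
    linarith
  have h9 : 5 * C / t ≤ c1 * c0 / (400 * r) := by
    rw [div_le_div_iff₀ ht0 (by positivity), ← hrr]
    rw [div_le_iff₀ (by positivity)] at htC
    nlinarith [mul_le_mul_of_nonneg_right htC hr0.le]
  have h10 : c1 * c0 / 200 / r = c1 * c0 / (80 * r) - 3 * (c1 * c0 / (400 * r)) := by
    field_simp
    norm_num
  have h11 : 0 ≤ c1 * c0 / (400 * r) := by positivity
  rw [h10]
  linarith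

end Pool.Agent.TH977.LL
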