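import Pool.Agent.TH977.LL.Lip

/-! Several stages. -/

set_option autoImplicit false

namespace Pool.Agent.TH977.LL

open Pool.Agent.H320R2.PD Pool.Agent.H499R2.ND Pool.Agent.TH977.IP Finset

theorem qq_lip1 {K : ℕ} (hK : 4 ≤ K) (n : ℕ) : |qq K (n + 1) - qq K n| ≤ 9 / K := by
  obtain ⟨K1, hK1⟩ : ∃ K1 : ℕ, K1 = K / 2 := ⟨_, rfl⟩
  obtain ⟨K2, hK2⟩ : ∃ K2 : ℕ, K2 = K - K1 := ⟨_, rfl⟩
  have hsum : K1 + K2 = K := by omega
  have e : ∀ m, qq K m = cv K1 (qq K2) m := by
    intro m
    rw [← hsum]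
    exact (qq_conv (by omega) (by omega) m).symm
  rw [e, e, cv_succ]
  have h1R : (K : ℝ) ≤ 3 * K1 := by
    have : K ≤ 3 * K1 := by omega
    exact_mod_cast this
  have h2R : (K : ℝ) ≤ 2 * K2 := by
    have : K ≤ 2 * K2 := by omega
    exact_mod_cast this
  have hK0 : (0 : ℝ) < K := by
    have : 0 < K := by omega
    exact_mod_cast this
  have hK10 : (0 : ℝ) < K1 := by linarith
  have hK20 : (0 : ℝ) < K2 := by linarith
  have s1 := Real.sqrt_pos.2 hK10
  have s2 := Real.sqrt_pos.2 hK20
  have hprod : (K : ℝ) / 3 ≤ Real.sqrt K1 * Real.sqrt K2 := by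
    rw [← Real.sqrt_mul hK10.le]
    apply Real.le_sqrt_of_sq_le
    nlinarith
  have b1 : |∑ m ∈ range (n + 1), (qq K1 (m + 1) - qq K1 m) * qq K2 (n - m)| ≤ 2 / Real.sqrt K1 * (1 / Real.sqrt K2) := by
    refine (abs_sum_le_sum_abs _ _).trans ?_
    have c1 : ∀ m ∈ range (n + 1), |(qq K1 (m + 1) - qq K1 m) * qq K2 (n - m)| ≤
        |qq K1 (m + 1) - qq K1 m| * (1 / Real.sqrt K2) := by
      intro m _
      rw [abs_mul, abs_of_nonneg (qq_nonneg K2 _)]
      exact mul_le_mul_of_nonneg_left (qq_sup (by omega) _) (abs_nonneg _)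
    refine (sum_le_sum c1).trans ?_
    rw [← sum_mul]
    exact mul_le_mul_of_nonneg_right (qq_tv (by omega) _) (by positivity)
  have b2 : |qq K1 0 * qq K2 (n + 1)| ≤ 1 / Real.sqrt K1 * (1 / Real.sqrt K2) := by
    rw [abs_mul, abs_of_nonneg (qq_nonneg _ _), abs_of_nonneg (qq_nonneg _ _)]
    exact mul_le_mul (qq_sup (by omega) _) (qq_sup (by omega) _) (qq_nonneg _ _) (by positivity)
  refine (abs_add_le _ _).trans ((add_le_add b1 b2).trans ?_)
  have e3 : 2 / Real.sqrt K1 * (1 / Real.sqrt K2) + 1 / Real.sqrt K1 * (1 / Real.sqrt K2) =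
      3 / (Real.sqrt K1 * Real.sqrt K2) := by
    field_simp
    norm_num
  rw [e3, div_le_div_iff₀ (by positivity) hK0]
  linarith

theorem qq_lip {K : ℕ} (hK : 4 ≤ K) (a b : ℕ) : |qq K a - qq K b| ≤ 9 * |(a : ℝ) - b| / K := by
  have key : ∀ (b d : ℕ), |qq K (b + d) - qq K b| ≤ 9 * d / K := by
    intro b d
    induction d with
    | zero => simp
    | succ d ih =>
      have h1 := qq_lip1 hK (b + d)
      have e : qq K (b + (d + 1)) - qq K b = (qq K (b + d + 1) - qq K (b + d)) + (qq K (b + d) - qq K b) := by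
        rw [← add_assoc]; ring
      rw [e]
      refine (abs_add_le _ _).trans ((add_le_add h1 ih).trans (le_of_eq ?_))
      push_cast
      ring
  rcases le_total b a with h | h
  · obtain ⟨d, rfl⟩ := Nat.exists_eq_add_of_le h
    refine (key b d).trans (le_of_eq ?_)
    push_cast
    rw [add_sub_cancel_left, abs_of_nonneg (Nat.cast_nonneg d)]
  · obtain ⟨d, rfl⟩ := Nat.exists_eq_add_of_le h
    rw [abs_sub_comm]
    refine (key a d).trans (le_of_eq ?_)
    push_cast
    rw [abs_sub_comm, add_sub_cancel_left, abs_of_nonneg (Nat.cast_nonneg d)]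

theorem cv_bd {k : ℕ} (hk : 1 ≤ k) {f : ℕ → ℝ} {M : ℝ} (hM : 0 ≤ M) (hf : ∀ m, f m ≤ M) (e : ℕ) :
    cv k f e ≤ M := by
  rw [cv_range]
  refine (sum_le_sum fun n _ => mul_le_mul_of_nonneg_left (hf (e - n)) (qq_nonneg k n)).trans ?_
  rw [← sum_mul]
  have := mul_le_mul_of_nonneg_right (qq_sum_le hk (range (e + 1))) hM
  linarith

theorem cv_nonneg {k : ℕ} {f : ℕ → ℝ} (hf : ∀ m, 0 ≤ f m) (e : ℕ) : 0 ≤ cv k f e := by
  rw [cv_range]
  exact sum_nonneg fun n _ => mul_nonneg (qq_nonneg k n) (hf _)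

/-- the next level -/
def st (i : ℕ) : ℕ := i - i / 10

theorem st_iter_le (J : ℕ) (i : ℕ) : st^[J] i ≤ i := by
  induction J generalizing i with
  | zero => exact le_rfl
  | succ J ih =>
    rw [Function.iterate_succ_apply]
    exact (ih (st i)).trans (Nat.sub_le _ _)

theorem multi (c : ℕ) (J : ℕ) : ∃ a C : ℝ, 0 < a ∧ a ≤ 1 / 20 ∧ 0 < C ∧ ∃ I : ℕ, ∀ i e : ℕ, I ≤ i →
    |(e : ℝ) - i| ≤ a * i → 1 ≤ i - st^[J + 1] i ∧
      |nn c i e - cv (i - st^[J + 1] i) (nn c (st^[J + 1] i)) e| ≤ C / i := by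
  obtain ⟨C1, hC1, h1⟩ := nn_harm c
  induction J with
  | zero =>
    refine ⟨1 / 20, C1, by norm_num, le_rfl, hC1, 10000 * (c + 1), fun i e hi he => ?_⟩
    have e1 : st^[0 + 1] i = i - i / 10 := rfl
    have e2 : i - (i - i / 10) = i / 10 := by omega
    rw [e1, e2]
    refine ⟨by omega, ?_⟩
    exact h1 i e hi (by linarith) (i / 10) (by omega) (by omega)
  | succ J ih =>
    obtain ⟨a, C, ha, ha1, hC, I, h⟩ := ih
    set M : ℝ := 5 * 2 ^ c with hM
    have hM0 : 0 < M := by positivity
    refine ⟨a / 4, C1 + 2 * C + M * (16 / a ^ 2), by positivity, by linarith, by positivity,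
      2 * I + 10000 * (c + 1), fun i e hi he => ?_⟩
    have hiA : 10000 * (c + 1) ≤ i := le_trans (Nat.le_add_left _ _) hi
    have hiB : 2 * I ≤ i := le_trans (Nat.le_add_right _ _) hi
    have hiC : 10000 ≤ i := le_trans (Nat.le_mul_of_pos_right _ (Nat.succ_pos c)) hiA
    clear hi
    obtain ⟨k, hk⟩ : ∃ k : ℕ, k = i / 10 := ⟨_, rfl⟩
    obtain ⟨i1, hi1⟩ : ∃ i1 : ℕ, i1 = i - k := ⟨_, rfl⟩
    have est : st i = i1 := by unfold st; omega
    have e1 : st^[J + 1 + 1] i = st^[J + 1] i1 := by rw [Function.iterate_succ_apply, est]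
    rw [e1]
    set i2 := st^[J + 1] i1 with hi2
    have hi21 : i2 ≤ i1 := st_iter_le _ _
    have hiR : (10000 : ℝ) ≤ i := by
      exact_mod_cast hiC
    have hi0 : (0 : ℝ) < i := by linarith
    have hk2R : 10 * (k : ℝ) ≤ i := by
      have : 10 * k ≤ i := by omega
      exact_mod_cast this
    have hk1R : (i : ℝ) ≤ 11 * k := by
      have : i ≤ 11 * k := by omega
      exact_mod_cast this
    have hi1R : (i1 : ℝ) = i - k := by rw [hi1, Nat.cast_sub (by omega)]
    have hk0 : 1 ≤ k := by omega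
    obtain ⟨g1, g2⟩ := abs_le.1 he
    have hst1 : 1 ≤ i1 - i2 := (h i1 i1 (by omega) (by simp; positivity)).1
    refine ⟨by omega, ?_⟩
    have hKK : i - i2 = k + (i1 - i2) := by omega
    rw [hKK, ← cv_cv hk0 hst1]
    have hai : a * i ≤ 1 / 20 * i := mul_le_mul_of_nonneg_right ha1 hi0.le
    have c1 := h1 i e hiA (by rw [abs_le]; constructor <;> linarith) k (by omega) (by omega)
    rw [← hi1] at c1
    have c2 : |cv k (nn c i1) e - cv k (cv (i1 - i2) (nn c i2)) e| ≤ (2 * C + M * (16 / a ^ 2)) / i := by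
      rw [cv_range, cv_range, ← sum_sub_distrib]
      refine (abs_sum_le_sum_abs _ _).trans ?_
      set near := (range (e + 1)).filter (fun n : ℕ => |((e - n : ℕ) : ℝ) - i1| ≤ a * i1) with hnear
      set far := (range (e + 1)).filter (fun n : ℕ => ¬ |((e - n : ℕ) : ℝ) - i1| ≤ a * i1) with hfar
      rw [← sum_filter_add_sum_filter_not (range (e + 1)) (fun n : ℕ => |((e - n : ℕ) : ℝ) - i1| ≤ a * i1),
        ← hnear, ← hfar]
      have d1 : ∑ n ∈ near, |qq k n * nn c i1 (e - n) - qq k n * cv (i1 - i2) (nn c i2) (e - n)| ≤ 2 * C / i := by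
        have d2 : ∀ n ∈ near, |qq k n * nn c i1 (e - n) - qq k n * cv (i1 - i2) (nn c i2) (e - n)| ≤
            qq k n * (2 * C / i) := by
          intro n hn
          rw [hnear, mem_filter] at hn
          rw [← mul_sub, abs_mul, abs_of_nonneg (qq_nonneg k n)]
          apply mul_le_mul_of_nonneg_left _ (qq_nonneg k n)
          refine (h i1 (e - n) (by omega) hn.2).2.trans ?_
          have : C / (i1 : ℝ) ≤ C / (i / 2) := by
            apply div_le_div_of_nonneg_left hC.le (by positivity)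
            rw [hi1R]
            linarith
          refine this.trans (le_of_eq ?_)
          field_simp
        refine (sum_le_sum d2).trans ?_
        rw [← sum_mul]
        have := mul_le_mul_of_nonneg_right (qq_sum_le hk0 near) (show 0 ≤ 2 * C / (i : ℝ) by positivity)
        linarith
      have d3 : ∑ n ∈ far, |qq k n * nn c i1 (e - n) - qq k n * cv (i1 - i2) (nn c i2) (e - n)| ≤
          M * (16 / a ^ 2) / i := by
        have d2 : ∀ n ∈ far, |qq k n * nn c i1 (e - n) - qq k n * cv (i1 - i2) (nn c i2) (e - n)| ≤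
            qq k n * (2 * M) := by
          intro n _
          rw [← mul_sub, abs_mul, abs_of_nonneg (qq_nonneg k n)]
          apply mul_le_mul_of_nonneg_left _ (qq_nonneg k n)
          refine (abs_sub _ _).trans ?_
          rw [abs_of_nonneg (nn_nonneg c _ _), abs_of_nonneg (cv_nonneg (nn_nonneg c i2) _)]
          have q1 := nn_bd c i1 (e - n)
          have q2 := cv_bd hst1 hM0.le (nn_bd c i2) (e - n)
          linarith
        refine (sum_le_sum d2).trans ?_
        rw [← sum_mul]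
        have d4 := qq_cheb hk0 (a := a / 2 * i) (by positivity) far (by
          intro n hn
          rw [hfar, mem_filter, mem_range] at hn
          have hen : ((e - n : ℕ) : ℝ) = e - n := by rw [Nat.cast_sub (by omega)]
          have q1 := not_le.1 hn.2
          rw [hen, hi1R] at q1
          have q2 : |(e : ℝ) - n - (i - k)| ≤ |(e : ℝ) - i| + |(n : ℝ) - k| := by
            have : (e : ℝ) - n - (i - k) = (e - i) - (n - k) := by ring
            rw [this]
            exact abs_sub _ _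
          have q3 : a * (i - k) ≥ a * (9 / 10 * i) := by
            apply mul_le_mul_of_nonneg_left _ ha.le
            linarith
          have q4 : 0 ≤ a * i := by positivity
          linarith)
        have d5 : 2 * (k : ℝ) / (a / 2 * i) ^ 2 ≤ 8 / a ^ 2 / i := by
          have : 2 * (k : ℝ) / (a / 2 * i) ^ 2 = 8 * k / (a ^ 2 * i ^ 2) := by
            field_simp
            norm_num
          rw [this, div_div, div_le_div_iff₀ (by positivity) (by positivity)]
          have : (k : ℝ) ≤ i := by linarith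
          have h6 : 8 * (k : ℝ) * (a ^ 2 * i) ≤ 8 * (i : ℝ) * (a ^ 2 * i) := by
            apply mul_le_mul_of_nonneg_right _ (by positivity)
            linarith
          refine h6.trans (le_of_eq ?_)
          ring
        have d6 := mul_le_mul_of_nonneg_right (d4.trans d5) (show 0 ≤ 2 * M by positivity)
        refine d6.trans (le_of_eq ?_)
        ring
      rw [add_div]
      exact add_le_add d1 d3
    have e5 : nn c i e - cv k (cv (i1 - i2) (nn c i2)) e = (nn c i e - cv k (nn c i1) e) +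
        (cv k (nn c i1) e - cv k (cv (i1 - i2) (nn c i2)) e) := by ring
    rw [e5]
    refine (abs_add_le _ _).trans ((add_le_add c1 c2).trans (le_of_eq ?_))
    ring

end Pool.Agent.TH977.LL
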