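import Pool.Agent.TH977.LL.Two

/-! The harmonic relation for the normalised counts of the pairs. -/

set_option autoImplicit false

namespace Pool.Agent.TH977.LL

open Pool.Agent.H320R2.PD Pool.Agent.H499R2.ND Pool.Agent.TH977.IP Finset

/-- the normalised counts, natural indices: `i` odd steps, `e` even steps -/
noncomputable def nn (c i e : ℕ) : ℝ := nu c ((i : ℤ), (e : ℤ))

/-- convolution with the negative binomial law -/
noncomputable def cv (k : ℕ) (f : ℕ → ℝ) (e : ℕ) : ℝ := ∑ p ∈ antidiagonal e, qq k p.1 * f p.2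

theorem cv_range (k : ℕ) (f : ℕ → ℝ) (e : ℕ) : cv k f e = ∑ n ∈ range (e + 1), qq k n * f (e - n) :=
  Finset.Nat.sum_antidiagonal_eq_sum_range_succ_mk (fun p => qq k p.1 * f p.2) e

theorem cv_cv {k1 k2 : ℕ} (h1 : 1 ≤ k1) (h2 : 1 ≤ k2) (f : ℕ → ℝ) (e : ℕ) :
    cv k1 (cv k2 f) e = cv (k1 + k2) f e := by
  have hc : ∀ (k : ℕ) (g : ℕ → ℝ) (n : ℕ), cv k g n = PowerSeries.coeff n (PowerSeries.mk (qq k) * PowerSeries.mk g) := by
    intro k g n
    rw [PowerSeries.coeff_mul]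
    unfold cv
    apply sum_congr rfl
    intro p _
    rw [PowerSeries.coeff_mk, PowerSeries.coeff_mk]
  have e1 : PowerSeries.mk (cv k2 f) = PowerSeries.mk (qq k2) * PowerSeries.mk f := by
    ext n
    rw [PowerSeries.coeff_mk, hc]
  have e2 : PowerSeries.mk (qq k1) * PowerSeries.mk (qq k2) = PowerSeries.mk (qq (k1 + k2)) := by
    ext n
    rw [PowerSeries.coeff_mul, PowerSeries.coeff_mk, ← qq_conv h1 h2 n]
    apply sum_congr rfl
    intro p _
    rw [PowerSeries.coeff_mk, PowerSeries.coeff_mk]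
  rw [hc, hc, e1, ← mul_assoc, e2]

theorem nn_nonneg (c i e : ℕ) : 0 ≤ nn c i e := nu_nonneg c _

theorem nn_bd (c i e : ℕ) : nn c i e ≤ 5 * 2 ^ c := nu_bd c _

/-- the logarithms of the scales -/
theorem scale_log {c i e : ℕ} (hi : 1000 * (c + 1) ≤ i) (he : |(e : ℝ) - i| ≤ i / 20) {w : ℕ}
    (hw : w ∈ range (2 * c + 1)) :
    0.24 * (i : ℝ) ≤ Real.log (XX ((i : ℤ), (e : ℤ)) * 2 ^ c / 2 ^ w) ∧
    Real.log (XX ((i : ℤ), (e : ℤ)) * 2 ^ c / 2 ^ w) ≤ 0.33 * i := by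
  have h2 := Real.log_two_gt_d9
  have h2' := Real.log_two_lt_d9
  obtain ⟨hh1, hh2⟩ := hh_bd
  have hX := XX_pos ((i : ℤ), (e : ℤ))
  rw [mem_range] at hw
  have hlog : Real.log (XX ((i : ℤ), (e : ℤ)) * 2 ^ c / 2 ^ w) =
      i * hh + (e - i) * Real.log 2 + (c - w) * Real.log 2 := by
    rw [Real.log_div (by positivity) (by positivity), Real.log_mul hX.ne' (by positivity), Real.log_pow,
      Real.log_pow, XX_log]
    unfold hh
    push_cast
    ring
  rw [hlog]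
  have hiR : 1000 * ((c : ℝ) + 1) ≤ i := by exact_mod_cast hi
  have hi0 : (0 : ℝ) ≤ i := Nat.cast_nonneg _
  have hc0 : (0 : ℝ) ≤ c := Nat.cast_nonneg _
  have hwR : (w : ℝ) ≤ 2 * c := by
    have : w ≤ 2 * c := by omega
    exact_mod_cast this
  have hw0 : (0 : ℝ) ≤ w := Nat.cast_nonneg _
  obtain ⟨g1, g2⟩ := abs_le.1 he
  have a1 : (i : ℝ) * 0.28 ≤ i * hh := mul_le_mul_of_nonneg_left hh1 hi0
  have a2 : (i : ℝ) * hh ≤ i * 0.29 := mul_le_mul_of_nonneg_left hh2 hi0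
  have a3 : ((e : ℝ) - i) * Real.log 2 ≤ i / 20 * Real.log 2 := mul_le_mul_of_nonneg_right g2 (by linarith)
  have a4 : -(i / 20 : ℝ) * Real.log 2 ≤ ((e : ℝ) - i) * Real.log 2 :=
    mul_le_mul_of_nonneg_right g1 (by linarith)
  have a5 : ((c : ℝ) - w) * Real.log 2 ≤ c * Real.log 2 := mul_le_mul_of_nonneg_right (by linarith) (by linarith)
  have a6 : -(c : ℝ) * Real.log 2 ≤ ((c : ℝ) - w) * Real.log 2 :=
    mul_le_mul_of_nonneg_right (by linarith) (by linarith)
  have a7 : (c : ℝ) * Real.log 2 ≤ c * 1 := mul_le_mul_of_nonneg_left (by linarith) hc0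
  have a8 : (i : ℝ) / 20 * Real.log 2 ≤ i / 20 * 0.7 := mul_le_mul_of_nonneg_left (by linarith) (by positivity)
  constructor <;> linarith

/-- the upper bound -/
theorem nn_sqrt (c : ℕ) : ∃ C : ℝ, 0 < C ∧ ∀ i e : ℕ, 10000 * (c + 1) ≤ i → |(e : ℝ) - i| ≤ i / 20 →
    nn c i e ≤ C / Real.sqrt i := by
  obtain ⟨C, hC, h⟩ := upp (al := 1) (be := 0) (by norm_num)
  refine ⟨2 ^ c * (3 * C), by positivity, fun i e hi he => ?_⟩
  have hiR : 10000 * ((c : ℝ) + 1) ≤ i := by exact_mod_cast hi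
  have hc0 : (0 : ℝ) ≤ c := Nat.cast_nonneg _
  have hi0 : (0 : ℝ) < i := by linarith
  have hX := XX_pos ((i : ℤ), (e : ℤ))
  have hs0 : 0 < Real.sqrt i := Real.sqrt_pos.2 hi0
  unfold nn nu
  have h1 : ∀ w ∈ range (2 * c + 1), den (H2 ((i : ℤ), (e : ℤ))) (XX ((i : ℤ), (e : ℤ)) * 2 ^ c / 2 ^ w) ≤
      3 * C / Real.sqrt i := by
    intro w hw
    obtain ⟨b1, b2⟩ := scale_log (by omega) he hw
    have hA : 0 < XX ((i : ℤ), (e : ℤ)) * 2 ^ c / 2 ^ w := by positivity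
    set A := XX ((i : ℤ), (e : ℤ)) * 2 ^ c / 2 ^ w with hAdef
    have h2 : den (H2 ((i : ℤ), (e : ℤ))) A ≤ den (HS 1 0 i) A := by
      unfold den
      apply div_le_div_of_nonneg_right _ (by positivity)
      have : cls (H2 ((i : ℤ), (e : ℤ))) A (2 * A) 0 1 0 ⊆ cls (HS 1 0 i) A (2 * A) 0 1 0 := by
        intro x hx
        rw [mem_cls] at hx ⊢
        exact ⟨hx.1, hx.2.1, hx.2.2.1.1, hx.2.2.2⟩
      exact_mod_cast card_le_card this
    refine h2.trans ((h A hA (by linarith) i).trans ?_)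
    have h3 : Real.sqrt i / 3 ≤ Real.sqrt (Real.log A) := by
      apply Real.le_sqrt_of_sq_le
      rw [div_pow, Real.sq_sqrt hi0.le]
      linarith
    have h4 : C / Real.sqrt (Real.log A) ≤ C / (Real.sqrt i / 3) :=
      div_le_div_of_nonneg_left hC.le (by positivity) h3
    refine h4.trans (le_of_eq ?_)
    field_simp
  refine (sum_le_sum fun w hw => mul_le_mul_of_nonneg_right (h1 w hw) (by positivity)).trans ?_
  rw [← mul_sum]
  have h5 := mul_le_mul_of_nonneg_left (geo2 c (2 * c + 1)) (show 0 ≤ 3 * C / Real.sqrt i by positivity)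
  refine h5.trans (le_of_eq ?_)
  ring

/-- one stage -/
theorem nn_harm (c : ℕ) : ∃ C : ℝ, 0 < C ∧ ∀ i e : ℕ, 10000 * (c + 1) ≤ i → |(e : ℝ) - i| ≤ i / 20 →
    ∀ k : ℕ, i ≤ 18 * k → 9 * k ≤ i → |nn c i e - cv k (nn c (i - k)) e| ≤ C / i := by
  obtain ⟨C, hC, h⟩ := harm2
  refine ⟨2 ^ c * (5 * C) + 5 * 2 ^ c * 14400, by positivity, fun i e hi he k hk1 hk2 => ?_⟩
  have hiR : 10000 * ((c : ℝ) + 1) ≤ i := by exact_mod_cast hi
  have hc0 : (0 : ℝ) ≤ c := Nat.cast_nonneg _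
  have hi0 : (0 : ℝ) < i := by linarith
  have hX := XX_pos ((i : ℤ), (e : ℤ))
  have hk1R : (i : ℝ) ≤ 18 * k := by exact_mod_cast hk1
  have hk2R : 9 * (k : ℝ) ≤ i := by exact_mod_cast hk2
  have hk0 : (0 : ℝ) < k := by linarith
  have hk0N : 1 ≤ k := by exact_mod_cast hk0
  set a := (39 * k + 19) / 20 - k with ha
  set b := 41 * k / 20 - k with hb
  have hbe : b ≤ e := by
    obtain ⟨g1, g2⟩ := abs_le.1 he
    have h1 : (41 * k : ℝ) ≤ 20 * (e + k) := by linarith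
    have h2 : 41 * k ≤ 20 * (e + k) := by exact_mod_cast h1
    omega
  -- the stage
  have h1 : |nn c i e - ∑ n ∈ Icc a b, qq k n * nn c (i - k) (e - n)| ≤ 2 ^ c * (5 * C) / i := by
    have e1 : nn c i e - ∑ n ∈ Icc a b, qq k n * nn c (i - k) (e - n) =
        ∑ w ∈ range (2 * c + 1), (den (H2 ((i : ℤ), (e : ℤ))) (XX ((i : ℤ), (e : ℤ)) * 2 ^ c / 2 ^ w) -
          ∑ n ∈ Icc a b, qq k n * den (H2 ((i : ℤ) - k, (e : ℤ) - n))
            (XX ((i : ℤ), (e : ℤ)) * 2 ^ c / 2 ^ w * 3 ^ k / 2 ^ (k + n))) * (2 ^ c / 2 ^ w / 2) := by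
      simp only [sub_mul, sum_sub_distrib, sum_mul]
      unfold nn nu
      congr 1
      rw [sum_comm]
      apply sum_congr rfl
      intro n hn
      rw [mem_Icc] at hn
      have c1 : ((i - k : ℕ) : ℤ) = (i : ℤ) - k := by
        rw [Nat.cast_sub (by omega)]
      have c2 : ((e - n : ℕ) : ℤ) = (e : ℤ) - n := by
        rw [Nat.cast_sub (by omega)]
      rw [mul_sum, c1, c2]
      apply sum_congr rfl
      intro w _
      have c3 : XX ((i : ℤ), (e : ℤ)) * 2 ^ c / 2 ^ w * 3 ^ k / 2 ^ (k + n) =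
          XX ((i : ℤ) - k, (e : ℤ) - n) * 2 ^ c / 2 ^ w := by
        rw [← XX_step ((i : ℤ), (e : ℤ)) k n]
        ring
      rw [c3]
      ring
    rw [e1]
    refine (abs_sum_le_sum_abs _ _).trans ?_
    have h2 : ∀ w ∈ range (2 * c + 1), |(den (H2 ((i : ℤ), (e : ℤ))) (XX ((i : ℤ), (e : ℤ)) * 2 ^ c / 2 ^ w) -
          ∑ n ∈ Icc a b, qq k n * den (H2 ((i : ℤ) - k, (e : ℤ) - n))
            (XX ((i : ℤ), (e : ℤ)) * 2 ^ c / 2 ^ w * 3 ^ k / 2 ^ (k + n))) * (2 ^ c / 2 ^ w / 2)| ≤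
          5 * C / i * (2 ^ c / 2 ^ w / 2) := by
      intro w hw
      obtain ⟨b1, b2⟩ := scale_log (by omega) he hw
      have hA : 0 < XX ((i : ℤ), (e : ℤ)) * 2 ^ c / 2 ^ w := by positivity
      rw [abs_mul, abs_of_pos (by positivity : (0 : ℝ) < 2 ^ c / 2 ^ w / 2)]
      apply mul_le_mul_of_nonneg_right _ (by positivity)
      refine (h _ hA (by linarith) k (by linarith) (by linarith) ((i : ℤ), (e : ℤ))).trans ?_
      have h3 : C / Real.log (XX ((i : ℤ), (e : ℤ)) * 2 ^ c / 2 ^ w) ≤ C / (i / 5) :=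
        div_le_div_of_nonneg_left hC.le (by positivity) (by linarith)
      refine h3.trans (le_of_eq ?_)
      field_simp
    refine (sum_le_sum h2).trans ?_
    rw [← mul_sum]
    have h5 := mul_le_mul_of_nonneg_left (geo2 c (2 * c + 1)) (show 0 ≤ 5 * C / i by positivity)
    refine h5.trans (le_of_eq ?_)
    ring
  -- the other times
  have h2 : |cv k (nn c (i - k)) e - ∑ n ∈ Icc a b, qq k n * nn c (i - k) (e - n)| ≤ 5 * 2 ^ c * 14400 / i := by
    have hsub : Icc a b ⊆ range (e + 1) := by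
      intro n hn
      rw [mem_Icc] at hn
      rw [mem_range]
      omega
    rw [cv_range, ← sum_sdiff hsub, add_sub_cancel_right, abs_of_nonneg (sum_nonneg fun n _ =>
      mul_nonneg (qq_nonneg k n) (nn_nonneg c _ _))]
    refine (sum_le_sum fun n _ => mul_le_mul_of_nonneg_left (nn_bd c (i - k) (e - n)) (qq_nonneg k n)).trans ?_
    rw [← sum_mul]
    have h3 := qq_cheb hk0N (a := (k : ℝ) / 20) (by positivity) (range (e + 1) \ Icc a b) (by
      intro n hn
      have hn2 : ¬ (a ≤ n ∧ n ≤ b) := by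
        intro hcon
        exact (Finset.mem_sdiff.1 hn).2 (mem_Icc.2 hcon)
      rcases lt_or_ge n a with h4 | h4
      · rw [abs_of_nonpos]
        · have : 20 * n + k ≤ 20 * k := by omega
          have : (20 * n + k : ℝ) ≤ 20 * k := by exact_mod_cast this
          linarith
        · have : 20 * n + k ≤ 20 * k := by omega
          have : (20 * n + k : ℝ) ≤ 20 * k := by exact_mod_cast this
          linarith
      · have h5 : b < n := by
          by_contra hcon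
          exact hn2 ⟨h4, by omega⟩
        have h6 : 21 * k ≤ 20 * n := by omega
        have h7 : (21 * k : ℝ) ≤ 20 * n := by exact_mod_cast h6
        rw [abs_of_nonneg (by linarith)]
        linarith)
    have h4 : 2 * (k : ℝ) / (k / 20) ^ 2 = 800 / k := by
      field_simp
      norm_num
    rw [h4] at h3
    have h5 : (800 : ℝ) / k ≤ 14400 / i := by
      rw [div_le_div_iff₀ hk0 hi0]
      linarith
    have h6 := mul_le_mul_of_nonneg_right (h3.trans h5) (show (0 : ℝ) ≤ 5 * 2 ^ c by positivity)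
    refine h6.trans (le_of_eq ?_)
    ring
  have e3 : nn c i e - cv k (nn c (i - k)) e = (nn c i e - ∑ n ∈ Icc a b, qq k n * nn c (i - k) (e - n)) -
      (cv k (nn c (i - k)) e - ∑ n ∈ Icc a b, qq k n * nn c (i - k) (e - n)) := by ring
  rw [e3]
  refine (abs_sub _ _).trans ?_
  rw [add_div]
  linarith

end Pool.Agent.TH977.LL
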