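import Pool.Agent.TH977.LL.Tight

/-! The profile: main estimate. -/

set_option autoImplicit false

namespace Pool.Agent.TH977.LL

open Pool.Agent.H320R2.PD Pool.Agent.H499R2.ND Pool.Agent.TH977.IP Finset Filter Topology

theorem qq_rest {k : ℕ} (hk : 1 ≤ k) {a : ℝ} (ha : 0 < a) (e : ℕ) (he : (k : ℝ) + a ≤ e) :
    1 - ∑ j ∈ range (e + 1), qq k j ≤ 2 * k / a ^ 2 := by
  have h1 : ∀ᶠ N : ℕ in atTop, ∑ j ∈ range N, qq k j ≤ ∑ j ∈ range (e + 1), qq k j + 2 * k / a ^ 2 := by
    filter_upwards [eventually_ge_atTop (e + 1)] with N hN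
    rw [← sum_range_add_sum_Ico _ hN]
    apply add_le_add_right
    apply qq_cheb hk ha
    intro n hn
    rw [mem_Ico] at hn
    have h2 : ((e + 1 : ℕ) : ℝ) ≤ n := by exact_mod_cast hn.1
    push_cast at h2
    rw [abs_of_nonneg (by linarith)]
    linarith
  have h2 := le_of_tendsto (qq_hasSum hk).tendsto_sum_nat h1
  linarith

theorem delta_bd {K i' e m : ℕ} {D : ℝ} (hK : 4 ≤ K) (hi' : 1 ≤ i') (hD : 1 ≤ D)
    (hm : |(m : ℝ) - i'| ≤ D * Real.sqrt i') (he : (i' : ℝ) + D * Real.sqrt i' ≤ e) :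
    |qq K (e - m) - qq (K + i') e| ≤ 18 * D * Real.sqrt i' / K + 4 / (D ^ 2 * Real.sqrt K) := by
  have hi0 : (0 : ℝ) < i' := by exact_mod_cast hi'
  have hs0 : 0 < Real.sqrt i' := Real.sqrt_pos.2 hi0
  have hss : Real.sqrt i' ^ 2 = i' := Real.sq_sqrt hi0.le
  set s := Real.sqrt i' with hs
  have hK0 : (0 : ℝ) < K := by
    have : 0 < K := by omega
    exact_mod_cast this
  have hsK : 0 < Real.sqrt K := Real.sqrt_pos.2 hK0
  have hDs : 0 < D * s := by positivity
  obtain ⟨m1, m2⟩ := abs_le.1 hm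
  have hme : m ≤ e := by
    have : (m : ℝ) ≤ e := by linarith
    exact_mod_cast this
  have hq : qq (K + i') e = ∑ j ∈ range (e + 1), qq i' j * qq K (e - j) := by
    rw [add_comm, ← qq_conv hi' (by omega) e]
    exact Finset.Nat.sum_antidiagonal_eq_sum_range_succ_mk (fun p => qq i' p.1 * qq K p.2) e
  have e1 : qq K (e - m) - qq (K + i') e = ∑ j ∈ range (e + 1), qq i' j * (qq K (e - m) - qq K (e - j)) +
      qq K (e - m) * (1 - ∑ j ∈ range (e + 1), qq i' j) := by
    rw [hq]
    simp only [mul_sub, sum_sub_distrib, ← sum_mul]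
    ring
  rw [e1]
  have hrest := qq_rest hi' hDs e he
  have hrest0 := qq_sum_le hi' (range (e + 1))
  have e2 : 2 * (i' : ℝ) / (D * s) ^ 2 = 2 / D ^ 2 := by
    rw [mul_pow, hss]
    field_simp
  rw [e2] at hrest
  have b2 : |qq K (e - m) * (1 - ∑ j ∈ range (e + 1), qq i' j)| ≤ 1 / Real.sqrt K * (2 / D ^ 2) := by
    rw [abs_mul, abs_of_nonneg (qq_nonneg _ _), abs_of_nonneg (by linarith)]
    exact mul_le_mul (qq_sup (by omega) _) hrest (by linarith) (by positivity)
  have b1 : |∑ j ∈ range (e + 1), qq i' j * (qq K (e - m) - qq K (e - j))| ≤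
      18 * D * s / K + 1 / Real.sqrt K * (2 / D ^ 2) := by
    refine (abs_sum_le_sum_abs _ _).trans ?_
    rw [← sum_filter_add_sum_filter_not (range (e + 1)) (fun j : ℕ => |(j : ℝ) - i'| ≤ D * s)]
    apply add_le_add
    · have c1 : ∀ j ∈ (range (e + 1)).filter (fun j : ℕ => |(j : ℝ) - i'| ≤ D * s),
          |qq i' j * (qq K (e - m) - qq K (e - j))| ≤ qq i' j * (18 * D * s / K) := by
        intro j hj
        rw [mem_filter, mem_range] at hj
        rw [abs_mul, abs_of_nonneg (qq_nonneg _ _)]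
        apply mul_le_mul_of_nonneg_left _ (qq_nonneg _ _)
        refine (qq_lip hK (e - m) (e - j)).trans ?_
        apply div_le_div_of_nonneg_right _ hK0.le
        rw [Nat.cast_sub hme, Nat.cast_sub (by omega)]
        have e3 : (e : ℝ) - m - (e - j) = (j - i') - (m - i') := by ring
        rw [e3]
        have := abs_sub ((j : ℝ) - i') (m - i')
        linarith [hj.2]
      refine (sum_le_sum c1).trans ?_
      rw [← sum_mul]
      have := mul_le_mul_of_nonneg_right (qq_sum_le hi' ((range (e + 1)).filter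
        (fun j : ℕ => |(j : ℝ) - i'| ≤ D * s))) (show 0 ≤ 18 * D * s / K by positivity)
      linarith
    · have c1 : ∀ j ∈ (range (e + 1)).filter (fun j : ℕ => ¬ |(j : ℝ) - i'| ≤ D * s),
          |qq i' j * (qq K (e - m) - qq K (e - j))| ≤ qq i' j * (1 / Real.sqrt K) := by
        intro j hj
        rw [abs_mul, abs_of_nonneg (qq_nonneg _ _)]
        apply mul_le_mul_of_nonneg_left _ (qq_nonneg _ _)
        have q1 := qq_sup (show 2 ≤ K by omega) (e - m)
        have q2 := qq_sup (show 2 ≤ K by omega) (e - j)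
        have q3 := qq_nonneg K (e - m)
        have q4 := qq_nonneg K (e - j)
        rw [abs_le]
        constructor <;> linarith
      refine (sum_le_sum c1).trans ?_
      rw [← sum_mul, mul_comm]
      apply mul_le_mul_of_nonneg_left _ (by positivity)
      rw [← e2]
      apply qq_cheb hi' hDs
      intro n hn
      rw [mem_filter] at hn
      exact (not_le.1 hn.2).le
  refine (abs_add_le _ _).trans ((add_le_add b1 b2).trans (le_of_eq ?_))
  field_simp
  ring

/-- the central range -/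
noncomputable def NN (i' : ℕ) (r : ℝ) : Finset ℕ := (range (2 * i')).filter fun m : ℕ => |(m : ℝ) - i'| ≤ r

theorem NN_card (i' : ℕ) {r : ℝ} (hr : 0 ≤ r) : ((NN i' r).card : ℝ) ≤ 2 * r + 1 := by
  have hsub : NN i' r ⊆ EE i' i' (-1) r := by
    intro m hm
    unfold NN at hm
    unfold EE
    rw [mem_filter] at hm ⊢
    exact ⟨hm.1, by linarith [abs_nonneg ((m : ℝ) - i')], hm.2⟩
  have h1 : ((NN i' r).card : ℝ) ≤ ((EE i' i' (-1) r).card : ℝ) := by exact_mod_cast card_le_card hsub
  exact h1.trans (EE_card i' i' hr)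

theorem prof_core (c : ℕ) {C2 : ℝ} (hC2 : 0 < C2) (hsq : ∀ i e : ℕ, 10000 * (c + 1) ≤ i →
      |(e : ℝ) - i| ≤ i / 20 → nn c i e ≤ C2 / Real.sqrt i) {i i' K e : ℕ} {B D D3 M η1 : ℝ}
    (hKi : K + i' = i) (h3i : 3 * (i' : ℝ) ≤ i) (hi'1 : 10000 * (c + 1) ≤ i') (hB : 0 < B) (hD : 1 ≤ D)
    (hD3 : 0 < D3) (hM : (B + D3) * Real.sqrt i ≤ M * Real.sqrt i') (hDi : D * Real.sqrt i' ≤ i' / 20)
    (hMi : M * Real.sqrt i' ≤ i' / 20) (hBi : B * Real.sqrt i ≤ i' / 40)
    (he : |(e : ℝ) - i| ≤ B * Real.sqrt i)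
    (htail : ∑ m ∈ EE i' i' (D * Real.sqrt i') (M * Real.sqrt i'), nn c i' m ≤ η1) :
    |cv K (nn c i') e - (∑ m ∈ NN i' (D * Real.sqrt i'), nn c i' m) * qq i e| ≤
      3 * D * C2 * (18 * D * Real.sqrt i' / K + 4 / (D ^ 2 * Real.sqrt K)) + 1 / Real.sqrt K * η1 +
      2 / D3 ^ 2 * (C2 / Real.sqrt i') + 3200 * i / i' ^ 2 * (5 * 2 ^ c) := by
  classical
  have hc0 : (0 : ℝ) ≤ c := Nat.cast_nonneg _
  have hi'R : 10000 * ((c : ℝ) + 1) ≤ i' := by exact_mod_cast hi'1
  have hi'0 : (0 : ℝ) < i' := by linarith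
  have hi'N : 1 ≤ i' := by exact_mod_cast (show (1 : ℝ) ≤ i' by linarith)
  have hKiR : (K : ℝ) + i' = i := by exact_mod_cast hKi
  have hK2 : (i : ℝ) ≤ 2 * K := by
    have : (0 : ℝ) ≤ i := Nat.cast_nonneg _
    linarith
  have hi0 : (0 : ℝ) < i := by
    have : (0 : ℝ) ≤ K := Nat.cast_nonneg _
    linarith
  have hK0 : (0 : ℝ) < K := by linarith
  have hK4 : 4 ≤ K := by
    have : (4 : ℝ) ≤ K := by linarith
    exact_mod_cast this
  have hs'0 : 0 < Real.sqrt i' := Real.sqrt_pos.2 hi'0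
  have hs0 : 0 < Real.sqrt i := Real.sqrt_pos.2 hi0
  have hss : Real.sqrt i ^ 2 = i := Real.sq_sqrt hi0.le
  have hss' : Real.sqrt i' ^ 2 = i' := Real.sq_sqrt hi'0.le
  have hs1 : 1 ≤ Real.sqrt i' := Real.le_sqrt_of_sq_le (by linarith)
  have hsK : 0 < Real.sqrt K := Real.sqrt_pos.2 hK0
  set s := Real.sqrt i with hs
  set s' := Real.sqrt i' with hs'
  obtain ⟨g1, g2⟩ := abs_le.1 he
  have hDs' : 0 < D * s' := by positivity
  have hMs' : 0 < M * s' := lt_of_lt_of_le (by positivity) hM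
  have hei : (i' : ℝ) + D * s' ≤ e := by
    have : (K : ℝ) = i - i' := by linarith
    linarith
  have h2i' : 2 * i' ≤ e := by
    have : (2 * i' : ℝ) ≤ e := by linarith
    exact_mod_cast this
  set f : ℕ → ℝ := nn c i' with hf
  have hf0 : ∀ m, 0 ≤ f m := nn_nonneg c i'
  have hfM : ∀ m, f m ≤ 5 * 2 ^ c := nn_bd c i'
  have hfc : ∀ m : ℕ, |(m : ℝ) - i'| ≤ i' / 20 → f m ≤ C2 / s' := fun m hm => hsq i' m hi'1 hm
  -- the bound for the mass
  have hkap : ∑ m ∈ NN i' (D * s'), f m ≤ 3 * D * C2 := by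
    have h1 : ∀ m ∈ NN i' (D * s'), f m ≤ C2 / s' := by
      intro m hm
      unfold NN at hm
      rw [mem_filter] at hm
      exact hfc m (by linarith [hm.2])
    refine (sum_le_sum h1).trans ?_
    rw [sum_const, nsmul_eq_mul]
    have h2 := NN_card i' hDs'.le
    have h3 : ((NN i' (D * s')).card : ℝ) ≤ 3 * D * s' := by nlinarith
    have h4 := mul_le_mul_of_nonneg_right h3 (show 0 ≤ C2 / s' by positivity)
    refine h4.trans (le_of_eq ?_)
    field_simp
  have hkap0 : 0 ≤ ∑ m ∈ NN i' (D * s'), f m := sum_nonneg fun m _ => hf0 m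
  -- the three parts
  rw [cv_range]
  set P1 : ℕ → Prop := fun n => |((e - n : ℕ) : ℝ) - i'| ≤ D * s' with hP1
  set P2 : ℕ → Prop := fun n => |((e - n : ℕ) : ℝ) - i'| ≤ M * s' with hP2
  rw [← sum_filter_add_sum_filter_not (range (e + 1)) P1,
    ← sum_filter_add_sum_filter_not ((range (e + 1)).filter fun n => ¬ P1 n) P2]
  have hmain : |∑ n ∈ (range (e + 1)).filter P1, qq K n * f (e - n) - (∑ m ∈ NN i' (D * s'), f m) * qq i e| ≤
      3 * D * C2 * (18 * D * s' / K + 4 / (D ^ 2 * Real.sqrt K)) := by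
    have e1 : ∑ n ∈ (range (e + 1)).filter P1, qq K n * f (e - n) = ∑ m ∈ NN i' (D * s'), qq K (e - m) * f m := by
      apply sum_nbij' (fun n => e - n) (fun m => e - m)
      · intro n hn
        rw [mem_filter, mem_range] at hn
        have h1 : |((e - n : ℕ) : ℝ) - i'| ≤ D * s' := hn.2
        unfold NN
        rw [mem_filter, mem_range]
        refine ⟨?_, h1⟩
        have h2 := (abs_le.1 h1).2
        have h3 : ((e - n : ℕ) : ℝ) < ((2 * i' : ℕ) : ℝ) := by push_cast; linarith
        exact_mod_cast h3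
      · intro m hm
        unfold NN at hm
        rw [mem_filter, mem_range] at hm
        rw [mem_filter, mem_range]
        refine ⟨by omega, ?_⟩
        have : e - (e - m) = m := by omega
        change |((e - (e - m) : ℕ) : ℝ) - i'| ≤ D * s'
        rw [this]
        exact hm.2
      · intro n hn
        rw [mem_filter, mem_range] at hn
        omega
      · intro m hm
        unfold NN at hm
        rw [mem_filter, mem_range] at hm
        omega
      · intro n hn
        rw [mem_filter, mem_range] at hn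
        rw [show e - (e - n) = n by omega]
    rw [e1, sum_mul, ← sum_sub_distrib]
    refine (abs_sum_le_sum_abs _ _).trans ?_
    have h1 : ∀ m ∈ NN i' (D * s'), |qq K (e - m) * f m - f m * qq i e| ≤
        f m * (18 * D * s' / K + 4 / (D ^ 2 * Real.sqrt K)) := by
      intro m hm
      unfold NN at hm
      rw [mem_filter] at hm
      have e2 : qq K (e - m) * f m - f m * qq i e = f m * (qq K (e - m) - qq (K + i') e) := by
        rw [hKi]; ring
      rw [e2, abs_mul, abs_of_nonneg (hf0 m)]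
      exact mul_le_mul_of_nonneg_left (delta_bd hK4 hi'N hD hm.2 hei) (hf0 m)
    refine (sum_le_sum h1).trans ?_
    rw [← sum_mul]
    exact mul_le_mul_of_nonneg_right hkap (by positivity)
  have hmid : ∑ n ∈ ((range (e + 1)).filter fun n => ¬ P1 n).filter P2, qq K n * f (e - n) ≤
      1 / Real.sqrt K * η1 := by
    have h1 : ∀ n ∈ ((range (e + 1)).filter fun n => ¬ P1 n).filter P2, qq K n * f (e - n) ≤
        1 / Real.sqrt K * f (e - n) := fun n _ => mul_le_mul_of_nonneg_right (qq_sup (by omega) n) (hf0 _)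
    refine (sum_le_sum h1).trans ?_
    rw [← mul_sum]
    apply mul_le_mul_of_nonneg_left _ (by positivity)
    refine le_trans ?_ htail
    have e1 : ∑ n ∈ ((range (e + 1)).filter fun n => ¬ P1 n).filter P2, f (e - n) =
        ∑ m ∈ (((range (e + 1)).filter fun n => ¬ P1 n).filter P2).image (fun n => e - n), f m := by
      rw [sum_image]
      intro a ha b hb hab
      simp only [coe_filter, mem_range, Set.mem_ofPred_eq, mem_filter] at ha hb
      simp only at hab
      omega
    rw [e1]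
    apply sum_le_sum_of_subset_of_nonneg
    · intro m hm
      rw [mem_image] at hm
      obtain ⟨n, hn, rfl⟩ := hm
      rw [mem_filter, mem_filter, mem_range] at hn
      obtain ⟨⟨h2, h3⟩, h4⟩ := hn
      have h5 : |((e - n : ℕ) : ℝ) - i'| ≤ M * s' := h4
      have h6 : D * s' < |((e - n : ℕ) : ℝ) - i'| := not_le.1 h3
      unfold EE
      rw [mem_filter, mem_range]
      refine ⟨?_, h6, h5⟩
      have h7 := (abs_le.1 h5).2
      have h8 : ((e - n : ℕ) : ℝ) < ((2 * i' : ℕ) : ℝ) := by push_cast; linarith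
      exact_mod_cast h8
    · intro m _ _
      exact hf0 m
  have hfar : ∑ n ∈ ((range (e + 1)).filter fun n => ¬ P1 n).filter (fun n => ¬ P2 n), qq K n * f (e - n) ≤
      2 / D3 ^ 2 * (C2 / s') + 3200 * i / i' ^ 2 * (5 * 2 ^ c) := by
    set F := ((range (e + 1)).filter fun n => ¬ P1 n).filter (fun n => ¬ P2 n) with hF
    have hFm : ∀ n ∈ F, n ≤ e ∧ M * s' < |((e : ℝ) - n) - i'| := by
      intro n hn
      rw [hF, mem_filter, mem_filter, mem_range] at hn
      have h1 : M * s' < |((e - n : ℕ) : ℝ) - i'| := not_le.1 hn.2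
      rw [Nat.cast_sub (by omega)] at h1
      exact ⟨by omega, h1⟩
    have hrel : ∀ n : ℕ, |((e : ℝ) - n) - i'| ≤ B * s + |(n : ℝ) - K| := by
      intro n
      have e1 : ((e : ℝ) - n) - i' = (e - i) - (n - K) := by rw [← hKiR]; ring
      rw [e1]
      have := abs_sub ((e : ℝ) - i) (n - K)
      linarith
    have h1 : ∀ n ∈ F, qq K n * f (e - n) ≤ qq K n * (C2 / s') +
        (if (i' : ℝ) / 40 ≤ |(n : ℝ) - K| then qq K n else 0) * (5 * 2 ^ c) := by
      intro n hn
      obtain ⟨f1, f2⟩ := hFm n hn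
      have hq := qq_nonneg K n
      split_ifs with hc
      · have := mul_le_mul_of_nonneg_left (hfM (e - n)) hq
        have h0 : 0 ≤ qq K n * (C2 / s') := by positivity
        linarith
      · rw [zero_mul, add_zero]
        apply mul_le_mul_of_nonneg_left _ hq
        apply hfc
        rw [Nat.cast_sub f1]
        have := hrel n
        have := not_le.1 hc
        linarith
    refine (sum_le_sum h1).trans ?_
    rw [sum_add_distrib, ← sum_mul, ← sum_mul]
    have hK1 : 1 ≤ K := by omega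
    have h2 : ∑ n ∈ F, qq K n ≤ 2 / D3 ^ 2 := by
      have h3 := qq_cheb hK1 (a := D3 * s) (by positivity) F (fun n hn => by
        have := (hFm n hn).2
        have := hrel n
        linarith)
      refine h3.trans ?_
      rw [mul_pow, hss, div_le_div_iff₀ (by positivity) (by positivity)]
      have hKle : (K : ℝ) ≤ i := by linarith
      have h0 : 0 ≤ D3 ^ 2 := by positivity
      nlinarith
    have h3 : ∑ n ∈ F, (if (i' : ℝ) / 40 ≤ |(n : ℝ) - K| then qq K n else 0) ≤ 3200 * i / i' ^ 2 := by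
      rw [← sum_filter]
      have h4 := qq_cheb hK1 (a := (i' : ℝ) / 40) (by positivity)
        (F.filter fun n : ℕ => (i' : ℝ) / 40 ≤ |(n : ℝ) - K|) (fun n hn => (mem_filter.1 hn).2)
      refine h4.trans ?_
      have e2 : 2 * (K : ℝ) / ((i' : ℝ) / 40) ^ 2 = 3200 * K / i' ^ 2 := by
        field_simp
        norm_num
      rw [e2]
      apply div_le_div_of_nonneg_right _ (by positivity)
      linarith
    have h4 := mul_le_mul_of_nonneg_right h2 (show 0 ≤ C2 / s' by positivity)
    have h5 := mul_le_mul_of_nonneg_right h3 (show (0 : ℝ) ≤ 5 * 2 ^ c by positivity)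
    linarith
  have hmid0 : 0 ≤ ∑ n ∈ ((range (e + 1)).filter fun n => ¬ P1 n).filter P2, qq K n * f (e - n) :=
    sum_nonneg fun n _ => mul_nonneg (qq_nonneg _ _) (hf0 _)
  have hfar0 : 0 ≤ ∑ n ∈ ((range (e + 1)).filter fun n => ¬ P1 n).filter (fun n => ¬ P2 n), qq K n * f (e - n) :=
    sum_nonneg fun n _ => mul_nonneg (qq_nonneg _ _) (hf0 _)
  rw [abs_le] at hmain ⊢
  have p1 : 0 ≤ 1 / Real.sqrt K * η1 := hmid0.trans hmid
  have p2 := hfar0.trans hfar
  constructor
  · linarith [hmain.1]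
  · linarith [hmain.2]

end Pool.Agent.TH977.LL
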