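import Pool.Agent.TH977.LL.Tight

/-! Tightness, end of the proof. -/

set_option autoImplicit false

namespace Pool.Agent.TH977.LL

open Pool.Agent.H320R2.PD Pool.Agent.H499R2.ND Pool.Agent.TH977.IP Finset Filter Topology

/-- the points of atypical pairs are atypical -/
theorem pts_at (c : ℕ) {i i' m : ℕ} {D D1 s R : ℝ} (hs : s ^ 2 = i) (hs0 : 0 < s) (hD : 1 ≤ D) (hD1 : D1 ≤ D)
    (hc : 100 * ((c : ℝ) + 1) ≤ s) (hsbig : 1000 ≤ s) (hi1 : (i' : ℝ) ≤ i) (hi2 : 8 / 9 * (i : ℝ) ≤ i')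
    (hm1 : D * s / 2 < |(m : ℝ) - i'|) (hm2 : |(m : ℝ) - i'| ≤ R) (hR : R ≤ i / 500)
    {x : ℤ} (hx : x ∈ pts c i' m) :
    x ∈ At D1 ∧ (2 : ℝ) ^ (i / 4) ≤ x ∧ (x : ℝ) < 2 ^ i := by
  have hl2 := Real.log_two_gt_d9
  have hl2' := Real.log_two_lt_d9
  obtain ⟨hh1, hh2⟩ := hh_bd
  have hX := XX_pos ((i' : ℤ), (m : ℤ))
  have hlX : Real.log (XX ((i' : ℤ), (m : ℤ))) = i' * hh + (m - i') * Real.log 2 := by
    rw [XX_log]
    unfold hh
    push_cast
    ring
  unfold pts at hx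
  rw [mem_cls] at hx
  obtain ⟨⟨g1, g2⟩, g3, ⟨g4, g5⟩, g6⟩ := hx
  set X := XX ((i' : ℤ), (m : ℤ)) with hXd
  have hx0 : (0 : ℝ) < x := lt_of_lt_of_le (by positivity) g1
  have hlow : Real.log X - c * Real.log 2 ≤ Real.log x := by
    have := Real.log_le_log (by positivity) g1
    rw [Real.log_div hX.ne' (by positivity), Real.log_pow] at this
    exact this
  have hupp : Real.log x ≤ Real.log X + (c + 1) * Real.log 2 := by
    have := Real.log_le_log hx0 g2.le
    rw [Real.log_mul (by norm_num) (by positivity), Real.log_mul hX.ne' (by positivity), Real.log_pow] at this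
    linarith
  have hc0 : (0 : ℝ) ≤ c := Nat.cast_nonneg _
  have hi0 : (0 : ℝ) < i := by rw [← hs]; positivity
  have hi0' : (0 : ℝ) ≤ i' := Nat.cast_nonneg _
  have hci : 100 * ((c : ℝ) + 1) ≤ i / 1000 := by
    rw [← hs]
    nlinarith
  set d := (m : ℝ) - i' with hd
  obtain ⟨d1, d2⟩ := abs_le.1 hm2
  have a1 : (i' : ℝ) * 0.28 ≤ i' * hh := mul_le_mul_of_nonneg_left hh1 hi0'
  have a2 : (i' : ℝ) * hh ≤ i' * 0.29 := mul_le_mul_of_nonneg_left hh2 hi0'
  have hR0 : 0 ≤ R := (abs_nonneg d).trans hm2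
  have a3 : d * Real.log 2 ≤ R * Real.log 2 := mul_le_mul_of_nonneg_right d2 (by linarith)
  have a4 : -R * Real.log 2 ≤ d * Real.log 2 := mul_le_mul_of_nonneg_right d1 (by linarith)
  have a5 : R * Real.log 2 ≤ R * 1 := mul_le_mul_of_nonneg_left (by linarith) hR0
  have a6 : (c : ℝ) * Real.log 2 ≤ c * 1 := mul_le_mul_of_nonneg_left (by linarith) hc0
  have hlx1 : Real.log x ≤ 0.3 * i := by linarith
  have hlx2 : 0.24 * (i : ℝ) ≤ Real.log x := by linarith
  refine ⟨⟨(i' : ℤ), g4, ?_⟩, ?_, ?_⟩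
  · -- atypical
    have hsq : Real.sqrt (Real.log x) ≤ s := by
      apply Real.sqrt_le_iff.2
      refine ⟨hs0.le, ?_⟩
      rw [hs]
      linarith
    have hh0 : 0 < hh := by linarith
    have e1 : |((i' : ℤ) : ℝ) - Real.log x / hh| * hh = |(i' : ℝ) * hh - Real.log x| := by
      rw [← abs_of_pos hh0, ← abs_mul, abs_of_pos hh0]
      congr 1
      push_cast
      field_simp
    have e2 : |d| * Real.log 2 - (c + 1) * Real.log 2 ≤ |(i' : ℝ) * hh - Real.log x| := by
      have e3 : |d| * Real.log 2 = |d * Real.log 2| := by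
        rw [abs_mul, abs_of_pos (by linarith : 0 < Real.log 2)]
      have e4 : d * Real.log 2 = -((i' : ℝ) * hh - Real.log x) + (Real.log X - Real.log x) := by
        rw [hlX]; ring
      rw [e3, e4]
      have e5 := abs_add_le (-((i' : ℝ) * hh - Real.log x)) (Real.log X - Real.log x)
      rw [abs_neg] at e5
      have e6 : |Real.log X - Real.log x| ≤ (c + 1) * Real.log 2 := by
        rw [abs_le]
        constructor <;> linarith
      linarith
    have e7 : D * s / 2 * Real.log 2 ≤ |d| * Real.log 2 := mul_le_mul_of_nonneg_right hm1.le (by linarith)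
    have hDs : s ≤ D * s := by nlinarith
    have e8 : D1 * Real.sqrt (Real.log x) * hh ≤ D * s * 0.29 := by
      apply mul_le_mul _ hh2 hh0.le (by positivity)
      exact mul_le_mul hD1 hsq (Real.sqrt_nonneg _) (by linarith)
    have e9 : D * s / 2 * 0.6931471803 ≤ D * s / 2 * Real.log 2 := mul_le_mul_of_nonneg_left hl2.le (by positivity)
    have e10 : ((c : ℝ) + 1) * Real.log 2 ≤ (c + 1) * 1 := mul_le_mul_of_nonneg_left (by linarith) (by linarith)
    have e11 : D1 * Real.sqrt (Real.log x) * hh ≤ |((i' : ℤ) : ℝ) - Real.log x / hh| * hh := by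
      rw [e1]
      linarith
    exact le_of_mul_le_mul_right e11 hh0
  · rw [← Real.log_le_log_iff (by positivity) hx0, Real.log_pow]
    have h1 : ((i / 4 : ℕ) : ℝ) ≤ i / 4 := by
      have := Nat.cast_div_le (α := ℝ) (m := i) (n := 4)
      exact_mod_cast this
    have h2 : ((i / 4 : ℕ) : ℝ) * Real.log 2 ≤ i / 4 * Real.log 2 := mul_le_mul_of_nonneg_right h1 (by linarith)
    have h3 : (i : ℝ) / 4 * Real.log 2 ≤ i / 4 * 0.6931471808 := mul_le_mul_of_nonneg_left hl2'.le (by positivity)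
    linarith
  · rw [← Real.log_lt_log_iff hx0 (by positivity), Real.log_pow]
    have h3 : (i : ℝ) * 0.6931471803 ≤ i * Real.log 2 := mul_le_mul_of_nonneg_left hl2.le (by positivity)
    linarith

theorem tight (c : ℕ) {η : ℝ} (hη : 0 < η) : ∃ D : ℝ, 1 ≤ D ∧ ∀ M : ℝ, 0 < M → ∃ I : ℕ, ∀ i : ℕ, I ≤ i →
    ∑ e ∈ EE i i (D * Real.sqrt i) (M * Real.sqrt i), nn c i e ≤ η := by
  classical
  obtain ⟨C1, hC1, hharm⟩ := nn_harm c
  obtain ⟨C2, hC2, hsq⟩ := nn_sqrt c
  obtain ⟨D1, hD1, W0, hW0⟩ := at_small (η := η / (160 * 2 ^ c)) (by positivity)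
  set M0 : ℝ := 5 * 2 ^ c with hM0
  have hM00 : 0 < M0 := by positivity
  refine ⟨max 1 (max D1 (32 * C2 / η)), le_max_left _ _, fun M hM => ?_⟩
  set D := max 1 (max D1 (32 * C2 / η)) with hD
  have hDa : 1 ≤ D := le_max_left _ _
  have hDb : D1 ≤ D := (le_max_left _ _).trans (le_max_right _ _)
  have hDc : 32 * C2 / η ≤ D := (le_max_right _ _).trans (le_max_right _ _)
  set S0 : ℝ := 1000 * (M + 1) + 100 * (c + 1) + 4 * (2 * M + 1) * (3000 * M0 + C1) / η with hS0
  have hS00 : 0 < S0 := by positivity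
  refine ⟨20000 * (c + 1) + ⌈S0 ^ 2⌉₊ + 4 * W0, fun i hi => ?_⟩
  have hi1 : 20000 * (c + 1) ≤ i := le_trans (by rw [add_assoc]; exact Nat.le_add_right _ _) hi
  have hi2 : ⌈S0 ^ 2⌉₊ ≤ i := le_trans (by rw [add_comm (20000 * (c + 1)), add_assoc]; exact Nat.le_add_right _ _) hi
  have hi3 : 4 * W0 ≤ i := le_trans (Nat.le_add_left _ _) hi
  clear hi
  have hi10 : 20000 ≤ i := le_trans (Nat.le_mul_of_pos_right _ (Nat.succ_pos c)) hi1
  have hi0 : (0 : ℝ) < i := by
    have : 0 < i := by omega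
    exact_mod_cast this
  set s := Real.sqrt i with hs
  have hs0 : 0 < s := Real.sqrt_pos.2 hi0
  have hss : s ^ 2 = i := Real.sq_sqrt hi0.le
  have hS : S0 ≤ s := by
    apply Real.le_sqrt_of_sq_le
    exact (Nat.le_ceil _).trans (by exact_mod_cast hi2)
  have hc0 : (0 : ℝ) ≤ c := Nat.cast_nonneg _
  have hposfr : 0 ≤ 4 * (2 * M + 1) * (3000 * M0 + C1) / η := by positivity
  have hS1 : 1000 * (M + 1) ≤ s := by
    have : 0 ≤ 100 * ((c : ℝ) + 1) := by positivity
    linarith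
  have hS2 : 100 * ((c : ℝ) + 1) ≤ s := by linarith
  have hS3 : 4 * (2 * M + 1) * (3000 * M0 + C1) / η ≤ s := by
    have : 0 ≤ 100 * ((c : ℝ) + 1) := by positivity
    linarith
  have hMs : 1000 * (M * s) ≤ i := by
    rw [← hss]
    nlinarith
  set E := EE i i (D * s) (M * s) with hE
  -- the cardinality
  have hcard : (E.card : ℝ) ≤ (2 * M + 1) * s := by
    have := EE_card i i (r := D * s) (R := M * s) (by positivity)
    nlinarith
  -- the inverse squares
  have hinv : i * ∑ e ∈ E, 1 / ((e : ℝ) - i) ^ 2 ≤ 4 * s / D := by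
    obtain ⟨r0, hr0⟩ : ∃ r0 : ℕ, r0 = ⌊D * s⌋₊ := ⟨_, rfl⟩
    have hDs : 2 ≤ D * s := by nlinarith
    have h1 : (r0 : ℝ) ≤ D * s := by rw [hr0]; exact Nat.floor_le (by positivity)
    have h2 : D * s / 2 ≤ r0 := by
      have : D * s < r0 + 1 := by rw [hr0]; exact Nat.lt_floor_add_one _
      linarith
    have h3 : 1 ≤ r0 := by
      have : (1 : ℝ) ≤ r0 := by linarith
      exact_mod_cast this
    have h4 := inv_sq_sum i r0 h3 E (by
      intro e he
      rw [hE] at he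
      unfold EE at he
      rw [mem_filter] at he
      exact lt_of_le_of_lt h1 he.2.1)
    have h5 : (2 : ℝ) / r0 ≤ 4 / (D * s) := by
      rw [div_le_div_iff₀ (by linarith) (by positivity)]
      linarith
    have h6 := mul_le_mul_of_nonneg_left (h4.trans h5) hi0.le
    refine h6.trans (le_of_eq ?_)
    rw [← hss]
    field_simp
  -- the stages
  set K := Ico (i / 18 + 1) (2 * (i / 18)) with hK
  have hKc : ((K.card : ℕ) : ℝ) ≥ i / 20 := by
    rw [hK, Nat.card_Ico]
    have h1 : i ≤ 20 * (2 * (i / 18) - (i / 18 + 1)) := by omega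
    have h2 : (i : ℝ) ≤ 20 * ((2 * (i / 18) - (i / 18 + 1) : ℕ) : ℝ) := by exact_mod_cast h1
    linarith
  have hKm : ∀ k ∈ K, i ≤ 18 * k ∧ 9 * k ≤ i := by
    intro k hk
    rw [hK, mem_Ico] at hk
    omega
  have hstage : ∀ k ∈ K, ∑ e ∈ E, nn c i e ≤ ∑ m ∈ EE i (i - k) (D * s / 2) (2 * (M * s)), nn c (i - k) m +
      (2 * C2 / s * (4 * s / D) + (2 * M + 1) * s * (M0 * (3000 / i) + C1 / i)) := by
    intro k hk
    obtain ⟨hk1, hk2⟩ := hKm k hk
    have h1 : ∑ e ∈ E, nn c i e ≤ ∑ e ∈ E, (cv k (nn c (i - k)) e + C1 / i) := by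
      apply sum_le_sum
      intro e he
      rw [hE] at he
      unfold EE at he
      rw [mem_filter] at he
      have h2 := (abs_le.1 (hharm i e (by omega) (he.2.2.trans (by linarith)) k hk1 hk2)).2
      linarith
    rw [sum_add_distrib, sum_const, nsmul_eq_mul] at h1
    have h3 := tight_step c hC2 hsq (r := D * s) (R := M * s) (by positivity) hi1 (by linarith) hk1 hk2
    rw [← hE, ← hs, ← hM0] at h3
    have h4 : 2 * C2 / s * (i * ∑ e ∈ E, 1 / ((e : ℝ) - i) ^ 2) ≤ 2 * C2 / s * (4 * s / D) :=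
      mul_le_mul_of_nonneg_left hinv (by positivity)
    have h5 : (E.card : ℝ) * (M0 * (3000 / i) + C1 / i) ≤ (2 * M + 1) * s * (M0 * (3000 / i) + C1 / i) :=
      mul_le_mul_of_nonneg_right hcard (by positivity)
    linarith
  have hsum := sum_le_sum hstage
  rw [sum_const, nsmul_eq_mul, sum_add_distrib, sum_const, nsmul_eq_mul] at hsum
  -- the atypical pairs
  have hPP : ∑ k ∈ K, ∑ m ∈ EE i (i - k) (D * s / 2) (2 * (M * s)), nn c (i - k) m ≤
      2 * 2 ^ c * (((i - i / 4 : ℕ) : ℝ) * (η / (160 * 2 ^ c))) := by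
    have e1 : ∑ k ∈ K, ∑ m ∈ EE i (i - k) (D * s / 2) (2 * (M * s)), nn c (i - k) m =
        ∑ p ∈ (K.sigma fun k => EE i (i - k) (D * s / 2) (2 * (M * s))).image (fun q => (i - q.1, q.2)),
          nn c p.1 p.2 := by
      rw [sum_image]
      · rw [sum_sigma]
      · rintro ⟨a, b⟩ ha ⟨a', b'⟩ ha' heq
        simp only [coe_sigma, Set.mem_sigma_iff, mem_coe] at ha ha'
        have h1 := hKm a ha.1
        have h2 := hKm a' ha'.1
        simp only [Prod.mk.injEq] at heq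
        obtain ⟨h3, rfl⟩ := heq
        have : a = a' := by omega
        subst this
        rfl
    rw [e1]
    apply tail_sum c hW0 _ (by omega : W0 ≤ i / 4)
    intro p hp x hx
    rw [mem_image] at hp
    obtain ⟨⟨k, m⟩, hq, rfl⟩ := hp
    rw [mem_sigma] at hq
    obtain ⟨q1, q2⟩ := hq
    obtain ⟨hk1, hk2⟩ := hKm k q1
    simp only at q2 hx
    unfold EE at q2
    rw [mem_filter] at q2
    have hik : ((i - k : ℕ) : ℝ) = i - k := by rw [Nat.cast_sub (by omega)]
    have hk2R : 9 * (k : ℝ) ≤ i := by exact_mod_cast hk2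
    have hk0 : (0 : ℝ) ≤ k := Nat.cast_nonneg _
    exact pts_at c hss hs0 hDa hDb hS2 (by linarith) (by rw [hik]; linarith) (by rw [hik]; linarith)
      q2.2.1 q2.2.2 (by linarith) hx
  -- end
  have hKpos : (0 : ℝ) < K.card := by
    have : 0 < (i : ℝ) / 20 := by positivity
    linarith
  have f1 : 2 * 2 ^ c * (((i - i / 4 : ℕ) : ℝ) * (η / (160 * 2 ^ c))) ≤ K.card * (η / 4) := by
    have h1 : ((i - i / 4 : ℕ) : ℝ) ≤ i := by exact_mod_cast Nat.sub_le _ _
    have h2 : 2 * 2 ^ c * (((i - i / 4 : ℕ) : ℝ) * (η / (160 * 2 ^ c))) = ((i - i / 4 : ℕ) : ℝ) * (η / 80) := by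
      field_simp
      ring
    rw [h2]
    have h3 : ((i - i / 4 : ℕ) : ℝ) * (η / 80) ≤ i * (η / 80) := mul_le_mul_of_nonneg_right h1 (by positivity)
    have h4 : (i : ℝ) / 20 * (η / 4) ≤ K.card * (η / 4) := mul_le_mul_of_nonneg_right hKc (by positivity)
    linarith
  have f2 : 2 * C2 / s * (4 * s / D) ≤ η / 4 := by
    have h1 : 2 * C2 / s * (4 * s / D) = 8 * C2 / D := by field_simp; norm_num
    rw [h1, div_le_iff₀ (by linarith)]
    rw [div_le_iff₀ hη] at hDc
    linarith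
  have f3 : (2 * M + 1) * s * (M0 * (3000 / i) + C1 / i) ≤ η / 4 := by
    have h1 : (2 * M + 1) * s * (M0 * (3000 / i) + C1 / i) = (2 * M + 1) * (3000 * M0 + C1) / s := by
      rw [← hss]
      field_simp
    rw [h1, div_le_iff₀ hs0]
    rw [div_le_iff₀ hη] at hS3
    linarith
  have f4 : (K.card : ℝ) * ∑ e ∈ E, nn c i e ≤ K.card * η := by
    have h1 : (K.card : ℝ) * (2 * C2 / s * (4 * s / D) + (2 * M + 1) * s * (M0 * (3000 / i) + C1 / i)) ≤
        K.card * (η / 4 + η / 4) := mul_le_mul_of_nonneg_left (add_le_add f2 f3) hKpos.le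
    have h2 : 0 ≤ (K.card : ℝ) * (η / 4) := by positivity
    linarith
  exact le_of_mul_le_mul_left f4 hKpos

end Pool.Agent.TH977.LL
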