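import Pool.Agent.TH977.LL.Prof
import Pool.Agent.TH977.LL.Tight2

/-! The profile. -/

set_option autoImplicit false

namespace Pool.Agent.TH977.LL

open Pool.Agent.H320R2.PD Pool.Agent.H499R2.ND Pool.Agent.TH977.IP Finset Filter Topology

theorem st_bd (i : ℕ) : 9 / 10 * (i : ℝ) ≤ st i ∧ (st i : ℝ) ≤ 9 / 10 * i + 9 / 10 := by
  unfold st
  have h1 : 10 * (i / 10) ≤ i := Nat.mul_div_le i 10
  have h2 : i ≤ 10 * (i / 10) + 9 := by omega
  have h1R : 10 * ((i / 10 : ℕ) : ℝ) ≤ i := by exact_mod_cast h1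
  have h2R : (i : ℝ) ≤ 10 * ((i / 10 : ℕ) : ℝ) + 9 := by exact_mod_cast h2
  rw [Nat.cast_sub (by omega)]
  constructor <;> linarith

theorem st_iter_bd (n i : ℕ) : (9 / 10 : ℝ) ^ n * i ≤ (st^[n] i : ℕ) ∧
    ((st^[n] i : ℕ) : ℝ) ≤ (9 / 10 : ℝ) ^ n * i + 9 := by
  induction n with
  | zero => simp
  | succ n ih =>
    rw [Function.iterate_succ_apply']
    obtain ⟨h1, h2⟩ := st_bd (st^[n] i)
    rw [pow_succ]
    constructor
    · linarith [ih.1]
    · linarith [ih.2]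

theorem profile (c : ℕ) {B η : ℝ} (hB : 0 < B) (hη : 0 < η) : ∃ Kb : ℝ, 0 < Kb ∧ ∃ I : ℕ, ∀ i : ℕ, I ≤ i →
    ∃ κ : ℝ, 0 ≤ κ ∧ κ ≤ Kb ∧ ∀ e : ℕ, |(e : ℝ) - i| ≤ B * Real.sqrt i →
      |nn c i e - κ * qq i e| ≤ η / Real.sqrt i := by
  obtain ⟨C2, hC2, hsq⟩ := nn_sqrt c
  obtain ⟨D0, hD0, hT⟩ := tight c (η := η / 16) (by positivity)
  obtain ⟨D, hDdef⟩ : ∃ D : ℝ, D = max D0 (192 * C2 / η) := ⟨_, rfl⟩
  have hDa : D0 ≤ D := by rw [hDdef]; exact le_max_left _ _
  have hDb : 192 * C2 / η ≤ D := by rw [hDdef]; exact le_max_right _ _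
  have hD1 : 1 ≤ D := hD0.trans hDa
  have hDpos : 0 < D := by linarith
  obtain ⟨w, hwdef⟩ : ∃ w : ℝ, w = min (1 / 2) (η / (864 * D ^ 2 * C2)) := ⟨_, rfl⟩
  have hw0 : 0 < w := by rw [hwdef]; exact lt_min (by norm_num) (by positivity)
  have hw1 : w ≤ 1 / 2 := by rw [hwdef]; exact min_le_left _ _
  have hw2 : w ≤ η / (864 * D ^ 2 * C2) := by rw [hwdef]; exact min_le_right _ _
  obtain ⟨J, hJ⟩ := exists_pow_lt_of_lt_one (show 0 < w ^ 2 / 2 by positivity) (show (9 / 10 : ℝ) < 1 by norm_num)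
  have hJ' : (9 / 10 : ℝ) ^ (J + 1) ≤ w ^ 2 / 2 := by
    rw [pow_succ]
    have : 0 < (9 / 10 : ℝ) ^ J := by positivity
    linarith
  obtain ⟨v, hvdef⟩ : ∃ v : ℝ, v = Real.sqrt ((9 / 10 : ℝ) ^ (J + 1)) := ⟨_, rfl⟩
  have hv0 : 0 < v := by rw [hvdef]; exact Real.sqrt_pos.2 (by positivity)
  have hvv : v ^ 2 = (9 / 10 : ℝ) ^ (J + 1) := by rw [hvdef]; exact Real.sq_sqrt (by positivity)
  obtain ⟨D3, hD3def⟩ : ∃ D3 : ℝ, D3 = 1 + 16 * C2 / (η * v) := ⟨_, rfl⟩
  have hD3a : 1 ≤ D3 := by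
    rw [hD3def]
    have : 0 < 16 * C2 / (η * v) := by positivity
    linarith
  have hD3b : 16 * C2 / (η * v) ≤ D3 ^ 2 := by
    have h1 : 16 * C2 / (η * v) ≤ D3 := by rw [hD3def]; linarith
    have h2 : D3 ≤ D3 * D3 := le_mul_of_one_le_left (by linarith) hD3a
    rw [pow_two]
    exact h1.trans h2
  obtain ⟨M, hMdef⟩ : ∃ M : ℝ, M = (B + D3) / v := ⟨_, rfl⟩
  have hM0 : 0 < M := by rw [hMdef]; positivity
  have hMv : M * v = B + D3 := by rw [hMdef]; field_simp
  obtain ⟨a, Cm, ha, _, hCm, I1, hmulti⟩ := multi c J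
  obtain ⟨I2, hI2⟩ := hT M hM0
  obtain ⟨M0, hM0def⟩ : ∃ M0 : ℝ, M0 = 5 * 2 ^ c := ⟨_, rfl⟩
  have hM00 : 0 < M0 := by rw [hM0def]; positivity
  obtain ⟨S0, hS0⟩ : ∃ S0 : ℝ, S0 = 1 + I1 + I2 / v ^ 2 + 10000 * (c + 1) / v ^ 2 + B / a + 20 * D / v + 20 * M / v +
    40 * B / v ^ 2 + 8 * Cm / η + 25600 * M0 / (v ^ 4 * η) + 18 / w ^ 2 := ⟨_, rfl⟩
  refine ⟨3 * D * C2, by positivity, ⌈S0 ^ 2⌉₊ + 1, fun i hi => ?_⟩
  have hi0 : (0 : ℝ) < i := by
    have : 0 < i := by omega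
    exact_mod_cast this
  set s := Real.sqrt i with hs
  have hs0 : 0 < s := Real.sqrt_pos.2 hi0
  have hss : s ^ 2 = i := Real.sq_sqrt hi0.le
  have hS : S0 ≤ s := by
    apply Real.le_sqrt_of_sq_le
    refine (Nat.le_ceil _).trans ?_
    have : ⌈S0 ^ 2⌉₊ ≤ i := by omega
    exact_mod_cast this
  have p1 : (0 : ℝ) ≤ I1 := Nat.cast_nonneg _
  have p2 : (0 : ℝ) ≤ I2 / v ^ 2 := by positivity
  have p3 : 0 ≤ 10000 * ((c : ℝ) + 1) / v ^ 2 := by positivity
  have p4 : 0 ≤ B / a := by positivity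
  have p5 : 0 ≤ 20 * D / v := by positivity
  have p6 : 0 ≤ 20 * M / v := by positivity
  have p7 : 0 ≤ 40 * B / v ^ 2 := by positivity
  have p8 : 0 ≤ 8 * Cm / η := by positivity
  have p9 : 0 ≤ 25600 * M0 / (v ^ 4 * η) := by positivity
  have p10 : 0 ≤ 18 / w ^ 2 := by positivity
  have q0 : 1 ≤ s := by linarith
  have hsi : s ≤ i := by
    rw [← hss, pow_two]
    exact le_mul_of_one_le_left hs0.le q0
  have q1 : (I1 : ℝ) ≤ i := by linarith
  have q2 : I2 / v ^ 2 ≤ i := by linarith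
  have q3 : 10000 * ((c : ℝ) + 1) / v ^ 2 ≤ i := by linarith
  have q4 : B / a ≤ s := by linarith
  have q5 : 20 * D / v ≤ s := by linarith
  have q6 : 20 * M / v ≤ s := by linarith
  have q7 : 40 * B / v ^ 2 ≤ s := by linarith
  have q8 : 8 * Cm / η ≤ s := by linarith
  have q9 : 25600 * M0 / (v ^ 4 * η) ≤ s := by linarith
  have q10 : 18 / w ^ 2 ≤ i := by linarith
  rw [div_le_iff₀ (by positivity)] at q2 q3 q4 q5 q6 q7 q8 q9 q10
  -- the level
  obtain ⟨i', hi'⟩ : ∃ i' : ℕ, i' = st^[J + 1] i := ⟨_, rfl⟩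
  obtain ⟨b1, b2⟩ := st_iter_bd (J + 1) i
  rw [← hi'] at b1 b2
  rw [← hvv] at b1 b2
  have hle : i' ≤ i := by rw [hi']; exact st_iter_le _ _
  have b3 : v ^ 2 * i ≤ w ^ 2 / 2 * i := by
    apply mul_le_mul_of_nonneg_right _ hi0.le
    rw [hvv]; exact hJ'
  have b4 : (i' : ℝ) ≤ w ^ 2 * i := by
    linarith
  have hi'0 : (0 : ℝ) < i' := lt_of_lt_of_le (by positivity) b1
  obtain ⟨K, hK⟩ : ∃ K : ℕ, K = i - i' := ⟨_, rfl⟩
  have hKi : K + i' = i := by omega
  have hKiR : (K : ℝ) + i' = i := by exact_mod_cast hKi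
  have hw14 : w ^ 2 ≤ 1 / 4 := by
    have h1 := pow_le_pow_left₀ hw0.le hw1 2
    refine h1.trans (le_of_eq ?_)
    norm_num
  have b5 : (i' : ℝ) ≤ 1 / 4 * i := b4.trans (mul_le_mul_of_nonneg_right hw14 hi0.le)
  have hs'0 : 0 < Real.sqrt i' := Real.sqrt_pos.2 hi'0
  have hss' : Real.sqrt i' ^ 2 = i' := Real.sq_sqrt hi'0.le
  have hvs : v * s ≤ Real.sqrt i' := by
    apply Real.le_sqrt_of_sq_le
    rw [mul_pow, hss]
    exact b1
  have hws : Real.sqrt i' ≤ w * s := by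
    rw [Real.sqrt_le_left (by positivity), mul_pow, hss]
    exact b4
  set s' := Real.sqrt i' with hs'
  have hI2' : I2 ≤ i' := by
    have : (I2 : ℝ) ≤ i' := by linarith
    exact_mod_cast this
  have hi'1 : 10000 * (c + 1) ≤ i' := by
    have : 10000 * ((c : ℝ) + 1) ≤ i' := by linarith
    exact_mod_cast this
  have r5 : D * s' ≤ i' / 20 := by
    have h1 : 20 * D ≤ s' := by rw [mul_comm v s] at hvs; exact q5.trans hvs
    have h2 := mul_le_mul_of_nonneg_right h1 hs'0.le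
    rw [← hss', pow_two]
    linarith only [h2]
  have r6 : M * s' ≤ i' / 20 := by
    have h1 : 20 * M ≤ s' := by rw [mul_comm v s] at hvs; exact q6.trans hvs
    have h2 := mul_le_mul_of_nonneg_right h1 hs'0.le
    rw [← hss', pow_two]
    linarith only [h2]
  have r7 : B * s ≤ i' / 40 := by
    have : 40 * B * s ≤ s * v ^ 2 * s := mul_le_mul_of_nonneg_right q7 hs0.le
    have e : s * v ^ 2 * s = v ^ 2 * i := by rw [← hss]; ring
    rw [e] at this
    linarith only [this, b1]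
  have rM : (B + D3) * s ≤ M * s' := by
    rw [← hMv, mul_assoc]
    exact mul_le_mul_of_nonneg_left hvs hM0.le
  have htail : ∑ m ∈ EE i' i' (D * s') (M * s'), nn c i' m ≤ η / 16 := by
    refine le_trans (sum_le_sum_of_subset_of_nonneg ?_ (fun m _ _ => nn_nonneg c i' m)) (hI2 i' hI2')
    intro m hm
    unfold EE at hm ⊢
    rw [mem_filter] at hm ⊢
    have : D0 * s' ≤ D * s' := mul_le_mul_of_nonneg_right hDa hs'0.le
    exact ⟨hm.1, lt_of_le_of_lt this hm.2.1, hm.2.2⟩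
  refine ⟨∑ m ∈ NN i' (D * s'), nn c i' m, sum_nonneg fun m _ => nn_nonneg c i' m, ?_, ?_⟩
  · have h1 : ∀ m ∈ NN i' (D * s'), nn c i' m ≤ C2 / s' := by
      intro m hm
      unfold NN at hm
      rw [mem_filter] at hm
      exact hsq i' m hi'1 (by linarith [hm.2])
    refine (sum_le_sum h1).trans ?_
    rw [sum_const, nsmul_eq_mul]
    have h2 := NN_card i' (show 0 ≤ D * s' by positivity)
    have hs1 : 1 ≤ s' := by
      apply Real.le_sqrt_of_sq_le
      have : (1 : ℝ) ≤ i' := by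
        have : (1 : ℝ) ≤ 10000 * ((c : ℝ) + 1) := by
          have : (0 : ℝ) ≤ c := Nat.cast_nonneg _
          linarith
        linarith
      linarith
    have h3 : ((NN i' (D * s')).card : ℝ) ≤ 3 * D * s' := by
      have h5 : 1 ≤ D * s' := one_le_mul_of_one_le_of_one_le hD1 hs1
      linarith only [h2, h5]
    have h4 := mul_le_mul_of_nonneg_right h3 (show 0 ≤ C2 / s' by positivity)
    refine h4.trans (le_of_eq ?_)
    field_simp
  · intro e he
    have hcore := prof_core c hC2 hsq hKi (by linarith) hi'1 hB hD1 (by linarith : 0 < D3) rM r5 r6 r7 he htail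
    rw [← hs', ← hM0def] at hcore
    have r4 : B * s ≤ a * i := by
      have h1 := mul_le_mul_of_nonneg_right q4 hs0.le
      have h2 : s * a * s = a * i := by rw [← hss]; ring
      rw [h2] at h1
      exact h1
    have hmul := (hmulti i e (by exact_mod_cast q1) (he.trans r4)).2
    rw [← hi', ← hK] at hmul
    have hK2 : (i : ℝ) ≤ 2 * K := by linarith
    have hK0 : (0 : ℝ) < K := by linarith
    have hsK : s / 2 ≤ Real.sqrt K := by
      apply Real.le_sqrt_of_sq_le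
      rw [div_pow, hss]
      linarith
    have hsK0 : 0 < Real.sqrt K := Real.sqrt_pos.2 hK0
    have t1 : 3 * D * C2 * (18 * D * s' / K) ≤ η / 8 / s := by
      have h1 : s' / K ≤ 2 * w / s := by
        rw [div_le_div_iff₀ hK0 hs0]
        have : s' * s ≤ w * s * s := mul_le_mul_of_nonneg_right hws hs0.le
        have e3 : w * s * s = w * i := by rw [← hss]; ring
        have e4 : w * i ≤ w * (2 * K) := mul_le_mul_of_nonneg_left hK2 hw0.le
        linarith
      have h2 : 3 * D * C2 * (18 * D * s' / K) = 54 * D ^ 2 * C2 * (s' / K) := by ring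
      rw [h2]
      have h3 : 54 * D ^ 2 * C2 * (s' / K) ≤ 54 * D ^ 2 * C2 * (2 * w / s) :=
        mul_le_mul_of_nonneg_left h1 (by positivity)
      refine h3.trans ?_
      have h4 : 54 * D ^ 2 * C2 * (2 * w / s) = 108 * D ^ 2 * C2 * w / s := by ring
      rw [h4]
      apply div_le_div_of_nonneg_right _ hs0.le
      rw [le_div_iff₀ (by positivity)] at hw2
      linarith
    have t2 : 3 * D * C2 * (4 / (D ^ 2 * Real.sqrt K)) ≤ η / 8 / s := by
      have h1 : 1 / Real.sqrt K ≤ 2 / s := by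
        rw [div_le_div_iff₀ hsK0 hs0]
        linarith
      have h2 : 3 * D * C2 * (4 / (D ^ 2 * Real.sqrt K)) = 12 * C2 / D * (1 / Real.sqrt K) := by
        field_simp
        norm_num
      rw [h2]
      have h3 := mul_le_mul_of_nonneg_left h1 (show 0 ≤ 12 * C2 / D by positivity)
      refine h3.trans ?_
      have h4 : 12 * C2 / D * (2 / s) = 24 * C2 / D / s := by ring
      rw [h4]
      apply div_le_div_of_nonneg_right _ hs0.le
      rw [div_le_iff₀ hDpos]
      rw [div_le_iff₀ hη] at hDb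
      linarith
    have t3 : 1 / Real.sqrt K * (η / 16) ≤ η / 8 / s := by
      have h1 : 1 / Real.sqrt K ≤ 2 / s := by
        rw [div_le_div_iff₀ hsK0 hs0]
        linarith
      have h3 := mul_le_mul_of_nonneg_right h1 (show 0 ≤ η / 16 by positivity)
      refine h3.trans (le_of_eq ?_)
      ring
    have t4 : 2 / D3 ^ 2 * (C2 / s') ≤ η / 8 / s := by
      have h1 : C2 / s' ≤ C2 / (v * s) := div_le_div_of_nonneg_left hC2.le (by positivity) hvs
      have h2 := mul_le_mul_of_nonneg_left h1 (show 0 ≤ 2 / D3 ^ 2 by positivity)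
      refine h2.trans ?_
      have h3 : 2 / D3 ^ 2 * (C2 / (v * s)) = 2 * C2 / (D3 ^ 2 * v) / s := by
        field_simp
      rw [h3]
      apply div_le_div_of_nonneg_right _ hs0.le
      rw [div_le_iff₀ (by positivity)]
      rw [div_le_iff₀ (by positivity)] at hD3b
      linarith
    have t5 : 3200 * i / i' ^ 2 * M0 ≤ η / 8 / s := by
      have h1 : (v ^ 2 * i) ^ 2 ≤ (i' : ℝ) ^ 2 := pow_le_pow_left₀ (by positivity) b1 2
      have h2 : 3200 * (i : ℝ) / i' ^ 2 ≤ 3200 * i / (v ^ 2 * i) ^ 2 :=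
        div_le_div_of_nonneg_left (by positivity) (by positivity) h1
      have h3 := mul_le_mul_of_nonneg_right h2 hM00.le
      refine h3.trans ?_
      have h4 : 3200 * (i : ℝ) / (v ^ 2 * i) ^ 2 * M0 = 3200 * M0 / v ^ 4 / s / s := by
        rw [← hss]
        field_simp
      rw [h4]
      apply div_le_div_of_nonneg_right _ hs0.le
      rw [div_le_iff₀ hs0, div_le_iff₀ (by positivity)]
      linarith
    have t6 : Cm / i ≤ η / 8 / s := by
      rw [← hss, div_le_div_iff₀ (by positivity) hs0]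
      have h1 := mul_le_mul_of_nonneg_right q8 hs0.le
      have h2 : s * η * s = η * s ^ 2 := by ring
      rw [h2] at h1
      linarith only [h1]
    have e1 : nn c i e - (∑ m ∈ NN i' (D * s'), nn c i' m) * qq i e = (nn c i e - cv K (nn c i') e) +
        (cv K (nn c i') e - (∑ m ∈ NN i' (D * s'), nn c i' m) * qq i e) := by ring
    rw [e1]
    refine (abs_add_le _ _).trans ((add_le_add hmul hcore).trans ?_)
    rw [mul_add]
    have e2 : η / s = 6 * (η / 8 / s) + 2 * (η / 8 / s) := by ring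
    rw [e2]
    have : 0 ≤ η / 8 / s := by positivity
    linarith

end Pool.Agent.TH977.LL
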