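import Pool.Agent.TH977.LL.Bin

/-! The negative binomial law: the number of even steps before the `k`-th odd step. -/

set_option autoImplicit false

namespace Pool.Agent.TH977.LL

open Pool.Agent.H320R2.PD Pool.Agent.H499R2.ND Pool.Agent.TH977.IP Finset

/-- the probability of `n` even steps in `k` odd steps -/
noncomputable def qq (k n : ℕ) : ℝ := ((k - 1 + n).choose (k - 1) : ℝ) / 2 ^ (k + n)

theorem qq_nonneg (k n : ℕ) : 0 ≤ qq k n := by unfold qq; positivity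

theorem qq_pk {k n : ℕ} (hk : 1 ≤ k) (hn : n ≤ 2 * k) : pk k (k + n) = qq k n := by
  rw [pk_eq hk (by omega) (by omega)]
  unfold qq
  rw [show k + n - 1 = k - 1 + n by omega]

theorem qq_sup {k : ℕ} (hk : 2 ≤ k) (n : ℕ) : qq k n ≤ 1 / Real.sqrt k := by
  have h := choose_upper (n := k - 1 + n) (by omega) (k - 1)
  unfold qq
  have hN : (k : ℝ) ≤ 4 * ((k - 1 + n : ℕ) : ℝ) := by
    have : k ≤ 4 * (k - 1 + n) := by omega
    exact_mod_cast this
  have hk0 : (0 : ℝ) < k := by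
    have : 0 < k := by omega
    exact_mod_cast this
  have hN0 : (0 : ℝ) < ((k - 1 + n : ℕ) : ℝ) := by linarith
  have hs : Real.sqrt k ≤ 2 * Real.sqrt ((k - 1 + n : ℕ) : ℝ) := by
    rw [Real.sqrt_le_left (by positivity), mul_pow, Real.sq_sqrt hN0.le]
    linarith
  have hsk := Real.sqrt_pos.2 hk0
  have hsT := Real.sqrt_pos.2 hN0
  have e : (2 : ℝ) ^ (k + n) = 2 * 2 ^ (k - 1 + n) := by
    rw [← pow_succ']
    congr 1
    omega
  rw [div_le_div_iff₀ (by positivity) hsk, one_mul, e]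
  calc ((k - 1 + n).choose (k - 1) : ℝ) * Real.sqrt k
      ≤ 2 ^ (k - 1 + n) / Real.sqrt ((k - 1 + n : ℕ) : ℝ) * (2 * Real.sqrt ((k - 1 + n : ℕ) : ℝ)) :=
        mul_le_mul h hs hsk.le (by positivity)
    _ = 2 * 2 ^ (k - 1 + n) := by field_simp

theorem choose_conv (d1 d2 n : ℕ) : ∑ p ∈ antidiagonal n, ((d1 + p.1).choose d1) * ((d2 + p.2).choose d2) =
    (d1 + d2 + 1 + n).choose (d1 + d2 + 1) := by
  have h1 := PowerSeries.mk_one_pow_eq_mk_choose_add (S := ℤ) d1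
  have h2 := PowerSeries.mk_one_pow_eq_mk_choose_add (S := ℤ) d2
  have h3 := PowerSeries.mk_one_pow_eq_mk_choose_add (S := ℤ) (d1 + d2 + 1)
  have h4 : (PowerSeries.mk (1 : ℕ → ℤ)) ^ (d1 + 1) * (PowerSeries.mk (1 : ℕ → ℤ)) ^ (d2 + 1) =
      (PowerSeries.mk (1 : ℕ → ℤ)) ^ (d1 + d2 + 1 + 1) := by
    rw [← pow_add]
    congr 1
    omega
  rw [h1, h2, h3] at h4
  have h5 := congrArg (PowerSeries.coeff n) h4
  rw [PowerSeries.coeff_mul] at h5
  simp only [PowerSeries.coeff_mk] at h5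
  exact_mod_cast h5

theorem qq_conv {k1 k2 : ℕ} (h1 : 1 ≤ k1) (h2 : 1 ≤ k2) (n : ℕ) :
    ∑ p ∈ antidiagonal n, qq k1 p.1 * qq k2 p.2 = qq (k1 + k2) n := by
  have h := choose_conv (k1 - 1) (k2 - 1) n
  have e : ∀ p ∈ antidiagonal n, qq k1 p.1 * qq k2 p.2 =
      (((k1 - 1 + p.1).choose (k1 - 1) * (k2 - 1 + p.2).choose (k2 - 1) : ℕ) : ℝ) / 2 ^ (k1 + k2 + n) := by
    intro p hp
    rw [HasAntidiagonal.mem_antidiagonal] at hp
    unfold qq
    rw [← hp]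
    push_cast
    rw [div_mul_div_comm, ← pow_add]
    congr 2
    omega
  rw [sum_congr rfl e, ← sum_div, ← Nat.cast_sum, h]
  unfold qq
  rw [show k1 - 1 + (k2 - 1) + 1 = k1 + k2 - 1 by omega]

theorem qq_hasSum {k : ℕ} (hk : 1 ≤ k) : HasSum (fun n => qq k n) 1 := by
  have h := hasSum_choose_mul_geometric_of_norm_lt_one (𝕜 := ℝ) (k - 1) (r := 1 / 2) (by norm_num)
  have h1 := h.mul_left ((1 : ℝ) / 2 ^ k)
  have e1 : (1 : ℝ) / 2 ^ k * (1 / (1 - 1 / 2) ^ (k - 1 + 1)) = 1 := by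
    rw [show k - 1 + 1 = k by omega, show (1 : ℝ) - 1 / 2 = 1 / 2 by norm_num, one_div_pow]
    field_simp
  rw [e1] at h1
  have e : (fun n => qq k n) = fun n => (1 : ℝ) / 2 ^ k * (((n + (k - 1)).choose (k - 1) : ℝ) * (1 / 2) ^ n) := by
    funext n
    unfold qq
    rw [add_comm (k - 1) n, one_div_pow, pow_add]
    field_simp
  rw [e]
  exact h1

/-- `n q_k(n) = k q_{k+1}(n-1)` -/
theorem qq_shift (k n : ℕ) (hk : 1 ≤ k) : ((n + 1 : ℕ) : ℝ) * qq k (n + 1) = k * qq (k + 1) n := by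
  unfold qq
  have h : (n + 1) * (k - 1 + (n + 1)).choose (k - 1) = k * (k + 1 - 1 + n).choose (k + 1 - 1) := by
    obtain ⟨d, rfl⟩ : ∃ d, k = d + 1 := ⟨k - 1, by omega⟩
    rw [Nat.add_sub_cancel, Nat.add_sub_cancel]
    have h1 := Nat.choose_succ_right_eq (d + (n + 1)) d
    rw [show d + (n + 1) - d = n + 1 by omega] at h1
    rw [show d + 1 + n = d + (n + 1) by omega]
    linarith
  have h' : ((n + 1 : ℕ) : ℝ) * ((k - 1 + (n + 1)).choose (k - 1) : ℝ) =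
      k * ((k + 1 - 1 + n).choose (k + 1 - 1) : ℝ) := by exact_mod_cast h
  rw [← mul_div_assoc, h', show k + (n + 1) = k + 1 + n by omega, ← mul_div_assoc]

theorem qq_mean {k : ℕ} (hk : 1 ≤ k) : HasSum (fun n : ℕ => (n : ℝ) * qq k n) k := by
  have h := (qq_hasSum (show 1 ≤ k + 1 by omega)).mul_left (k : ℝ)
  rw [mul_one] at h
  rw [← hasSum_nat_add_iff' 1]
  simp only [sum_range_one, Nat.cast_zero, zero_mul, sub_zero]
  have e : (fun n : ℕ => ((n + 1 : ℕ) : ℝ) * qq k (n + 1)) = fun n => (k : ℝ) * qq (k + 1) n := by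
    funext n
    exact qq_shift k n hk
  rw [e]
  exact h

theorem qq_second {k : ℕ} (hk : 1 ≤ k) : HasSum (fun n : ℕ => ((n : ℝ)) ^ 2 * qq k n) (k * (k + 2)) := by
  have h := (((qq_mean (show 1 ≤ k + 1 by omega)).add (qq_hasSum (show 1 ≤ k + 1 by omega))).mul_left (k : ℝ))
  rw [← hasSum_nat_add_iff' 1]
  have e0 : ∑ i ∈ range 1, ((i : ℝ)) ^ 2 * qq k i = 0 := by simp
  rw [e0, sub_zero]
  have e : (fun n : ℕ => ((n + 1 : ℕ) : ℝ) ^ 2 * qq k (n + 1)) =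
      fun n : ℕ => (k : ℝ) * ((n : ℝ) * qq (k + 1) n + qq (k + 1) n) := by
    funext n
    have h1 := qq_shift k n hk
    rw [pow_two, mul_assoc, h1]
    push_cast
    ring
  rw [e]
  have e2 : (k : ℝ) * (k + 2) = k * (((k + 1 : ℕ) : ℝ) + 1) := by push_cast; ring
  rw [e2]
  exact h

/-- the variance -/
theorem qq_var {k : ℕ} (hk : 1 ≤ k) : HasSum (fun n : ℕ => ((n : ℝ) - k) ^ 2 * qq k n) (2 * k) := by
  have h := ((qq_second hk).add ((qq_mean hk).mul_left (-(2 * (k : ℝ))))).add ((qq_hasSum hk).mul_left ((k : ℝ) ^ 2))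
  have e1 : (fun n : ℕ => ((n : ℝ) - k) ^ 2 * qq k n) = fun n : ℕ =>
      (n : ℝ) ^ 2 * qq k n + -(2 * (k : ℝ)) * ((n : ℝ) * qq k n) + (k : ℝ) ^ 2 * qq k n := by
    funext n
    ring
  have e2 : 2 * (k : ℝ) = k * (k + 2) + -(2 * (k : ℝ)) * k + (k : ℝ) ^ 2 * 1 := by ring
  rw [← e2] at h
  rw [e1]
  exact h

/-- Chebyshev's inequality -/
theorem qq_cheb {k : ℕ} (hk : 1 ≤ k) {a : ℝ} (ha : 0 < a) (s : Finset ℕ) (hs : ∀ n ∈ s, a ≤ |(n : ℝ) - k|) :
    ∑ n ∈ s, qq k n ≤ 2 * k / a ^ 2 := by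
  rw [le_div_iff₀ (by positivity), sum_mul]
  refine le_trans (sum_le_sum fun n hn => ?_) (sum_le_hasSum s (fun n _ => ?_) (qq_var hk))
  · rw [mul_comm]
    apply mul_le_mul_of_nonneg_right _ (qq_nonneg k n)
    rw [← sq_abs ((n : ℝ) - k)]
    exact pow_le_pow_left₀ ha.le (hs n hn) 2
  · exact mul_nonneg (sq_nonneg _) (qq_nonneg k n)

theorem qq_sum_le {k : ℕ} (hk : 1 ≤ k) (s : Finset ℕ) : ∑ n ∈ s, qq k n ≤ 1 :=
  sum_le_hasSum s (fun n _ => qq_nonneg k n) (qq_hasSum hk)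

theorem qq_ratio (k n : ℕ) (hk : 1 ≤ k) : 2 * ((n + 1 : ℕ) : ℝ) * qq k (n + 1) = ((k + n : ℕ) : ℝ) * qq k n := by
  unfold qq
  have h : (n + 1) * (k - 1 + (n + 1)).choose (k - 1) = (k + n) * (k - 1 + n).choose (k - 1) := by
    obtain ⟨d, rfl⟩ : ∃ d, k = d + 1 := ⟨k - 1, by omega⟩
    rw [Nat.add_sub_cancel]
    have h1 := Nat.choose_mul_succ_eq (d + n) d
    rw [show d + n + 1 - d = n + 1 by omega] at h1
    rw [show d + (n + 1) = d + n + 1 by omega, show d + 1 + n = d + n + 1 by omega]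
    linarith
  have h' : ((n + 1 : ℕ) : ℝ) * ((k - 1 + (n + 1)).choose (k - 1) : ℝ) =
      ((k + n : ℕ) : ℝ) * ((k - 1 + n).choose (k - 1) : ℝ) := by exact_mod_cast h
  rw [show k + (n + 1) = k + n + 1 by omega, pow_succ]
  have h2 : (0 : ℝ) < 2 ^ (k + n) := by positivity
  calc 2 * ((n + 1 : ℕ) : ℝ) * (((k - 1 + (n + 1)).choose (k - 1) : ℝ) / (2 ^ (k + n) * 2))
      = ((n + 1 : ℕ) : ℝ) * ((k - 1 + (n + 1)).choose (k - 1) : ℝ) / 2 ^ (k + n) := by field_simp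
    _ = _ := by rw [h', mul_div_assoc]

theorem qq_up {k n : ℕ} (hk : 1 ≤ k) (h : n + 2 ≤ k) : qq k n ≤ qq k (n + 1) := by
  have h1 := qq_ratio k n hk
  have h2 : 2 * ((n + 1 : ℕ) : ℝ) ≤ ((k + n : ℕ) : ℝ) := by
    have : 2 * (n + 1) ≤ k + n := by omega
    exact_mod_cast this
  have h3 := qq_nonneg k (n + 1)
  have h4 := qq_nonneg k n
  have h5 : (0 : ℝ) < ((k + n : ℕ) : ℝ) := by
    have : 0 < k + n := by omega
    exact_mod_cast this
  have h6 : ((k + n : ℕ) : ℝ) * qq k n ≤ ((k + n : ℕ) : ℝ) * qq k (n + 1) := by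
    rw [← h1]
    exact mul_le_mul_of_nonneg_right h2 h3
  exact le_of_mul_le_mul_left h6 h5

theorem qq_down {k n : ℕ} (hk : 1 ≤ k) (h : k ≤ n + 1) : qq k (n + 1) ≤ qq k n := by
  have h1 := qq_ratio k n hk
  have h2 : ((k + n : ℕ) : ℝ) ≤ 2 * ((n + 1 : ℕ) : ℝ) := by
    have : k + n ≤ 2 * (n + 1) := by omega
    exact_mod_cast this
  have h4 := qq_nonneg k n
  have h5 : (0 : ℝ) < 2 * ((n + 1 : ℕ) : ℝ) := by positivity
  have h6 : 2 * ((n + 1 : ℕ) : ℝ) * qq k (n + 1) ≤ 2 * ((n + 1 : ℕ) : ℝ) * qq k n := by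
    rw [h1]
    exact mul_le_mul_of_nonneg_right h2 h4
  exact le_of_mul_le_mul_left h6 h5

/-- the total variation of the weights -/
theorem qq_tv {k : ℕ} (hk : 2 ≤ k) (N : ℕ) : ∑ n ∈ range N, |qq k (n + 1) - qq k n| ≤ 2 / Real.sqrt k := by
  have h1 : ∀ N, N + 1 ≤ k → ∑ n ∈ range N, |qq k (n + 1) - qq k n| = qq k N - qq k 0 := by
    intro N
    induction N with
    | zero => intro _; simp
    | succ N ih =>
      intro h
      rw [sum_range_succ, ih (by omega), abs_of_nonneg (sub_nonneg.2 (qq_up (by omega) (by omega)))]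
      ring
  have h2 : ∀ j, ∑ n ∈ range (k - 1 + j), |qq k (n + 1) - qq k n| =
      2 * qq k (k - 1) - qq k 0 - qq k (k - 1 + j) := by
    intro j
    induction j with
    | zero => rw [add_zero, h1 (k - 1) (by omega)]; ring
    | succ j ih =>
      rw [← add_assoc, sum_range_succ, ih, abs_of_nonpos (sub_nonpos.2 (qq_down (by omega) (by omega)))]
      ring
  have h3 := qq_nonneg k 0
  have h4 := qq_sup hk (k - 1)
  have h5 : 2 / Real.sqrt k = 2 * (1 / Real.sqrt k) := by ring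
  rcases le_or_gt (k - 1) N with h | h
  · obtain ⟨j, rfl⟩ : ∃ j, N = k - 1 + j := ⟨N - (k - 1), by omega⟩
    rw [h2, h5]
    linarith [qq_nonneg k (k - 1 + j)]
  · rw [h1 N (by omega), h5]
    have := qq_sup hk N
    have : 0 ≤ 1 / Real.sqrt (k : ℝ) := by positivity
    linarith

end Pool.Agent.TH977.LL
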