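import Pool.Agent.TH977.LL.Kap

/-! The ratio varies slowly. -/

set_option autoImplicit false

namespace Pool.Agent.TH977.LL

open Pool.Agent.H320R2.PD Pool.Agent.H499R2.ND Pool.Agent.TH977.IP Finset Filter Topology

open Pool.Agent.H499R2.HL (H H_two H_of_two odn_two H_unique)
open Pool.Agent.H499R2.LT (odn)

/-- the profile at the level `i` -/
def PR (c i : ℕ) (κ B η : ℝ) : Prop :=
  ∀ e : ℕ, |(e : ℝ) - i| ≤ B * Real.sqrt i → |nn c i e - κ * qq i e| ≤ η / Real.sqrt i

/-- the universal bound of the constant -/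
theorem PR_bd (c : ℕ) : ∃ Ku : ℝ, 0 < Ku ∧ ∃ I : ℕ, ∀ b : ℕ, I ≤ b → ∀ κ B η : ℝ, 0 ≤ κ → 0 ≤ B → η ≤ 1 →
    PR c b κ B η → κ ≤ Ku := by
  obtain ⟨C2, hC2, hsq⟩ := nn_sqrt c
  obtain ⟨b0, hb0, I0, hlow⟩ := qq_low (B := 1) one_pos
  refine ⟨(C2 + 1) / b0, by positivity, I0 + 10000 * (c + 1) + 2, fun b hb κ B η hκ hB hη h => ?_⟩
  have hb1 : 10000 * (c + 1) ≤ b :=
    (Nat.le_add_left (10000 * (c + 1)) I0).trans ((Nat.le_add_right _ 2).trans hb)
  have hbI : I0 + 2 ≤ b := by
    refine le_trans ?_ hb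
    rw [add_assoc, add_comm (10000 * (c + 1)) 2, ← add_assoc]
    exact Nat.le_add_right _ _
  clear hb
  have hb2 : 2 ≤ b := by omega
  have hbR : (2 : ℝ) ≤ b := by exact_mod_cast hb2
  have hb00 : (0 : ℝ) < b := by linarith
  have hs0 : 0 < Real.sqrt b := Real.sqrt_pos.2 hb00
  have h1 := h b (by rw [sub_self, abs_zero]; positivity)
  have h2 := hsq b b hb1 (by rw [sub_self, abs_zero]; positivity)
  have h3 := hlow (b - 1) b (by omega) (by
    have e1 : ((b - 1 : ℕ) : ℝ) = b - 1 := by rw [Nat.cast_sub (by omega), Nat.cast_one]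
    rw [e1]
    have : (1 : ℝ) ≤ Real.sqrt (b - 1) := Real.one_le_sqrt.2 (by linarith)
    have e2 : (b : ℝ) - (b - 1) = 1 := by ring
    rw [e2, abs_one, one_mul]
    exact this)
  rw [show b - 1 + 1 = b by omega] at h3
  have h4 : b0 / Real.sqrt b ≤ qq b b := by
    refine le_trans ?_ h3
    apply div_le_div_of_nonneg_left hb0.le
    · apply Real.sqrt_pos.2
      have : 1 ≤ b - 1 := by omega
      exact_mod_cast this
    · apply Real.sqrt_le_sqrt
      have : b - 1 ≤ b := by omega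
      exact_mod_cast this
  have h5 := (abs_le.1 h1).1
  have h6 : κ * (b0 / Real.sqrt b) ≤ (C2 + 1) / Real.sqrt b := by
    have h7 := mul_le_mul_of_nonneg_left h4 hκ
    have h8 : η / Real.sqrt b ≤ 1 / Real.sqrt b := div_le_div_of_nonneg_right hη hs0.le
    have h9 : (C2 + 1) / Real.sqrt b = C2 / Real.sqrt b + 1 / Real.sqrt b := by ring
    rw [h9]
    linarith
  rw [le_div_iff₀ hb0]
  have h10 : κ * (b0 / Real.sqrt b) = κ * b0 / Real.sqrt b := by ring
  rw [h10] at h6
  exact (div_le_div_iff_of_pos_right hs0).1 h6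

/-- the profile is inherited by the later levels -/
theorem PR_step (c : ℕ) {Ku B η : ℝ} (hKu : 0 < Ku) (hB : 0 < B) (hη : 0 < η) : ∃ B' η' : ℝ, 0 < B' ∧ 0 < η' ∧ η' ≤ 1 ∧
    ∃ I : ℕ, ∀ b i k : ℕ, I ≤ b → b + k = i → i ≤ 18 * k → 9 * k ≤ i → ∀ κ : ℝ, 0 ≤ κ → κ ≤ Ku →
      PR c b κ B' η' → PR c i κ B η := by
  obtain ⟨C1, hC1, hharm⟩ := nn_harm c
  obtain ⟨C2, hC2, hsq⟩ := nn_sqrt c
  set M : ℝ := 5 * 2 ^ c with hM
  have hM0 : 0 < M := by positivity
  -- the constants
  obtain ⟨D, hDdef⟩ : ∃ D : ℝ, D = 1 + 16 * (C2 + Ku) / η := ⟨_, rfl⟩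
  have hD1 : 1 ≤ D := by
    rw [hDdef]
    have : 0 < 16 * (C2 + Ku) / η := by positivity
    linarith
  have hD2 : 16 * (C2 + Ku) / η ≤ D ^ 2 := by
    have h1 : 16 * (C2 + Ku) / η ≤ D := by rw [hDdef]; linarith
    refine h1.trans ?_
    rw [pow_two]
    exact le_mul_of_one_le_left (by linarith) hD1
  obtain ⟨S0, hS0⟩ : ∃ S0 : ℝ, S0 = 8 * C1 / η + 8 * 6400 * (M + Ku) / η + 40 * B + 1 := ⟨_, rfl⟩
  have p1 : 0 < 8 * C1 / η := by positivity
  have p2 : 0 < 8 * 6400 * (M + Ku) / η := by positivity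
  refine ⟨2 * (B + D), min 1 (η / 8), by positivity, lt_min one_pos (by positivity), min_le_left _ _,
    20000 * (c + 1) + ⌈S0 ^ 2⌉₊ + 1, fun b i k hb hbk hk1 hk2 κ hκ0 hκ1 h => ?_⟩
  intro e he
  have hb1 : 10000 * (c + 1) ≤ b := by omega
  have hi1 : 10000 * (c + 1) ≤ i := by omega
  have hbi : b ≤ i := by omega
  have hk0 : 1 ≤ k := by omega
  have hkR : (i : ℝ) ≤ 18 * k := by exact_mod_cast hk1
  have hkR2 : 9 * (k : ℝ) ≤ i := by exact_mod_cast hk2
  have hbkR : (b : ℝ) + k = i := by exact_mod_cast hbk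
  have hb0 : (0 : ℝ) < b := by
    have : 0 < b := by omega
    exact_mod_cast this
  have hi0 : (0 : ℝ) < i := by
    have : 0 < i := by omega
    exact_mod_cast this
  have hS2 : S0 ^ 2 ≤ i := by
    refine (Nat.le_ceil _).trans ?_
    have : ⌈S0 ^ 2⌉₊ ≤ i := by omega
    exact_mod_cast this
  set s := Real.sqrt i with hs
  have hs0 : 0 < s := Real.sqrt_pos.2 hi0
  have hss : s ^ 2 = i := Real.sq_sqrt hi0.le
  have hS : S0 ≤ s := Real.le_sqrt_of_sq_le hS2
  set s' := Real.sqrt b with hs'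
  have hs'0 : 0 < s' := Real.sqrt_pos.2 hb0
  have hss' : s' ^ 2 = b := Real.sq_sqrt hb0.le
  have hs's : s' ≤ s := Real.sqrt_le_sqrt (by linarith)
  have hss2 : s / 2 ≤ s' := by
    apply Real.le_sqrt_of_sq_le
    rw [div_pow, hss]
    linarith
  have q1 : 8 * C1 / η ≤ s := by linarith
  have q2 : 8 * 6400 * (M + Ku) / η ≤ s := by linarith
  have q3 : 40 * B ≤ s := by linarith
  have hBs : B * s ≤ i / 40 := by
    have := mul_le_mul_of_nonneg_right q3 hs0.le
    rw [← pow_two, hss] at this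
    linarith
  have c1 := hharm i e hi1 (by linarith) k hk1 hk2
  rw [show i - k = b by omega] at c1
  have hq : qq i e = ∑ a ∈ range (e + 1), qq k a * qq b (e - a) := by
    rw [← hbk, add_comm, ← qq_conv hk0 (by omega : 1 ≤ b) e]
    exact Finset.Nat.sum_antidiagonal_eq_sum_range_succ_mk (fun p => qq k p.1 * qq b p.2) e
  have e1 : cv k (nn c b) e - κ * qq i e = ∑ a ∈ range (e + 1), qq k a * (nn c b (e - a) - κ * qq b (e - a)) := by
    rw [hq, cv_range, mul_sum, ← sum_sub_distrib]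
    apply sum_congr rfl
    intro a _
    ring
  have hqs : ∀ m : ℕ, qq b m ≤ 1 / s' := fun m => qq_sup (by omega) m
  have hq1 : ∀ m : ℕ, qq b m ≤ 1 := by
    intro m
    have := qq_sum_le (k := b) (by omega) {m}
    rwa [sum_singleton] at this
  -- three ranges
  have c2 : |cv k (nn c b) e - κ * qq i e| ≤ η / 8 / s' + 2 / D ^ 2 * ((C2 + Ku) / s') + 6400 / i * (M + Ku) := by
    rw [e1]
    refine (abs_sum_le_sum_abs _ _).trans ?_
    rw [← sum_filter_add_sum_filter_not (range (e + 1)) (fun a : ℕ => |((e - a : ℕ) : ℝ) - b| ≤ 2 * (B + D) * s'),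
      ← sum_filter_add_sum_filter_not ((range (e + 1)).filter (fun a : ℕ => ¬ |((e - a : ℕ) : ℝ) - b| ≤ 2 * (B + D) * s'))
        (fun a : ℕ => |((e - a : ℕ) : ℝ) - b| ≤ b / 20), ← add_assoc]
    have d1 : ∑ a ∈ (range (e + 1)).filter (fun a : ℕ => |((e - a : ℕ) : ℝ) - b| ≤ 2 * (B + D) * s'),
        |qq k a * (nn c b (e - a) - κ * qq b (e - a))| ≤ η / 8 / s' := by
      have d2 : ∀ a ∈ (range (e + 1)).filter (fun a : ℕ => |((e - a : ℕ) : ℝ) - b| ≤ 2 * (B + D) * s'),
          |qq k a * (nn c b (e - a) - κ * qq b (e - a))| ≤ qq k a * (η / 8 / s') := by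
        intro a ha
        rw [mem_filter] at ha
        rw [abs_mul, abs_of_nonneg (qq_nonneg _ _)]
        apply mul_le_mul_of_nonneg_left _ (qq_nonneg _ _)
        refine (h (e - a) ha.2).trans ?_
        exact div_le_div_of_nonneg_right (min_le_right _ _) hs'0.le
      refine (sum_le_sum d2).trans ?_
      rw [← sum_mul]
      have := mul_le_mul_of_nonneg_right (qq_sum_le hk0 ((range (e + 1)).filter
        (fun a : ℕ => |((e - a : ℕ) : ℝ) - b| ≤ 2 * (B + D) * s'))) (show 0 ≤ η / 8 / s' by positivity)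
      linarith
    have dev : ∀ a ∈ range (e + 1), |((e - a : ℕ) : ℝ) - b| ≤ |(e : ℝ) - i| + |(a : ℝ) - k| := by
      intro a ha
      rw [mem_range] at ha
      have hen : ((e - a : ℕ) : ℝ) = e - a := by rw [Nat.cast_sub (by omega)]
      have : ((e - a : ℕ) : ℝ) - b = (e - i) - (a - k) := by rw [hen]; linarith
      rw [this]
      exact abs_sub _ _
    have d3 : ∑ a ∈ ((range (e + 1)).filter (fun a : ℕ => ¬ |((e - a : ℕ) : ℝ) - b| ≤ 2 * (B + D) * s')).filter
        (fun a : ℕ => |((e - a : ℕ) : ℝ) - b| ≤ b / 20),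
        |qq k a * (nn c b (e - a) - κ * qq b (e - a))| ≤ 2 / D ^ 2 * ((C2 + Ku) / s') := by
      have d2 : ∀ a ∈ ((range (e + 1)).filter (fun a : ℕ => ¬ |((e - a : ℕ) : ℝ) - b| ≤ 2 * (B + D) * s')).filter
          (fun a : ℕ => |((e - a : ℕ) : ℝ) - b| ≤ b / 20),
          |qq k a * (nn c b (e - a) - κ * qq b (e - a))| ≤ qq k a * ((C2 + Ku) / s') := by
        intro a ha
        rw [mem_filter] at ha
        rw [abs_mul, abs_of_nonneg (qq_nonneg _ _)]
        apply mul_le_mul_of_nonneg_left _ (qq_nonneg _ _)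
        have w1 := hsq b (e - a) hb1 ha.2
        have w2 := nn_nonneg c b (e - a)
        have w3 : κ * qq b (e - a) ≤ Ku * (1 / s') := mul_le_mul hκ1 (hqs _) (qq_nonneg _ _) hKu.le
        have w4 : 0 ≤ κ * qq b (e - a) := mul_nonneg hκ0 (qq_nonneg _ _)
        have w5 : (C2 + Ku) / s' = C2 / s' + Ku * (1 / s') := by ring
        have w6 : 0 ≤ Ku * (1 / s') := by positivity
        have w7 : 0 ≤ C2 / s' := by positivity
        rw [w5, abs_le]
        constructor <;> linarith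
      refine (sum_le_sum d2).trans ?_
      rw [← sum_mul]
      apply mul_le_mul_of_nonneg_right _ (by positivity)
      have d4 := qq_cheb hk0 (a := D * s) (by positivity) (((range (e + 1)).filter (fun a : ℕ => ¬ |((e - a : ℕ) : ℝ) - b| ≤ 2 * (B + D) * s')).filter
          (fun a : ℕ => |((e - a : ℕ) : ℝ) - b| ≤ b / 20)) (by
        intro a ha
        rw [mem_filter, mem_filter] at ha
        have w1 := not_le.1 ha.1.2
        have w2 := dev a ha.1.1
        have w3 : (B + D) * s ≤ 2 * (B + D) * s' := by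
          have := mul_le_mul_of_nonneg_left hss2 (show 0 ≤ 2 * (B + D) by positivity)
          linarith
        linarith)
      refine d4.trans ?_
      rw [mul_pow, hss, div_le_div_iff₀ (by positivity) (by positivity)]
      have : (k : ℝ) ≤ i := by linarith
      have h6 : 2 * (k : ℝ) * D ^ 2 ≤ 2 * i * D ^ 2 := by
        apply mul_le_mul_of_nonneg_right _ (by positivity)
        linarith
      refine h6.trans (le_of_eq ?_)
      ring
    have d5 : ∑ a ∈ ((range (e + 1)).filter (fun a : ℕ => ¬ |((e - a : ℕ) : ℝ) - b| ≤ 2 * (B + D) * s')).filter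
        (fun a : ℕ => ¬ |((e - a : ℕ) : ℝ) - b| ≤ b / 20),
        |qq k a * (nn c b (e - a) - κ * qq b (e - a))| ≤ 6400 / i * (M + Ku) := by
      have d2 : ∀ a ∈ ((range (e + 1)).filter (fun a : ℕ => ¬ |((e - a : ℕ) : ℝ) - b| ≤ 2 * (B + D) * s')).filter
          (fun a : ℕ => ¬ |((e - a : ℕ) : ℝ) - b| ≤ b / 20),
          |qq k a * (nn c b (e - a) - κ * qq b (e - a))| ≤ qq k a * (M + Ku) := by
        intro a ha
        rw [abs_mul, abs_of_nonneg (qq_nonneg _ _)]
        apply mul_le_mul_of_nonneg_left _ (qq_nonneg _ _)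
        have w1 := nn_bd c b (e - a)
        rw [← hM] at w1
        have w2 := nn_nonneg c b (e - a)
        have w3 : κ * qq b (e - a) ≤ Ku * 1 := mul_le_mul hκ1 (hq1 _) (qq_nonneg _ _) hKu.le
        have w4 : 0 ≤ κ * qq b (e - a) := mul_nonneg hκ0 (qq_nonneg _ _)
        rw [abs_le]
        constructor <;> linarith
      refine (sum_le_sum d2).trans ?_
      rw [← sum_mul]
      apply mul_le_mul_of_nonneg_right _ (by positivity)
      have d4 := qq_cheb hk0 (a := (i : ℝ) / 56) (by positivity) (((range (e + 1)).filter (fun a : ℕ => ¬ |((e - a : ℕ) : ℝ) - b| ≤ 2 * (B + D) * s')).filter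
          (fun a : ℕ => ¬ |((e - a : ℕ) : ℝ) - b| ≤ b / 20)) (by
        intro a ha
        rw [mem_filter, mem_filter] at ha
        have w1 := not_le.1 ha.2
        have w2 := dev a ha.1.1
        linarith)
      refine d4.trans ?_
      rw [div_pow, div_div_eq_mul_div, div_le_div_iff₀ (by positivity) hi0]
      have h6 : 9 * (k : ℝ) * i ≤ i * i := mul_le_mul_of_nonneg_right hkR2 hi0.le
      nlinarith
    exact add_le_add (add_le_add d1 d3) d5
  have f1 : C1 / i ≤ η / 8 / s := by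
    rw [← hss, div_le_div_iff₀ (by positivity) hs0]
    rw [div_le_iff₀ hη] at q1
    have h1 := mul_le_mul_of_nonneg_right q1 hs0.le
    have h2 : s * η * s = η * s ^ 2 := by ring
    rw [h2] at h1
    linarith only [h1]
  have f2 : η / 8 / s' ≤ 2 * (η / 8 / s) := by
    have : 2 * (η / 8 / s) = η / 8 / (s / 2) := by field_simp
    rw [this]
    exact div_le_div_of_nonneg_left (by positivity) (by positivity) hss2
  have f3 : 2 / D ^ 2 * ((C2 + Ku) / s') ≤ 2 * (η / 8 / s) := by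
    have h1 : (C2 + Ku) / s' ≤ (C2 + Ku) / (s / 2) := div_le_div_of_nonneg_left (by positivity) (by positivity) hss2
    have h2 := mul_le_mul_of_nonneg_left h1 (show 0 ≤ 2 / D ^ 2 by positivity)
    refine h2.trans ?_
    have h3 : 2 / D ^ 2 * ((C2 + Ku) / (s / 2)) = (4 * (C2 + Ku) / D ^ 2) / s := by
      field_simp
      norm_num
    have h4 : 2 * (η / 8 / s) = (η / 4) / s := by ring
    rw [h3, h4]
    apply div_le_div_of_nonneg_right _ hs0.le
    rw [div_le_iff₀ (by positivity)]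
    rw [div_le_iff₀ hη] at hD2
    linarith
  have f4 : 6400 / i * (M + Ku) ≤ η / 8 / s := by
    have h1 : 6400 / (i : ℝ) * (M + Ku) = (6400 * (M + Ku) / s) / s := by
      rw [← hss]
      field_simp
    rw [h1]
    apply div_le_div_of_nonneg_right _ hs0.le
    rw [div_le_iff₀ hs0]
    rw [div_le_iff₀ hη] at q2
    linarith
  have e3 : nn c i e - κ * qq i e = (nn c i e - cv k (nn c b) e) + (cv k (nn c b) e - κ * qq i e) := by ring
  rw [e3]
  refine (abs_add_le _ _).trans ((add_le_add c1 c2).trans ?_)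
  have e4 : η / s = 8 * (η / 8 / s) := by ring
  rw [e4]
  have : 0 < η / 8 / s := by positivity
  linarith

/-- from the profile to the ratio at the centre -/
theorem RR_of_PR {c : ℕ} (hc : ∀ n l i : ℕ, n ∈ W l i →
    Real.exp (l * Real.log 2 - i * Real.log 3) / 2 ^ c ≤ n ∧ (n : ℝ) ≤ Real.exp (l * Real.log 2 - i * Real.log 3) * 2 ^ c)
    {Ku ε : ℝ} (hKu : 0 < Ku) (hε : 0 < ε) : ∃ η : ℝ, 0 < η ∧ ∃ I : ℕ, ∀ i : ℕ, I ≤ i → ∀ κ : ℝ, 0 ≤ κ → κ ≤ Ku →
      PR c i κ 1 η → |RR i (i + i) - κ| ≤ ε := by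
  obtain ⟨b0, hb0, I0, hlow⟩ := qq_low (B := 1) one_pos
  obtain ⟨M, hM⟩ : ∃ M : ℝ, M = 5 * 2 ^ c := ⟨_, rfl⟩
  have hM0 : 0 < M := by rw [hM]; positivity
  refine ⟨ε * b0 / 2, by positivity, I0 + ⌈(16 * (M + Ku) / (ε * b0)) ^ 2⌉₊ + 4, fun i hi κ hκ0 hκ1 h => ?_⟩
  have hi4 : 4 ≤ i := by omega
  have hi4R : (4 : ℝ) ≤ i := by exact_mod_cast hi4
  have hi0 : (0 : ℝ) < i := by linarith
  have hi2 : (16 * (M + Ku) / (ε * b0)) ^ 2 ≤ i := by
    refine (Nat.le_ceil _).trans ?_
    have : ⌈(16 * (M + Ku) / (ε * b0)) ^ 2⌉₊ ≤ i := by omega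
    exact_mod_cast this
  have hl := hlow i i (by omega) (by rw [sub_self, abs_zero]; positivity)
  set s := Real.sqrt i with hs
  have hs0 : 0 < s := Real.sqrt_pos.2 hi0
  have hss : s ^ 2 = i := Real.sq_sqrt hi0.le
  have hs2 : 2 ≤ s := Real.le_sqrt_of_sq_le (by linarith)
  have hsM : 16 * (M + Ku) / (ε * b0) ≤ s := Real.le_sqrt_of_sq_le hi2
  have hq : qq (i + 1) i = ∑ a ∈ range (i + 1), qq 1 a * qq i (i - a) := by
    have hcv := qq_conv (le_refl 1) (by omega : 1 ≤ i) i
    rw [add_comm 1 i] at hcv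
    rw [← hcv]
    exact Finset.Nat.sum_antidiagonal_eq_sum_range_succ_mk (fun p => qq 1 p.1 * qq i p.2) i
  have e1 : cv 1 (nn c i) i - κ * qq (i + 1) i = ∑ a ∈ range (i + 1), qq 1 a * (nn c i (i - a) - κ * qq i (i - a)) := by
    rw [hq, cv_range, mul_sum, ← sum_sub_distrib]
    apply sum_congr rfl
    intro a _
    ring
  have key : |cv 1 (nn c i) i - κ * qq (i + 1) i| ≤ ε * (b0 / s) := by
    rw [e1]
    refine (abs_sum_le_sum_abs _ _).trans ?_
    rw [← sum_filter_add_sum_filter_not (range (i + 1)) (fun a : ℕ => (a : ℝ) ≤ s)]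
    have h1 : ∑ a ∈ (range (i + 1)).filter (fun a : ℕ => (a : ℝ) ≤ s), |qq 1 a * (nn c i (i - a) - κ * qq i (i - a))| ≤
        ε * b0 / 2 / s := by
      have h2 : ∀ a ∈ (range (i + 1)).filter (fun a : ℕ => (a : ℝ) ≤ s),
          |qq 1 a * (nn c i (i - a) - κ * qq i (i - a))| ≤ qq 1 a * (ε * b0 / 2 / s) := by
        intro a ha
        rw [mem_filter, mem_range] at ha
        rw [abs_mul, abs_of_nonneg (qq_nonneg _ _)]
        apply mul_le_mul_of_nonneg_left _ (qq_nonneg _ _)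
        apply h
        rw [Nat.cast_sub (by omega), one_mul]
        have ha0 : (0 : ℝ) ≤ a := Nat.cast_nonneg _
        rw [abs_le]
        constructor <;> linarith [ha.2]
      refine (sum_le_sum h2).trans ?_
      rw [← sum_mul]
      have := mul_le_mul_of_nonneg_right (qq_sum_le (k := 1) le_rfl ((range (i + 1)).filter
        (fun a : ℕ => (a : ℝ) ≤ s))) (show 0 ≤ ε * b0 / 2 / s by positivity)
      linarith
    have h3 : ∑ a ∈ (range (i + 1)).filter (fun a : ℕ => ¬ (a : ℝ) ≤ s), |qq 1 a * (nn c i (i - a) - κ * qq i (i - a))| ≤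
        ε * b0 / 2 / s := by
      have h2 : ∀ a ∈ (range (i + 1)).filter (fun a : ℕ => ¬ (a : ℝ) ≤ s),
          |qq 1 a * (nn c i (i - a) - κ * qq i (i - a))| ≤ qq 1 a * (M + Ku) := by
        intro a ha
        rw [abs_mul, abs_of_nonneg (qq_nonneg _ _)]
        apply mul_le_mul_of_nonneg_left _ (qq_nonneg _ _)
        have q1 := nn_bd c i (i - a)
        have q2 := nn_nonneg c i (i - a)
        have q3 : qq i (i - a) ≤ 1 := by
          have := qq_sum_le (k := i) (by omega) {i - a}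
          rwa [sum_singleton] at this
        have q4 := qq_nonneg i (i - a)
        have q5 : κ * qq i (i - a) ≤ Ku * 1 := mul_le_mul hκ1 q3 q4 hKu.le
        have q6 : 0 ≤ κ * qq i (i - a) := mul_nonneg hκ0 q4
        rw [← hM] at q1
        rw [abs_le]
        constructor <;> linarith
      refine (sum_le_sum h2).trans ?_
      rw [← sum_mul]
      have h4 := qq_cheb (k := 1) le_rfl (a := s / 2) (by positivity) ((range (i + 1)).filter
        (fun a : ℕ => ¬ (a : ℝ) ≤ s)) (by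
          intro a ha
          rw [mem_filter] at ha
          have := not_le.1 ha.2
          rw [Nat.cast_one, abs_of_nonneg (by linarith)]
          linarith)
      have e2 : 2 * ((1 : ℕ) : ℝ) / (s / 2) ^ 2 = 8 / s / s := by
        push_cast
        field_simp
        norm_num
      rw [e2] at h4
      have h5 := mul_le_mul_of_nonneg_right h4 (show 0 ≤ M + Ku by positivity)
      refine h5.trans ?_
      have e3 : 8 / s / s * (M + Ku) = 8 * (M + Ku) / s / s := by ring
      rw [e3]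
      apply div_le_div_of_nonneg_right _ hs0.le
      rw [div_le_iff₀ hs0]
      rw [div_le_iff₀ (by positivity)] at hsM
      linarith
    refine (add_le_add h1 h3).trans (le_of_eq ?_)
    ring
  have hqp : 0 < qq (i + 1) i := lt_of_lt_of_le (by positivity) hl
  rw [RR_eq hc]
  have e1 : cv 1 (nn c i) i / qq (i + 1) i - κ = (cv 1 (nn c i) i - κ * qq (i + 1) i) / qq (i + 1) i := by
    field_simp
  rw [e1, abs_div, abs_of_pos hqp, div_le_iff₀ hqp]
  exact key.trans (mul_le_mul_of_nonneg_left hl hε.le)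

/-- the ratio at the centre varies slowly, one step -/
theorem slow1 {c : ℕ} (hc : ∀ n l i : ℕ, n ∈ W l i →
    Real.exp (l * Real.log 2 - i * Real.log 3) / 2 ^ c ≤ n ∧ (n : ℝ) ≤ Real.exp (l * Real.log 2 - i * Real.log 3) * 2 ^ c)
    {ε : ℝ} (hε : 0 < ε) : ∃ I : ℕ, ∀ i j : ℕ, I ≤ i → i ≤ j → 100 * j ≤ 101 * i →
      |RR i (i + i) - RR j (j + j)| ≤ ε := by
  obtain ⟨Ku, hKu, I0, hPR⟩ := PR_bd c
  obtain ⟨η, hη, I1, h1⟩ := RR_of_PR hc hKu (show 0 < ε / 2 by positivity)
  obtain ⟨B', η', hB', hη', hη'1, I2, h2⟩ := PR_step c hKu one_pos hη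
  obtain ⟨Kb, hKb, I3, h3⟩ := profile c hB' hη'
  refine ⟨2 * (I0 + I2 + I3) + I1 + 1000, fun i j hi hij hj => ?_⟩
  obtain ⟨b, hb⟩ : ∃ b : ℕ, b = i - i / 10 := ⟨_, rfl⟩
  obtain ⟨κ, k0, _, k2⟩ := h3 b (by omega)
  have hP : PR c b κ B' η' := k2
  have k1 : κ ≤ Ku := hPR b (by omega) κ B' η' k0 hB'.le hη'1 hP
  have g1 := h1 i (by omega) κ k0 k1 (h2 b i (i / 10) (by omega) (by omega) (by omega) (by omega) κ k0 k1 hP)
  have g2 := h1 j (by omega) κ k0 k1 (h2 b j (j - b) (by omega) (by omega) (by omega) (by omega) κ k0 k1 hP)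
  have e : RR i (i + i) - RR j (j + j) = (RR i (i + i) - κ) - (RR j (j + j) - κ) := by ring
  rw [e]
  refine (abs_sub _ _).trans ?_
  linarith

/-- the ratio at the centre varies slowly -/
theorem slow {c : ℕ} (hc : ∀ n l i : ℕ, n ∈ W l i →
    Real.exp (l * Real.log 2 - i * Real.log 3) / 2 ^ c ≤ n ∧ (n : ℝ) ≤ Real.exp (l * Real.log 2 - i * Real.log 3) * 2 ^ c)
    (A : ℝ) {ε : ℝ} (hε : 0 < ε) : ∃ I : ℕ, ∀ i j : ℕ, I ≤ i → i ≤ j → (j : ℝ) ≤ A * i →
      |RR i (i + i) - RR j (j + j)| ≤ ε := by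
  have main : ∀ N : ℕ, ∀ ε : ℝ, 0 < ε → ∃ I : ℕ, ∀ i j : ℕ, I ≤ i → i ≤ j → (j : ℝ) ≤ (1.001 : ℝ) ^ N * i →
      |RR i (i + i) - RR j (j + j)| ≤ ε := by
    intro N
    induction N with
    | zero =>
      intro ε hε
      refine ⟨0, fun i j _ hij hj => ?_⟩
      rw [pow_zero, one_mul] at hj
      have : j = i := le_antisymm (by exact_mod_cast hj) hij
      subst this
      rw [sub_self, abs_zero]
      exact hε.le
    | succ N ih =>
      intro ε hε
      obtain ⟨I1, h1⟩ := ih (ε / 2) (by positivity)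
      obtain ⟨I2, h2⟩ := slow1 hc (show 0 < ε / 2 by positivity)
      refine ⟨I1 + I2 + 1000, fun i j hi hij hj => ?_⟩
      rcases le_or_gt (j : ℝ) ((1.001 : ℝ) ^ N * i) with hle | hgt
      · exact (h1 i j (by omega) hij hle).trans (by linarith)
      · -- the intermediate index
        obtain ⟨m, hm⟩ : ∃ m : ℕ, m = ⌊(1.001 : ℝ) ^ N * i⌋₊ := ⟨_, rfl⟩
        have hN1 : (1 : ℝ) ≤ (1.001 : ℝ) ^ N := one_le_pow₀ (by norm_num)
        have hiR : (1000 : ℝ) ≤ i := by
          have : 1000 ≤ i := by omega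
          exact_mod_cast this
        have hNi : (i : ℝ) ≤ (1.001 : ℝ) ^ N * i := by
          have := mul_le_mul_of_nonneg_right hN1 (show (0 : ℝ) ≤ i by linarith)
          linarith
        have hm1 : (m : ℝ) ≤ (1.001 : ℝ) ^ N * i := by rw [hm]; exact Nat.floor_le (by linarith)
        have hm2 : (1.001 : ℝ) ^ N * i < m + 1 := by rw [hm]; exact Nat.lt_floor_add_one _
        have him : i ≤ m := by
          rw [hm]
          exact Nat.le_floor hNi
        have hmj : m ≤ j := by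
          have : (m : ℝ) ≤ j := by linarith
          exact_mod_cast this
        have hjm : 100 * j ≤ 101 * m := by
          have e1 : (1.001 : ℝ) ^ (N + 1) * i = 1.001 * ((1.001 : ℝ) ^ N * i) := by rw [pow_succ]; ring
          rw [e1] at hj
          have : (100 * j : ℝ) ≤ 101 * m := by
            have : (1000 : ℝ) ≤ m := le_trans hiR (by exact_mod_cast him)
            nlinarith
          exact_mod_cast this
        have g1 := h1 i m (by omega) him hm1
        have g2 := h2 m j (by omega) hmj hjm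
        have e : RR i (i + i) - RR j (j + j) = (RR i (i + i) - RR m (m + m)) + (RR m (m + m) - RR j (j + j)) := by ring
        rw [e]
        refine (abs_add_le _ _).trans ?_
        linarith
  obtain ⟨N, hN⟩ := pow_unbounded_of_one_lt A (show (1 : ℝ) < 1.001 by norm_num)
  obtain ⟨I, h⟩ := main N ε hε
  refine ⟨I, fun i j hi hij hj => h i j hi hij (hj.trans ?_)⟩
  exact mul_le_mul_of_nonneg_right hN.le (Nat.cast_nonneg _)

end Pool.Agent.TH977.LL
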