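import Pool.Agent.TH977.LL.Atyp

/-! Tightness. -/

set_option autoImplicit false

namespace Pool.Agent.TH977.LL

open Pool.Agent.H320R2.PD Pool.Agent.H499R2.ND Pool.Agent.TH977.IP Finset Filter Topology

theorem inv_sq_sum (i r0 : ℕ) (hr : 1 ≤ r0) (E : Finset ℕ) (hE : ∀ e ∈ E, (r0 : ℝ) < |(e : ℝ) - i|) :
    ∑ e ∈ E, (1 : ℝ) / ((e : ℝ) - i) ^ 2 ≤ (2 : ℝ) / (r0 : ℝ) := by
  classical
  have hr0 : (0 : ℝ) < r0 := by exact_mod_cast hr
  have gen : ∀ (F : Finset ℕ), (∀ j ∈ F, r0 < j) → ∑ j ∈ F, (1 : ℝ) / (j : ℝ) ^ 2 ≤ (1 : ℝ) / (r0 : ℝ) := by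
    intro F hF
    have h1 : F ⊆ Ioc r0 (r0 + F.sup id) := by
      intro j hj
      rw [mem_Ioc]
      have : j ≤ F.sup id := Finset.le_sup (f := id) hj
      exact ⟨hF j hj, by omega⟩
    refine (sum_le_sum_of_subset_of_nonneg h1 (fun j _ _ => by positivity)).trans ?_
    have h2 := sum_Ioc_inv_sq_le_sub (α := ℝ) (k := r0) (n := r0 + F.sup id) (by omega) (by omega)
    have h3 : ∑ j ∈ Ioc r0 (r0 + F.sup id), (1 : ℝ) / (j : ℝ) ^ 2 = ∑ j ∈ Ioc r0 (r0 + F.sup id), ((j : ℝ) ^ 2)⁻¹ :=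
      sum_congr rfl fun j _ => by rw [one_div]
    rw [h3]
    have h4 : (0 : ℝ) ≤ ((r0 + F.sup id : ℕ) : ℝ)⁻¹ := by positivity
    rw [one_div]
    linarith
  rw [← sum_filter_add_sum_filter_not E (fun e => i < e)]
  have h1 : ∑ e ∈ E.filter (fun e => i < e), (1 : ℝ) / ((e : ℝ) - i) ^ 2 ≤ (1 : ℝ) / (r0 : ℝ) := by
    have e1 : ∑ e ∈ E.filter (fun e => i < e), (1 : ℝ) / ((e : ℝ) - i) ^ 2 =
        ∑ j ∈ (E.filter (fun e => i < e)).image (fun e => e - i), (1 : ℝ) / (j : ℝ) ^ 2 := by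
      rw [sum_image]
      · apply sum_congr rfl
        intro e he
        rw [mem_filter] at he
        rw [Nat.cast_sub (by omega)]
      · intro a ha b hb hab
        rw [mem_coe, mem_filter] at ha hb
        simp only at hab
        omega
    rw [e1]
    apply gen
    intro j hj
    rw [mem_image] at hj
    obtain ⟨e, he, rfl⟩ := hj
    rw [mem_filter] at he
    have h2 := hE e he.1
    have h3 : (0 : ℝ) < (e : ℝ) - i := by
      have : (i : ℝ) < e := by exact_mod_cast he.2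
      linarith
    rw [abs_of_pos h3] at h2
    have h4 : ((r0 + i : ℕ) : ℝ) < e := by push_cast; linarith
    have h5 : r0 + i < e := by exact_mod_cast h4
    omega
  have h2 : ∑ e ∈ E.filter (fun e => ¬ i < e), (1 : ℝ) / ((e : ℝ) - i) ^ 2 ≤ (1 : ℝ) / (r0 : ℝ) := by
    have e1 : ∑ e ∈ E.filter (fun e => ¬ i < e), (1 : ℝ) / ((e : ℝ) - i) ^ 2 =
        ∑ j ∈ (E.filter (fun e => ¬ i < e)).image (fun e => i - e), (1 : ℝ) / (j : ℝ) ^ 2 := by
      rw [sum_image]
      · apply sum_congr rfl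
        intro e he
        rw [mem_filter] at he
        rw [Nat.cast_sub (by omega)]
        congr 1
        ring
      · intro a ha b hb hab
        rw [mem_coe, mem_filter] at ha hb
        simp only at hab
        omega
    rw [e1]
    apply gen
    intro j hj
    rw [mem_image] at hj
    obtain ⟨e, he, rfl⟩ := hj
    rw [mem_filter] at he
    have h2 := hE e he.1
    have h3 : (e : ℝ) - i ≤ 0 := by
      have : (e : ℝ) ≤ i := by exact_mod_cast not_lt.1 he.2
      linarith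
    rw [abs_of_nonpos h3] at h2
    have h4 : ((r0 + e : ℕ) : ℝ) < i := by push_cast; linarith
    have h5 : r0 + e < i := by exact_mod_cast h4
    omega
  have e3 : (2 : ℝ) / (r0 : ℝ) = (1 : ℝ) / (r0 : ℝ) + (1 : ℝ) / (r0 : ℝ) := by ring
  rw [e3]
  exact add_le_add h1 h2

/-- the range of `e` -/
noncomputable def EE (i i' : ℕ) (r R : ℝ) : Finset ℕ :=
  (range (2 * i)).filter fun e : ℕ => r < |(e : ℝ) - i'| ∧ |(e : ℝ) - i'| ≤ R

theorem EE_card (i i' : ℕ) {r R : ℝ} (hR : 0 ≤ R) : ((EE i i' r R).card : ℝ) ≤ 2 * R + 1 := by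
  have hsub : EE i i' r R ⊆ Icc (i' - ⌊R⌋₊) (i' + ⌊R⌋₊) := by
    intro e he
    unfold EE at he
    rw [mem_filter] at he
    obtain ⟨g1, g2⟩ := abs_le.1 he.2.2
    rw [mem_Icc]
    have hf := Nat.lt_floor_add_one R
    constructor
    · have h1 : (i' : ℝ) < e + ⌊R⌋₊ + 1 := by linarith
      have h2 : i' < e + ⌊R⌋₊ + 1 := by exact_mod_cast h1
      omega
    · have h1 : (e : ℝ) < i' + ⌊R⌋₊ + 1 := by linarith
      have h2 : e < i' + ⌊R⌋₊ + 1 := by exact_mod_cast h1
      omega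
  have h1 := card_le_card hsub
  rw [Nat.card_Icc] at h1
  have h2 : (EE i i' r R).card ≤ 2 * ⌊R⌋₊ + 1 := by omega
  have h3 : ((EE i i' r R).card : ℝ) ≤ 2 * ⌊R⌋₊ + 1 := by exact_mod_cast h2
  have := Nat.floor_le hR
  linarith

/-- exchanging the sums -/
theorem swap_sum {k : ℕ} (hk : 1 ≤ k) {f : ℕ → ℝ} (hf : ∀ m, 0 ≤ f m) (E E' : Finset ℕ) (B : ℕ → ℕ → Prop)
    [∀ e, DecidablePred (B e)] (h : ∀ e ∈ E, ∀ n ∈ range (e + 1), B e n → e - n ∈ E') :
    ∑ e ∈ E, ∑ n ∈ (range (e + 1)).filter (B e), qq k n * f (e - n) ≤ ∑ m ∈ E', f m := by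
  classical
  have h1 : ∀ e ∈ E, ∑ n ∈ (range (e + 1)).filter (B e), qq k n * f (e - n) ≤
      ∑ m ∈ E', (if m ≤ e then qq k (e - m) else 0) * f m := by
    intro e he
    have e1 : ∑ n ∈ (range (e + 1)).filter (B e), qq k n * f (e - n) =
        ∑ m ∈ ((range (e + 1)).filter (B e)).image (fun n => e - n),
          (if m ≤ e then qq k (e - m) else 0) * f m := by
      rw [sum_image]
      · apply sum_congr rfl
        intro n hn
        rw [mem_filter, mem_range] at hn
        rw [if_pos (by omega), show e - (e - n) = n by omega]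
      · intro a ha b hb hab
        rw [mem_coe, mem_filter, mem_range] at ha hb
        simp only at hab
        omega
    rw [e1]
    apply sum_le_sum_of_subset_of_nonneg
    · intro m hm
      rw [mem_image] at hm
      obtain ⟨n, hn, rfl⟩ := hm
      rw [mem_filter] at hn
      exact h e he n hn.1 hn.2
    · intro m _ _
      apply mul_nonneg _ (hf m)
      split_ifs
      · exact qq_nonneg _ _
      · exact le_rfl
  refine (sum_le_sum h1).trans ?_
  rw [sum_comm]
  apply sum_le_sum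
  intro m _
  rw [← sum_mul]
  have h2 : ∑ e ∈ E, (if m ≤ e then qq k (e - m) else 0) ≤ 1 := by
    rw [← sum_filter]
    have e2 : ∑ e ∈ E.filter (fun e => m ≤ e), qq k (e - m) =
        ∑ j ∈ (E.filter (fun e => m ≤ e)).image (fun e => e - m), qq k j := by
      rw [sum_image]
      intro a ha b hb hab
      rw [mem_coe, mem_filter] at ha hb
      simp only at hab
      omega
    rw [e2]
    exact qq_sum_le hk _
  have := mul_le_mul_of_nonneg_right h2 (hf m)
  linarith

theorem tight_step (c : ℕ) {C2 : ℝ} (hC2 : 0 < C2) (hsq : ∀ i e : ℕ, 10000 * (c + 1) ≤ i →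
      |(e : ℝ) - i| ≤ i / 20 → nn c i e ≤ C2 / Real.sqrt i) {i k : ℕ} {r R : ℝ} (hr : 0 < r)
    (hi : 20000 * (c + 1) ≤ i) (hR : R ≤ i / 100) (hk1 : i ≤ 18 * k) (hk2 : 9 * k ≤ i) :
    ∑ e ∈ EE i i r R, cv k (nn c (i - k)) e ≤ ∑ m ∈ EE i (i - k) (r / 2) (2 * R), nn c (i - k) m +
      2 * C2 / Real.sqrt i * (i * ∑ e ∈ EE i i r R, 1 / ((e : ℝ) - i) ^ 2) +
        (EE i i r R).card * (5 * 2 ^ c * (3000 / i)) := by
  classical
  have hiR : 20000 * ((c : ℝ) + 1) ≤ i := by exact_mod_cast hi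
  have hc0 : (0 : ℝ) ≤ c := Nat.cast_nonneg _
  have hi0 : (0 : ℝ) < i := by linarith
  have hk1R : (i : ℝ) ≤ 18 * k := by exact_mod_cast hk1
  have hk2R : 9 * (k : ℝ) ≤ i := by exact_mod_cast hk2
  have hk0 : (0 : ℝ) < k := by linarith
  have hk0N : 1 ≤ k := by exact_mod_cast hk0
  have hik : ((i - k : ℕ) : ℝ) = i - k := by rw [Nat.cast_sub (by omega)]
  have hsi : 0 < Real.sqrt i := Real.sqrt_pos.2 hi0
  have hsqi : Real.sqrt i ^ 2 = i := Real.sq_sqrt hi0.le
  have hEm : ∀ e ∈ EE i i r R, e < 2 * i ∧ r < |(e : ℝ) - i| ∧ |(e : ℝ) - i| ≤ R := by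
    intro e he
    unfold EE at he
    rw [mem_filter, mem_range] at he
    exact he
  set B : ℕ → ℕ → Prop := fun e n => |(n : ℝ) - k| ≤ |(e : ℝ) - i| / 2 with hB
  have hsplit : ∀ e, cv k (nn c (i - k)) e = ∑ n ∈ (range (e + 1)).filter (B e), qq k n * nn c (i - k) (e - n) +
      ∑ n ∈ (range (e + 1)).filter (fun n => ¬ B e n), qq k n * nn c (i - k) (e - n) := by
    intro e
    rw [cv_range, sum_filter_add_sum_filter_not]
  simp only [hsplit, sum_add_distrib]
  have hb := swap_sum hk0N (nn_nonneg c (i - k)) (EE i i r R) (EE i (i - k) (r / 2) (2 * R)) B (by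
    intro e he n hn hBn
    obtain ⟨g1, g2, g3⟩ := hEm e he
    rw [mem_range] at hn
    have hen : ((e - n : ℕ) : ℝ) = e - n := by rw [Nat.cast_sub (by omega)]
    have hBn' : |(n : ℝ) - k| ≤ |(e : ℝ) - i| / 2 := hBn
    unfold EE
    rw [mem_filter, mem_range, hen, hik]
    have e1 : (e : ℝ) - n - (i - k) = (e - i) - (n - k) := by ring
    rw [e1]
    have q1 := abs_sub_abs_le_abs_sub ((e : ℝ) - i) (n - k)
    have q2 := abs_sub ((e : ℝ) - i) (n - k)
    exact ⟨by omega, by linarith, by linarith⟩)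
  have hnb : ∀ e ∈ EE i i r R, ∑ n ∈ (range (e + 1)).filter (fun n => ¬ B e n), qq k n * nn c (i - k) (e - n) ≤
      2 * C2 / Real.sqrt i * (i * (1 / ((e : ℝ) - i) ^ 2)) + 5 * 2 ^ c * (3000 / i) := by
    intro e he
    obtain ⟨g1, g2, g3⟩ := hEm e he
    set F := (range (e + 1)).filter (fun n => ¬ B e n) with hF
    have hFm : ∀ n ∈ F, n ≤ e ∧ |(e : ℝ) - i| / 2 < |(n : ℝ) - k| := by
      intro n hn
      rw [hF, mem_filter, mem_range] at hn
      exact ⟨by omega, not_le.1 hn.2⟩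
    have h1 : ∀ n ∈ F, qq k n * nn c (i - k) (e - n) ≤ qq k n * (2 * C2 / Real.sqrt i) +
        (if (i : ℝ) / 100 < |(n : ℝ) - k| then qq k n else 0) * (5 * 2 ^ c) := by
      intro n hn
      obtain ⟨f1, f2⟩ := hFm n hn
      have hen : ((e - n : ℕ) : ℝ) = e - n := by rw [Nat.cast_sub f1]
      have hq := qq_nonneg k n
      split_ifs with hc
      · have := mul_le_mul_of_nonneg_left (nn_bd c (i - k) (e - n)) hq
        have h0 : 0 ≤ qq k n * (2 * C2 / Real.sqrt i) := by positivity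
        linarith
      · rw [zero_mul, add_zero]
        apply mul_le_mul_of_nonneg_left _ hq
        have hc' := not_lt.1 hc
        refine (hsq (i - k) (e - n) (by omega) ?_).trans ?_
        · rw [hen, hik]
          have e1 : (e : ℝ) - n - (i - k) = (e - i) - (n - k) := by ring
          rw [e1]
          have q2 := abs_sub ((e : ℝ) - i) (n - k)
          linarith
        · rw [hik]
          have c2 : Real.sqrt i / 2 ≤ Real.sqrt ((i : ℝ) - k) := by
            apply Real.le_sqrt_of_sq_le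
            rw [div_pow, hsqi]
            linarith
          have c3 : C2 / Real.sqrt ((i : ℝ) - k) ≤ C2 / (Real.sqrt i / 2) :=
            div_le_div_of_nonneg_left hC2.le (by positivity) c2
          refine c3.trans (le_of_eq ?_)
          field_simp
    refine (sum_le_sum h1).trans ?_
    rw [sum_add_distrib, ← sum_mul, ← sum_mul]
    have h2 : ∑ n ∈ F, qq k n ≤ i * (1 / ((e : ℝ) - i) ^ 2) := by
      have h3 := qq_cheb hk0N (a := |(e : ℝ) - i| / 2) (by linarith) F (fun n hn => (hFm n hn).2.le)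
      refine h3.trans ?_
      have hpos : 0 < ((e : ℝ) - i) ^ 2 := by
        rw [← sq_abs]
        have : 0 < |(e : ℝ) - i| := by linarith
        positivity
      rw [div_pow, sq_abs]
      have e2 : 2 * (k : ℝ) / (((e : ℝ) - i) ^ 2 / 2 ^ 2) = 8 * k * (1 / ((e : ℝ) - i) ^ 2) := by
        field_simp
        norm_num
      rw [e2]
      apply mul_le_mul_of_nonneg_right _ (by positivity)
      linarith
    have h3 : ∑ n ∈ F, (if (i : ℝ) / 100 < |(n : ℝ) - k| then qq k n else 0) ≤ 3000 / i := by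
      rw [← sum_filter]
      have h4 := qq_cheb hk0N (a := (i : ℝ) / 100) (by positivity)
        (F.filter fun n : ℕ => (i : ℝ) / 100 < |(n : ℝ) - k|) (fun n hn => (mem_filter.1 hn).2.le)
      refine h4.trans ?_
      have e2 : 2 * (k : ℝ) / ((i : ℝ) / 100) ^ 2 = 20000 * k / i ^ 2 := by
        field_simp
        norm_num
      rw [e2, div_le_div_iff₀ (by positivity) hi0]
      nlinarith
    have h4 := mul_le_mul_of_nonneg_right h2 (show 0 ≤ 2 * C2 / Real.sqrt i by positivity)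
    have h5 := mul_le_mul_of_nonneg_right h3 (show (0 : ℝ) ≤ 5 * 2 ^ c by positivity)
    linarith
  have hnb' := sum_le_sum hnb
  rw [sum_add_distrib, sum_const, nsmul_eq_mul, ← mul_sum, ← mul_sum] at hnb'
  linarith

end Pool.Agent.TH977.LL
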