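import Pool.Agent.TH977.LL.Typ
import Pool.Agent.TH977.LL.Main
import Pool.Agent.TH977.LL.QQ

/-! Pairs (number of odd steps, number of even steps): the harmonic relation. -/

set_option autoImplicit false

namespace Pool.Agent.TH977.LL

open Pool.Agent.H320R2.PD Pool.Agent.H499R2.ND Pool.Agent.TH977.IP Finset

/-- THE HARMONIC RELATION with error `C / log A` -/
theorem harmF {ι : Type} (F : ι → Set ℤ) (nxt : ι → ℕ → ℕ → ι)
    (hF : ∀ (j : ι) (A : ℝ), 0 < A → 1000 ≤ Real.log A → ∀ k : ℕ, (k : ℝ) ≤ Real.log A / 2 →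
      Pth (F j) (fun T => F (nxt j k T)) A k) : ∃ C : ℝ, 0 < C ∧ ∀ A : ℝ, 0 < A → 1250 ≤ Real.log A → ∀ k : ℕ,
    Real.log A / 6 ≤ k → (k : ℝ) ≤ Real.log A / 2 → ∀ j : ι,
    den (F j) A ≤ ∑ w ∈ WK k, wwt w *
        den (F (nxt j k w.sum)) (A * 3 ^ k / 2 ^ w.sum) + C / Real.log A ∧
    ∑ w ∈ WK k, wwt w * den (F (nxt j k w.sum)) (A * 3 ^ k / 2 ^ w.sum) ≤
      den (F j) A + C / Real.log A := by
  obtain ⟨C, hC, herr⟩ := err_rate
  refine ⟨10 * C, by positivity, ?_⟩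
  intro A hA ht k hk1 hk2 j
  set t := Real.log A with htdef
  have ht0 : 0 < t := by linarith
  obtain ⟨m', hm'⟩ : ∃ m' : ℕ, m' = ⌊Real.sqrt (0.8 * t)⌋₊ := ⟨_, rfl⟩
  obtain ⟨g1, g2, g3⟩ := herr A hA (by linarith) k 0 m' (by rw [← htdef]; simpa using ht0.le) hk1 hk2 hm'
  rw [← htdef] at g3
  have hm'sq : (m' : ℝ) ^ 2 ≤ 0.8 * t := by
    have h1 : (m' : ℝ) ≤ Real.sqrt (0.8 * t) := by
      rw [hm']; exact Nat.floor_le (Real.sqrt_nonneg _)
    calc (m' : ℝ) ^ 2 ≤ (Real.sqrt (0.8 * t)) ^ 2 :=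
          pow_le_pow_left₀ (Nat.cast_nonneg _) h1 2
      _ = 0.8 * t := Real.sq_sqrt (by linarith)
  have hP := hF j A hA (by rw [← htdef]; linarith) k hk2
  -- the next scale
  have hnext : ∀ (i : ι) (T : ℕ), (39 * k + 19) / 20 ≤ T → T ≤ 41 * k / 20 →
      PB (F i) (A * 3 ^ k / 2 ^ T) m' (den (F i) (A * 3 ^ k / 2 ^ T) + 5 * C / t) ∧
      PB (F i)ᶜ (A * 3 ^ k / 2 ^ T) m' (1 - den (F i) (A * 3 ^ k / 2 ^ T) + 5 * C / t) := by
    intro i T hT1 hT2
    have hs := size_T hA hk2 hT1 hT2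
    rw [← htdef] at hs
    have hAT : 0 < A * 3 ^ k / 2 ^ T := by positivity
    set A' := A * 3 ^ k / 2 ^ T with hA'
    set t' := Real.log A' with ht'
    have ht1 : 1000 ≤ t' := by linarith
    obtain ⟨k', hk'⟩ : ∃ k' : ℕ, k' = ⌊t' / 2⌋₊ := ⟨_, rfl⟩
    obtain ⟨n', hn'⟩ : ∃ n' : ℕ, n' = ⌊Real.sqrt (0.8 * t')⌋₊ := ⟨_, rfl⟩
    have hk'1 : (k' : ℝ) ≤ t' / 2 := by rw [hk']; exact Nat.floor_le (by linarith)
    have hk'2 : t' / 6 ≤ k' := by
      have : t' / 2 < k' + 1 := by rw [hk']; exact Nat.lt_floor_add_one _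
      linarith
    have hmt : (m' : ℝ) ^ 2 ≤ t' := hm'sq.trans hs
    obtain ⟨f1, f2, f3⟩ := herr A' hAT ht1 k' m' n' hmt hk'2 hk'1 hn'
    obtain ⟨-, -, f4⟩ := herr A' hAT ht1 k' 0 n' (by simpa using by linarith) hk'2 hk'1 hn'
    have hP' := hF i A' hAT ht1 k' hk'1
    have hCt : C / t' ≤ 5 / 4 * (C / t) := by
      rw [div_le_iff₀ (by linarith)]
      have : 5 / 4 * (C / t) * t' = C * (5 / 4 * t' / t) := by ring
      rw [this]
      have h7 : 1 ≤ 5 / 4 * t' / t := by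
        rw [le_div_iff₀ ht0]
        linarith
      nlinarith
    have hCt' : 5 * C / t = 5 * (C / t) := by ring
    constructor
    · refine PB_mono hAT ?_ (PB_of hAT hP' f1 f2)
      rw [hCt']
      have : 0 < C / t := by positivity
      linarith
    · refine PB_mono hAT ?_ (PB_compl_of hAT hP' f1 f2)
      rw [hCt']
      linarith
  have hmass := WK_mass k
  have hCt : 0 < C / t := by positivity
  constructor
  · have h := den_le hA hP g1 g2 (ρ := fun T => den (F (nxt j k T))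
        (A * 3 ^ k / 2 ^ T) + 5 * C / t) (fun T h1 h2 => (hnext _ T h1 h2).1)
    have e : ∑ w ∈ WK k, wwt w * (den (F (nxt j k w.sum))
        (A * 3 ^ k / 2 ^ w.sum) + 5 * C / t) = ∑ w ∈ WK k, wwt w *
        den (F (nxt j k w.sum)) (A * 3 ^ k / 2 ^ w.sum) +
          (∑ w ∈ WK k, wwt w) * (5 * C / t) := by
      rw [sum_mul, ← sum_add_distrib]
      exact sum_congr rfl fun w _ => by ring
    rw [e] at h
    have h1 : (∑ w ∈ WK k, wwt w) * (5 * C / t) ≤ 1 * (5 * C / t) :=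
      mul_le_mul_of_nonneg_right hmass (by positivity)
    have e1 : 5 * C / t = 5 * (C / t) := by ring
    have e2 : 10 * C / t = 10 * (C / t) := by ring
    rw [e2]
    rw [e1] at h h1
    linarith
  · have h := den_le hA hP.compl g1 g2 (ρ := fun T => 1 - den (F (nxt j k T))
        (A * 3 ^ k / 2 ^ T) + 5 * C / t) (fun T h1 h2 => (hnext _ T h1 h2).2)
    have e : ∑ w ∈ WK k, wwt w * (1 - den (F (nxt j k w.sum))
        (A * 3 ^ k / 2 ^ w.sum) + 5 * C / t) = (∑ w ∈ WK k, wwt w) * (1 + 5 * C / t) - ∑ w ∈ WK k, wwt w *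
        den (F (nxt j k w.sum)) (A * 3 ^ k / 2 ^ w.sum) := by
      rw [sum_mul, ← sum_sub_distrib]
      exact sum_congr rfl fun w _ => by ring
    rw [e] at h
    have h1 : (∑ w ∈ WK k, wwt w) * (1 + 5 * C / t) ≤ 1 * (1 + 5 * C / t) :=
      mul_le_mul_of_nonneg_right hmass (by positivity)
    have h2 := (den_compl (F j) hA).2
    have h3 := two_div_le hA k m'
    have e1 : 5 * C / t = 5 * (C / t) := by ring
    have e2 : 10 * C / t = 10 * (C / t) := by ring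
    rw [e2]
    rw [e1] at h h1
    linarith


/-- reach `1` for the first time after `i + e` steps of `T`, `i` of them odd -/
def H2 (p : ℤ × ℤ) : Set ℤ := HS 1 0 p.1 ∩ HS 0 1 (p.1 + p.2)

theorem H2_Pth (p : ℤ × ℤ) {A : ℝ} (hA : 0 < A) (ht : 1000 ≤ Real.log A) {k : ℕ}
    (hk : (k : ℝ) ≤ Real.log A / 2) :
    Pth (H2 p) (fun T => H2 (p.1 - k, p.2 - ((T : ℤ) - k))) A k := by
  intro w hw M x hM hx h1 h2 hV
  have g1 := HS_Pth 1 0 p.1 hA ht hk w hw M x hM hx h1 h2 hV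
  have g2 := HS_Pth 0 1 (p.1 + p.2) hA ht hk w hw M x hM hx h1 h2 hV
  have e1 : p.1 - ((1 : ℕ) : ℤ) * k - ((0 : ℕ) : ℤ) * (w.sum : ℕ) = p.1 - k := by push_cast; ring
  have e2 : p.1 + p.2 - ((0 : ℕ) : ℤ) * k - ((1 : ℕ) : ℤ) * (w.sum : ℕ) =
      p.1 - k + (p.2 - ((w.sum : ℕ) - (k : ℤ))) := by push_cast; ring
  simp only [e1] at g1
  simp only [e2] at g2
  unfold H2
  exact and_congr g1 g2

theorem harm2 : ∃ C : ℝ, 0 < C ∧ ∀ A : ℝ, 0 < A → 1250 ≤ Real.log A → ∀ k : ℕ,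
    Real.log A / 6 ≤ k → (k : ℝ) ≤ Real.log A / 2 → ∀ p : ℤ × ℤ,
    |den (H2 p) A - ∑ n ∈ Icc ((39 * k + 19) / 20 - k) (41 * k / 20 - k),
      qq k n * den (H2 (p.1 - k, p.2 - n)) (A * 3 ^ k / 2 ^ (k + n))| ≤ C / Real.log A := by
  obtain ⟨C, hC, h⟩ := harmF H2 (fun p k T => (p.1 - k, p.2 - ((T : ℤ) - k)))
    (fun p A hA ht k hk => H2_Pth p hA ht hk)
  refine ⟨C, hC, fun A hA ht k hk1 hk2 p => ?_⟩
  obtain ⟨h1, h2⟩ := h A hA ht k hk1 hk2 p
  have hk0 : 1 ≤ k := by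
    have : (0 : ℝ) < k := by linarith
    exact_mod_cast this
  rw [sum_WK k (fun T => den (H2 (p.1 - k, p.2 - ((T : ℤ) - k))) (A * 3 ^ k / 2 ^ T))] at h1 h2
  have e : ∑ T ∈ Icc ((39 * k + 19) / 20) (41 * k / 20), pk k T *
      den (H2 (p.1 - k, p.2 - ((T : ℤ) - k))) (A * 3 ^ k / 2 ^ T) =
      ∑ n ∈ Icc ((39 * k + 19) / 20 - k) (41 * k / 20 - k),
      qq k n * den (H2 (p.1 - k, p.2 - n)) (A * 3 ^ k / 2 ^ (k + n)) := by
    symm
    apply sum_nbij' (fun n => k + n) (fun T => T - k)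
    · intro n hn
      rw [mem_Icc] at hn ⊢
      omega
    · intro T hT
      rw [mem_Icc] at hT ⊢
      omega
    · intro n _
      omega
    · intro T hT
      rw [mem_Icc] at hT
      omega
    · intro n hn
      rw [mem_Icc] at hn
      rw [qq_pk hk0 (by omega)]
      have e3 : (((k + n : ℕ) : ℤ) - k) = n := by push_cast; ring
      rw [e3]
  rw [e] at h1 h2
  rw [abs_le]
  constructor <;> linarith

theorem den_bd (S : Set ℤ) {A : ℝ} (hA : 0 < A) : den S A ≤ 5 := by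
  unfold den
  rcases lt_or_ge A (1 / 2) with h | h
  · have : cls S A (2 * A) 0 1 0 = ∅ := by
      rw [eq_empty_iff_forall_notMem]
      intro x hx
      rw [mem_cls] at hx
      have h1 : (0 : ℝ) < x := lt_of_lt_of_le hA hx.1.1
      have h2 : (x : ℝ) < 1 := by linarith [hx.1.2]
      have h3 : 0 < x := by exact_mod_cast h1
      have h4 : x < 1 := by exact_mod_cast h2
      omega
    rw [this]
    simp
  · rw [div_le_iff₀ (by positivity)]
    have h1 := cls_card_le S (a := A) (b := 2 * A) (by linarith) 0 isCoprime_one_left 0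
    rw [pow_zero, mul_one] at h1
    linarith

/-- `2 ^ (i + e) / 3 ^ i` -/
noncomputable def XX (p : ℤ × ℤ) : ℝ := Real.exp ((p.1 + p.2) * Real.log 2 - p.1 * Real.log 3)

theorem XX_pos (p : ℤ × ℤ) : 0 < XX p := Real.exp_pos _

theorem XX_log (p : ℤ × ℤ) : Real.log (XX p) = (p.1 + p.2) * Real.log 2 - p.1 * Real.log 3 := Real.log_exp _

theorem XX_step (p : ℤ × ℤ) (k n : ℕ) : XX p * 3 ^ k / 2 ^ (k + n) = XX (p.1 - k, p.2 - n) := by
  have h3 : (3 : ℝ) ^ k = Real.exp (k * Real.log 3) := by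
    rw [mul_comm, Real.exp_mul, Real.exp_log (by norm_num), Real.rpow_natCast]
  have h2 : (2 : ℝ) ^ (k + n) = Real.exp (((k + n : ℕ) : ℝ) * Real.log 2) := by
    rw [mul_comm, Real.exp_mul, Real.exp_log (by norm_num), Real.rpow_natCast]
  unfold XX
  rw [h3, h2, ← Real.exp_add, ← Real.exp_sub]
  congr 1
  push_cast
  ring

/-- the normalised number of points of `H2 p` -/
noncomputable def nu (c : ℕ) (p : ℤ × ℤ) : ℝ :=
  ∑ w ∈ range (2 * c + 1), den (H2 p) (XX p * 2 ^ c / 2 ^ w) * (2 ^ c / 2 ^ w / 2)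

theorem nu_nonneg (c : ℕ) (p : ℤ × ℤ) : 0 ≤ nu c p := by
  unfold nu
  apply sum_nonneg
  intro w _
  have := XX_pos p
  exact mul_nonneg (den_nonneg _ (by positivity)) (by positivity)

theorem geo2 (c N : ℕ) : ∑ w ∈ range N, (2 : ℝ) ^ c / 2 ^ w / 2 ≤ 2 ^ c := by
  have h := geo (2 ^ c) (by positivity) N
  refine le_trans (le_of_eq ?_) h
  apply sum_congr rfl
  intro w _
  rw [pow_succ, div_div]

theorem nu_bd (c : ℕ) (p : ℤ × ℤ) : nu c p ≤ 5 * 2 ^ c := by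
  unfold nu
  have hX := XX_pos p
  refine (sum_le_sum fun w _ => mul_le_mul_of_nonneg_right (den_bd (H2 p) (A := XX p * 2 ^ c / 2 ^ w)
    (by positivity)) (by positivity)).trans ?_
  rw [← mul_sum]
  exact mul_le_mul_of_nonneg_left (geo2 c _) (by norm_num)

end Pool.Agent.TH977.LL
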