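import Pool.Agent.TH977.LL.Low3
import Pool.Agent.TH977.LL.Brd
import Pool.Agent.TH977.LL.Cnt
import Pool.Agent.H499R2.HL.B

/-! The typical points have a positive density. -/

set_option autoImplicit false

namespace Pool.Agent.TH977.LL

open Pool.Agent.H320R2.PD Pool.Agent.H499R2.ND Pool.Agent.TH977.IP Finset Filter Topology

open Pool.Agent.H363R2 (Cm)

theorem Sy_nat (n : ℕ) : Sy 1 (n : ℤ) = ((Cm n : ℕ) : ℤ) := by
  have h : ex 1 (n : ℤ) = padicValNat 2 (3 * n + 1) := by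
    unfold ex
    have e : (3 * (n : ℤ) + 1) = ((3 * n + 1 : ℕ) : ℤ) := by push_cast; ring
    rw [e, padicValInt.of_nat]
  unfold Sy Cm
  rw [h]
  push_cast
  rfl

theorem Sy_iter_nat (n k : ℕ) : (Sy 1)^[k] (n : ℤ) = ((Cm^[k] n : ℕ) : ℤ) := by
  induction k with
  | zero => rfl
  | succ k ih => rw [Function.iterate_succ_apply', Function.iterate_succ_apply', ih, Sy_nat]

theorem ht_iff_HS {n h : ℕ} (hn : n ≠ 1) : IsHt n h ↔ (n : ℤ) ∈ HS 1 0 h := by
  constructor
  · rintro ⟨h1, h2, h3⟩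
    refine ⟨h, ?_, ?_, by simp⟩
    · rw [Sy_iter_nat, h2]; rfl
    · intro i hi
      rw [Sy_iter_nat]
      rcases Nat.eq_zero_or_pos i with h0 | h0
      · subst h0
        intro hcon
        apply hn
        exact_mod_cast hcon
      · intro hcon
        exact h3 i h0 hi (by exact_mod_cast hcon)
  · rintro ⟨K, h1, h2, h3⟩
    have hK : K = h := by
      have : ((K : ℕ) : ℤ) = h := by rw [← h3]; simp
      exact_mod_cast this
    subst hK
    refine ⟨?_, ?_, ?_⟩
    · by_contra hcon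
      have h0 : K = 0 := by omega
      subst h0
      apply hn
      have : (n : ℤ) = 1 := h1
      exact_mod_cast this
    · rw [Sy_iter_nat] at h1
      exact_mod_cast h1
    · intro k _ hk hcon
      apply h2 k hk
      rw [Sy_iter_nat, hcon]
      rfl

/-- the clocks of an odd number of finite height -/
theorem clock : ∃ C : ℝ, 0 < C ∧ ∀ n h : ℕ, Odd n → n ≠ 1 → IsHt n h → ∃ k : ℕ,
    (∀ al be : ℕ, (n : ℤ) ∈ HS al be (al * h + be * k)) ∧
    |Real.log n + h * Real.log 3 - k * Real.log 2| ≤ C := by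
  classical
  obtain ⟨C, hC, hres⟩ := Pool.Agent.H499R2.HL.res_one
  refine ⟨C, hC, fun n h hodd hn hh => ?_⟩
  have hb : ∃ k, Tn^[k] n = 1 := (ht_iff hodd).2 ⟨h, hh⟩
  have hk : Pool.Agent.H499R2.HL.H (Nat.find hb) n :=
    ⟨Nat.find_spec hb, fun i hi => Nat.find_min hb hi⟩
  set k := Nat.find hb with hkdef
  have h5 := Pool.Agent.H363R2.Cm_height k n hodd hn
    (by rw [TN_eq_Tn]; exact hk.1) (by rw [TN_eq_Tn]; exact hk.2)
  rw [Pool.Agent.H499R2.HL.oc_odn] at h5
  have h6 : IsHt n (Pool.Agent.H499R2.LT.odn k n) := h5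
  have h7 := ht_unique hh h6
  refine ⟨k, ?_, ?_⟩
  · obtain ⟨K, g1, g2, g3⟩ := HS_of_hit k (n : ℤ) (by exact_mod_cast hodd)
      (by rw [Pool.Agent.H499R2.LT.Td_nat, hk.1]; rfl)
      (fun i hi => by
        rw [Pool.Agent.H499R2.LT.Td_nat]
        intro hcon
        exact hk.2 i hi (by exact_mod_cast hcon))
    have g4 : (n : ℤ) ∈ HS 1 0 K := ⟨K, g1, g2, by simp⟩
    have g5 := HS_unique g4 ((ht_iff_HS hn).1 hh)
    have g6 : K = h := by exact_mod_cast g5
    intro al be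
    refine ⟨K, g1, g2, ?_⟩
    rw [g3, g6]
  · have h8 := hres n k hodd.pos hk
    rw [← h7] at h8
    exact h8

theorem Phi_large : ∃ x : ℝ, 0 < x ∧ 1 / 2 ≤ Phi x - Phi (-x) := by
  have h1 := ProbabilityTheory.tendsto_cdf_atTop (ProbabilityTheory.gaussianReal 0 1)
  have h2 : ∀ᶠ x : ℝ in atTop, 3 / 4 < ProbabilityTheory.cdf (ProbabilityTheory.gaussianReal 0 1) x :=
    h1.eventually_const_lt (by norm_num)
  obtain ⟨x, hx1, hx2⟩ := (h2.and (eventually_gt_atTop 0)).exists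
  refine ⟨x, hx2, ?_⟩
  rw [← phi_cdf] at hx1
  rw [Phi_neg]
  linarith

theorem typ (al be : ℕ) : ∃ c0 B2 : ℝ, 0 < c0 ∧ 0 ≤ B2 ∧ ∃ E0 : ℕ, ∀ e : ℕ, E0 ≤ e →
    c0 * 2 ^ e ≤ ((cls (Ty al be B2) (2 ^ e) (2 * 2 ^ e) 0 1 0).card : ℝ) := by
  obtain ⟨δ, hδ0, _, _, _, hlaw⟩ := Pool.Agent.H499R2.HL.law_ht
  obtain ⟨C, hC, hclock⟩ := clock
  obtain ⟨z, hz, hPhi⟩ := Phi_large
  have h1 := (hlaw 1 0 le_rfl).2 z
  have h2 := (hlaw 1 0 le_rfl).2 (-z)
  have hbo : ∀ (x L : ℝ), Pool.Agent.H499R2.HL.bo x L = L / hh +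
      x * (Real.log 2 * Pool.Agent.H499R2.HL.rr) * Real.sqrt L := by
    intro x L
    unfold Pool.Agent.H499R2.HL.bo
    rw [Pool.Agent.H499R2.HL.sqrt_rr]
    have : Real.log (4 / 3) = hh := Pool.Agent.H499R2.HL.nu_eq
    rw [this]
    ring
  have hl2 := Real.log_two_gt_d9
  have hl2' := Real.log_two_lt_d9
  have hrr := Pool.Agent.H499R2.HL.rr_pos
  obtain ⟨hh1, hh2⟩ := hh_bd
  set b : ℝ := z * (Real.log 2 * Pool.Agent.H499R2.HL.rr) with hb
  have hb0 : 0 < b := by positivity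
  have hD := Dn_diff h1 h2 (by
    rintro n ⟨g1, h, g2, g3, g4⟩
    refine ⟨g1, h, g2, ?_, g4⟩
    rw [hbo] at g3 ⊢
    have : 0 ≤ Real.sqrt (Real.log n) := Real.sqrt_nonneg _
    have h5 : -z * (Real.log 2 * Pool.Agent.H499R2.HL.rr) = -b := by rw [hb]; ring
    rw [h5] at g3
    nlinarith)
  have hl : 0 < δ / (1 : ℕ) * Phi z / 2 - δ / (1 : ℕ) * Phi (-z) / 2 := by
    have : δ / ((1 : ℕ) : ℝ) * Phi z / 2 - δ / ((1 : ℕ) : ℝ) * Phi (-z) / 2 =
        δ / 2 * (Phi z - Phi (-z)) := by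
      push_cast; ring
    rw [this]
    have : 0 < Phi z - Phi (-z) := by linarith
    positivity
  obtain ⟨E0, hE0⟩ := win_of_Dn hl hD (S := Ty al be ((al + 2 * be) * b + be * (2 * C + 2))) (by
    rintro n hn ⟨⟨g1, h, g2, g3, g4⟩, g5⟩
    have hodd : Odd n := Nat.odd_iff.2 g1
    refine ⟨hodd, ?_⟩
    have g6 : ¬ (h : ℝ) ≤ Pool.Agent.H499R2.HL.bo (-z) (Real.log n) := by
      intro hcon
      exact g5 ⟨g1, h, g2, hcon, g4⟩
    rw [hbo] at g3 g6
    have h5 : -z * (Real.log 2 * Pool.Agent.H499R2.HL.rr) = -b := by rw [hb]; ring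
    rw [h5] at g6
    rw [← hb] at g3
    push Not at g6
    obtain ⟨k, hk1, hk2⟩ := hclock n h hodd (by omega) g2
    refine ⟨al * h + be * k, hk1 al be, ?_⟩
    have hn3 : 3 ≤ n := by
      rcases hodd with ⟨q, hq⟩
      omega
    have hL1 : 1 ≤ Real.log n := by
      have h8 : Real.log 3 ≤ Real.log n := by
        apply Real.log_le_log (by norm_num)
        exact_mod_cast hn3
      have h9 : hh = 2 * Real.log 2 - Real.log 3 := rfl
      linarith
    have hLz : Real.log ((n : ℤ) : ℝ) = Real.log n := by push_cast; rfl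
    rw [hLz]
    set L := Real.log n with hL
    set s := Real.sqrt L with hs
    have hs1 : 1 ≤ s := Real.le_sqrt_of_sq_le (by linarith)
    have hu : |(h : ℝ) - L / hh| ≤ b * s := by
      rw [abs_le]
      constructor <;> linarith
    have hv : |(k : ℝ) - 2 * (L / hh)| ≤ 2 * (b * s) + 2 * C := by
      have e1 : ((k : ℝ) - 2 * (L / hh)) * Real.log 2 =
          ((h : ℝ) - L / hh) * Real.log 3 - (L + h * Real.log 3 - k * Real.log 2) := by
        have h8 : hh = 2 * Real.log 2 - Real.log 3 := rfl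
        have h9 : L / hh * (2 * Real.log 2 - Real.log 3) = L := by
          rw [← h8]; field_simp
        linarith
      have e2 : |(k : ℝ) - 2 * (L / hh)| * Real.log 2 ≤ (b * s) * Real.log 3 + C := by
        have e0 : |(k : ℝ) - 2 * (L / hh)| * Real.log 2 = |((k : ℝ) - 2 * (L / hh)) * Real.log 2| := by
          rw [abs_mul, abs_of_pos (by linarith : 0 < Real.log 2)]
        rw [e0, e1]
        refine (abs_sub _ _).trans ?_
        rw [abs_mul]
        have h8 : hh = 2 * Real.log 2 - Real.log 3 := rfl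
        rw [abs_of_pos (by linarith : 0 < Real.log 3)]
        have := mul_le_mul_of_nonneg_right hu (by linarith : 0 ≤ Real.log 3)
        linarith
      have e3 : (b * s) * Real.log 3 + C ≤ (2 * (b * s) + 2 * C) * Real.log 2 := by
        have h8 : hh = 2 * Real.log 2 - Real.log 3 := rfl
        have h10 : (b * s) * Real.log 3 ≤ (b * s) * (2 * Real.log 2) :=
          mul_le_mul_of_nonneg_left (by linarith) (by positivity)
        nlinarith
      exact le_of_mul_le_mul_right (e2.trans e3) (by linarith)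
    have ha0 : (0 : ℝ) ≤ al := Nat.cast_nonneg _
    have hbe0 : (0 : ℝ) ≤ be := Nat.cast_nonneg _
    have e4 : (((al : ℤ) * h + be * k : ℤ) : ℝ) - lam al be * L =
        al * ((h : ℝ) - L / hh) + be * ((k : ℝ) - 2 * (L / hh)) := by
      unfold lam
      push_cast
      ring
    rw [e4]
    refine (abs_add_le _ _).trans ?_
    rw [abs_mul, abs_mul, abs_of_nonneg ha0, abs_of_nonneg hbe0]
    have e5 := mul_le_mul_of_nonneg_left hu ha0
    have e6 := mul_le_mul_of_nonneg_left hv hbe0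
    have e7 : (be : ℝ) * (2 * C) ≤ be * ((2 * C + 2) * s) := by
      apply mul_le_mul_of_nonneg_left _ hbe0
      nlinarith
    linarith)
  exact ⟨_, _, half_pos hl, by positivity, E0, hE0⟩

end Pool.Agent.TH977.LL
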