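import Pool.Agent.TH977.LL.Harm
import Pool.Agent.TH977.LL.Bin

/-! The upper bound for single values. -/

set_option autoImplicit false

namespace Pool.Agent.TH977.LL

open Pool.Agent.H320R2.PD Pool.Agent.H499R2.ND Pool.Agent.TH977.IP Finset

theorem pair_inj {al be k T k' T' : ℕ} (h : 1 ≤ al + be) (hq : al * k + be * T = al * k' + be * T')
    (h1 : 3 ^ k * 2 ^ T' < 2 * (3 ^ k' * 2 ^ T)) (h2 : 3 ^ k' * 2 ^ T < 2 * (3 ^ k * 2 ^ T')) :
    k = k' ∧ T = T' := by
  have main : ∀ {k T k' T' : ℕ}, al * k + be * T = al * k' + be * T' →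
      3 ^ k' * 2 ^ T < 2 * (3 ^ k * 2 ^ T') → ¬ k < k' := by
    intro k T k' T' hq h2 hlt
    obtain ⟨d, rfl⟩ : ∃ d, k' = k + (d + 1) := ⟨k' - k - 1, by omega⟩
    have hT : T' ≤ T := by
      by_contra hcon
      push Not at hcon
      obtain ⟨f, rfl⟩ : ∃ f, T' = T + (f + 1) := ⟨T' - T - 1, by omega⟩
      have : al * (d + 1) + be * (f + 1) = 0 := by nlinarith
      have h3 : al * (d + 1) = 0 := by omega
      have h4 : be * (f + 1) = 0 := by omega
      rcases Nat.mul_eq_zero.1 h3 with h5 | h5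
      · rcases Nat.mul_eq_zero.1 h4 with h6 | h6 <;> omega
      · omega
    have h3 : (2 : ℕ) ^ T' ≤ 2 ^ T := Nat.pow_le_pow_right (by norm_num) hT
    have h4 : 3 ^ k * 3 ≤ 3 ^ (k + (d + 1)) := by
      rw [← pow_succ]
      exact Nat.pow_le_pow_right (by norm_num) (by omega)
    have h5 : 3 ^ k * 3 * 2 ^ T' ≤ 3 ^ (k + (d + 1)) * 2 ^ T := Nat.mul_le_mul h4 h3
    have h6 : 0 < 3 ^ k * 2 ^ T' := by positivity
    nlinarith
  have hk : k = k' := by
    have a1 := main hq h2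
    have a2 := main hq.symm h1
    omega
  subst hk
  refine ⟨rfl, ?_⟩
  have h3 : 0 < 3 ^ k := by positivity
  have h4 : (2 : ℕ) ^ T' < 2 ^ (T + 1) := by
    have : 3 ^ k * 2 ^ T' < 3 ^ k * 2 ^ (T + 1) := by rw [pow_succ]; nlinarith
    exact Nat.lt_of_mul_lt_mul_left this
  have h5 : (2 : ℕ) ^ T < 2 ^ (T' + 1) := by
    have : 3 ^ k * 2 ^ T < 3 ^ k * 2 ^ (T' + 1) := by rw [pow_succ]; nlinarith
    exact Nat.lt_of_mul_lt_mul_left this
  have h6 := (Nat.pow_lt_pow_iff_right (by norm_num : 1 < 2)).1 h4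
  have h7 := (Nat.pow_lt_pow_iff_right (by norm_num : 1 < 2)).1 h5
  omega

/-- the dyadic level -/
noncomputable def ef (y : ℝ) : ℕ := Nat.log 2 ⌊y⌋₊

theorem ef_spec {y : ℝ} (hy : 1 ≤ y) : (2 : ℝ) ^ ef y ≤ y ∧ y < 2 ^ (ef y + 1) := by
  have h1 : 1 ≤ ⌊y⌋₊ := Nat.le_floor (by simpa using hy)
  have h2 : 2 ^ ef y ≤ ⌊y⌋₊ := Nat.pow_log_le_self 2 (by omega)
  have h3 : ⌊y⌋₊ < 2 ^ (ef y + 1) := Nat.lt_pow_succ_log_self (by norm_num) _
  constructor
  · have : ((2 ^ ef y : ℕ) : ℝ) ≤ (⌊y⌋₊ : ℝ) := by exact_mod_cast h2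
    have h4 := Nat.floor_le (by linarith : 0 ≤ y)
    push_cast at this
    linarith
  · have h4 : ⌊y⌋₊ + 1 ≤ 2 ^ (ef y + 1) := h3
    have h5 : ((⌊y⌋₊ : ℕ) : ℝ) + 1 ≤ 2 ^ (ef y + 1) := by exact_mod_cast h4
    have := Nat.lt_floor_add_one y
    linarith

/-- odd integers in `[2 ^ e, 2 ^ (e + 2))` -/
noncomputable def We (e : ℕ) : Finset ℤ := cls Set.univ (2 ^ e) (4 * 2 ^ e) 0 1 0

theorem We_card (e : ℕ) : ((We e).card : ℝ) ≤ 5 / 2 * 2 ^ e := by
  have h := cls_card_le Set.univ (a := 2 ^ e) (b := 4 * 2 ^ e) (by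
    have : (0 : ℝ) < 2 ^ e := by positivity
    linarith) 0 isCoprime_one_left 0
  rw [pow_zero, mul_one] at h
  have h1 : (1 : ℝ) ≤ 2 ^ e := one_le_pow₀ (by norm_num)
  unfold We
  linarith

/-- the index of the next set -/
def nx (al be : ℕ) (j : ℤ) (p : ℕ × ℕ) : ℤ := j - al * p.1 - be * p.2

/-- the next scale -/
noncomputable def sc (A : ℝ) (p : ℕ × ℕ) : ℝ := A * 3 ^ p.1 / 2 ^ p.2

open scoped Classical in
theorem den_We (al be : ℕ) (i : ℤ) {y : ℝ} (hy : 1 ≤ y) :
    den (HS al be i) y ≤ 2 / 2 ^ ef y * ((We (ef y)).filter fun x => x ∈ HS al be i).card := by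
  obtain ⟨h1, h2⟩ := ef_spec hy
  have hsub : cls (HS al be i) y (2 * y) 0 1 0 ⊆ (We (ef y)).filter fun x => x ∈ HS al be i := by
    intro x hx
    rw [mem_cls] at hx
    rw [mem_filter]
    unfold We
    rw [mem_cls]
    rw [pow_succ] at h2
    exact ⟨⟨⟨by linarith [hx.1.1], by linarith [hx.1.2]⟩, hx.2.1, Set.mem_univ _, hx.2.2.2⟩, hx.2.2.1⟩
  have h3 : ((cls (HS al be i) y (2 * y) 0 1 0).card : ℝ) ≤
      ((We (ef y)).filter fun x => x ∈ HS al be i).card := by exact_mod_cast card_le_card hsub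
  unfold den
  rw [div_le_iff₀ (by linarith)]
  have h4 : (0 : ℝ) < 2 ^ ef y := by positivity
  have h5 : 1 ≤ 2 / 2 ^ ef y * (y / 2) := by
    rw [div_mul_div_comm, mul_comm (2 : ℝ) y, mul_div_mul_right _ _ (by norm_num), le_div_iff₀ h4]
    linarith
  have h6 : (0 : ℝ) ≤ ((We (ef y)).filter fun x => x ∈ HS al be i).card := Nat.cast_nonneg _
  nlinarith

open scoped Classical in
/-- the sum over all stages -/
theorem big_sum {al be : ℕ} (h : 1 ≤ al + be) (j : ℤ) {A : ℝ} (hA : 0 < A) (P : Finset (ℕ × ℕ)) (E : ℕ)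
    (hP : ∀ p ∈ P, 1 ≤ sc A p ∧ ef (sc A p) < E) :
    ∑ p ∈ P, den (HS al be (nx al be j p)) (sc A p) ≤ 5 * E := by
  have h1 : ∑ p ∈ P, den (HS al be (nx al be j p)) (sc A p) ≤
      ∑ p ∈ P, 2 / 2 ^ ef (sc A p) * (((We (ef (sc A p))).filter fun x =>
        x ∈ HS al be (nx al be j p)).card : ℝ) := sum_le_sum fun p hp => den_We al be _ (hP p hp).1
  refine h1.trans ?_
  rw [← sum_fiberwise_of_maps_to (s := P) (t := range E) (g := fun p => ef (sc A p))
    (fun p hp => mem_range.2 (hP p hp).2)]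
  have h2 : ∀ e ∈ range E, ∑ p ∈ P.filter (fun p => ef (sc A p) = e),
      2 / 2 ^ ef (sc A p) * (((We (ef (sc A p))).filter fun x => x ∈ HS al be (nx al be j p)).card : ℝ) ≤ 5 := by
    intro e _
    have h3 : ∑ p ∈ P.filter (fun p => ef (sc A p) = e),
        2 / 2 ^ ef (sc A p) * (((We (ef (sc A p))).filter fun x => x ∈ HS al be (nx al be j p)).card : ℝ) =
        2 / 2 ^ e * ∑ p ∈ P.filter (fun p => ef (sc A p) = e),
          (((We e).filter fun x => x ∈ HS al be (nx al be j p)).card : ℝ) := by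
      rw [mul_sum]
      apply sum_congr rfl
      intro p hp
      rw [(mem_filter.1 hp).2]
    rw [h3]
    have h4 : ∑ p ∈ P.filter (fun p => ef (sc A p) = e),
        (((We e).filter fun x => x ∈ HS al be (nx al be j p)).card : ℝ) ≤ (We e).card := by
      have h5 : ∑ p ∈ P.filter (fun p => ef (sc A p) = e),
          ((We e).filter fun x => x ∈ HS al be (nx al be j p)).card ≤ (We e).card := by
        rw [← card_biUnion]
        · apply card_le_card
          intro x hx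
          rw [mem_biUnion] at hx
          obtain ⟨p, _, hx⟩ := hx
          exact (mem_filter.1 hx).1
        · intro p hp p' hp' hne
          rw [Function.onFun, Finset.disjoint_left]
          intro x hx hx'
          apply hne
          rw [mem_coe, mem_filter] at hp hp'
          have hq := HS_unique (mem_filter.1 hx).2 (mem_filter.1 hx').2
          obtain ⟨s1, s2⟩ := ef_spec (hP p hp.1).1
          obtain ⟨s1', s2'⟩ := ef_spec (hP p' hp'.1).1
          rw [hp.2] at s1 s2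
          rw [hp'.2] at s1' s2'
          obtain ⟨k, T⟩ := p
          obtain ⟨k', T'⟩ := p'
          unfold nx at hq
          unfold sc at s1 s2 s1' s2'
          simp only at hq s1 s2 s1' s2'
          rw [pow_succ] at s2 s2'
          have c1 : A * 3 ^ k / 2 ^ T < 2 * (A * 3 ^ k' / 2 ^ T') := by linarith
          have c2 : A * 3 ^ k' / 2 ^ T' < 2 * (A * 3 ^ k / 2 ^ T) := by linarith
          have g1 : (3 : ℝ) ^ k * 2 ^ T' < 2 * (3 ^ k' * 2 ^ T) := by
            rw [← mul_div_assoc, div_lt_div_iff₀ (by positivity) (by positivity)] at c1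
            have : A * (3 ^ k * 2 ^ T') < A * (2 * (3 ^ k' * 2 ^ T)) := by linarith
            exact lt_of_mul_lt_mul_left this hA.le
          have g2 : (3 : ℝ) ^ k' * 2 ^ T < 2 * (3 ^ k * 2 ^ T') := by
            rw [← mul_div_assoc, div_lt_div_iff₀ (by positivity) (by positivity)] at c2
            have : A * (3 ^ k' * 2 ^ T) < A * (2 * (3 ^ k * 2 ^ T')) := by linarith
            exact lt_of_mul_lt_mul_left this hA.le
          have f1 : 3 ^ k * 2 ^ T' < 2 * (3 ^ k' * 2 ^ T) := by exact_mod_cast g1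
          have f2 : 3 ^ k' * 2 ^ T < 2 * (3 ^ k * 2 ^ T') := by exact_mod_cast g2
          have f3 : al * k + be * T = al * k' + be * T' := by
            have : (al : ℤ) * k + be * T = al * k' + be * T' := by linarith
            exact_mod_cast this
          obtain ⟨r1, r2⟩ := pair_inj h f3 f1 f2
          rw [r1, r2]
      exact_mod_cast h5
    have h6 := We_card e
    have h7 : (0 : ℝ) < 2 ^ e := by positivity
    calc 2 / 2 ^ e * ∑ p ∈ P.filter (fun p => ef (sc A p) = e),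
          (((We e).filter fun x => x ∈ HS al be (nx al be j p)).card : ℝ)
        ≤ 2 / 2 ^ e * (5 / 2 * 2 ^ e) := mul_le_mul_of_nonneg_left (h4.trans h6) (by positivity)
      _ = 5 := by field_simp
  refine (sum_le_sum h2).trans ?_
  rw [sum_const, card_range, nsmul_eq_mul, mul_comm]

/-- scales of one stage -/
theorem sc_bd {A : ℝ} (hA : 0 < A) (ht : 1250 ≤ Real.log A) {k T : ℕ} (hk : (k : ℝ) ≤ Real.log A / 2)
    (h1 : (39 * k + 19) / 20 ≤ T) (h2 : T ≤ 41 * k / 20) :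
    1 ≤ A * 3 ^ k / 2 ^ T ∧ A * 3 ^ k / 2 ^ T ≤ A := by
  have h3 := size_T hA hk h1 h2
  constructor
  · rw [← Real.log_nonneg_iff (by positivity)]
    linarith
  · rw [div_le_iff₀ (by positivity)]
    apply mul_le_mul_of_nonneg_left _ hA.le
    have h4 : 5 * k ≤ 3 * T := by omega
    have h5 : (3 : ℝ) ^ k ≤ 2 ^ T := by
      have h6 : ((3 : ℝ) ^ k) ^ 3 ≤ (2 ^ T) ^ 3 := by
        calc ((3 : ℝ) ^ k) ^ 3 = 27 ^ k := by rw [← pow_mul, mul_comm, pow_mul]; norm_num
          _ ≤ 32 ^ k := pow_le_pow_left₀ (by norm_num) (by norm_num) k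
          _ = 2 ^ (5 * k) := by rw [pow_mul]; norm_num
          _ ≤ 2 ^ (3 * T) := pow_le_pow_right₀ (by norm_num) h4
          _ = (2 ^ T) ^ 3 := by rw [← pow_mul, mul_comm]
      exact le_of_pow_le_pow_left₀ (by norm_num) (by positivity) h6
    exact h5

theorem upp {al be : ℕ} (h : 1 ≤ al + be) : ∃ C : ℝ, 0 < C ∧ ∀ A : ℝ, 0 < A → 1250 ≤ Real.log A →
    ∀ j : ℤ, den (HS al be j) A ≤ C / Real.sqrt (Real.log A) := by
  classical
  obtain ⟨C, hC, hharm⟩ := harm al be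
  refine ⟨120 + C, by positivity, ?_⟩
  intro A hA ht j
  set t := Real.log A with htdef
  have ht0 : 0 < t := by linarith
  obtain ⟨K0, hK0⟩ : ∃ K0 : ℕ, K0 = ⌊t / 4⌋₊ := ⟨_, rfl⟩
  have hK1 : (K0 : ℝ) ≤ t / 4 := by rw [hK0]; exact Nat.floor_le (by linarith)
  have hK2 : t / 4 < K0 + 1 := by rw [hK0]; exact Nat.lt_floor_add_one _
  have hK3 : t / 5 ≤ K0 := by linarith
  have hK0pos : (0 : ℝ) < K0 := by linarith
  set lo : ℕ → ℕ := fun k => (39 * k + 19) / 20 with hlo
  set hi : ℕ → ℕ := fun k => 41 * k / 20 with hhi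
  have hkb : ∀ k ∈ Ico K0 (2 * K0), t / 6 ≤ (k : ℝ) ∧ (k : ℝ) ≤ t / 2 := by
    intro k hk
    rw [mem_Ico] at hk
    have h1 : (K0 : ℝ) ≤ k := by exact_mod_cast hk.1
    have h2 : (k : ℝ) ≤ 2 * K0 := by exact_mod_cast hk.2.le
    constructor <;> linarith
  have hone : ∀ k ∈ Ico K0 (2 * K0), den (HS al be j) A ≤
      1 / Real.sqrt K0 * ∑ T ∈ Icc (lo k) (hi k), den (HS al be (nx al be j (k, T))) (sc A (k, T)) + C / t := by
    intro k hk
    obtain ⟨k1, k2⟩ := hkb k hk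
    have h1 := (hharm A hA ht k k1 k2 j).1
    rw [sum_WK k (fun T => den (HS al be (j - al * k - be * (T : ℕ))) (A * 3 ^ k / 2 ^ T))] at h1
    refine h1.trans (add_le_add_left ?_ _)
    rw [mul_sum]
    apply sum_le_sum
    intro T hT
    rw [mem_Icc] at hT
    rw [mem_Ico] at hk
    have hk1 : 1 ≤ k := by
      have : (0 : ℝ) < k := by linarith
      exact_mod_cast this
    have h2 := pk_upper hk1 hT.1 hT.2
    have h3 : 1 / Real.sqrt k ≤ 1 / Real.sqrt K0 := by
      apply one_div_le_one_div_of_le (Real.sqrt_pos.2 hK0pos)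
      apply Real.sqrt_le_sqrt
      exact_mod_cast hk.1
    exact mul_le_mul_of_nonneg_right (h2.trans h3) (den_nonneg _ (by positivity))
  have hsum := sum_le_sum hone
  rw [sum_const, Nat.card_Ico, show 2 * K0 - K0 = K0 by omega, nsmul_eq_mul, sum_add_distrib, sum_const,
    Nat.card_Ico, show 2 * K0 - K0 = K0 by omega, nsmul_eq_mul, ← mul_sum] at hsum
  -- the double sum
  obtain ⟨E, hE⟩ : ∃ E : ℕ, E = Nat.log 2 ⌊A⌋₊ + 1 := ⟨_, rfl⟩
  have hA1 : 1 ≤ A := by
    rw [← Real.log_nonneg_iff hA]; linarith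
  have hdbl : ∑ k ∈ Ico K0 (2 * K0), ∑ T ∈ Icc (lo k) (hi k),
      den (HS al be (nx al be j (k, T))) (sc A (k, T)) ≤ 5 * E := by
    have e1 : ∑ k ∈ Ico K0 (2 * K0), ∑ T ∈ Icc (lo k) (hi k),
        den (HS al be (nx al be j (k, T))) (sc A (k, T)) =
        ∑ p ∈ ((Ico K0 (2 * K0)).sigma fun k => Icc (lo k) (hi k)).image (fun q => (q.1, q.2)),
          den (HS al be (nx al be j p)) (sc A p) := by
      rw [sum_image]
      · rw [sum_sigma]
      · rintro ⟨a, b⟩ _ ⟨c, d⟩ _ heq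
        simp only [Prod.mk.injEq] at heq
        obtain ⟨rfl, rfl⟩ := heq
        rfl
    rw [e1]
    apply big_sum h j hA
    intro p hp
    rw [mem_image] at hp
    obtain ⟨⟨k, T⟩, hq, rfl⟩ := hp
    rw [mem_sigma, mem_Icc] at hq
    obtain ⟨b1, b2⟩ := sc_bd hA ht (hkb k hq.1).2 hq.2.1 hq.2.2
    refine ⟨b1, ?_⟩
    rw [hE]
    unfold ef sc
    have h5 : ⌊A * 3 ^ k / 2 ^ T⌋₊ ≤ ⌊A⌋₊ := Nat.floor_le_floor b2
    have := Nat.log_mono_right (b := 2) h5
    exact Nat.lt_succ_of_le this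
  have hEt : (E : ℝ) ≤ 2 * t := by
    have h1 := (ef_spec hA1).1
    unfold ef at h1
    have h2 : (Nat.log 2 ⌊A⌋₊ : ℝ) * Real.log 2 ≤ t := by
      rw [← Real.log_pow, htdef]
      exact Real.log_le_log (by positivity) h1
    have h3 := Real.log_two_gt_d9
    rw [hE]
    push_cast
    nlinarith
  set s := Real.sqrt K0 with hs
  have hs0 : 0 < s := Real.sqrt_pos.2 hK0pos
  have hss : s ^ 2 = K0 := Real.sq_sqrt hK0pos.le
  set r := Real.sqrt t with hr
  have hr0 : 0 < r := Real.sqrt_pos.2 ht0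
  have hrr : r ^ 2 = t := Real.sq_sqrt ht0.le
  have hsr : r ≤ 12 / 5 * s := by
    apply Real.sqrt_le_iff.2
    refine ⟨by positivity, ?_⟩
    rw [mul_pow, hss]
    linarith
  have h1 : (K0 : ℝ) * den (HS al be j) A ≤ 1 / s * (5 * (2 * t)) + K0 * (C / t) := by
    refine hsum.trans (add_le_add_left ?_ _)
    apply mul_le_mul_of_nonneg_left _ (by positivity)
    exact hdbl.trans (by linarith)
  have h2 : den (HS al be j) A ≤ 10 * t / (K0 * s) + C / t := by
    have h3 : (K0 : ℝ) * (10 * t / (K0 * s) + C / t) = 1 / s * (5 * (2 * t)) + K0 * (C / t) := by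
      field_simp
      ring
    rw [← h3] at h1
    exact le_of_mul_le_mul_left h1 hK0pos
  refine h2.trans ?_
  have h4 : 10 * t / (K0 * s) ≤ 120 / r := by
    rw [div_le_div_iff₀ (by positivity) hr0]
    have h5 : 10 * t * r ≤ 10 * (5 * K0) * (12 / 5 * s) := by
      apply mul_le_mul _ hsr hr0.le (by positivity)
      linarith
    linarith
  have h5 : C / t ≤ C / r := by
    apply div_le_div_of_nonneg_left hC.le hr0
    have : 1 ≤ r := by
      apply Real.le_sqrt_of_sq_le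
      linarith
    nlinarith
  have h6 : (120 + C) / r = 120 / r + C / r := by ring
  rw [h6]
  linarith

end Pool.Agent.TH977.LL
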